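import Pool.Agent.W_fb73a4_h51.GDefs

/-!
MP_fb73a4_co [T7] GA: `far` (symmetry, monotonicity) and a new edge: the class `C7` and the lower
bounds for distances.
-/

set_option autoImplicit false

namespace Pool.Agent.W_fb73a4_h51

open Finset
open scoped Classical
open Pool.Agent.W_fb73a4_h20

variable {V : Type}

theorem GA_rev {H : SimpleGraph V} {m : ℕ} {y : ℕ → V} (hy : IsPathN H m y) :
    IsPathN H m (fun i => y (m - i)) where
  adj i hi := by
    have h := hy.adj (m - (i + 1)) (by omega)
    have e : m - (i + 1) + 1 = m - i := by omega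
    rw [e] at h
    exact h.symm
  inj i j hi hj h := by
    have := hy.inj _ _ (Nat.sub_le m i) (Nat.sub_le m j) h
    omega

theorem GA_adj {H : SimpleGraph V} {a b u v : V} (h : (addE H a b).Adj u v) (hn : ¬ H.Adj u v) :
    a ≠ b ∧ ((u = a ∧ v = b) ∨ (u = b ∧ v = a)) := by
  rcases h with h | h
  · exact absurd h hn
  · exact h

/-- two steps which are both the pair `{a, b}` -/
theorem GA_pair {H : SimpleGraph V} {a b u v u' v' : V} (h : (addE H a b).Adj u v)
    (hn : ¬ H.Adj u v) (h' : (addE H a b).Adj u' v') (hn' : ¬ H.Adj u' v') :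
    (u = u' ∧ v = v') ∨ (u = v' ∧ v = u') := by
  obtain ⟨-, h1⟩ := GA_adj h hn
  obtain ⟨-, h2⟩ := GA_adj h' hn'
  rcases h1 with ⟨rfl, rfl⟩ | ⟨rfl, rfl⟩ <;> rcases h2 with ⟨rfl, rfl⟩ | ⟨rfl, rfl⟩ <;> simp

/-- a path of the graph with the new edge is a path of `H` or is broken at one step -/
theorem GA_break {H : SimpleGraph V} {a b : V} {m : ℕ} {z : ℕ → V} (hz : IsPathN (addE H a b) m z) :
    IsPathN H m z ∨ ∃ i < m, ((z i = a ∧ z (i + 1) = b) ∨ (z i = b ∧ z (i + 1) = a)) ∧
      IsPathN H i z ∧ IsPathN H (m - (i + 1)) (fun k => z (i + 1 + k)) := by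
  by_cases hall : ∀ i < m, H.Adj (z i) (z (i + 1))
  · exact Or.inl ⟨hall, hz.inj⟩
  · push Not at hall
    obtain ⟨i, hi, hbad⟩ := hall
    have hother : ∀ j < m, j ≠ i → H.Adj (z j) (z (j + 1)) := by
      intro j hj hji
      by_contra hbj
      rcases GA_pair (hz.adj j hj) hbj (hz.adj i hi) hbad with ⟨h1, -⟩ | ⟨h1, h2⟩
      · exact hji (hz.inj j i hj.le hi.le h1)
      · have e1 := hz.inj j (i + 1) hj.le hi h1
        have e2 := hz.inj (j + 1) i hj hi.le h2
        omega
    refine Or.inr ⟨i, hi, (GA_adj (hz.adj i hi) hbad).2, ?_, ?_⟩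
    · exact ⟨fun j hj => hother j (by omega) (by omega),
        fun j k hj hk => hz.inj j k (by omega) (by omega)⟩
    · refine ⟨fun j hj => ?_, fun j k hj hk h => ?_⟩
      · have := hother (i + 1 + j) (by omega) (by omega)
        rw [add_assoc (i + 1) j 1] at this
        exact this
      · have := hz.inj (i + 1 + j) (i + 1 + k) (by omega) (by omega) h
        omega

/-- a cycle with the new edge is long -/
theorem GA_long {H : SimpleGraph V} {a b : V} (h : far H a b 7) {n : ℕ} {x : ZMod n → V}
    (hx : IsCycSeq (addE H a b) x) (hbad : ∃ j, ¬ H.Adj (x j) (x (j + 1))) : 8 ≤ n := by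
  obtain ⟨j, hj⟩ := hbad
  have h3 := hx.three
  have hother : ∀ k, k ≠ j → H.Adj (x k) (x (k + 1)) := by
    intro k hk
    by_contra hbk
    rcases GA_pair (hx.adj k) hbk (hx.adj j) hj with ⟨h1, -⟩ | ⟨h1, h2⟩
    · exact hk (hx.inj h1)
    · have e1 := hx.inj h1
      have e2 := hx.inj h2
      have e3 : ((2 : ℕ) : ZMod n) = ((0 : ℕ) : ZMod n) := by
        push_cast
        have : k + 1 + 1 = k := by
          calc k + 1 + 1 = j + 1 := by rw [e2]
            _ = k := e1.symm
        linear_combination this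
      rw [ZMod.natCast_eq_natCast_iff'] at e3
      rw [Nat.mod_eq_of_lt (by omega), Nat.mod_eq_of_lt (by omega)] at e3
      omega
  have hinj : ∀ i k : ℕ, i ≤ n - 1 → k ≤ n - 1 → x (j + 1 + i) = x (j + 1 + k) → i = k := by
    intro i k hi hk he
    have e1 := add_left_cancel (hx.inj he)
    rw [ZMod.natCast_eq_natCast_iff', Nat.mod_eq_of_lt (by omega), Nat.mod_eq_of_lt (by omega)] at e1
    exact e1
  have hcast : ((n - 1 : ℕ) : ZMod n) = -1 := by
    have : ((n - 1 + 1 : ℕ) : ZMod n) = 0 := by
      rw [Nat.sub_add_cancel (by omega), ZMod.natCast_self]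
    push_cast at this
    linear_combination this
  have hp : IsPathN H (n - 1) (fun i : ℕ => x (j + 1 + (i : ZMod n))) := by
    refine ⟨fun i hi => ?_, hinj⟩
    have e1 : j + 1 + ((i + 1 : ℕ) : ZMod n) = j + 1 + (i : ZMod n) + 1 := by push_cast; ring
    have e2 : j + 1 + (i : ZMod n) ≠ j := by
      intro he
      have e3 : ((i + 1 : ℕ) : ZMod n) = ((0 : ℕ) : ZMod n) := by
        push_cast
        linear_combination he
      rw [ZMod.natCast_eq_natCast_iff', Nat.mod_eq_of_lt (by omega), Nat.mod_eq_of_lt (by omega)] at e3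
      omega
    have := hother _ e2
    rw [← e1] at this
    exact this
  have h0 : x (j + 1 + ((0 : ℕ) : ZMod n)) = x (j + 1) := by simp
  have h1 : x (j + 1 + ((n - 1 : ℕ) : ZMod n)) = x j := by rw [hcast]; simp
  rcases (GA_adj (hx.adj j) hj).2 with ⟨e1, e2⟩ | ⟨e1, e2⟩
  · have := h (n - 1) _ (GA_rev hp) (by simp only [Nat.sub_zero]; rw [h1, e1])
      (by simp only [Nat.sub_self]; rw [h0, e2])
    omega
  · have := h (n - 1) _ hp (h0.trans e2) (h1.trans e1)
    omega

/-- reverse the path: `IsPathN H m (fun i => y (m - i))` (helper20 has `IsPathN.rev` in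
`W_fb73a4_h20.MX/MY`, same statement) -/
theorem far_symm {H : SimpleGraph V} {a b : V} {n : ℕ} (h : far H a b n) : far H b a n := by
  intro m y hy h0 hm
  exact h m _ (GA_rev hy) (by simpa using hm) (by simpa using h0)

/-- immediate -/
theorem far_mono {H : SimpleGraph V} {a b : V} {n k : ℕ} (h : far H a b n) (hk : k ≤ n) :
    far H a b k :=
  fun m y hy h0 hm => hk.trans (h m y hy h0 hm)

/-- a path of a subgraph is a path of the graph -/
theorem far_anti {H H' : SimpleGraph V} (hH : H' ≤ H) {a b : V} {n : ℕ} (h : far H a b n) :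
    far H' a b n := by
  intro m y hy h0 hm
  exact h m y ⟨fun i hi => hH (hy.adj i hi), hy.inj⟩ h0 hm

/-- the path of length 0 -/
theorem far_ne {H : SimpleGraph V} {a b : V} {n : ℕ} (h : far H a b n) (hn : 1 ≤ n) : a ≠ b := by
  rintro rfl
  have := h 0 (fun _ => a) ⟨fun i hi => by omega, fun i j hi hj _ => by omega⟩ rfl rfl
  omega

/-- the path of length 1 -/
theorem far_nadj {H : SimpleGraph V} {a b : V} {n : ℕ} (h : far H a b n) (hn : 2 ≤ n) :
    ¬ H.Adj a b := by
  intro hadj
  have hne := H.ne_of_adj hadj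
  have := h 1 (fun i => if i = 0 then a else b) ⟨fun i hi => ?_, fun i j hi hj he => ?_⟩
    (by simp) (by simp)
  · omega
  · have : i = 0 := by omega
    subst this
    simpa using hadj
  · by_cases hi0 : i = 0 <;> by_cases hj0 : j = 0
    · omega
    · simp [hi0, hj0, hne] at he
    · simp [hi0, hj0, hne.symm] at he
    · omega

/-- Let `z 0, ..., z m` be a path of `addE H a b` from `x` to `y`. If no step is the pair `{a, b}`, it
is a path of `H`, so `k ≤ n ≤ m`. Otherwise exactly one step `z i, z (i+1)` is the pair (the vertices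
of the path are distinct, so `a` and `b` occur only once), say `z i = a`, `z (i+1) = b`: then
`z 0 ... z i` is a path of `H` from `x` to `a`, `n1 ≤ i`, and `z (i+1) ... z m` is a path of `H` from
`b` to `y`, `n2 ≤ m - i - 1`, so `k ≤ n1 + 1 + n2 ≤ m`. The case `z i = b`, `z (i+1) = a` is the
same with `n3`, `n4`. -/
theorem far_addE {H : SimpleGraph V} {a b x y : V} {k n n1 n2 n3 n4 : ℕ} (h : far H x y n)
    (h1 : far H x a n1) (h2 : far H b y n2) (h3 : far H x b n3) (h4 : far H a y n4)
    (hk : k ≤ n) (hk1 : k ≤ n1 + 1 + n2) (hk2 : k ≤ n3 + 1 + n4) : far (addE H a b) x y k := by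
  intro m z hz hz0 hzm
  rcases GA_break hz with hp | ⟨i, hi, ⟨e1, e2⟩ | ⟨e1, e2⟩, hp1, hp2⟩
  · exact hk.trans (h m z hp hz0 hzm)
  · have g1 := h1 i z hp1 hz0 e1
    have g2 := h2 _ _ hp2 (by simpa using e2)
      (by rw [show i + 1 + (m - (i + 1)) = m by omega]; exact hzm)
    omega
  · have g1 := h3 i z hp1 hz0 e1
    have g2 := h4 _ _ hp2 (by simpa using e2)
      (by rw [show i + 1 + (m - (i + 1)) = m by omega]; exact hzm)
    omega

/-- A cycle of `addE H a b` of length `n` which is not a cycle of `H` uses the new edge `a b` (for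
some `j`, `{x j, x (j+1)} = {a, b}`, and only for this `j`); the rest of the cycle is a path of `H`
of length `n - 1` from `b` to `a` (or from `a` to `b`), so `7 ≤ n - 1`, `8 ≤ n`. So every cycle of
`addE H a b` of length at most 7 is a cycle of `H`: this gives `no456`. For `no73`: the 7-cycle is a
cycle of `H`; if the triangle `x j, x (j+1), t` is in `H` we have a contradiction with `H`, otherwise
`x j, x (j+1), t` is a cycle of length 3 of `addE H a b` which is not a cycle of `H`, impossible. -/
theorem C7_addE {H : SimpleGraph V} (hH : C7 H) {a b : V} (h : far H a b 7) : C7 (addE H a b) := by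
  constructor
  · intro n x hx
    by_cases hall : ∀ j, H.Adj (x j) (x (j + 1))
    · exact hH.no456 n x ⟨hx.three, hx.inj, hall⟩
    · push Not at hall
      have := GA_long h hx hall
      omega
  · intro x hx j t h1 h2
    have hall : ∀ j, H.Adj (x j) (x (j + 1)) := by
      by_contra hc
      push Not at hc
      have := GA_long h hx hc
      omega
    by_cases hg : H.Adj (x j) t ∧ H.Adj (x (j + 1)) t
    · exact hH.no73 x ⟨hx.three, hx.inj, hall⟩ j t hg.1 hg.2
    · have h0 := hx.adj j
      have n0 := (addE H a b).ne_of_adj h0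
      have n1 := (addE H a b).ne_of_adj h1
      have n2 := (addE H a b).ne_of_adj h2
      have hw : IsCycSeq (addE H a b) (n := 3) (![x j, x (j + 1), t] : Fin 3 → V) := by
        refine ⟨le_rfl, ?_, ?_⟩
        · intro u v huv
          change Fin 3 at u v
          fin_cases u <;> fin_cases v <;> simp_all
        · intro u
          change Fin 3 at u
          fin_cases u
          · exact h0
          · exact h2
          · exact h1.symm
      have := GA_long h hw ?_
      · omega
      · by_contra hc
        push Not at hc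
        exact hg ⟨(hc (2 : Fin 3)).symm, hc (1 : Fin 3)⟩

end Pool.Agent.W_fb73a4_h51
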