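import Pool.Agent.W_fb73a4_h20.MZ

/-!
MP_fb73a4_co [T7] (helper51). Graph operations used by the cluster theorem: the class of graphs, new
edges, lower bounds for distances, and the statement that MacLane's criterion is closed under minors.
The definitions `EV`, `IsCyc`, `MacLane`, `IsCycSeq`, `IsPathN`, `ident`, `del` are those of
`Pool.Agent.W_fb73a4_h20.Defs`.
-/

set_option autoImplicit false

namespace Pool.Agent.W_fb73a4_h51

open Finset
open scoped Classical
open Pool.Agent.W_fb73a4_h20

/-- the class of the theorem (without planarity): no cycles of length 4, 5, 6; no 7-cycle has an edge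
in a triangle -/
structure C7 {V : Type} (G : SimpleGraph V) : Prop where
  no456 : ∀ (n : ℕ) (x : ZMod n → V), IsCycSeq G x → n ≠ 4 ∧ n ≠ 5 ∧ n ≠ 6
  no73 : ∀ (x : ZMod 7 → V), IsCycSeq G x → ∀ j t, G.Adj (x j) t → G.Adj (x (j + 1)) t → False

/-- every path of `H` from `a` to `b` has length at least `n` (in particular `a ≠ b` if `1 ≤ n`) -/
def far {V : Type} (H : SimpleGraph V) (a b : V) (n : ℕ) : Prop :=
  ∀ (m : ℕ) (y : ℕ → V), IsPathN H m y → y 0 = a → y m = b → n ≤ m

/-- `H` with the new edge `a b` (nothing new if `a = b`) -/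
def addE {V : Type} (H : SimpleGraph V) (a b : V) : SimpleGraph V where
  Adj u v := H.Adj u v ∨ (a ≠ b ∧ ((u = a ∧ v = b) ∨ (u = b ∧ v = a)))
  symm := ⟨by
    intro u v h
    rcases h with h | ⟨h, ⟨h1, h2⟩ | ⟨h1, h2⟩⟩
    · exact Or.inl h.symm
    · exact Or.inr ⟨h, Or.inr ⟨h2, h1⟩⟩
    · exact Or.inr ⟨h, Or.inl ⟨h2, h1⟩⟩⟩
  loopless := ⟨by
    intro u h
    rcases h with h | ⟨h, ⟨h1, h2⟩ | ⟨h1, h2⟩⟩
    · exact H.loopless.irrefl u h
    · exact h (h1.symm.trans h2)
    · exact h (h2.symm.trans h1)⟩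

/-- the map which sends `q` to `p` and fixes the rest -/
noncomputable def mv {V : Type} (p q v : V) : V := if v = q then p else v

end Pool.Agent.W_fb73a4_h51
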