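import Pool.Agent.W_fb73a4_h51.CStat
import Pool.Agent.W_fb73a4_h51.GA
import Pool.Agent.W_fb73a4_h57.TE

/-!
MP_fb73a4_co [T7] (helper51). CLUSTERS: definitions used in the soundness proof of the check.
-/

set_option autoImplicit false

namespace Pool.Agent.W_fb73a4_h51

open Finset
open scoped Classical
open Pool.Agent.W_fb73a4_h20
open Pool.Agent.W_fb73a4_t7 (Conf Occ OM Env)
open Pool.Agent.W_fb73a4_h57 (P3 I3 kill Zr mops opl)

/-- the data are well formed (the meaning of `wf c nV = true`) -/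
structure WF (c : Conf) (nV : ℕ) : Prop where
  lrot : c.rot.length = c.nD
  ltri : c.tri.length = c.nD
  le : c.nD ≤ nV
  nd : ∀ i < c.nD, (c.rot.getD i []).Nodup
  deg : ∀ i < c.nD, 3 ≤ (c.rot.getD i []).length ∧ (c.rot.getD i []).length ≤ 4
  lti : ∀ i < c.nD, (c.tri.getD i []).length = (c.rot.getD i []).length
  lt : ∀ i < c.nD, ∀ j ∈ c.rot.getD i [], j < nV ∧ (c.nD ≤ j ∨ i ∈ c.rot.getD j [])
  lng : ∀ t ∈ c.long, t.1 < c.nD ∧ t.2.1 < (c.rot.getD t.1 []).length

/-- the set of the vertices of `D` -/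
def DS {V : Type} (φ : ℕ → V) (c : Conf) : Set V := {v | ∃ i < c.nD, φ i = v}

/-- a path of ids with `n` edges, inner vertices in `D`, without triangle corners -/
structure PathF (c : Conf) (n : ℕ) (p : ℕ → ℕ) : Prop where
  edge : ∀ i < n, mem (p i) (nbl c (p (i + 1))) = true ∨ mem (p (i + 1)) (nbl c (p i)) = true
  inner : ∀ i, 1 ≤ i → i < n → mem (p (i - 1)) (nbl c (p i)) = true ∧
    mem (p (i + 1)) (nbl c (p i)) = true ∧ p (i - 1) ≠ p (i + 1) ∧
      triP c (p i) (p (i - 1)) (p (i + 1)) = false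

/-- the new edges of a list, one after the other -/
def addL {V : Type} (φ : ℕ → V) : List (ℕ × ℕ) → SimpleGraph V → SimpleGraph V
  | [], H => H
  | e :: l, H => addL φ l (addE H (φ e.1) (φ e.2))

/-- kept vertex of a merge: the one in `C`, if there is one -/
noncomputable def mK {V : Type} (C : Finset V) (ψ : ℕ → V) (e : ℕ × ℕ) : V :=
  if ψ e.2 ∈ C then ψ e.2 else ψ e.1

/-- removed vertex of a merge -/
noncomputable def mR {V : Type} (C : Finset V) (ψ : ℕ → V) (e : ℕ × ℕ) : V :=
  if ψ e.2 ∈ C then ψ e.1 else ψ e.2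

/-- the merges, one after the other -/
noncomputable def mrun {V : Type} (C : Finset V) : List (ℕ × ℕ) → (ℕ → V) → SimpleGraph V →
    SimpleGraph V
  | [], _, H => H
  | e :: l, ψ, H => mrun C l (fun i => mv (mK C ψ e) (mR C ψ e) (ψ i)) (ident H (mK C ψ e) (mR C ψ e))

/-- the state during the operations: `x` = outer cycle, `C` = its vertices, `H` = current graph, `ψ` =
current names, `T` = table, `l` = remaining operations -/
structure St {V : Type} [Fintype V] {m : ℕ} (x : ZMod m → V) (C : Finset V) (H : SimpleGraph V)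
    (ψ : ℕ → V) (T : List (ℕ × ℕ × ℕ)) (l : List (Bool × ℕ × ℕ)) : Prop where
  c7 : C7 H
  tab : ∀ e ∈ T, far H (ψ e.1) (ψ e.2.1) e.2.2
  cyc : ∀ j, H.Adj (x j) (x (j + 1))
  alg : Zr (mops ψ l) H C

/-- `H` is a minor of `G` with the fibres of `f` (hypotheses of `maclane_minor`) -/
structure Mi {V : Type} (G H : SimpleGraph V) (f : V → Option V) : Prop where
  conn : ∀ u v a, f u = some a → f v = some a →
    Relation.ReflTransGen (fun p q => G.Adj p q ∧ f p = some a ∧ f q = some a) u v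
  edge : ∀ a b, H.Adj a b → ∃ u v, f u = some a ∧ f v = some b ∧ G.Adj u v

end Pool.Agent.W_fb73a4_h51
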