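import Pool.Agent.W_fb73a4_t7.Defs

/-!
MP_fb73a4_co [T7] (helper51). CLUSTERS: static part (computable, no graph). Ids are natural numbers;
`0, ..., nD - 1` are the vertices of `D`, the others (`< nV`) the outer neighbours. `rot` as in `Conf`:
the corner `k` of `i` lies between `rot i [k]` and `rot i [k + 1]` (cyclically), and the face to the
left of the dart from `rot i [k]` to `i` continues with `rot i [k + 1]`.
-/

set_option autoImplicit false

namespace Pool.Agent.W_fb73a4_h51

open Pool.Agent.W_fb73a4_t7 (Conf)

/-- a certificate for a configuration (`Conf`, in `W_fb73a4_t7.Defs`): `nV` = number of ids, `dst` = `D`-paths which separate pairs of ids, `spc` = longer ones with the index of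
an edge, `tab` = entries of the distance table (path, index of an edge, lower bound), then the new
triangles, new edges, merges, and the branch sets (vertex, image, parent) -/
structure Ct where
  nV : ℕ
  dst : List (List ℕ)
  spc : List (List ℕ × ℕ)
  tab : List (List ℕ × ℕ × ℕ)
  tris : List (ℕ × ℕ × ℕ)
  news : List (ℕ × ℕ)
  mgs : List (ℕ × ℕ)
  br : List (ℕ × ℕ × ℕ)

/-- membership in a list of natural numbers -/
def mem (x : ℕ) : List ℕ → Bool
  | [] => false
  | a :: l => Nat.beq a x || mem x l

/-- no repetitions -/
def nodupB : List ℕ → Bool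
  | [] => true
  | a :: l => !(mem a l) && nodupB l

/-- auxiliary function for `aft` -/
def aftA (x h : ℕ) : List ℕ → ℕ
  | [] => h
  | [_] => h
  | a :: b :: l => bif Nat.beq a x then b else aftA x h (b :: l)

/-- the element after `x` in the cyclic list -/
def aft (x : ℕ) : List ℕ → ℕ
  | [] => x
  | h :: t => aftA x h (h :: t)

/-- the element before `x` in the cyclic list -/
def bef (x : ℕ) (l : List ℕ) : ℕ := aft x l.reverse

/-- neighbour list of an id -/
def nbl (c : Conf) (i : ℕ) : List ℕ := bif Nat.blt i c.nD then c.rot.getD i [] else []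

/-- is the corner of `i` between `a` and the next neighbour a triangle (first element of the pairs) -/
def triA (a : ℕ) : List ℕ → List Bool → Bool
  | x :: l, t :: s => (Nat.beq x a && t) || triA a l s
  | _, _ => false

/-- the corner of `i` which starts at the neighbour `a` is a triangle -/
def triC (c : Conf) (i a : ℕ) : Bool := triA a (nbl c i) (c.tri.getD i [])

/-- `a`, `b` are neighbours of `i < nD` and a triangle corner lies between them -/
def triP (c : Conf) (i a b : ℕ) : Bool :=
  (triC c i a && Nat.beq (aft a (nbl c i)) b) || (triC c i b && Nat.beq (aft b (nbl c i)) a)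

/-- the edge from `i < nD` to its neighbour `a` lies in a triangle: a corner at one of its sides -/
def triE (c : Conf) (i a : ℕ) : Bool := mem a (nbl c i) && (triC c i a || triC c i (bef a (nbl c i)))

/-- inner step `a, x, b` of a path: `x < nD`, `a`, `b` different neighbours, no triangle between -/
def stepOk (c : Conf) (a x b : ℕ) : Bool :=
  mem a (nbl c x) && mem b (nbl c x) && !(Nat.beq a b) && !(triP c x a b)

/-- a path whose inner vertices are in `D`, without triangle corners; at least one edge -/
def pathOk (c : Conf) : List ℕ → Bool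
  | a :: b :: l =>
    match l with
    | [] => mem b (nbl c a) || mem a (nbl c b)
    | d :: _ => stepOk c a b d && pathOk c (b :: l)
  | _ => false

/-- some edge of the path lies in a triangle -/
def hasT (c : Conf) : List ℕ → Bool
  | a :: b :: l => triE c a b || triE c b a || hasT c (b :: l)
  | _ => false

/-- following the face to the left of the dart `a, b` forwards, as long as the current vertex is in
`D` -/
def fwd (c : Conf) : ℕ → ℕ → ℕ → List ℕ
  | 0, _, _ => []
  | n + 1, a, b => bif mem a (nbl c b) then aft a (nbl c b) :: fwd c n b (aft a (nbl c b)) else []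

/-- following it backwards -/
def bwd (c : Conf) : ℕ → ℕ → ℕ → List ℕ
  | 0, _, _ => []
  | n + 1, a, b => bif mem b (nbl c a) then bef b (nbl c a) :: bwd c n (bef b (nbl c a)) a else []

/-- ids on the face to the left of the dart `a, b` -/
def fac (c : Conf) (a b : ℕ) : List ℕ := fwd c 12 a b ++ bwd c 12 a b

/-- known lower bound for the number of vertices of the face to the left of the dart `a, b` -/
def lngA (c : Conf) (a b : ℕ) : List (ℕ × ℕ × ℕ) → ℕ
  | [] => 0
  | e :: l => max (lngA c a b l)
      (bif (Nat.beq e.1 b && Nat.beq ((nbl c e.1).getD e.2.1 0) a) ||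
          (Nat.beq e.1 a && Nat.beq (aft ((nbl c e.1).getD e.2.1 0) (nbl c e.1)) b) then e.2.2 else 0)

/-- the same for the cluster -/
def lng (c : Conf) (a b : ℕ) : ℕ := bif (mem a (nbl c b) || mem b (nbl c a)) then lngA c a b c.long else 0

/-- bit number `i` of `K` -/
def bit (K i : ℕ) : Bool := Nat.beq (Nat.land (Nat.shiftRight K i) 1) 1

/-- insertion of the pair `(x, y)` into the set of pairs of ids known to be different (bit number
`32 x + y`) -/
def ins (K x y : ℕ) : ℕ := bif Nat.blt y 32 then Nat.lor K (Nat.shiftLeft 1 (Nat.add (Nat.mul 32 x) y)) else K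

/-- the pair `(x, y)` is known to be different -/
def kn (K x y : ℕ) : Bool :=
  (Nat.blt y 32 && bit K (Nat.add (Nat.mul 32 x) y)) || (Nat.blt x 32 && bit K (Nat.add (Nat.mul 32 y) x))

/-- all pairs of different elements of the list are known to be different -/
def knAll (K : ℕ) : List ℕ → Bool
  | [] => true
  | a :: l => l.all (fun b => kn K a b) && knAll K l

/-- some id of the list `f` is known to be different from all ids in `p` -/
def blk (K : ℕ) (p f : List ℕ) : Bool :=
  f.any fun w => p.all fun z => kn K w z

/-- the closed walk obtained from the path `p` (its ends have the same image) is impossible: short, or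
both faces at the edge number `e` contain a vertex off the walk -/
def closedOk (c : Conf) (K : ℕ) (p : List ℕ) (e : ℕ) : Bool :=
  pathOk c p && (Nat.ble p.length 7 || (Nat.beq p.length 8 && hasT c p) ||
    (Nat.ble p.length 12 && Nat.ble (e + 2) p.length && knAll K p.dropLast &&
      blk K p.dropLast (fac c (p.getD e 0) (p.getD (e + 1) 0)) &&
      blk K p.dropLast (fac c (p.getD (e + 1) 0) (p.getD e 0))))

/-- the known pairs, step by step; an entry which fails contributes nothing -/
def dstRun (c : Conf) : List (List ℕ × ℕ) → ℕ → ℕ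
  | [], K => K
  | e :: l, K => dstRun c l (bif closedOk c K e.1 e.2 then ins K (e.1.headD 0) (e.1.getLastD 0) else K)

/-- all pairs `i < nD`, `j < nV`, `i ≠ j` are known -/
def dstAll (c : Conf) (nV K : ℕ) : Bool :=
  (List.range c.nD).all fun i => (List.range nV).all fun j => Nat.beq i j || kn K i j

/-- table: list of (id, id, lower bound) -/
def gt (T : List (ℕ × ℕ × ℕ)) (x y : ℕ) : ℕ :=
  match T with
  | [] => 0
  | e :: l => max (gt l x y)
      (bif (Nat.beq e.1 x && Nat.beq e.2.1 y) || (Nat.beq e.1 y && Nat.beq e.2.1 x) then e.2.2 else 0)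

/-- lower bound for the outside path if all vertices of the face (list `f`) are on the cycle: `p` is the
`D`-path -/
def sideV (c : Conf) (T : List (ℕ × ℕ × ℕ)) (p f : List ℕ) : ℕ :=
  bif f.any (fun w => Nat.blt w c.nD && !(mem w p)) then 99
  else f.foldr (fun t m => max m (bif Nat.blt t c.nD then 0 else gt T (p.headD 0) t + gt T t (p.getLastD 0))) 0

/-- lower bound given by the entry (path `p`, edge number `e`); `s` = number of edges -/
def entV (c : Conf) (T : List (ℕ × ℕ × ℕ)) (p : List ℕ) (e : ℕ) : ℕ :=
  let s := p.length - 1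
  max ((bif hasT c p then 8 else 7) - s)
    (min (12 - s)
      (min (max (sideV c T p (fac c (p.getD e 0) (p.getD (e + 1) 0))) (lng c (p.getD e 0) (p.getD (e + 1) 0) - s))
        (max (sideV c T p (fac c (p.getD (e + 1) 0) (p.getD e 0))) (lng c (p.getD (e + 1) 0) (p.getD e 0) - s))))

/-- an entry: both ends are outer ids, the path is good, the claimed bound is correct -/
def entOk (c : Conf) (T : List (ℕ × ℕ × ℕ)) (e : List ℕ × ℕ × ℕ) : Bool :=
  pathOk c e.1 && nodupB e.1 && Nat.ble 3 e.1.length && Nat.ble e.1.length 12 && Nat.ble c.nD (e.1.headD 0) &&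
    Nat.ble c.nD (e.1.getLastD 0) && Nat.ble (e.2.1 + 2) e.1.length && Nat.ble e.2.2 (entV c T e.1 e.2.1)

/-- the distance table -/
def tabRun (c : Conf) : List (List ℕ × ℕ × ℕ) → List (ℕ × ℕ × ℕ) → List (ℕ × ℕ × ℕ)
  | [], T => T
  | e :: l, T => tabRun c l (bif entOk c T e then (e.1.headD 0, e.1.getLastD 0, e.2.2) :: T else T)

/-- the reused vertices: ids `< nD` in the new edges -/
def reu (c : Conf) (t : Ct) : List ℕ :=
  (t.tris.flatMap (fun e => [e.1, e.2.1, e.2.2]) ++ t.news.flatMap (fun e => [e.1, e.2])).filter
    (fun i => Nat.blt i c.nD)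

/-- first table: the computed one, and 99 between a reused vertex and every other id -/
def tab0 (c : Conf) (t : Ct) : List (ℕ × ℕ × ℕ) :=
  tabRun c t.tab [] ++
    (reu c t).flatMap fun i => ((List.range t.nV).filter (fun j => !(Nat.beq i j) && (Nat.ble c.nD j || mem j (reu c t)))).map
      fun j => (i, j, 99)

/-- update of the table after the new edge `a b` -/
def updE (T : List (ℕ × ℕ × ℕ)) (a b : ℕ) : List (ℕ × ℕ × ℕ) :=
  T.map fun e => (e.1, e.2.1, min e.2.2 (min (gt T e.1 a + 1 + gt T b e.2.1) (gt T e.1 b + 1 + gt T a e.2.1)))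

/-- update of the table after the identification of `a` and `b` -/
def updM (T : List (ℕ × ℕ × ℕ)) (a b : ℕ) : List (ℕ × ℕ × ℕ) :=
  T.map fun e => (e.1, e.2.1, min e.2.2 (min (gt T e.1 a + gt T b e.2.1) (gt T e.1 b + gt T a e.2.1)))

/-- the new triangles: check and table -/
def triRun : List (ℕ × ℕ × ℕ) → List (ℕ × ℕ × ℕ) → Option (List (ℕ × ℕ × ℕ))
  | [], T => some T
  | e :: l, T => bif Nat.ble 7 (gt T e.1 e.2.1) && Nat.ble 7 (gt T e.2.1 e.2.2) && Nat.ble 7 (gt T e.1 e.2.2) then
      triRun l (updE (updE (updE T e.1 e.2.1) e.2.1 e.2.2) e.1 e.2.2) else none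

/-- the new edges: check and table -/
def newRun : List (ℕ × ℕ) → List (ℕ × ℕ × ℕ) → Option (List (ℕ × ℕ × ℕ))
  | [], T => some T
  | e :: l, T => bif Nat.ble 7 (gt T e.1 e.2) then newRun l (updE T e.1 e.2) else none

/-- the merges: check and table -/
def mrgRun (c : Conf) : List (ℕ × ℕ) → List (ℕ × ℕ × ℕ) → Bool
  | [], _ => true
  | e :: l, T => Nat.ble c.nD e.1 && Nat.ble c.nD e.2 && Nat.ble 8 (gt T e.1 e.2) && mrgRun c l (updM T e.1 e.2)

/-- the class part of the gadget is correct -/
def opsOk (c : Conf) (t : Ct) : Bool :=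
  match triRun t.tris (tab0 c t) with
  | none => false
  | some T1 => match newRun t.news T1 with
    | none => false
    | some T2 => mrgRun c t.mgs T2

/-- image of an id under the branch sets (`none` if it is not used) -/
def img (c : Conf) (br : List (ℕ × ℕ × ℕ)) (i : ℕ) : Option ℕ :=
  bif Nat.ble c.nD i then some i else
    match br with
    | [] => none
    | e :: l => bif Nat.beq e.1 i then some e.2.1 else img c l i

/-- the branch sets: every vertex has a parent which comes before it (or is its image) -/
def brOk (c : Conf) : List (ℕ × ℕ × ℕ) → List (ℕ × ℕ × ℕ) → Bool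
  | [], _ => true
  | e :: l, old => Nat.blt e.1 c.nD && !(old.any fun o => Nat.beq o.1 e.1) && (Nat.beq e.1 e.2.1 || (mem e.2.2 (nbl c e.1) &&
      (Nat.beq e.2.2 e.2.1 || old.any (fun o => Nat.beq o.1 e.2.2 && Nat.beq o.2.1 e.2.1)))) &&
      brOk c l (e :: old)

/-- the edge with images `p`, `q` is realised by an edge at a vertex of `D` -/
def realE (c : Conf) (br : List (ℕ × ℕ × ℕ)) (p q : ℕ) : Bool :=
  (List.range c.nD).any fun i => (nbl c i).any fun j =>
    (img c br i == some p && img c br j == some q) || (img c br i == some q && img c br j == some p)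

/-- all new edges and merges are realised; images are outer ids or reused vertices -/
def minOk (c : Conf) (t : Ct) : Bool :=
  brOk c t.br [] &&
    t.br.all (fun e => Nat.ble c.nD e.2.1 || (img c t.br e.2.1 == some e.2.1)) &&
    t.tris.all (fun e => realE c t.br e.1 e.2.1 && realE c t.br e.2.1 e.2.2 && realE c t.br e.1 e.2.2) &&
    t.news.all (fun e => realE c t.br e.1 e.2) && t.mgs.all (fun e => realE c t.br e.1 e.2)

/-- the edges at the vertices of `D`, each once -/
def edL (c : Conf) : List (ℕ × ℕ) :=
  (List.range c.nD).flatMap fun i => ((nbl c i).filter fun j => Nat.ble c.nD j || Nat.blt i j).map fun j => (i, j)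

/-- all new edges -/
def nwL (t : Ct) : List (ℕ × ℕ) :=
  t.tris.flatMap (fun e => [(e.1, e.2.1), (e.2.1, e.2.2), (e.1, e.2.2)]) ++ t.news

/-- the data are well formed -/
def wf (c : Conf) (nV : ℕ) : Bool :=
  Nat.beq c.rot.length c.nD && Nat.beq c.tri.length c.nD && Nat.ble c.nD nV &&
    (List.range c.nD).all (fun i => nodupB (nbl c i) && Nat.ble 3 (nbl c i).length &&
      Nat.ble (nbl c i).length 4 && Nat.beq (c.tri.getD i []).length (nbl c i).length &&
      (nbl c i).all (fun j => Nat.blt j nV && (Nat.ble c.nD j || mem i (nbl c j)))) &&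
    c.long.all (fun e => Nat.blt e.1 c.nD && Nat.blt e.2.1 (nbl c e.1).length)

/-- the complete check (without the algebra) -/
def clOk (c : Conf) (t : Ct) : Bool :=
  wf c t.nV && dstAll c t.nV (dstRun c (t.dst.map (fun p => (p, 0)) ++ t.spc) 0) && opsOk c t && minOk c t &&
    Nat.blt (nwL t).length (edL c).length

end Pool.Agent.W_fb73a4_h51
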