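import Pool.Agent.W_fb73a4_t7.Defs

/-!
MP_fb73a4_co [T7]: the 19 reducible configurations (data: helper32, `h32_certs.json`).
Names: the json names.
-/

set_option autoImplicit false

namespace Pool.Agent.W_fb73a4_h51

open Pool.Agent.W_fb73a4_t7 (Conf)

def cl_TET : Conf where
  nD := 4
  rot := [[7, 6, 1], [0, 6, 2], [1, 5, 3], [2, 5, 4]]
  tri := [[false, true, false], [true, false, false], [false, true, false], [true, false, false]]
  long := []

def cl_B3 : Conf where
  nD := 4
  rot := [[7, 6, 1], [0, 6, 2], [1, 3, 4], [2, 5, 4]]
  tri := [[false, true, false], [true, false, false], [false, true, false], [false, false, true]]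
  long := []

def cl_M9 : Conf where
  nD := 7
  rot := [[7, 11, 1], [0, 11, 2], [1, 10, 3], [2, 10, 9, 4], [3, 9, 5], [4, 8, 6], [5, 8, 7]]
  tri := [[false, true, false], [true, false, false], [false, true, false], [true, false, true, false], [true, false, false], [false, true, false], [true, false, false]]
  long := [(3, 1, 9)]

def cl_MM9 : Conf where
  nD := 8
  rot := [[1, 8, 2], [7, 9, 0], [0, 8, 12, 3], [2, 12, 4], [3, 11, 5], [4, 11, 6], [5, 10, 7], [6, 10, 9, 1]]
  tri := [[false, true, false], [true, false, false], [true, false, true, false], [true, false, false], [false, true, false], [true, false, false], [false, true, false], [true, false, true, false]]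
  long := [(2, 1, 9)]

def cl_P9 : Conf where
  nD := 9
  rot := [[13, 1, 6], [13, 12, 2, 0], [1, 12, 3], [2, 11, 4], [3, 11, 5], [4, 10, 8], [0, 8, 7], [6, 8, 9], [6, 5, 10, 7]]
  tri := [[true, false, false], [false, true, false, true], [true, false, false], [false, true, false], [true, false, false], [false, true, false], [false, true, false], [true, false, false], [false, true, false, true]]
  long := []

def cl_P10 : Conf where
  nD := 10
  rot := [[15, 14, 1], [0, 14, 4, 2], [1, 4, 3], [2, 5, 10], [1, 13, 6, 2], [3, 8, 10], [4, 13, 7], [6, 12, 9], [9, 11, 5], [7, 12, 11, 8]]
  tri := [[false, true, false], [true, false, true, false], [true, false, false], [false, true, false], [false, true, false, true], [false, false, true], [true, false, false], [false, true, false], [true, false, false], [true, false, true, false]]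
  long := []

def cl_X2 : Conf where
  nD := 9
  rot := [[9, 14, 1], [0, 14, 2, 3], [1, 13, 3], [1, 2, 4, 5], [3, 12, 5], [3, 4, 11, 6], [5, 11, 7], [6, 10, 8], [7, 10, 9]]
  tri := [[false, true, false], [true, false, true, false], [false, false, true], [true, false, true, false], [false, false, true], [true, false, true, false], [true, false, false], [false, true, false], [true, false, false]]
  long := []

def cl_X3M : Conf where
  nD := 11
  rot := [[17, 16, 1], [0, 16, 2], [1, 15, 3], [2, 15, 4, 5], [3, 7, 5], [3, 4, 6, 11], [5, 9, 11], [4, 14, 8], [7, 14, 13], [10, 12, 6], [13, 12, 9]]
  tri := [[false, true, false], [true, false, false], [false, true, false], [true, false, true, false], [false, false, true], [true, false, true, false], [false, false, true], [false, true, false], [true, false, false], [true, false, false], [false, true, false]]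
  long := []

def cl_X3MMi : Conf where
  nD := 12
  rot := [[18, 17, 1], [0, 17, 2], [1, 16, 3], [2, 16, 4, 5], [3, 7, 5], [3, 4, 6, 12], [5, 10, 12], [4, 15, 8], [7, 15, 9], [8, 14, 11], [11, 13, 6], [9, 14, 13, 10]]
  tri := [[false, true, false], [true, false, false], [false, true, false], [true, false, true, false], [false, false, true], [true, false, true, false], [false, false, true], [false, true, false], [true, false, false], [false, true, false], [true, false, false], [true, false, true, false]]
  long := []

def cl_MM : Conf where
  nD := 12
  rot := [[12, 17, 1], [0, 17, 2], [1, 16, 3], [2, 16, 5, 4], [3, 5, 9], [3, 15, 6, 4], [5, 15, 7], [6, 14, 8], [7, 14, 13], [4, 11, 10], [9, 11, 12], [9, 13, 10]]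
  tri := [[false, true, false], [true, false, false], [false, true, false], [true, false, true, false], [true, false, false], [false, true, false, true], [true, false, false], [false, true, false], [true, false, false], [false, true, false], [true, false, false], [false, false, true]]
  long := []

def cl_X1M : Conf where
  nD := 14
  rot := [[1, 20, 19], [2, 20, 0], [3, 1, 9], [4, 14, 2, 9], [5, 14, 3], [6, 15, 4], [7, 16, 15, 5], [8, 16, 6], [10, 17, 7], [3, 2, 11, 10], [9, 11, 17, 8], [9, 12, 10], [13, 18, 11], [19, 18, 12]]
  tri := [[true, false, false], [false, true, false], [false, false, true], [true, false, true, false], [false, true, false], [true, false, false], [true, false, true, false], [false, true, false], [true, false, false], [true, false, true, false], [true, false, true, false], [false, false, true], [true, false, false], [false, true, false]]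
  long := []

def cl_MMoMMo : Conf where
  nD := 14
  rot := [[4, 14, 1], [0, 19, 2], [1, 19, 3], [2, 18, 7], [5, 8, 14, 0], [6, 8, 4], [7, 9, 5], [3, 18, 9, 6], [5, 13, 15, 4], [7, 17, 10, 6], [9, 17, 11], [10, 16, 12], [11, 16, 13], [12, 15, 8]]
  tri := [[true, false, false], [false, true, false], [true, false, false], [false, true, false], [true, false, true, false], [false, true, false], [true, false, false], [true, false, true, false], [false, true, false, true], [false, true, false, true], [true, false, false], [false, true, false], [true, false, false], [false, true, false]]
  long := []

def cl_MVM : Conf where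
  nD := 15
  rot := [[1, 21, 20], [2, 21, 0], [22, 1, 3], [22, 2, 4, 7], [3, 5, 7], [6, 19, 4], [20, 19, 5], [3, 4, 8, 9], [7, 11, 9], [7, 8, 10, 15], [9, 13, 15], [8, 18, 12], [11, 18, 17], [14, 16, 10], [17, 16, 13]]
  tri := [[true, false, false], [false, true, false], [false, false, true], [true, false, true, false], [false, false, true], [true, false, false], [false, true, false], [true, false, true, false], [false, false, true], [true, false, true, false], [false, false, true], [false, true, false], [true, false, false], [true, false, false], [false, true, false]]
  long := []

def cl_MVMMo : Conf where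
  nD := 16
  rot := [[1, 22, 21], [2, 22, 0], [23, 1, 3], [23, 2, 4, 7], [3, 5, 7], [6, 20, 4], [21, 20, 5], [3, 4, 8, 9], [7, 11, 9], [7, 8, 10, 16], [9, 12, 16], [8, 19, 15], [13, 17, 10], [14, 17, 12], [15, 18, 13], [11, 19, 18, 14]]
  tri := [[true, false, false], [false, true, false], [false, false, true], [true, false, true, false], [false, false, true], [true, false, false], [false, true, false], [true, false, true, false], [false, false, true], [true, false, true, false], [false, false, true], [false, true, false], [true, false, false], [false, true, false], [true, false, false], [true, false, true, false]]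
  long := []

def cl_X1MM : Conf where
  nD := 15
  rot := [[1, 15, 5], [2, 16, 0], [3, 17, 16, 1], [4, 17, 2], [8, 18, 3], [0, 15, 6, 7], [5, 10, 7], [5, 6, 9, 8], [7, 9, 18, 4], [7, 13, 8], [6, 21, 11], [10, 21, 12], [11, 20, 14], [14, 19, 9], [12, 20, 19, 13]]
  tri := [[false, true, false], [true, false, false], [true, false, true, false], [false, true, false], [true, false, false], [true, false, true, false], [false, false, true], [true, false, true, false], [true, false, true, false], [false, false, true], [false, true, false], [true, false, false], [false, true, false], [true, false, false], [true, false, true, false]]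
  long := []

def cl_X3MMo : Conf where
  nD := 15
  rot := [[1, 15, 5], [2, 16, 0], [3, 16, 1], [4, 17, 2], [8, 18, 17, 3], [0, 15, 6, 7], [5, 10, 7], [5, 6, 9, 8], [7, 9, 18, 4], [7, 11, 8], [6, 21, 14], [12, 19, 9], [13, 19, 11], [14, 20, 12], [10, 21, 20, 13]]
  tri := [[false, true, false], [true, false, false], [false, true, false], [true, false, false], [true, false, true, false], [true, false, true, false], [false, false, true], [true, false, true, false], [true, false, true, false], [false, false, true], [false, true, false], [true, false, false], [false, true, false], [true, false, false], [true, false, true, false]]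
  long := []

def cl_A2MMo : Conf where
  nD := 17
  rot := [[10, 21, 1], [0, 20, 2], [1, 20, 3, 4], [2, 19, 4], [2, 3, 5, 6], [4, 18, 6], [4, 5, 17, 7], [6, 17, 8, 9], [7, 12, 9], [7, 8, 11, 10], [9, 11, 21, 0], [9, 13, 10], [8, 24, 16], [14, 22, 11], [15, 22, 13], [16, 23, 14], [12, 24, 23, 15]]
  tri := [[true, false, false], [false, true, false], [true, false, true, false], [false, false, true], [true, false, true, false], [false, false, true], [true, false, true, false], [true, false, true, false], [false, false, true], [true, false, true, false], [true, false, true, false], [false, false, true], [false, true, false], [true, false, false], [false, true, false], [true, false, false], [true, false, true, false]]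
  long := []

def cl_A2MMi : Conf where
  nD := 19
  rot := [[1, 22, 21], [2, 22, 0], [3, 1, 6], [4, 23, 2, 6], [5, 23, 3], [12, 24, 4], [3, 2, 7, 8], [6, 20, 8], [6, 7, 19, 9], [8, 19, 10, 11], [9, 14, 11], [9, 10, 13, 12], [11, 13, 24, 5], [11, 17, 12], [10, 27, 15], [14, 27, 16], [15, 26, 18], [18, 25, 13], [16, 26, 25, 17]]
  tri := [[true, false, false], [false, true, false], [false, false, true], [true, false, true, false], [false, true, false], [true, false, false], [true, false, true, false], [false, false, true], [true, false, true, false], [true, false, true, false], [false, false, true], [true, false, true, false], [true, false, true, false], [false, false, true], [false, true, false], [true, false, false], [false, true, false], [true, false, false], [true, false, true, false]]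
  long := []

def cl_A2MM : Conf where
  nD := 20
  rot := [[1, 23, 22], [2, 23, 0], [3, 1, 6], [4, 24, 2, 6], [5, 24, 3], [14, 25, 4], [3, 2, 7, 8], [6, 9, 8], [6, 7, 20, 11], [10, 21, 7], [22, 21, 9], [8, 20, 12, 13], [11, 16, 13], [11, 12, 15, 14], [13, 15, 25, 5], [13, 18, 14], [12, 28, 17], [16, 28, 27], [19, 26, 15], [27, 26, 18]]
  tri := [[true, false, false], [false, true, false], [false, false, true], [true, false, true, false], [false, true, false], [true, false, false], [true, false, true, false], [false, false, true], [true, false, true, false], [true, false, false], [false, true, false], [true, false, true, false], [false, false, true], [true, false, true, false], [true, false, true, false], [false, false, true], [false, true, false], [true, false, false], [true, false, false], [false, true, false]]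
  long := []

end Pool.Agent.W_fb73a4_h51
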