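import Pool.Agent.W_fb73a4_h51.SJ
import Pool.Agent.W_fb73a4_h51.ConfData

/-!
MP_fb73a4_co [T7]: the configuration `cl_A2MM` is reducible: V^6TT with M behind f1 and M behind f4.
(Certificate: helper32.)
-/

set_option autoImplicit false
set_option maxRecDepth 100000

namespace Pool.Agent.W_fb73a4_h51

open scoped Classical
open Pool.Agent.W_fb73a4_h20
open Pool.Agent.W_fb73a4_t7 (Conf Occ OM Env)
open Pool.Agent.W_fb73a4_h57 (ACert acheck)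

def ct_A2MM : Ct where
  nV := 29
  dst := [[0, 1], [0, 22], [0, 23], [1, 2], [1, 23], [2, 3], [2, 6], [3, 4], [3, 6], [3, 24], [4,
    5], [4, 24], [5, 14], [5, 25], [6, 7], [6, 8], [7, 8], [7, 9], [8, 11], [8, 20], [9, 10], [9,
    21], [10, 21], [10, 22], [11, 12], [11, 13], [11, 20], [12, 13], [12, 16], [13, 14], [13,
    15], [14, 15], [14, 25], [15, 18], [16, 17], [16, 28], [17, 27], [17, 28], [18, 19], [18,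
    26], [19, 26], [19, 27], [0, 1, 2], [1, 2, 3], [1, 2, 6], [1, 0, 22], [2, 3, 4], [2, 6, 7],
    [2, 6, 8], [2, 1, 23], [2, 3, 24], [3, 4, 5], [3, 6, 7], [3, 6, 8], [4, 3, 6], [4, 5, 14],
    [4, 5, 25], [5, 14, 13], [5, 14, 15], [5, 4, 24], [6, 7, 9], [6, 8, 11], [6, 8, 20], [6, 3,
    24], [7, 9, 10], [7, 8, 11], [7, 8, 20], [7, 9, 21], [8, 7, 9], [8, 11, 12], [8, 11, 13], [9,
    10, 22], [11, 13, 14], [11, 13, 15], [11, 12, 16], [12, 13, 14], [12, 13, 15], [12, 16, 17],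
    [12, 11, 20], [12, 16, 28], [13, 12, 16], [13, 15, 18], [13, 11, 20], [13, 14, 25], [14, 15,
    18], [15, 18, 19], [15, 14, 25], [15, 18, 26], [16, 17, 27], [18, 19, 27], [0, 1, 2, 3], [0,
    1, 2, 6], [1, 2, 3, 4], [1, 2, 6, 7], [1, 2, 6, 8], [1, 2, 3, 24], [2, 3, 4, 5], [2, 6, 7,
    9], [2, 6, 8, 11], [2, 6, 8, 20], [2, 1, 0, 22], [3, 6, 7, 9], [3, 6, 8, 11], [3, 4, 5, 14],
    [3, 6, 8, 20], [3, 2, 1, 23], [3, 4, 5, 25], [4, 3, 6, 7], [4, 3, 6, 8], [4, 5, 14, 13], [4,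
    5, 14, 15], [5, 4, 3, 6], [5, 14, 13, 11], [5, 14, 13, 12], [5, 14, 15, 18], [6, 7, 9, 10],
    [6, 8, 11, 12], [6, 8, 11, 13], [6, 7, 9, 21], [6, 2, 1, 23], [7, 8, 11, 12], [7, 8, 11, 13],
    [7, 9, 10, 22], [7, 6, 3, 24], [8, 7, 9, 10], [8, 11, 13, 14], [8, 11, 13, 15], [8, 11, 12,
    16], [8, 7, 9, 21], [8, 6, 3, 24], [9, 7, 8, 11], [9, 7, 8, 20], [11, 12, 16, 17], [11, 13,
    15, 18], [11, 13, 14, 25], [11, 12, 16, 28], [12, 13, 15, 18], [12, 13, 14, 25], [12, 16, 17,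
    27], [13, 12, 16, 17], [13, 15, 18, 19], [13, 15, 18, 26], [13, 12, 16, 28], [14, 13, 12,
    16], [14, 15, 18, 19], [14, 13, 11, 20], [14, 5, 4, 24], [14, 15, 18, 26], [15, 13, 12, 16],
    [15, 13, 11, 20], [15, 18, 19, 27], [16, 12, 11, 20], [18, 15, 14, 25], [0, 1, 2, 3, 4], [0,
    1, 2, 6, 7], [0, 1, 2, 6, 8], [0, 1, 2, 3, 24], [1, 2, 3, 4, 5], [1, 2, 6, 7, 9], [1, 2, 6,
    8, 11], [1, 2, 6, 8, 20], [2, 6, 7, 9, 10], [2, 6, 8, 11, 12], [2, 6, 8, 11, 13], [2, 3, 4,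
    5, 14], [2, 6, 7, 9, 21], [2, 3, 4, 5, 25], [3, 6, 7, 9, 10], [3, 6, 8, 11, 12], [3, 4, 5,
    14, 13], [3, 4, 5, 14, 15], [3, 6, 7, 9, 21], [3, 2, 1, 0, 22], [4, 3, 6, 7, 9], [4, 5, 14,
    13, 11], [4, 5, 14, 13, 12], [4, 5, 14, 15, 18], [4, 3, 6, 8, 20], [4, 3, 2, 1, 23], [5, 4,
    3, 6, 7], [5, 14, 13, 11, 8], [5, 14, 13, 12, 16], [5, 14, 15, 18, 19], [5, 14, 13, 11, 20],
    [5, 14, 15, 18, 26], [6, 3, 4, 5, 14], [6, 8, 11, 13, 15], [6, 8, 11, 12, 16], [6, 2, 1, 0,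
    22], [6, 3, 4, 5, 25], [7, 8, 11, 13, 14], [7, 8, 11, 13, 15], [7, 8, 11, 12, 16], [7, 6, 2,
    1, 23], [8, 11, 12, 16, 17], [8, 11, 13, 15, 18], [8, 7, 9, 10, 22], [8, 6, 2, 1, 23], [8,
    11, 13, 14, 25], [8, 11, 12, 16, 28], [9, 7, 8, 11, 12], [9, 7, 8, 11, 13], [9, 7, 6, 3, 24],
    [10, 9, 7, 8, 11], [10, 9, 7, 8, 20], [11, 13, 15, 18, 19], [11, 8, 7, 9, 21], [11, 8, 6, 3,
    24], [11, 13, 15, 18, 26], [11, 12, 16, 17, 27], [12, 13, 15, 18, 19], [12, 13, 15, 18, 26],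
    [13, 14, 5, 4, 24], [13, 12, 16, 17, 27], [14, 13, 12, 16, 17], [14, 15, 18, 19, 27], [14,
    13, 12, 16, 28], [15, 13, 12, 16, 17], [15, 14, 5, 4, 24], [15, 13, 12, 16, 28], [16, 12, 13,
    15, 18], [16, 12, 13, 14, 25], [17, 16, 12, 11, 20], [18, 15, 13, 11, 20], [19, 18, 15, 14,
    25], [0, 1, 2, 3, 4, 5], [0, 1, 2, 6, 7, 9], [0, 1, 2, 6, 8, 11], [0, 1, 2, 6, 8, 20], [1, 2,
    6, 7, 9, 10], [1, 2, 6, 8, 11, 12], [1, 2, 6, 8, 11, 13], [1, 2, 3, 4, 5, 14], [1, 2, 6, 7,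
    9, 21], [1, 2, 3, 4, 5, 25], [2, 3, 4, 5, 14, 15], [2, 6, 8, 11, 12, 16], [3, 6, 8, 11, 12,
    16], [3, 4, 5, 14, 15, 18], [4, 3, 6, 7, 9, 10], [4, 5, 14, 13, 12, 16], [4, 5, 14, 15, 18,
    19], [4, 3, 6, 7, 9, 21], [4, 3, 2, 1, 0, 22], [4, 5, 14, 15, 18, 26], [5, 4, 3, 6, 7, 9],
    [5, 14, 13, 12, 16, 17], [5, 4, 3, 2, 1, 23], [5, 14, 15, 18, 19, 27], [5, 14, 13, 12, 16,
    28], [6, 8, 11, 12, 16, 17], [6, 8, 11, 13, 15, 18], [6, 8, 11, 12, 16, 28], [7, 8, 11, 12,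
    16, 17], [7, 8, 11, 13, 15, 18], [7, 6, 3, 4, 5, 25], [7, 8, 11, 12, 16, 28], [8, 11, 13, 15,
    18, 19], [8, 11, 13, 15, 18, 26], [8, 11, 12, 16, 17, 27], [9, 7, 8, 11, 13, 14], [9, 7, 8,
    11, 13, 15], [9, 7, 8, 11, 12, 16], [9, 7, 6, 2, 1, 23], [10, 9, 7, 8, 11, 12], [10, 9, 7, 8,
    11, 13], [10, 9, 7, 6, 3, 24], [11, 8, 7, 9, 10, 22], [11, 8, 6, 2, 1, 23], [12, 11, 8, 7, 9,
    21], [12, 11, 8, 6, 3, 24], [13, 11, 8, 7, 9, 21], [16, 12, 13, 15, 18, 19], [16, 12, 13, 15,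
    18, 26], [17, 16, 12, 13, 15, 18], [17, 16, 12, 13, 14, 25], [18, 15, 14, 5, 4, 24], [18, 15,
    13, 12, 16, 28], [19, 18, 15, 13, 11, 20], [0, 1, 2, 6, 7, 9, 10], [0, 1, 2, 6, 8, 11, 12],
    [0, 1, 2, 6, 8, 11, 13], [0, 1, 2, 3, 4, 5, 14], [0, 1, 2, 6, 7, 9, 21], [0, 1, 2, 3, 4, 5,
    25], [1, 2, 3, 4, 5, 14, 15], [1, 2, 6, 8, 11, 12, 16], [2, 6, 8, 11, 12, 16, 17], [2, 3, 4,
    5, 14, 15, 18], [2, 6, 8, 11, 12, 16, 28], [3, 6, 8, 11, 12, 16, 17], [3, 4, 5, 14, 15, 18,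
    19], [3, 4, 5, 14, 15, 18, 26], [3, 6, 8, 11, 12, 16, 28], [4, 5, 14, 13, 12, 16, 17], [4, 5,
    14, 15, 18, 19, 27], [4, 5, 14, 13, 12, 16, 28], [5, 4, 3, 6, 7, 9, 10], [5, 4, 3, 6, 7, 9,
    21], [5, 4, 3, 2, 1, 0, 22], [6, 8, 11, 13, 15, 18, 19], [6, 8, 11, 13, 15, 18, 26], [6, 8,
    11, 12, 16, 17, 27], [7, 8, 11, 13, 15, 18, 19], [7, 8, 11, 13, 15, 18, 26], [7, 8, 11, 12,
    16, 17, 27], [9, 7, 8, 11, 12, 16, 17], [9, 7, 8, 11, 13, 15, 18], [9, 7, 6, 3, 4, 5, 25],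
    [9, 7, 8, 11, 12, 16, 28], [10, 9, 7, 8, 11, 13, 14], [10, 9, 7, 8, 11, 13, 15], [10, 9, 7,
    8, 11, 12, 16], [10, 9, 7, 6, 2, 1, 23], [12, 11, 8, 7, 9, 10, 22], [12, 11, 8, 6, 2, 1, 23],
    [13, 11, 8, 7, 9, 10, 22], [13, 11, 8, 6, 2, 1, 23], [14, 13, 11, 8, 7, 9, 21], [14, 5, 4, 3,
    2, 1, 23], [15, 13, 11, 8, 7, 9, 21], [16, 12, 11, 8, 7, 9, 21], [16, 12, 11, 8, 6, 3, 24],
    [17, 16, 12, 13, 15, 18, 19], [17, 16, 12, 13, 15, 18, 26], [19, 18, 15, 14, 5, 4, 24], [19,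
    18, 15, 13, 12, 16, 28], [0, 1, 2, 3, 4, 5, 14, 15], [0, 1, 2, 6, 8, 11, 12, 16], [1, 2, 6,
    8, 11, 12, 16, 17], [1, 2, 3, 4, 5, 14, 15, 18], [1, 2, 6, 8, 11, 12, 16, 28], [2, 3, 4, 5,
    14, 15, 18, 19], [2, 3, 4, 5, 14, 15, 18, 26], [2, 6, 8, 11, 12, 16, 17, 27], [3, 4, 5, 14,
    15, 18, 19, 27], [9, 7, 8, 11, 13, 15, 18, 19], [9, 7, 8, 11, 13, 15, 18, 26], [9, 7, 8, 11,
    12, 16, 17, 27], [10, 9, 7, 8, 11, 12, 16, 17], [10, 9, 7, 8, 11, 13, 15, 18], [10, 9, 7, 6,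
    3, 4, 5, 25], [10, 9, 7, 8, 11, 12, 16, 28], [14, 13, 11, 8, 7, 9, 10, 22], [15, 13, 11, 8,
    7, 9, 10, 22], [15, 13, 11, 8, 6, 2, 1, 23], [16, 12, 11, 8, 7, 9, 10, 22], [16, 12, 11, 8,
    6, 2, 1, 23], [17, 16, 12, 11, 8, 7, 9, 21], [17, 16, 12, 11, 8, 6, 3, 24], [18, 15, 13, 11,
    8, 7, 9, 21]]
  spc := [([0, 1, 2, 6, 8, 11, 12, 16, 17], 0), ([0, 1, 2, 3, 4, 5, 14, 15, 18], 0), ([0, 1, 2,
    6, 8, 11, 12, 16, 28], 0), ([1, 2, 3, 4, 5, 14, 15, 18, 19], 0), ([1, 2, 3, 4, 5, 14, 15, 18,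
    26], 0), ([1, 2, 6, 8, 11, 12, 16, 17, 27], 0), ([10, 9, 7, 8, 11, 13, 15, 18, 19], 0), ([10,
    9, 7, 8, 11, 13, 15, 18, 26], 0), ([10, 9, 7, 8, 11, 12, 16, 17, 27], 0), ([17, 16, 12, 11,
    8, 7, 9, 10, 22], 0), ([17, 16, 12, 11, 8, 6, 2, 1, 23], 0), ([18, 15, 13, 11, 8, 7, 9, 10,
    22], 0), ([18, 15, 13, 11, 8, 6, 2, 1, 23], 0), ([19, 18, 15, 13, 11, 8, 7, 9, 21], 0), ([0,
    1, 2, 3, 4, 5, 14, 15, 18, 19], 0), ([0, 1, 2, 3, 4, 5, 14, 15, 18, 26], 0), ([0, 1, 2, 6, 8,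
    11, 12, 16, 17, 27], 0), ([19, 18, 15, 13, 11, 8, 7, 9, 10, 22], 0), ([19, 18, 15, 13, 11, 8,
    6, 2, 1, 23], 0)]
  tab := [([20, 8, 7, 9, 21], 0, 4), ([20, 8, 6, 2, 1, 0, 22], 0, 6), ([20, 8, 6, 2, 1, 23], 0,
    7), ([20, 8, 6, 3, 24], 0, 8), ([20, 11, 13, 14, 25], 0, 8), ([20, 11, 13, 15, 18, 26], 0,
    7), ([20, 11, 13, 15, 18, 19, 27], 0, 6), ([20, 11, 12, 16, 28], 0, 4), ([21, 10, 22], 0, 6),
    ([21, 9, 7, 6, 2, 1, 23], 0, 6), ([21, 9, 7, 6, 3, 24], 0, 7), ([21, 9, 7, 6, 3, 4, 5, 25],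
    0, 5), ([21, 9, 7, 8, 11, 13, 15, 18, 26], 0, 4), ([21, 9, 7, 8, 11, 12, 16, 17, 27], 0, 4),
    ([21, 9, 7, 8, 11, 12, 16, 28], 0, 5), ([22, 0, 23], 0, 6), ([22, 0, 1, 2, 3, 24], 0, 6),
    ([22, 0, 1, 2, 3, 4, 5, 25], 0, 5), ([22, 10, 9, 7, 8, 11, 13, 15, 18, 26], 0, 3), ([22, 10,
    9, 7, 8, 11, 12, 16, 17, 27], 0, 3), ([22, 10, 9, 7, 8, 11, 12, 16, 28], 0, 4), ([23, 1, 2,
    3, 24], 0, 4), ([23, 1, 2, 3, 4, 5, 25], 0, 4), ([23, 1, 2, 3, 4, 5, 14, 15, 18, 26], 0, 3),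
    ([23, 1, 2, 6, 8, 11, 12, 16, 17, 27], 0, 3), ([23, 1, 2, 6, 8, 11, 12, 16, 28], 0, 4), ([24,
    4, 5, 25], 0, 5), ([24, 4, 5, 14, 15, 18, 26], 0, 5), ([24, 4, 5, 14, 15, 18, 19, 27], 0, 5),
    ([24, 3, 6, 8, 11, 12, 16, 28], 0, 5), ([25, 14, 15, 18, 26], 0, 4), ([25, 14, 13, 12, 16,
    17, 27], 0, 6), ([25, 14, 13, 12, 16, 28], 0, 7), ([26, 19, 27], 0, 6), ([26, 18, 15, 13, 12,
    16, 28], 0, 6), ([27, 17, 28], 0, 6), ([20, 8, 7, 9, 10, 22], 0, 7), ([20, 11, 12, 16, 17,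
    27], 0, 7), ([22, 0, 1, 2, 3, 24], 0, 7), ([23, 1, 2, 3, 4, 5, 25], 0, 6), ([24, 4, 5, 14,
    15, 18, 26], 0, 6), ([25, 14, 15, 18, 19, 27], 0, 7)]
  tris := [(20, 25, 27)]
  news := [(24, 22)]
  mgs := []
  br := [(11, 20, 20), (0, 22, 22), (1, 22, 0), (2, 22, 1), (3, 22, 2), (14, 25, 25), (13, 25,
    14), (17, 27, 27), (16, 27, 17), (12, 27, 16)]

def ac_A2MM : ACert where
  gens := [([(0, 2), (1, 2), (2, 2), (3, 2), (4, 2), (5, 2), (6, 2), (7, 2), (8, 2), (9, 2), (10,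
    2), (11, 2), (12, 2), (13, 2), (14, 2), (15, 2), (16, 2), (17, 2), (18, 2), (19, 2)], [([20,
    22], false), ([20, 24], false), ([24, 24], true), ([22, 25], true), ([24, 25], false), ([25,
    25], true), ([20, 27], false), ([22, 27], true)]), ([(0, 2), (1, 2), (2, 2), (3, 2), (4, 2),
    (5, 2), (6, 2), (7, 2), (8, 2), (9, 2), (10, 2), (11, 2), (12, 2), (13, 2), (14, 2), (15, 1),
    (16, 2), (17, 2), (18, 2), (19, 2)], [([20], true), ([22], true), ([25], true)]), ([(0, 2),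
    (1, 2), (2, 2), (3, 2), (4, 2), (5, 2), (6, 2), (7, 2), (8, 2), (9, 2), (10, 2), (11, 2),
    (12, 1), (13, 2), (14, 2), (15, 2), (16, 2), (17, 2), (18, 2), (19, 2)], [([20], false),
    ([22], true)])]
  sqs := []

theorem ok_A2MM : clOk cl_A2MM ct_A2MM = true := by decide +kernel

theorem ak_A2MM : acheck ct_A2MM.nV cl_A2MM.nD (edL cl_A2MM) [] ct_A2MM.mgs (nwL ct_A2MM) ac_A2MM = true := by
  decide +kernel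

theorem red_A2MM {V : Type} [Fintype V] {G : SimpleGraph V} {ι : Type} [Fintype ι] {F : ι → EV V}
    {i0 : ι} {m : ℕ} {x : ZMod m → V} {C : Finset V} (E : Env G ι F i0 m x C) (M : OM G F) {φ : ℕ → V}
    (h : Occ M C φ cl_A2MM) : False :=
  cluster E M h ct_A2MM ac_A2MM ok_A2MM ak_A2MM

end Pool.Agent.W_fb73a4_h51
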