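import Pool.Agent.W_fb73a4_h51.SJ
import Pool.Agent.W_fb73a4_h51.ConfData

/-!
MP_fb73a4_co [T7]: the configuration `cl_A2MMi` is reducible: V^6TT with M behind f1 and MM behind f4 (orientation i).
(Certificate: helper32.)
-/

set_option autoImplicit false
set_option maxRecDepth 100000

namespace Pool.Agent.W_fb73a4_h51

open scoped Classical
open Pool.Agent.W_fb73a4_h20
open Pool.Agent.W_fb73a4_t7 (Conf Occ OM Env)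
open Pool.Agent.W_fb73a4_h57 (ACert acheck)

def ct_A2MMi : Ct where
  nV := 28
  dst := [[0, 1], [0, 21], [0, 22], [1, 2], [1, 22], [2, 3], [2, 6], [3, 4], [3, 6], [3, 23], [4,
    5], [4, 23], [5, 12], [5, 24], [6, 7], [6, 8], [7, 8], [7, 20], [8, 9], [8, 19], [9, 10], [9,
    11], [9, 19], [10, 11], [10, 14], [11, 12], [11, 13], [12, 13], [12, 24], [13, 17], [14, 15],
    [14, 27], [15, 16], [15, 27], [16, 18], [16, 26], [17, 18], [17, 25], [18, 25], [18, 26], [0,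
    1, 2], [1, 2, 3], [1, 2, 6], [1, 0, 21], [2, 3, 4], [2, 6, 7], [2, 6, 8], [2, 1, 22], [2, 3,
    23], [3, 4, 5], [3, 6, 7], [3, 6, 8], [4, 3, 6], [4, 5, 12], [4, 5, 24], [5, 12, 11], [5, 12,
    13], [5, 4, 23], [6, 8, 9], [6, 8, 19], [6, 7, 20], [6, 3, 23], [7, 8, 9], [7, 8, 19], [8, 9,
    10], [8, 9, 11], [8, 7, 20], [9, 11, 12], [9, 11, 13], [9, 10, 14], [10, 11, 12], [10, 11,
    13], [10, 14, 15], [10, 9, 19], [10, 14, 27], [11, 10, 14], [11, 13, 17], [11, 9, 19], [11,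
    12, 24], [12, 13, 17], [13, 17, 18], [13, 12, 24], [13, 17, 25], [14, 15, 16], [15, 16, 18],
    [15, 16, 26], [16, 18, 17], [16, 18, 25], [16, 15, 27], [17, 18, 26], [0, 1, 2, 3], [0, 1, 2,
    6], [1, 2, 3, 4], [1, 2, 6, 7], [1, 2, 6, 8], [1, 2, 3, 23], [2, 3, 4, 5], [2, 6, 8, 9], [2,
    6, 8, 19], [2, 6, 7, 20], [2, 1, 0, 21], [3, 6, 8, 9], [3, 4, 5, 12], [3, 6, 8, 19], [3, 6,
    7, 20], [3, 2, 1, 22], [3, 4, 5, 24], [4, 3, 6, 7], [4, 3, 6, 8], [4, 5, 12, 11], [4, 5, 12,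
    13], [5, 4, 3, 6], [5, 12, 11, 9], [5, 12, 11, 10], [5, 12, 13, 17], [6, 8, 9, 10], [6, 8, 9,
    11], [6, 2, 1, 22], [7, 8, 9, 10], [7, 8, 9, 11], [7, 6, 3, 23], [8, 9, 11, 12], [8, 9, 11,
    13], [8, 9, 10, 14], [8, 6, 3, 23], [9, 10, 14, 15], [9, 11, 13, 17], [9, 8, 7, 20], [9, 11,
    12, 24], [9, 10, 14, 27], [10, 14, 15, 16], [10, 11, 13, 17], [10, 11, 12, 24], [11, 10, 14,
    15], [11, 13, 17, 18], [11, 13, 17, 25], [11, 10, 14, 27], [12, 11, 10, 14], [12, 13, 17,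
    18], [12, 11, 9, 19], [12, 5, 4, 23], [12, 13, 17, 25], [13, 11, 10, 14], [13, 17, 18, 16],
    [13, 11, 9, 19], [13, 17, 18, 26], [14, 15, 16, 18], [14, 10, 9, 19], [14, 15, 16, 26], [15,
    16, 18, 17], [15, 16, 18, 25], [17, 13, 12, 24], [18, 16, 15, 27], [0, 1, 2, 3, 4], [0, 1, 2,
    6, 7], [0, 1, 2, 6, 8], [0, 1, 2, 3, 23], [1, 2, 3, 4, 5], [1, 2, 6, 8, 9], [1, 2, 6, 8, 19],
    [1, 2, 6, 7, 20], [2, 6, 8, 9, 10], [2, 6, 8, 9, 11], [2, 3, 4, 5, 12], [2, 3, 4, 5, 24], [3,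
    6, 8, 9, 10], [3, 4, 5, 12, 11], [3, 4, 5, 12, 13], [3, 2, 1, 0, 21], [4, 5, 12, 11, 9], [4,
    5, 12, 11, 10], [4, 5, 12, 13, 17], [4, 3, 6, 8, 19], [4, 3, 6, 7, 20], [4, 3, 2, 1, 22], [5,
    4, 3, 6, 7], [5, 12, 11, 9, 8], [5, 12, 11, 10, 14], [5, 12, 13, 17, 18], [5, 12, 11, 9, 19],
    [5, 12, 13, 17, 25], [6, 3, 4, 5, 12], [6, 8, 9, 11, 13], [6, 8, 9, 10, 14], [6, 2, 1, 0,
    21], [6, 3, 4, 5, 24], [7, 8, 9, 11, 12], [7, 8, 9, 11, 13], [7, 8, 9, 10, 14], [7, 6, 2, 1,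
    22], [8, 9, 10, 14, 15], [8, 9, 11, 13, 17], [8, 6, 2, 1, 22], [8, 9, 11, 12, 24], [8, 9, 10,
    14, 27], [9, 10, 14, 15, 16], [9, 11, 13, 17, 18], [9, 8, 6, 3, 23], [9, 11, 13, 17, 25],
    [10, 14, 15, 16, 18], [10, 9, 8, 7, 20], [10, 11, 13, 17, 25], [10, 14, 15, 16, 26], [11, 10,
    14, 15, 16], [11, 9, 8, 7, 20], [11, 12, 5, 4, 23], [11, 13, 17, 18, 26], [12, 11, 10, 14,
    15], [12, 13, 17, 18, 16], [12, 13, 17, 18, 26], [12, 11, 10, 14, 27], [13, 11, 10, 14, 15],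
    [13, 12, 5, 4, 23], [13, 11, 10, 14, 27], [14, 10, 11, 13, 17], [14, 10, 11, 12, 24], [14,
    15, 16, 18, 25], [15, 14, 10, 9, 19], [17, 13, 11, 9, 19], [17, 18, 16, 15, 27], [18, 17, 13,
    12, 24], [0, 1, 2, 3, 4, 5], [0, 1, 2, 6, 8, 9], [0, 1, 2, 6, 8, 19], [0, 1, 2, 6, 7, 20],
    [1, 2, 6, 8, 9, 10], [1, 2, 6, 8, 9, 11], [1, 2, 3, 4, 5, 12], [1, 2, 3, 4, 5, 24], [2, 3, 4,
    5, 12, 13], [2, 6, 8, 9, 10, 14], [3, 6, 8, 9, 10, 14], [3, 4, 5, 12, 13, 17], [4, 5, 12, 11,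
    10, 14], [4, 5, 12, 13, 17, 18], [4, 3, 2, 1, 0, 21], [4, 5, 12, 13, 17, 25], [5, 12, 11, 10,
    14, 15], [5, 12, 13, 17, 18, 16], [5, 4, 3, 6, 7, 20], [5, 4, 3, 2, 1, 22], [5, 12, 13, 17,
    18, 26], [5, 12, 11, 10, 14, 27], [6, 8, 9, 10, 14, 15], [6, 8, 9, 11, 13, 17], [6, 8, 9, 10,
    14, 27], [7, 8, 9, 10, 14, 15], [7, 8, 9, 11, 13, 17], [7, 6, 2, 1, 0, 21], [7, 6, 3, 4, 5,
    24], [7, 8, 9, 10, 14, 27], [8, 9, 10, 14, 15, 16], [8, 9, 11, 13, 17, 18], [8, 6, 2, 1, 0,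
    21], [8, 9, 11, 13, 17, 25], [9, 8, 6, 2, 1, 22], [9, 10, 14, 15, 16, 26], [10, 9, 8, 6, 3,
    23], [12, 11, 9, 8, 7, 20], [13, 11, 9, 8, 7, 20], [14, 10, 9, 8, 7, 20], [15, 14, 10, 11,
    12, 24], [16, 15, 14, 10, 9, 19], [16, 18, 17, 13, 12, 24], [17, 13, 12, 5, 4, 23], [18, 17,
    13, 11, 9, 19], [0, 1, 2, 6, 8, 9, 10], [0, 1, 2, 6, 8, 9, 11], [0, 1, 2, 3, 4, 5, 12], [0,
    1, 2, 3, 4, 5, 24], [1, 2, 3, 4, 5, 12, 13], [1, 2, 6, 8, 9, 10, 14], [2, 6, 8, 9, 10, 14,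
    15], [2, 3, 4, 5, 12, 13, 17], [2, 6, 8, 9, 10, 14, 27], [3, 6, 8, 9, 10, 14, 15], [3, 4, 5,
    12, 13, 17, 18], [3, 4, 5, 12, 13, 17, 25], [3, 6, 8, 9, 10, 14, 27], [4, 5, 12, 11, 10, 14,
    15], [4, 5, 12, 13, 17, 18, 16], [4, 5, 12, 13, 17, 18, 26], [4, 5, 12, 11, 10, 14, 27], [5,
    4, 3, 2, 1, 0, 21], [6, 8, 9, 10, 14, 15, 16], [6, 8, 9, 11, 13, 17, 18], [6, 8, 9, 11, 13,
    17, 25], [7, 8, 9, 10, 14, 15, 16], [7, 8, 9, 11, 13, 17, 18], [7, 8, 9, 11, 13, 17, 25], [8,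
    9, 10, 14, 15, 16, 26], [9, 8, 6, 2, 1, 0, 21], [10, 9, 8, 6, 2, 1, 22], [11, 9, 8, 6, 2, 1,
    22], [12, 5, 4, 3, 2, 1, 22], [14, 10, 9, 8, 6, 3, 23], [15, 14, 10, 9, 8, 7, 20], [17, 13,
    11, 9, 8, 7, 20], [18, 17, 13, 12, 5, 4, 23], [0, 1, 2, 3, 4, 5, 12, 13], [0, 1, 2, 6, 8, 9,
    10, 14], [1, 2, 6, 8, 9, 10, 14, 15], [1, 2, 3, 4, 5, 12, 13, 17], [1, 2, 6, 8, 9, 10, 14,
    27], [2, 6, 8, 9, 10, 14, 15, 16], [2, 3, 4, 5, 12, 13, 17, 18], [2, 3, 4, 5, 12, 13, 17,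
    25], [3, 4, 5, 12, 13, 17, 18, 16], [3, 4, 5, 12, 13, 17, 18, 26], [6, 8, 9, 10, 14, 15, 16,
    26], [7, 8, 9, 10, 14, 15, 16, 26], [10, 9, 8, 6, 2, 1, 0, 21], [11, 9, 8, 6, 2, 1, 0, 21],
    [12, 5, 4, 3, 2, 1, 0, 21], [13, 11, 9, 8, 6, 2, 1, 22], [14, 10, 9, 8, 6, 2, 1, 22], [15,
    14, 10, 9, 8, 6, 3, 23], [16, 15, 14, 10, 9, 8, 7, 20], [16, 18, 17, 13, 12, 5, 4, 23], [18,
    17, 13, 11, 9, 8, 7, 20]]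
  spc := [([0, 1, 2, 6, 8, 9, 10, 14, 15], 0), ([0, 1, 2, 3, 4, 5, 12, 13, 17], 0), ([0, 1, 2, 6,
    8, 9, 10, 14, 27], 0), ([1, 2, 6, 8, 9, 10, 14, 15, 16], 0), ([1, 2, 3, 4, 5, 12, 13, 17,
    18], 0), ([1, 2, 3, 4, 5, 12, 13, 17, 25], 0), ([2, 3, 4, 5, 12, 13, 17, 18, 26], 0), ([13,
    11, 9, 8, 6, 2, 1, 0, 21], 0), ([14, 10, 9, 8, 6, 2, 1, 0, 21], 0), ([15, 14, 10, 9, 8, 6, 2,
    1, 22], 0), ([17, 13, 11, 9, 8, 6, 2, 1, 22], 0), ([0, 1, 2, 6, 8, 9, 10, 14, 15, 16], 0),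
    ([0, 1, 2, 3, 4, 5, 12, 13, 17, 18], 0), ([0, 1, 2, 3, 4, 5, 12, 13, 17, 25], 0), ([1, 2, 3,
    4, 5, 12, 13, 17, 18, 26], 0), ([15, 14, 10, 9, 8, 6, 2, 1, 0, 21], 0), ([16, 15, 14, 10, 9,
    8, 6, 2, 1, 22], 0), ([17, 13, 11, 9, 8, 6, 2, 1, 0, 21], 0), ([18, 17, 13, 11, 9, 8, 6, 2,
    1, 22], 0), ([0, 1, 2, 3, 4, 5, 12, 13, 17, 18, 26], 0), ([16, 15, 14, 10, 9, 8, 6, 2, 1, 0,
    21], 0), ([18, 17, 13, 11, 9, 8, 6, 2, 1, 0, 21], 0)]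
  tab := [([19, 8, 7, 20], 0, 5), ([19, 8, 6, 2, 1, 0, 21], 0, 6), ([19, 8, 6, 2, 1, 22], 0, 7),
    ([19, 8, 6, 3, 23], 0, 8), ([19, 9, 11, 12, 24], 0, 8), ([19, 9, 11, 13, 17, 25], 0, 7),
    ([19, 9, 11, 13, 17, 18, 26], 0, 6), ([19, 9, 10, 14, 27], 0, 4), ([20, 7, 6, 2, 1, 0, 21],
    0, 2), ([20, 7, 6, 2, 1, 22], 0, 7), ([20, 7, 6, 3, 23], 0, 8), ([20, 7, 6, 3, 4, 5, 24], 0,
    6), ([20, 7, 8, 9, 11, 13, 17, 25], 0, 5), ([20, 7, 8, 9, 10, 14, 15, 16, 26], 0, 4), ([20,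
    7, 8, 9, 10, 14, 27], 0, 6), ([21, 0, 22], 0, 6), ([21, 0, 1, 2, 3, 23], 0, 6), ([21, 0, 1,
    2, 3, 4, 5, 24], 0, 5), ([21, 0, 1, 2, 3, 4, 5, 12, 13, 17, 25], 0, 2), ([21, 0, 1, 2, 3, 4,
    5, 12, 13, 17, 18, 26], 0, 1), ([21, 0, 1, 2, 6, 8, 9, 10, 14, 27], 0, 3), ([22, 1, 2, 3,
    23], 0, 4), ([22, 1, 2, 3, 4, 5, 24], 0, 4), ([22, 1, 2, 3, 4, 5, 12, 13, 17, 25], 0, 3),
    ([22, 1, 2, 3, 4, 5, 12, 13, 17, 18, 26], 0, 2), ([22, 1, 2, 6, 8, 9, 10, 14, 27], 0, 4),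
    ([23, 4, 5, 24], 0, 5), ([23, 4, 5, 12, 13, 17, 25], 0, 5), ([23, 4, 5, 12, 13, 17, 18, 26],
    0, 5), ([23, 3, 6, 8, 9, 10, 14, 27], 0, 5), ([24, 12, 13, 17, 25], 0, 4), ([24, 12, 11, 10,
    14, 15, 16, 26], 0, 5), ([24, 12, 11, 10, 14, 27], 0, 7), ([25, 18, 26], 0, 6), ([25, 18, 16,
    15, 27], 0, 6), ([26, 16, 15, 27], 0, 5), ([21, 0, 1, 2, 3, 23], 0, 7), ([22, 1, 2, 3, 4, 5,
    24], 0, 6), ([23, 4, 5, 12, 13, 17, 25], 0, 6), ([24, 12, 13, 17, 18, 26], 0, 7), ([25, 18,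
    16, 15, 27], 0, 8)]
  tris := []
  news := [(19, 24), (23, 21)]
  mgs := [(27, 25)]
  br := [(0, 21, 21), (1, 21, 0), (2, 21, 1), (3, 21, 2), (12, 24, 24), (11, 24, 12), (9, 24,
    11), (18, 25, 25), (16, 25, 18), (15, 25, 16)]

def ac_A2MMi : ACert where
  gens := [([(0, 2), (1, 2), (2, 2), (3, 2), (4, 2), (5, 2), (6, 2), (7, 2), (8, 2), (9, 2), (10,
    2), (11, 2), (12, 2), (13, 2), (14, 2), (15, 2), (16, 2), (17, 2), (18, 2)], [([19, 25],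
    true), ([24, 25], false), ([25, 25], false), ([19, 26], false), ([26, 26], false), ([19, 27],
    true), ([24, 27], false)]), ([(0, 2), (1, 2), (2, 2), (3, 2), (4, 2), (5, 2), (6, 2), (7, 2),
    (8, 2), (9, 2), (10, 2), (11, 2), (12, 2), (13, 2), (14, 2), (15, 2), (16, 2), (17, 1), (18,
    2)], [([19], true), ([25], false)]), ([(0, 2), (1, 2), (2, 2), (3, 2), (4, 2), (5, 2), (6,
    2), (7, 2), (8, 2), (9, 2), (10, 2), (11, 2), (12, 2), (13, 2), (14, 2), (15, 1), (16, 2),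
    (17, 2), (18, 2)], [([19], true), ([24], false)])]
  sqs := []

theorem ok_A2MMi : clOk cl_A2MMi ct_A2MMi = true := by decide +kernel

theorem ak_A2MMi : acheck ct_A2MMi.nV cl_A2MMi.nD (edL cl_A2MMi) [] ct_A2MMi.mgs (nwL ct_A2MMi) ac_A2MMi = true := by
  decide +kernel

theorem red_A2MMi {V : Type} [Fintype V] {G : SimpleGraph V} {ι : Type} [Fintype ι] {F : ι → EV V}
    {i0 : ι} {m : ℕ} {x : ZMod m → V} {C : Finset V} (E : Env G ι F i0 m x C) (M : OM G F) {φ : ℕ → V}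
    (h : Occ M C φ cl_A2MMi) : False :=
  cluster E M h ct_A2MMi ac_A2MMi ok_A2MMi ak_A2MMi

end Pool.Agent.W_fb73a4_h51
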