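import Pool.Agent.W_fb73a4_h51.SJ
import Pool.Agent.W_fb73a4_h51.ConfData

/-!
MP_fb73a4_co [T7]: the configuration `cl_A2MMo` is reducible: V^6TT with M behind f1 and MM behind f4 (orientation o).
(Certificate: helper32.)
-/

set_option autoImplicit false
set_option maxRecDepth 100000

namespace Pool.Agent.W_fb73a4_h51

open scoped Classical
open Pool.Agent.W_fb73a4_h20
open Pool.Agent.W_fb73a4_t7 (Conf Occ OM Env)
open Pool.Agent.W_fb73a4_h57 (ACert acheck)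

def ct_A2MMo : Ct where
  nV := 25
  dst := [[0, 1], [0, 10], [0, 21], [1, 2], [1, 20], [2, 3], [2, 4], [2, 20], [3, 4], [3, 19],
    [4, 5], [4, 6], [5, 6], [5, 18], [6, 7], [6, 17], [7, 8], [7, 9], [7, 17], [8, 9], [8, 12],
    [9, 10], [9, 11], [10, 11], [10, 21], [11, 13], [12, 16], [12, 24], [13, 14], [13, 22], [14,
    15], [14, 22], [15, 16], [15, 23], [16, 23], [16, 24], [0, 1, 2], [0, 10, 9], [0, 10, 11],
    [0, 1, 20], [1, 2, 3], [1, 2, 4], [1, 0, 10], [1, 0, 21], [2, 4, 5], [2, 4, 6], [2, 3, 19],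
    [3, 4, 5], [3, 4, 6], [3, 2, 20], [4, 6, 7], [4, 6, 17], [4, 5, 18], [4, 3, 19], [4, 2, 20],
    [5, 6, 7], [5, 6, 17], [6, 7, 8], [6, 7, 9], [6, 5, 18], [7, 9, 10], [7, 9, 11], [7, 8, 12],
    [8, 9, 10], [8, 9, 11], [8, 12, 16], [8, 7, 17], [8, 12, 24], [9, 8, 12], [9, 11, 13], [9, 7,
    17], [9, 10, 21], [10, 11, 13], [11, 13, 14], [11, 10, 21], [11, 13, 22], [12, 16, 15], [12,
    16, 23], [13, 14, 15], [14, 15, 16], [14, 15, 23], [15, 14, 22], [15, 16, 24], [0, 1, 2, 3],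
    [0, 1, 2, 4], [0, 10, 9, 7], [0, 10, 9, 8], [0, 10, 11, 13], [1, 2, 4, 5], [1, 2, 4, 6], [1,
    0, 10, 9], [1, 0, 10, 11], [1, 2, 3, 19], [2, 4, 6, 7], [2, 1, 0, 10], [2, 4, 6, 17], [2, 4,
    5, 18], [2, 1, 0, 21], [3, 4, 6, 7], [3, 4, 6, 17], [3, 4, 5, 18], [4, 6, 7, 8], [4, 6, 7,
    9], [5, 6, 7, 8], [5, 6, 7, 9], [5, 4, 3, 19], [5, 4, 2, 20], [6, 7, 9, 10], [6, 7, 9, 11],
    [6, 7, 8, 12], [6, 4, 3, 19], [6, 4, 2, 20], [7, 9, 11, 13], [7, 8, 12, 16], [7, 6, 5, 18],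
    [7, 9, 10, 21], [7, 8, 12, 24], [8, 9, 11, 13], [8, 12, 16, 15], [8, 9, 10, 21], [8, 12, 16,
    23], [9, 11, 13, 14], [9, 8, 12, 16], [9, 11, 13, 22], [9, 8, 12, 24], [10, 9, 8, 12], [10,
    11, 13, 14], [10, 9, 7, 17], [10, 0, 1, 20], [10, 11, 13, 22], [11, 9, 8, 12], [11, 13, 14,
    15], [11, 9, 7, 17], [12, 16, 15, 14], [12, 8, 7, 17], [13, 14, 15, 16], [13, 11, 10, 21],
    [13, 14, 15, 23], [14, 15, 16, 24], [16, 15, 14, 22], [0, 1, 2, 4, 5], [0, 10, 9, 7, 6], [0,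
    10, 9, 8, 12], [0, 10, 11, 13, 14], [0, 10, 9, 7, 17], [0, 1, 2, 3, 19], [0, 10, 11, 13, 22],
    [1, 0, 10, 9, 7], [1, 0, 10, 9, 8], [1, 0, 10, 11, 13], [1, 2, 4, 6, 17], [1, 2, 4, 5, 18],
    [2, 4, 6, 7, 8], [2, 1, 0, 10, 9], [2, 1, 0, 10, 11], [3, 4, 6, 7, 8], [3, 4, 6, 7, 9], [3,
    2, 1, 0, 10], [3, 2, 1, 0, 21], [4, 2, 1, 0, 10], [4, 6, 7, 9, 11], [4, 6, 7, 8, 12], [4, 2,
    1, 0, 21], [5, 6, 7, 9, 10], [5, 6, 7, 9, 11], [5, 6, 7, 8, 12], [6, 7, 9, 11, 13], [6, 7, 8,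
    12, 16], [6, 7, 9, 10, 21], [6, 7, 8, 12, 24], [7, 9, 11, 13, 14], [7, 8, 12, 16, 15], [7, 6,
    4, 3, 19], [7, 6, 4, 2, 20], [7, 9, 11, 13, 22], [7, 8, 12, 16, 23], [8, 12, 16, 15, 14], [8,
    7, 6, 5, 18], [8, 9, 11, 13, 22], [9, 8, 12, 16, 15], [9, 7, 6, 5, 18], [9, 10, 0, 1, 20],
    [9, 8, 12, 16, 23], [10, 11, 13, 14, 15], [10, 9, 8, 12, 16], [10, 9, 8, 12, 24], [11, 9, 8,
    12, 16], [11, 10, 0, 1, 20], [11, 13, 14, 15, 23], [11, 9, 8, 12, 24], [12, 8, 9, 11, 13],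
    [12, 8, 9, 10, 21], [12, 16, 15, 14, 22], [13, 11, 9, 7, 17], [13, 14, 15, 16, 24], [14, 13,
    11, 10, 21], [16, 12, 8, 7, 17], [0, 10, 11, 13, 14, 15], [0, 10, 9, 8, 12, 16], [0, 1, 2, 4,
    5, 18], [0, 10, 9, 8, 12, 24], [1, 0, 10, 9, 8, 12], [1, 0, 10, 11, 13, 14], [1, 0, 10, 11,
    13, 22], [2, 4, 6, 7, 8, 12], [2, 1, 0, 10, 11, 13], [3, 2, 1, 0, 10, 11], [3, 4, 6, 7, 8,
    12], [4, 6, 7, 9, 11, 13], [4, 6, 7, 8, 12, 16], [4, 6, 7, 8, 12, 24], [5, 6, 7, 9, 11, 13],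
    [5, 6, 7, 8, 12, 16], [5, 4, 2, 1, 0, 21], [5, 6, 7, 8, 12, 24], [6, 7, 9, 11, 13, 14], [6,
    7, 8, 12, 16, 15], [6, 7, 9, 11, 13, 22], [6, 7, 8, 12, 16, 23], [8, 7, 6, 4, 3, 19], [8, 7,
    6, 4, 2, 20], [9, 7, 6, 4, 3, 19], [10, 9, 7, 6, 5, 18], [10, 0, 1, 2, 3, 19], [10, 9, 8, 12,
    16, 23], [11, 9, 7, 6, 5, 18], [12, 8, 7, 6, 5, 18], [13, 11, 10, 0, 1, 20], [14, 13, 11, 9,
    7, 17], [15, 16, 12, 8, 7, 17], [15, 14, 13, 11, 10, 21], [16, 12, 8, 9, 10, 21], [0, 10, 9,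
    8, 12, 16, 23], [1, 0, 10, 11, 13, 14, 15], [1, 0, 10, 9, 8, 12, 16], [1, 0, 10, 9, 8, 12,
    24], [2, 1, 0, 10, 11, 13, 14], [2, 4, 6, 7, 8, 12, 16], [2, 1, 0, 10, 11, 13, 22], [2, 4, 6,
    7, 8, 12, 24], [3, 2, 1, 0, 10, 11, 13], [3, 4, 6, 7, 8, 12, 16], [3, 4, 6, 7, 8, 12, 24],
    [4, 6, 7, 9, 11, 13, 14], [4, 6, 7, 8, 12, 16, 15], [4, 6, 7, 9, 11, 13, 22], [4, 6, 7, 8,
    12, 16, 23], [5, 6, 7, 9, 11, 13, 14], [5, 6, 7, 8, 12, 16, 15], [5, 6, 7, 9, 11, 13, 22],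
    [5, 6, 7, 8, 12, 16, 23], [11, 9, 7, 6, 4, 3, 19], [12, 8, 7, 6, 4, 3, 19], [12, 8, 7, 6, 4,
    2, 20], [13, 11, 9, 7, 6, 5, 18], [14, 13, 11, 10, 0, 1, 20], [16, 12, 8, 7, 6, 5, 18], [1,
    0, 10, 9, 8, 12, 16, 23], [2, 1, 0, 10, 11, 13, 14, 15], [2, 4, 6, 7, 8, 12, 16, 23], [3, 2,
    1, 0, 10, 11, 13, 14], [3, 4, 6, 7, 8, 12, 16, 15], [3, 2, 1, 0, 10, 11, 13, 22], [3, 4, 6,
    7, 8, 12, 16, 23], [13, 11, 9, 7, 6, 4, 3, 19], [14, 13, 11, 9, 7, 6, 5, 18], [15, 16, 12, 8,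
    7, 6, 5, 18], [15, 14, 13, 11, 10, 0, 1, 20], [16, 12, 8, 7, 6, 4, 3, 19], [16, 12, 8, 7, 6,
    4, 2, 20]]
  spc := [([14, 13, 11, 9, 7, 6, 4, 3, 19], 0), ([15, 16, 12, 8, 7, 6, 4, 3, 19], 0)]
  tab := [([17, 6, 5, 18], 0, 5), ([17, 6, 4, 3, 19], 0, 8), ([17, 6, 4, 2, 20], 0, 8), ([17, 7,
    9, 10, 21], 0, 8), ([17, 7, 9, 11, 13, 22], 0, 7), ([17, 7, 9, 11, 13, 14, 15, 23], 0, 5),
    ([17, 7, 8, 12, 24], 0, 4), ([18, 5, 4, 3, 19], 0, 4), ([18, 5, 4, 2, 20], 0, 8), ([18, 5, 4,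
    2, 1, 0, 21], 0, 6), ([18, 5, 6, 7, 9, 11, 13, 22], 0, 5), ([18, 5, 6, 7, 8, 12, 16, 23], 0,
    5), ([18, 5, 6, 7, 8, 12, 24], 0, 6), ([19, 3, 2, 20], 0, 5), ([19, 3, 2, 1, 0, 21], 0, 5),
    ([19, 3, 2, 1, 0, 10, 11, 13, 22], 0, 4), ([19, 3, 4, 6, 7, 8, 12, 16, 23], 0, 4), ([19, 3,
    4, 6, 7, 8, 12, 24], 0, 5), ([20, 1, 0, 21], 0, 5), ([20, 1, 0, 10, 11, 13, 22], 0, 5), ([20,
    1, 0, 10, 9, 8, 12, 16, 23], 0, 4), ([20, 1, 0, 10, 9, 8, 12, 24], 0, 5), ([21, 10, 11, 13,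
    22], 0, 4), ([21, 10, 9, 8, 12, 16, 23], 0, 6), ([21, 10, 9, 8, 12, 24], 0, 7), ([22, 14, 15,
    23], 0, 5), ([22, 13, 11, 9, 8, 12, 24], 0, 6), ([23, 16, 24], 0, 6), ([17, 7, 8, 12, 16,
    23], 0, 7), ([19, 3, 2, 1, 0, 21], 0, 7), ([20, 1, 0, 10, 11, 13, 22], 0, 6), ([22, 14, 15,
    16, 24], 0, 8)]
  tris := []
  news := []
  mgs := [(17, 20), (24, 22)]
  br := [(2, 20, 20), (4, 20, 2), (6, 20, 4), (14, 22, 22), (15, 22, 14), (16, 22, 15)]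

def ac_A2MMo : ACert where
  gens := [([(0, 2), (1, 2), (2, 2), (3, 2), (4, 2), (5, 2), (6, 2), (7, 2), (8, 2), (9, 2), (10,
    2), (11, 2), (12, 2), (13, 2), (14, 2), (15, 2), (16, 2)], [([17, 17], false), ([18, 18],
    false), ([19, 19], true), ([17, 20], false), ([20, 20], true), ([21, 21], true), ([22, 22],
    false), ([17, 23], false), ([20, 23], true), ([23, 23], true), ([17, 24], true), ([23, 24],
    true), ([24, 24], true)]), ([(0, 2), (1, 2), (2, 2), (3, 2), (4, 2), (5, 2), (6, 2), (7, 2),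
    (8, 2), (9, 2), (10, 2), (11, 2), (12, 2), (13, 1), (14, 2), (15, 2), (16, 2)], [([19],
    false), ([22], true), ([23], false), ([24], true)]), ([(0, 2), (1, 2), (2, 2), (3, 2), (4,
    2), (5, 2), (6, 2), (7, 2), (8, 2), (9, 2), (10, 2), (11, 2), (12, 2), (13, 2), (14, 2), (15,
    1), (16, 2)], [([19], true), ([21], false), ([22], true), ([23], false)]), ([(0, 2), (1, 2),
    (2, 2), (3, 2), (4, 2), (5, 2), (6, 2), (7, 2), (8, 2), (9, 2), (10, 2), (11, 1), (12, 2),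
    (13, 2), (14, 2), (15, 2), (16, 2)], [([21], false), ([23], false), ([24], true)]), ([(0, 2),
    (1, 2), (2, 2), (3, 2), (4, 2), (5, 2), (6, 2), (7, 2), (8, 1), (9, 2), (10, 2), (11, 2),
    (12, 2), (13, 2), (14, 2), (15, 2), (16, 2)], [([20], true), ([24], true)]), ([(0, 2), (1,
    2), (2, 2), (3, 2), (4, 2), (5, 1), (6, 2), (7, 2), (8, 2), (9, 2), (10, 2), (11, 2), (12,
    2), (13, 2), (14, 2), (15, 2), (16, 2)], [([18], false), ([20], true), ([23], true), ([24],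
    false)]), ([(0, 2), (1, 2), (2, 2), (3, 1), (4, 2), (5, 2), (6, 2), (7, 2), (8, 2), (9, 2),
    (10, 2), (11, 2), (12, 2), (13, 2), (14, 2), (15, 2), (16, 2)], [([19], true), ([20], false),
    ([23], false)]), ([(0, 2), (1, 2), (2, 2), (3, 2), (4, 2), (5, 2), (6, 2), (7, 2), (8, 2),
    (9, 2), (10, 2), (11, 1), (12, 2), (13, 1), (14, 2), (15, 2), (16, 2)], [([], true)]), ([(0,
    2), (1, 2), (2, 2), (3, 2), (4, 2), (5, 2), (6, 2), (7, 2), (8, 1), (9, 2), (10, 2), (11, 2),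
    (12, 2), (13, 1), (14, 2), (15, 2), (16, 2)], [([], true)]), ([(0, 2), (1, 2), (2, 2), (3,
    1), (4, 2), (5, 2), (6, 2), (7, 2), (8, 2), (9, 2), (10, 2), (11, 2), (12, 2), (13, 1), (14,
    2), (15, 2), (16, 2)], [([], true)])]
  sqs := []

theorem ok_A2MMo : clOk cl_A2MMo ct_A2MMo = true := by decide +kernel

theorem ak_A2MMo : acheck ct_A2MMo.nV cl_A2MMo.nD (edL cl_A2MMo) [] ct_A2MMo.mgs (nwL ct_A2MMo) ac_A2MMo = true := by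
  decide +kernel

theorem red_A2MMo {V : Type} [Fintype V] {G : SimpleGraph V} {ι : Type} [Fintype ι] {F : ι → EV V}
    {i0 : ι} {m : ℕ} {x : ZMod m → V} {C : Finset V} (E : Env G ι F i0 m x C) (M : OM G F) {φ : ℕ → V}
    (h : Occ M C φ cl_A2MMo) : False :=
  cluster E M h ct_A2MMo ac_A2MMo ok_A2MMo ak_A2MMo

end Pool.Agent.W_fb73a4_h51
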