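import Pool.Agent.W_fb73a4_h51.SJ
import Pool.Agent.W_fb73a4_h51.ConfData

/-!
MP_fb73a4_co [T7]: the configuration `cl_B3` is reducible: T=T-T= whose last triangle has a 3-vertex apex: covers M b=3 (c=3), MM b=3 (d=3).
(Certificate: helper32.)
-/

set_option autoImplicit false
set_option maxRecDepth 100000

namespace Pool.Agent.W_fb73a4_h51

open scoped Classical
open Pool.Agent.W_fb73a4_h20
open Pool.Agent.W_fb73a4_t7 (Conf Occ OM Env)
open Pool.Agent.W_fb73a4_h57 (ACert acheck)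

def ct_B3 : Ct where
  nV := 8
  dst := [[0, 1], [0, 6], [0, 7], [1, 2], [1, 6], [2, 3], [2, 4], [3, 4], [3, 5], [0, 1, 2], [1,
    2, 3], [1, 2, 4], [1, 0, 7], [2, 3, 5], [2, 1, 6], [0, 1, 2, 3], [0, 1, 2, 4], [1, 2, 3, 5],
    [2, 1, 0, 7], [3, 2, 1, 6], [0, 1, 2, 3, 5], [3, 2, 1, 0, 7]]
  spc := []
  tab := [([4, 3, 5], 0, 6), ([4, 2, 1, 6], 0, 9), ([4, 2, 1, 0, 7], 0, 4), ([5, 3, 2, 1, 6], 0,
    4), ([5, 3, 2, 1, 0, 7], 0, 4), ([6, 0, 7], 0, 6), ([5, 3, 2, 1, 0, 7], 0, 7)]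
  tris := []
  news := [(7, 5)]
  mgs := []
  br := [(3, 5, 5), (2, 5, 3), (1, 5, 2), (0, 5, 1)]

def ac_B3 : ACert where
  gens := [([(0, 2), (1, 2), (2, 2), (3, 2)], [([], false)])]
  sqs := []

theorem ok_B3 : clOk cl_B3 ct_B3 = true := by decide +kernel

theorem ak_B3 : acheck ct_B3.nV cl_B3.nD (edL cl_B3) [] ct_B3.mgs (nwL ct_B3) ac_B3 = true := by
  decide +kernel

theorem red_B3 {V : Type} [Fintype V] {G : SimpleGraph V} {ι : Type} [Fintype ι] {F : ι → EV V}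
    {i0 : ι} {m : ℕ} {x : ZMod m → V} {C : Finset V} (E : Env G ι F i0 m x C) (M : OM G F) {φ : ℕ → V}
    (h : Occ M C φ cl_B3) : False :=
  cluster E M h ct_B3 ac_B3 ok_B3 ak_B3

end Pool.Agent.W_fb73a4_h51
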