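import Pool.Agent.W_fb73a4_h51.SJ
import Pool.Agent.W_fb73a4_h51.ConfData

/-!
MP_fb73a4_co [T7]: the configuration `cl_M9` is reducible: M with |f4|>=9.
(Certificate: helper32.)
-/

set_option autoImplicit false
set_option maxRecDepth 100000

namespace Pool.Agent.W_fb73a4_h51

open scoped Classical
open Pool.Agent.W_fb73a4_h20
open Pool.Agent.W_fb73a4_t7 (Conf Occ OM Env)
open Pool.Agent.W_fb73a4_h57 (ACert acheck)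

def ct_M9 : Ct where
  nV := 12
  dst := [[0, 1], [0, 7], [0, 11], [1, 2], [1, 11], [2, 3], [2, 10], [3, 4], [3, 9], [3, 10], [4,
    5], [4, 9], [5, 6], [5, 8], [6, 7], [6, 8], [0, 1, 2], [1, 2, 3], [1, 0, 7], [1, 2, 10], [2,
    3, 4], [2, 3, 9], [2, 1, 11], [3, 4, 5], [4, 5, 6], [4, 5, 8], [4, 3, 10], [5, 6, 7], [5, 4,
    9], [0, 1, 2, 3], [0, 1, 2, 10], [1, 2, 3, 4], [1, 2, 3, 9], [2, 3, 4, 5], [2, 1, 0, 7], [3,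
    4, 5, 6], [3, 4, 5, 8], [3, 2, 1, 11], [4, 5, 6, 7], [5, 4, 3, 10], [6, 5, 4, 9], [0, 1, 2,
    3, 4], [0, 1, 2, 3, 9], [1, 2, 3, 4, 5], [2, 3, 4, 5, 6], [2, 3, 4, 5, 8], [3, 2, 1, 0, 7],
    [4, 3, 2, 1, 11], [6, 5, 4, 3, 10], [0, 1, 2, 3, 4, 5], [1, 2, 3, 4, 5, 6], [1, 2, 3, 4, 5,
    8], [5, 4, 3, 2, 1, 11], [0, 1, 2, 3, 4, 5, 6], [0, 1, 2, 3, 4, 5, 8], [6, 5, 4, 3, 2, 1, 11]]
  spc := []
  tab := [([7, 6, 8], 0, 6), ([7, 6, 5, 4, 9], 0, 6), ([7, 6, 5, 4, 3, 10], 0, 6), ([7, 0, 11],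
    0, 6), ([8, 5, 4, 9], 0, 5), ([8, 5, 4, 3, 10], 0, 5), ([8, 5, 4, 3, 2, 1, 11], 0, 5), ([9,
    3, 10], 0, 7), ([9, 3, 2, 1, 11], 0, 7), ([10, 2, 1, 11], 0, 5), ([7, 6, 5, 4, 9], 0, 8),
    ([7, 0, 1, 2, 10], 0, 8), ([8, 5, 4, 3, 10], 0, 8), ([8, 5, 4, 3, 2, 1, 11], 0, 6), ([9, 3,
    2, 1, 11], 0, 8)]
  tris := []
  news := [(10, 9)]
  mgs := [(7, 10)]
  br := [(2, 10, 10), (3, 10, 10), (1, 10, 2), (0, 10, 1)]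

def ac_M9 : ACert where
  gens := [([(0, 2), (1, 2), (2, 2), (3, 2), (4, 2), (5, 2), (6, 2)], [([7], true), ([9],
    false)])]
  sqs := []

theorem ok_M9 : clOk cl_M9 ct_M9 = true := by decide +kernel

theorem ak_M9 : acheck ct_M9.nV cl_M9.nD (edL cl_M9) [] ct_M9.mgs (nwL ct_M9) ac_M9 = true := by
  decide +kernel

theorem red_M9 {V : Type} [Fintype V] {G : SimpleGraph V} {ι : Type} [Fintype ι] {F : ι → EV V}
    {i0 : ι} {m : ℕ} {x : ZMod m → V} {C : Finset V} (E : Env G ι F i0 m x C) (M : OM G F) {φ : ℕ → V}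
    (h : Occ M C φ cl_M9) : False :=
  cluster E M h ct_M9 ac_M9 ok_M9 ak_M9

end Pool.Agent.W_fb73a4_h51
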