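import Pool.Agent.W_fb73a4_h51.SJ
import Pool.Agent.W_fb73a4_h51.ConfData

/-!
MP_fb73a4_co [T7]: the configuration `cl_MM` is reducible: adjacent asks M-M.
(Certificate: helper32.)
-/

set_option autoImplicit false
set_option maxRecDepth 100000

namespace Pool.Agent.W_fb73a4_h51

open scoped Classical
open Pool.Agent.W_fb73a4_h20
open Pool.Agent.W_fb73a4_t7 (Conf Occ OM Env)
open Pool.Agent.W_fb73a4_h57 (ACert acheck)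

def ct_MM : Ct where
  nV := 18
  dst := [[0, 1], [0, 12], [0, 17], [1, 2], [1, 17], [2, 3], [2, 16], [3, 4], [3, 5], [3, 16],
    [4, 5], [4, 9], [5, 6], [5, 15], [6, 7], [6, 15], [7, 8], [7, 14], [8, 13], [8, 14], [9, 10],
    [9, 11], [10, 11], [10, 12], [11, 13], [0, 1, 2], [1, 2, 3], [1, 0, 12], [1, 2, 16], [2, 3,
    4], [2, 3, 5], [2, 1, 17], [3, 5, 6], [3, 4, 9], [3, 5, 15], [4, 5, 6], [4, 9, 10], [4, 9,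
    11], [4, 5, 15], [4, 3, 16], [5, 6, 7], [5, 4, 9], [5, 3, 16], [6, 7, 8], [6, 7, 14], [7, 8,
    13], [7, 6, 15], [9, 10, 12], [9, 11, 13], [10, 11, 13], [11, 10, 12], [0, 1, 2, 3], [0, 1,
    2, 16], [1, 2, 3, 4], [1, 2, 3, 5], [2, 3, 5, 6], [2, 3, 4, 9], [2, 1, 0, 12], [2, 3, 5, 15],
    [3, 5, 6, 7], [3, 4, 9, 10], [3, 4, 9, 11], [3, 2, 1, 17], [4, 5, 6, 7], [4, 9, 10, 12], [4,
    9, 11, 13], [5, 6, 7, 8], [5, 4, 9, 10], [5, 4, 9, 11], [5, 6, 7, 14], [6, 5, 4, 9], [6, 7,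
    8, 13], [6, 5, 3, 16], [8, 7, 6, 15], [9, 4, 5, 15], [9, 4, 3, 16], [0, 1, 2, 3, 4], [0, 1,
    2, 3, 5], [1, 2, 3, 5, 6], [1, 2, 3, 4, 9], [1, 2, 3, 5, 15], [2, 3, 5, 6, 7], [2, 3, 4, 9,
    10], [2, 3, 4, 9, 11], [3, 5, 6, 7, 8], [3, 2, 1, 0, 12], [3, 4, 9, 11, 13], [3, 5, 6, 7,
    14], [4, 5, 6, 7, 8], [4, 5, 6, 7, 14], [4, 3, 2, 1, 17], [5, 4, 9, 10, 12], [5, 6, 7, 8,
    13], [5, 3, 2, 1, 17], [6, 5, 4, 9, 10], [6, 5, 4, 9, 11], [7, 6, 5, 4, 9], [7, 6, 5, 3, 16],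
    [10, 9, 4, 5, 15], [10, 9, 4, 3, 16], [11, 9, 4, 5, 15], [11, 9, 4, 3, 16], [0, 1, 2, 3, 5,
    6], [0, 1, 2, 3, 4, 9], [0, 1, 2, 3, 5, 15], [1, 2, 3, 5, 6, 7], [1, 2, 3, 4, 9, 10], [1, 2,
    3, 4, 9, 11], [2, 3, 5, 6, 7, 8], [2, 3, 4, 9, 11, 13], [2, 3, 5, 6, 7, 14], [6, 5, 4, 9, 10,
    12], [6, 5, 3, 2, 1, 17], [7, 6, 5, 4, 9, 10], [7, 6, 5, 4, 9, 11], [8, 7, 6, 5, 4, 9], [8,
    7, 6, 5, 3, 16], [9, 4, 5, 6, 7, 14], [9, 4, 3, 2, 1, 17], [0, 1, 2, 3, 5, 6, 7], [0, 1, 2,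
    3, 4, 9, 10], [0, 1, 2, 3, 4, 9, 11], [1, 2, 3, 5, 6, 7, 8], [1, 2, 3, 4, 9, 11, 13], [1, 2,
    3, 5, 6, 7, 14], [7, 6, 5, 4, 9, 10, 12], [7, 6, 5, 3, 2, 1, 17], [8, 7, 6, 5, 4, 9, 10], [8,
    7, 6, 5, 4, 9, 11], [10, 9, 4, 5, 6, 7, 14], [10, 9, 4, 3, 2, 1, 17], [11, 9, 4, 5, 6, 7,
    14], [11, 9, 4, 3, 2, 1, 17], [0, 1, 2, 3, 5, 6, 7, 8], [0, 1, 2, 3, 4, 9, 11, 13], [0, 1, 2,
    3, 5, 6, 7, 14], [8, 7, 6, 5, 4, 9, 10, 12], [8, 7, 6, 5, 3, 2, 1, 17]]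
  spc := []
  tab := [([12, 10, 11, 13], 0, 5), ([12, 10, 9, 4, 5, 6, 7, 14], 0, 5), ([12, 10, 9, 4, 5, 15],
    0, 7), ([12, 10, 9, 4, 3, 16], 0, 7), ([12, 0, 17], 0, 6), ([13, 8, 14], 0, 6), ([13, 11, 9,
    4, 5, 15], 0, 7), ([13, 11, 9, 4, 3, 16], 0, 7), ([13, 11, 9, 4, 3, 2, 1, 17], 0, 5), ([14,
    7, 6, 15], 0, 5), ([14, 7, 6, 5, 3, 16], 0, 5), ([14, 7, 6, 5, 3, 2, 1, 17], 0, 5), ([15, 5,
    3, 16], 0, 5), ([15, 5, 3, 2, 1, 17], 0, 5), ([16, 2, 1, 17], 0, 5), ([12, 0, 1, 2, 16], 0,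
    8), ([13, 8, 7, 6, 15], 0, 8), ([14, 7, 6, 5, 3, 16], 0, 7), ([15, 5, 3, 2, 1, 17], 0, 7)]
  tris := []
  news := [(15, 13)]
  mgs := [(12, 16)]
  br := [(6, 15, 15), (7, 15, 6), (8, 15, 7), (2, 16, 16), (1, 16, 2), (0, 16, 1)]

def ac_MM : ACert where
  gens := [([(0, 2), (1, 2), (2, 2), (3, 2), (4, 2), (5, 2), (6, 2), (7, 2), (8, 2), (9, 2), (10,
    2), (11, 1)], [([12], false), ([13], false), ([15], false)]), ([(0, 2), (1, 2), (2, 2), (3,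
    2), (4, 2), (5, 2), (6, 2), (7, 2), (8, 2), (9, 2), (10, 1), (11, 2)], [([12], false), ([15],
    true)])]
  sqs := []

theorem ok_MM : clOk cl_MM ct_MM = true := by decide +kernel

theorem ak_MM : acheck ct_MM.nV cl_MM.nD (edL cl_MM) [] ct_MM.mgs (nwL ct_MM) ac_MM = true := by
  decide +kernel

theorem red_MM {V : Type} [Fintype V] {G : SimpleGraph V} {ι : Type} [Fintype ι] {F : ι → EV V}
    {i0 : ι} {m : ℕ} {x : ZMod m → V} {C : Finset V} (E : Env G ι F i0 m x C) (M : OM G F) {φ : ℕ → V}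
    (h : Occ M C φ cl_MM) : False :=
  cluster E M h ct_MM ac_MM ok_MM ak_MM

end Pool.Agent.W_fb73a4_h51
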