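import Pool.Agent.W_fb73a4_h51.SJ
import Pool.Agent.W_fb73a4_h51.ConfData

/-!
MP_fb73a4_co [T7]: the configuration `cl_MM9` is reducible: MM with a face behind V of length >=9.
(Certificate: helper32.)
-/

set_option autoImplicit false
set_option maxRecDepth 100000

namespace Pool.Agent.W_fb73a4_h51

open scoped Classical
open Pool.Agent.W_fb73a4_h20
open Pool.Agent.W_fb73a4_t7 (Conf Occ OM Env)
open Pool.Agent.W_fb73a4_h57 (ACert acheck)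

def ct_MM9 : Ct where
  nV := 13
  dst := [[0, 1], [0, 2], [0, 8], [1, 7], [1, 9], [2, 3], [2, 8], [2, 12], [3, 4], [3, 12], [4,
    5], [4, 11], [5, 6], [5, 11], [6, 7], [6, 10], [7, 9], [7, 10], [0, 2, 3], [0, 1, 7], [0, 1,
    9], [0, 2, 12], [1, 0, 2], [1, 7, 6], [1, 0, 8], [1, 7, 10], [2, 3, 4], [3, 4, 5], [3, 2, 8],
    [3, 4, 11], [4, 5, 6], [4, 3, 12], [5, 6, 7], [5, 6, 10], [6, 7, 9], [6, 5, 11], [0, 2, 3,
    4], [0, 1, 7, 6], [0, 1, 7, 10], [1, 0, 2, 3], [1, 7, 6, 5], [1, 0, 2, 12], [2, 3, 4, 5], [2,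
    0, 1, 7], [2, 0, 1, 9], [2, 3, 4, 11], [3, 4, 5, 6], [4, 5, 6, 7], [4, 3, 2, 8], [4, 5, 6,
    10], [5, 6, 7, 9], [5, 4, 3, 12], [7, 1, 0, 8], [7, 6, 5, 11], [0, 1, 7, 6, 5], [0, 2, 3, 4,
    11], [1, 7, 6, 5, 4], [1, 7, 6, 5, 11], [2, 0, 1, 7, 6], [2, 0, 1, 7, 10], [3, 2, 0, 1, 7],
    [3, 2, 0, 1, 9], [3, 4, 5, 6, 10], [4, 5, 6, 7, 9], [5, 4, 3, 2, 8], [6, 7, 1, 0, 8], [6, 5,
    4, 3, 12], [7, 1, 0, 2, 12]]
  spc := []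
  tab := [([8, 0, 1, 9], 0, 5), ([8, 0, 1, 7, 10], 0, 5), ([8, 2, 3, 4, 11], 0, 5), ([8, 2, 12],
    0, 7), ([9, 7, 10], 0, 6), ([9, 7, 6, 5, 11], 0, 6), ([9, 1, 0, 2, 12], 0, 8), ([10, 6, 5,
    11], 0, 5), ([10, 7, 1, 0, 2, 12], 0, 7), ([11, 4, 3, 12], 0, 5), ([8, 0, 1, 7, 10], 0, 8),
    ([8, 2, 3, 4, 11], 0, 8), ([9, 7, 6, 5, 11], 0, 8)]
  tris := []
  news := [(8, 12)]
  mgs := [(8, 10)]
  br := [(7, 10, 10), (1, 10, 7), (0, 10, 1), (2, 12, 12)]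

def ac_MM9 : ACert where
  gens := [([(0, 2), (1, 2), (2, 2), (3, 2), (4, 2), (5, 2), (6, 2), (7, 2)], [([9], true)]),
    ([(0, 2), (1, 1), (2, 2), (3, 2), (4, 2), (5, 2), (6, 2), (7, 2)], [([], true)]), ([(0, 2),
    (1, 2), (2, 2), (3, 1), (4, 2), (5, 2), (6, 2), (7, 2)], [([], true)])]
  sqs := []

theorem ok_MM9 : clOk cl_MM9 ct_MM9 = true := by decide +kernel

theorem ak_MM9 : acheck ct_MM9.nV cl_MM9.nD (edL cl_MM9) [] ct_MM9.mgs (nwL ct_MM9) ac_MM9 = true := by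
  decide +kernel

theorem red_MM9 {V : Type} [Fintype V] {G : SimpleGraph V} {ι : Type} [Fintype ι] {F : ι → EV V}
    {i0 : ι} {m : ℕ} {x : ZMod m → V} {C : Finset V} (E : Env G ι F i0 m x C) (M : OM G F) {φ : ℕ → V}
    (h : Occ M C φ cl_MM9) : False :=
  cluster E M h ct_MM9 ac_MM9 ok_MM9 ak_MM9

end Pool.Agent.W_fb73a4_h51
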