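import Pool.Agent.W_fb73a4_h51.SJ
import Pool.Agent.W_fb73a4_h51.ConfData

/-!
MP_fb73a4_co [T7]: the configuration `cl_MMoMMo` is reducible: adjacent asks MM-MM, both runs of 2.
(Certificate: helper32.)
-/

set_option autoImplicit false
set_option maxRecDepth 100000

namespace Pool.Agent.W_fb73a4_h51

open scoped Classical
open Pool.Agent.W_fb73a4_h20
open Pool.Agent.W_fb73a4_t7 (Conf Occ OM Env)
open Pool.Agent.W_fb73a4_h57 (ACert acheck)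

def ct_MMoMMo : Ct where
  nV := 20
  dst := [[0, 1], [0, 4], [0, 14], [1, 2], [1, 19], [2, 3], [2, 19], [3, 7], [3, 18], [4, 5], [4,
    8], [4, 14], [5, 6], [5, 8], [6, 7], [6, 9], [7, 9], [7, 18], [8, 13], [8, 15], [9, 10], [9,
    17], [10, 11], [10, 17], [11, 12], [11, 16], [12, 13], [12, 16], [13, 15], [0, 1, 2], [0, 4,
    5], [0, 4, 8], [0, 1, 19], [1, 2, 3], [1, 0, 4], [1, 0, 14], [2, 3, 7], [2, 3, 18], [3, 7,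
    6], [3, 7, 9], [3, 2, 19], [4, 5, 6], [4, 8, 13], [4, 8, 15], [5, 6, 7], [5, 6, 9], [5, 8,
    13], [5, 4, 14], [5, 8, 15], [6, 5, 8], [6, 9, 10], [6, 9, 17], [6, 7, 18], [7, 9, 10], [7,
    9, 17], [8, 13, 12], [8, 4, 14], [9, 10, 11], [9, 7, 18], [10, 11, 12], [10, 11, 16], [11,
    12, 13], [11, 10, 17], [12, 13, 15], [13, 12, 16], [0, 1, 2, 3], [0, 4, 5, 6], [0, 4, 8, 13],
    [0, 4, 8, 15], [1, 0, 4, 5], [1, 2, 3, 7], [1, 0, 4, 8], [1, 2, 3, 18], [2, 1, 0, 4], [2, 3,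
    7, 6], [2, 3, 7, 9], [2, 1, 0, 14], [3, 7, 6, 5], [3, 7, 9, 10], [3, 7, 9, 17], [4, 5, 6, 7],
    [4, 5, 6, 9], [4, 8, 13, 12], [4, 0, 1, 19], [5, 6, 9, 10], [5, 8, 13, 12], [5, 6, 9, 17],
    [5, 6, 7, 18], [6, 9, 10, 11], [6, 5, 8, 13], [6, 5, 4, 14], [6, 5, 8, 15], [7, 6, 5, 8], [7,
    9, 10, 11], [7, 3, 2, 19], [8, 5, 6, 9], [8, 13, 12, 11], [8, 13, 12, 16], [9, 10, 11, 12],
    [9, 10, 11, 16], [10, 11, 12, 13], [10, 9, 7, 18], [11, 12, 13, 15], [12, 11, 10, 17], [13,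
    8, 4, 14], [0, 4, 5, 6, 7], [0, 4, 5, 6, 9], [0, 4, 8, 13, 12], [0, 1, 2, 3, 18], [1, 0, 4,
    5, 6], [1, 2, 3, 7, 9], [1, 0, 4, 8, 13], [1, 0, 4, 8, 15], [2, 1, 0, 4, 5], [2, 1, 0, 4, 8],
    [2, 3, 7, 9, 10], [2, 3, 7, 9, 17], [3, 2, 1, 0, 4], [3, 7, 6, 5, 8], [3, 7, 9, 10, 11], [3,
    2, 1, 0, 14], [4, 5, 6, 9, 10], [4, 8, 13, 12, 11], [4, 8, 13, 12, 16], [4, 5, 6, 9, 17], [4,
    5, 6, 7, 18], [5, 6, 9, 10, 11], [5, 8, 13, 12, 16], [5, 4, 0, 1, 19], [6, 9, 10, 11, 12],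
    [6, 9, 10, 11, 16], [6, 7, 3, 2, 19], [7, 9, 10, 11, 12], [7, 6, 5, 8, 13], [7, 6, 5, 4, 14],
    [7, 6, 5, 8, 15], [7, 9, 10, 11, 16], [8, 5, 6, 9, 10], [8, 5, 6, 9, 17], [8, 5, 6, 7, 18],
    [8, 4, 0, 1, 19], [9, 10, 11, 12, 13], [9, 6, 5, 4, 14], [9, 6, 5, 8, 15], [9, 7, 3, 2, 19],
    [10, 11, 12, 13, 15], [11, 10, 9, 7, 18], [12, 13, 8, 4, 14], [13, 12, 11, 10, 17], [0, 4, 5,
    6, 9, 10], [0, 4, 8, 13, 12, 11], [0, 4, 8, 13, 12, 16], [0, 4, 5, 6, 9, 17], [1, 2, 3, 7, 9,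
    10], [1, 0, 4, 8, 13, 12], [1, 2, 3, 7, 9, 17], [2, 3, 7, 9, 10, 11], [2, 1, 0, 4, 8, 13],
    [2, 1, 0, 4, 8, 15], [3, 7, 9, 10, 11, 12], [3, 7, 6, 5, 8, 13], [3, 7, 6, 5, 8, 15], [3, 7,
    9, 10, 11, 16], [10, 9, 6, 5, 4, 14], [10, 9, 7, 3, 2, 19], [11, 12, 13, 8, 4, 14], [12, 11,
    10, 9, 7, 18], [13, 8, 5, 6, 7, 18], [13, 8, 4, 0, 1, 19], [1, 0, 4, 8, 13, 12, 11], [1, 0,
    4, 8, 13, 12, 16], [2, 1, 0, 4, 8, 13, 12], [2, 3, 7, 9, 10, 11, 16], [11, 10, 9, 7, 3, 2,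
    19], [12, 13, 8, 4, 0, 1, 19]]
  spc := []
  tab := [([14, 4, 8, 15], 0, 5), ([14, 4, 8, 13, 12, 16], 0, 5), ([14, 4, 5, 6, 9, 17], 0, 7),
    ([14, 4, 5, 6, 7, 18], 0, 7), ([14, 0, 1, 19], 0, 5), ([15, 13, 12, 16], 0, 5), ([15, 8, 5,
    6, 9, 17], 0, 7), ([15, 8, 5, 6, 7, 18], 0, 7), ([15, 8, 4, 0, 1, 19], 0, 7), ([16, 11, 10,
    17], 0, 5), ([16, 11, 10, 9, 7, 18], 0, 5), ([16, 11, 10, 9, 7, 3, 2, 19], 0, 5), ([17, 9, 7,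
    18], 0, 5), ([17, 9, 7, 3, 2, 19], 0, 5), ([18, 3, 2, 19], 0, 5), ([14, 4, 8, 13, 12, 16], 0,
    7), ([16, 11, 10, 9, 7, 18], 0, 7), ([17, 9, 7, 3, 2, 19], 0, 7)]
  tris := [(15, 17, 19)]
  news := []
  mgs := []
  br := [(8, 15, 15), (4, 15, 8), (0, 15, 4), (1, 15, 0), (9, 17, 17), (7, 17, 9), (3, 17, 7),
    (2, 17, 3)]

def ac_MMoMMo : ACert where
  gens := [([(0, 2), (1, 2), (2, 2), (3, 2), (4, 2), (5, 2), (6, 2), (7, 2), (8, 2), (9, 2), (10,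
    2), (11, 2), (12, 2), (13, 2)], [([14, 19], false), ([17, 19], false), ([19, 19], true)]),
    ([(0, 2), (1, 2), (2, 2), (3, 2), (4, 2), (5, 2), (6, 2), (7, 2), (8, 2), (9, 2), (10, 2),
    (11, 2), (12, 2), (13, 1)], [([14], false), ([17], false)]), ([(0, 2), (1, 2), (2, 1), (3,
    2), (4, 2), (5, 2), (6, 2), (7, 2), (8, 2), (9, 2), (10, 2), (11, 2), (12, 2), (13, 2)],
    [([14], false), ([17], false)]), ([(0, 2), (1, 2), (2, 1), (3, 2), (4, 2), (5, 2), (6, 2),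
    (7, 2), (8, 2), (9, 2), (10, 2), (11, 2), (12, 2), (13, 1)], [([], false)])]
  sqs := []

theorem ok_MMoMMo : clOk cl_MMoMMo ct_MMoMMo = true := by decide +kernel

theorem ak_MMoMMo : acheck ct_MMoMMo.nV cl_MMoMMo.nD (edL cl_MMoMMo) [] ct_MMoMMo.mgs (nwL ct_MMoMMo) ac_MMoMMo = true := by
  decide +kernel

theorem red_MMoMMo {V : Type} [Fintype V] {G : SimpleGraph V} {ι : Type} [Fintype ι] {F : ι → EV V}
    {i0 : ι} {m : ℕ} {x : ZMod m → V} {C : Finset V} (E : Env G ι F i0 m x C) (M : OM G F) {φ : ℕ → V}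
    (h : Occ M C φ cl_MMoMMo) : False :=
  cluster E M h ct_MMoMMo ac_MMoMMo ok_MMoMMo ak_MMoMMo

end Pool.Agent.W_fb73a4_h51
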