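import Pool.Agent.W_fb73a4_h51.SJ
import Pool.Agent.W_fb73a4_h51.ConfData

/-!
MP_fb73a4_co [T7]: the configuration `cl_MVM` is reducible: asks at distance 2, M and M.
(Certificate: helper32.)
-/

set_option autoImplicit false
set_option maxRecDepth 100000

namespace Pool.Agent.W_fb73a4_h51

open scoped Classical
open Pool.Agent.W_fb73a4_h20
open Pool.Agent.W_fb73a4_t7 (Conf Occ OM Env)
open Pool.Agent.W_fb73a4_h57 (ACert acheck)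

def ct_MVM : Ct where
  nV := 23
  dst := [[0, 1], [0, 20], [0, 21], [1, 2], [1, 21], [2, 3], [2, 22], [3, 4], [3, 7], [3, 22],
    [4, 5], [4, 7], [5, 6], [5, 19], [6, 19], [6, 20], [7, 8], [7, 9], [8, 9], [8, 11], [9, 10],
    [9, 15], [10, 13], [10, 15], [11, 12], [11, 18], [12, 17], [12, 18], [13, 14], [13, 16], [14,
    16], [14, 17], [0, 1, 2], [1, 2, 3], [1, 0, 20], [1, 2, 22], [2, 3, 4], [2, 3, 7], [2, 1,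
    21], [3, 4, 5], [3, 7, 8], [3, 7, 9], [4, 5, 6], [4, 7, 8], [4, 7, 9], [4, 5, 19], [4, 3,
    22], [5, 4, 7], [5, 6, 20], [7, 9, 10], [7, 8, 11], [7, 9, 15], [7, 3, 22], [8, 9, 10], [8,
    11, 12], [8, 9, 15], [8, 11, 18], [9, 8, 11], [9, 10, 13], [10, 13, 14], [10, 13, 16], [11,
    12, 17], [13, 10, 15], [13, 14, 17], [0, 1, 2, 3], [0, 1, 2, 22], [1, 2, 3, 4], [1, 2, 3, 7],
    [2, 3, 4, 5], [2, 3, 7, 8], [2, 3, 7, 9], [2, 1, 0, 20], [3, 4, 5, 6], [3, 7, 9, 10], [3, 7,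
    8, 11], [3, 7, 9, 15], [3, 4, 5, 19], [3, 2, 1, 21], [4, 7, 9, 10], [4, 7, 8, 11], [4, 7, 9,
    15], [4, 5, 6, 20], [5, 4, 7, 8], [5, 4, 7, 9], [5, 4, 3, 22], [6, 5, 4, 7], [7, 8, 11, 12],
    [7, 9, 10, 13], [7, 8, 11, 18], [7, 4, 5, 19], [8, 9, 10, 13], [8, 11, 12, 17], [8, 7, 3,
    22], [9, 8, 11, 12], [9, 10, 13, 14], [9, 10, 13, 16], [9, 8, 11, 18], [9, 7, 3, 22], [10, 9,
    8, 11], [10, 13, 14, 17], [11, 8, 9, 15], [14, 13, 10, 15], [0, 1, 2, 3, 4], [0, 1, 2, 3, 7],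
    [1, 2, 3, 4, 5], [1, 2, 3, 7, 8], [1, 2, 3, 7, 9], [2, 3, 4, 5, 6], [2, 3, 7, 9, 10], [2, 3,
    7, 8, 11], [2, 3, 7, 9, 15], [2, 3, 4, 5, 19], [3, 7, 8, 11, 12], [3, 7, 9, 10, 13], [3, 7,
    8, 11, 18], [3, 2, 1, 0, 20], [4, 7, 8, 11, 12], [4, 7, 9, 10, 13], [4, 7, 8, 11, 18], [4, 3,
    2, 1, 21], [5, 4, 7, 9, 10], [5, 4, 7, 8, 11], [5, 4, 7, 9, 15], [6, 5, 4, 7, 8], [6, 5, 4,
    7, 9], [6, 5, 4, 3, 22], [7, 9, 10, 13, 14], [7, 9, 10, 13, 16], [7, 8, 11, 12, 17], [7, 4,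
    5, 6, 20], [7, 3, 2, 1, 21], [8, 9, 10, 13, 14], [8, 9, 10, 13, 16], [8, 7, 4, 5, 19], [9, 8,
    11, 12, 17], [9, 7, 4, 5, 19], [10, 9, 8, 11, 12], [10, 9, 8, 11, 18], [10, 9, 7, 3, 22],
    [11, 8, 9, 10, 13], [11, 8, 7, 3, 22], [12, 11, 8, 9, 15], [0, 1, 2, 3, 4, 5], [0, 1, 2, 3,
    7, 8], [0, 1, 2, 3, 7, 9], [1, 2, 3, 4, 5, 6], [1, 2, 3, 7, 9, 10], [1, 2, 3, 7, 8, 11], [1,
    2, 3, 7, 9, 15], [1, 2, 3, 4, 5, 19], [2, 3, 7, 8, 11, 12], [2, 3, 7, 9, 10, 13], [2, 3, 7,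
    8, 11, 18], [3, 7, 9, 10, 13, 14], [3, 7, 9, 10, 13, 16], [3, 7, 8, 11, 12, 17], [4, 7, 9,
    10, 13, 14], [4, 7, 9, 10, 13, 16], [4, 7, 8, 11, 12, 17], [5, 4, 7, 8, 11, 12], [5, 4, 7, 9,
    10, 13], [5, 4, 7, 8, 11, 18], [5, 4, 3, 2, 1, 21], [6, 5, 4, 7, 9, 10], [6, 5, 4, 7, 8, 11],
    [6, 5, 4, 7, 9, 15], [8, 7, 4, 5, 6, 20], [8, 7, 3, 2, 1, 21], [9, 7, 4, 5, 6, 20], [9, 7, 3,
    2, 1, 21], [10, 9, 7, 4, 5, 19], [11, 8, 9, 10, 13, 14], [11, 8, 9, 10, 13, 16], [11, 8, 7,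
    4, 5, 19], [12, 11, 8, 9, 10, 13], [12, 11, 8, 7, 3, 22], [13, 10, 9, 8, 11, 18], [13, 10, 9,
    7, 3, 22], [0, 1, 2, 3, 4, 5, 6], [0, 1, 2, 3, 7, 9, 10], [0, 1, 2, 3, 7, 8, 11], [0, 1, 2,
    3, 7, 9, 15], [0, 1, 2, 3, 4, 5, 19], [1, 2, 3, 7, 8, 11, 12], [1, 2, 3, 7, 9, 10, 13], [1,
    2, 3, 7, 8, 11, 18], [2, 3, 7, 9, 10, 13, 14], [2, 3, 7, 9, 10, 13, 16], [2, 3, 7, 8, 11, 12,
    17], [5, 4, 7, 9, 10, 13, 14], [5, 4, 7, 9, 10, 13, 16], [5, 4, 7, 8, 11, 12, 17], [6, 5, 4,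
    7, 8, 11, 12], [6, 5, 4, 7, 9, 10, 13], [6, 5, 4, 7, 8, 11, 18], [6, 5, 4, 3, 2, 1, 21], [10,
    9, 7, 4, 5, 6, 20], [10, 9, 7, 3, 2, 1, 21], [11, 8, 7, 4, 5, 6, 20], [11, 8, 7, 3, 2, 1,
    21], [12, 11, 8, 9, 10, 13, 14], [12, 11, 8, 9, 10, 13, 16], [12, 11, 8, 7, 4, 5, 19], [13,
    10, 9, 7, 4, 5, 19], [14, 13, 10, 9, 8, 11, 18], [14, 13, 10, 9, 7, 3, 22], [0, 1, 2, 3, 7,
    8, 11, 12], [0, 1, 2, 3, 7, 9, 10, 13], [0, 1, 2, 3, 7, 8, 11, 18], [1, 2, 3, 7, 9, 10, 13,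
    14], [1, 2, 3, 7, 9, 10, 13, 16], [1, 2, 3, 7, 8, 11, 12, 17], [6, 5, 4, 7, 9, 10, 13, 14],
    [6, 5, 4, 7, 9, 10, 13, 16], [6, 5, 4, 7, 8, 11, 12, 17], [12, 11, 8, 7, 4, 5, 6, 20], [12,
    11, 8, 7, 3, 2, 1, 21], [13, 10, 9, 7, 4, 5, 6, 20], [13, 10, 9, 7, 3, 2, 1, 21], [14, 13,
    10, 9, 7, 4, 5, 19]]
  spc := [([0, 1, 2, 3, 7, 9, 10, 13, 14], 0), ([0, 1, 2, 3, 7, 9, 10, 13, 16], 0), ([0, 1, 2, 3,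
    7, 8, 11, 12, 17], 0), ([14, 13, 10, 9, 7, 4, 5, 6, 20], 0), ([14, 13, 10, 9, 7, 3, 2, 1,
    21], 0)]
  tab := [([15, 10, 13, 16], 0, 5), ([15, 9, 8, 11, 12, 17], 0, 7), ([15, 9, 8, 11, 18], 0, 8),
    ([15, 9, 7, 4, 5, 19], 0, 7), ([15, 9, 7, 4, 5, 6, 20], 0, 6), ([15, 9, 7, 3, 2, 1, 21], 0,
    2), ([15, 9, 7, 3, 22], 0, 4), ([16, 14, 17], 0, 6), ([16, 13, 10, 9, 8, 11, 18], 0, 6),
    ([16, 13, 10, 9, 7, 4, 5, 19], 0, 5), ([16, 13, 10, 9, 7, 4, 5, 6, 20], 0, 4), ([16, 13, 10,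
    9, 7, 3, 2, 1, 21], 0, 4), ([16, 13, 10, 9, 7, 3, 22], 0, 6), ([17, 12, 18], 0, 6), ([17, 12,
    11, 8, 7, 4, 5, 19], 0, 5), ([17, 12, 11, 8, 7, 4, 5, 6, 20], 0, 4), ([17, 12, 11, 8, 7, 3,
    2, 1, 21], 0, 4), ([17, 12, 11, 8, 7, 3, 22], 0, 6), ([18, 11, 8, 7, 4, 5, 19], 0, 2), ([18,
    11, 8, 7, 3, 2, 1, 0, 20], 0, 4), ([18, 11, 8, 7, 3, 2, 1, 21], 0, 5), ([18, 11, 8, 7, 3,
    22], 0, 7), ([19, 6, 20], 0, 6), ([19, 5, 4, 3, 2, 1, 21], 0, 6), ([19, 5, 4, 3, 22], 0, 8),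
    ([20, 0, 21], 0, 6), ([20, 6, 5, 4, 3, 22], 0, 7), ([21, 1, 2, 22], 0, 5), ([15, 10, 13, 14,
    17], 0, 8), ([15, 9, 7, 3, 2, 1, 21], 0, 6), ([18, 11, 8, 7, 4, 5, 6, 20], 0, 5), ([20, 0, 1,
    2, 22], 0, 8)]
  tris := []
  news := []
  mgs := [(22, 20), (17, 15)]
  br := [(10, 15, 15), (13, 15, 10), (14, 15, 13), (0, 20, 20), (1, 20, 0), (2, 20, 1)]

def ac_MVM : ACert where
  gens := [([(0, 2), (1, 2), (2, 2), (3, 2), (4, 2), (5, 2), (6, 2), (7, 2), (8, 2), (9, 2), (10,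
    2), (11, 2), (12, 2), (13, 2), (14, 2)], [([15, 15], false), ([15, 17], false), ([17, 20],
    true), ([20, 22], false), ([22, 22], false)])]
  sqs := []

theorem ok_MVM : clOk cl_MVM ct_MVM = true := by decide +kernel

theorem ak_MVM : acheck ct_MVM.nV cl_MVM.nD (edL cl_MVM) [] ct_MVM.mgs (nwL ct_MVM) ac_MVM = true := by
  decide +kernel

theorem red_MVM {V : Type} [Fintype V] {G : SimpleGraph V} {ι : Type} [Fintype ι] {F : ι → EV V}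
    {i0 : ι} {m : ℕ} {x : ZMod m → V} {C : Finset V} (E : Env G ι F i0 m x C) (M : OM G F) {φ : ℕ → V}
    (h : Occ M C φ cl_MVM) : False :=
  cluster E M h ct_MVM ac_MVM ok_MVM ak_MVM

end Pool.Agent.W_fb73a4_h51
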