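import Pool.Agent.W_fb73a4_h51.SJ
import Pool.Agent.W_fb73a4_h51.ConfData

/-!
MP_fb73a4_co [T7]: the configuration `cl_MVMMo` is reducible: asks at distance 2, M and MM (run of 2 towards the middle... see cluster).
(Certificate: helper32.)
-/

set_option autoImplicit false
set_option maxRecDepth 100000

namespace Pool.Agent.W_fb73a4_h51

open scoped Classical
open Pool.Agent.W_fb73a4_h20
open Pool.Agent.W_fb73a4_t7 (Conf Occ OM Env)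
open Pool.Agent.W_fb73a4_h57 (ACert acheck)

def ct_MVMMo : Ct where
  nV := 24
  dst := [[0, 1], [0, 21], [0, 22], [1, 2], [1, 22], [2, 3], [2, 23], [3, 4], [3, 7], [3, 23],
    [4, 5], [4, 7], [5, 6], [5, 20], [6, 20], [6, 21], [7, 8], [7, 9], [8, 9], [8, 11], [9, 10],
    [9, 16], [10, 12], [10, 16], [11, 15], [11, 19], [12, 13], [12, 17], [13, 14], [13, 17], [14,
    15], [14, 18], [15, 18], [15, 19], [0, 1, 2], [1, 2, 3], [1, 0, 21], [1, 2, 23], [2, 3, 4],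
    [2, 3, 7], [2, 1, 22], [3, 4, 5], [3, 7, 8], [3, 7, 9], [4, 5, 6], [4, 7, 8], [4, 7, 9], [4,
    5, 20], [4, 3, 23], [5, 4, 7], [5, 6, 21], [7, 9, 10], [7, 8, 11], [7, 9, 16], [7, 3, 23],
    [8, 9, 10], [8, 11, 15], [8, 9, 16], [8, 11, 19], [9, 8, 11], [9, 10, 12], [10, 12, 13], [10,
    12, 17], [11, 15, 14], [11, 15, 18], [12, 13, 14], [12, 10, 16], [13, 14, 15], [13, 14, 18],
    [14, 13, 17], [14, 15, 19], [0, 1, 2, 3], [0, 1, 2, 23], [1, 2, 3, 4], [1, 2, 3, 7], [2, 3,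
    4, 5], [2, 3, 7, 8], [2, 3, 7, 9], [2, 1, 0, 21], [3, 4, 5, 6], [3, 7, 9, 10], [3, 7, 8, 11],
    [3, 7, 9, 16], [3, 4, 5, 20], [3, 2, 1, 22], [4, 7, 9, 10], [4, 7, 8, 11], [4, 7, 9, 16], [4,
    5, 6, 21], [5, 4, 7, 8], [5, 4, 7, 9], [5, 4, 3, 23], [6, 5, 4, 7], [7, 9, 10, 12], [7, 8,
    11, 15], [7, 8, 11, 19], [7, 4, 5, 20], [8, 9, 10, 12], [8, 11, 15, 14], [8, 11, 15, 18], [8,
    7, 3, 23], [9, 10, 12, 13], [9, 8, 11, 15], [9, 10, 12, 17], [9, 8, 11, 19], [9, 7, 3, 23],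
    [10, 9, 8, 11], [10, 12, 13, 14], [11, 15, 14, 13], [11, 8, 9, 16], [12, 13, 14, 15], [12,
    13, 14, 18], [13, 12, 10, 16], [13, 14, 15, 19], [15, 14, 13, 17], [0, 1, 2, 3, 4], [0, 1, 2,
    3, 7], [1, 2, 3, 4, 5], [1, 2, 3, 7, 8], [1, 2, 3, 7, 9], [2, 3, 4, 5, 6], [2, 3, 7, 9, 10],
    [2, 3, 7, 8, 11], [2, 3, 7, 9, 16], [2, 3, 4, 5, 20], [3, 7, 9, 10, 12], [3, 7, 8, 11, 15],
    [3, 7, 8, 11, 19], [3, 2, 1, 0, 21], [4, 7, 9, 10, 12], [4, 7, 8, 11, 15], [4, 7, 8, 11, 19],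
    [4, 3, 2, 1, 22], [5, 4, 7, 9, 10], [5, 4, 7, 8, 11], [5, 4, 7, 9, 16], [6, 5, 4, 7, 8], [6,
    5, 4, 7, 9], [6, 5, 4, 3, 23], [7, 9, 10, 12, 13], [7, 8, 11, 15, 14], [7, 9, 10, 12, 17],
    [7, 8, 11, 15, 18], [7, 4, 5, 6, 21], [7, 3, 2, 1, 22], [8, 11, 15, 14, 13], [8, 9, 10, 12,
    17], [8, 7, 4, 5, 20], [9, 8, 11, 15, 14], [9, 8, 11, 15, 18], [9, 7, 4, 5, 20], [10, 9, 8,
    11, 15], [10, 12, 13, 14, 18], [10, 9, 8, 11, 19], [10, 9, 7, 3, 23], [11, 8, 9, 10, 12],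
    [11, 15, 14, 13, 17], [11, 8, 7, 3, 23], [12, 13, 14, 15, 19], [14, 13, 12, 10, 16], [15, 11,
    8, 9, 16], [0, 1, 2, 3, 4, 5], [0, 1, 2, 3, 7, 8], [0, 1, 2, 3, 7, 9], [1, 2, 3, 4, 5, 6],
    [1, 2, 3, 7, 9, 10], [1, 2, 3, 7, 8, 11], [1, 2, 3, 7, 9, 16], [1, 2, 3, 4, 5, 20], [2, 3, 7,
    9, 10, 12], [2, 3, 7, 8, 11, 15], [2, 3, 7, 8, 11, 19], [3, 7, 9, 10, 12, 13], [3, 7, 8, 11,
    15, 14], [3, 7, 9, 10, 12, 17], [3, 7, 8, 11, 15, 18], [4, 7, 9, 10, 12, 13], [4, 7, 8, 11,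
    15, 14], [4, 7, 9, 10, 12, 17], [4, 7, 8, 11, 15, 18], [5, 4, 7, 9, 10, 12], [5, 4, 7, 8, 11,
    15], [5, 4, 7, 8, 11, 19], [5, 4, 3, 2, 1, 22], [6, 5, 4, 7, 9, 10], [6, 5, 4, 7, 8, 11], [6,
    5, 4, 7, 9, 16], [8, 7, 4, 5, 6, 21], [8, 7, 3, 2, 1, 22], [9, 7, 4, 5, 6, 21], [9, 7, 3, 2,
    1, 22], [10, 9, 7, 4, 5, 20], [11, 8, 7, 4, 5, 20], [12, 10, 9, 7, 3, 23], [15, 11, 8, 7, 3,
    23], [0, 1, 2, 3, 4, 5, 6], [0, 1, 2, 3, 7, 9, 10], [0, 1, 2, 3, 7, 8, 11], [0, 1, 2, 3, 7,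
    9, 16], [0, 1, 2, 3, 4, 5, 20], [1, 2, 3, 7, 9, 10, 12], [1, 2, 3, 7, 8, 11, 15], [1, 2, 3,
    7, 8, 11, 19], [2, 3, 7, 9, 10, 12, 13], [2, 3, 7, 8, 11, 15, 14], [2, 3, 7, 9, 10, 12, 17],
    [2, 3, 7, 8, 11, 15, 18], [5, 4, 7, 9, 10, 12, 13], [5, 4, 7, 8, 11, 15, 14], [5, 4, 7, 9,
    10, 12, 17], [5, 4, 7, 8, 11, 15, 18], [6, 5, 4, 7, 9, 10, 12], [6, 5, 4, 7, 8, 11, 15], [6,
    5, 4, 7, 8, 11, 19], [6, 5, 4, 3, 2, 1, 22], [10, 9, 7, 4, 5, 6, 21], [10, 9, 7, 3, 2, 1,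
    22], [11, 8, 7, 4, 5, 6, 21], [11, 8, 7, 3, 2, 1, 22], [12, 10, 9, 7, 4, 5, 20], [13, 12, 10,
    9, 7, 3, 23], [14, 15, 11, 8, 7, 3, 23], [15, 11, 8, 7, 4, 5, 20], [0, 1, 2, 3, 7, 9, 10,
    12], [0, 1, 2, 3, 7, 8, 11, 15], [0, 1, 2, 3, 7, 8, 11, 19], [1, 2, 3, 7, 9, 10, 12, 13], [1,
    2, 3, 7, 8, 11, 15, 14], [1, 2, 3, 7, 9, 10, 12, 17], [1, 2, 3, 7, 8, 11, 15, 18], [6, 5, 4,
    7, 9, 10, 12, 13], [6, 5, 4, 7, 8, 11, 15, 14], [6, 5, 4, 7, 9, 10, 12, 17], [6, 5, 4, 7, 8,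
    11, 15, 18], [12, 10, 9, 7, 4, 5, 6, 21], [12, 10, 9, 7, 3, 2, 1, 22], [13, 12, 10, 9, 7, 4,
    5, 20], [14, 15, 11, 8, 7, 4, 5, 20], [15, 11, 8, 7, 4, 5, 6, 21], [15, 11, 8, 7, 3, 2, 1,
    22]]
  spc := [([0, 1, 2, 3, 7, 9, 10, 12, 13], 0), ([0, 1, 2, 3, 7, 8, 11, 15, 14], 0), ([0, 1, 2, 3,
    7, 9, 10, 12, 17], 0), ([0, 1, 2, 3, 7, 8, 11, 15, 18], 0), ([13, 12, 10, 9, 7, 4, 5, 6, 21],
    0), ([13, 12, 10, 9, 7, 3, 2, 1, 22], 0), ([14, 15, 11, 8, 7, 4, 5, 6, 21], 0), ([14, 15, 11,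
    8, 7, 3, 2, 1, 22], 0)]
  tab := [([16, 10, 12, 17], 0, 5), ([16, 9, 8, 11, 15, 18], 0, 7), ([16, 9, 8, 11, 19], 0, 8),
    ([16, 9, 7, 4, 5, 20], 0, 7), ([16, 9, 7, 4, 5, 6, 21], 0, 6), ([16, 9, 7, 3, 2, 1, 22], 0,
    2), ([16, 9, 7, 3, 23], 0, 4), ([17, 13, 14, 18], 0, 5), ([17, 12, 10, 9, 8, 11, 19], 0, 6),
    ([17, 12, 10, 9, 7, 4, 5, 20], 0, 5), ([17, 12, 10, 9, 7, 4, 5, 6, 21], 0, 4), ([17, 12, 10,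
    9, 7, 3, 2, 1, 22], 0, 4), ([17, 12, 10, 9, 7, 3, 23], 0, 6), ([18, 15, 19], 0, 6), ([18, 15,
    11, 8, 7, 4, 5, 20], 0, 5), ([18, 15, 11, 8, 7, 4, 5, 6, 21], 0, 4), ([18, 15, 11, 8, 7, 3,
    2, 1, 22], 0, 4), ([18, 15, 11, 8, 7, 3, 23], 0, 6), ([19, 11, 8, 7, 4, 5, 20], 0, 2), ([19,
    11, 8, 7, 3, 2, 1, 0, 21], 0, 4), ([19, 11, 8, 7, 3, 2, 1, 22], 0, 5), ([19, 11, 8, 7, 3,
    23], 0, 7), ([20, 6, 21], 0, 6), ([20, 5, 4, 3, 2, 1, 22], 0, 6), ([20, 5, 4, 3, 23], 0, 8),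
    ([21, 0, 22], 0, 6), ([21, 6, 5, 4, 3, 23], 0, 7), ([22, 1, 2, 23], 0, 5), ([16, 9, 7, 3, 2,
    1, 22], 0, 6), ([17, 13, 14, 15, 19], 0, 8), ([19, 11, 8, 7, 4, 5, 6, 21], 0, 5), ([21, 0, 1,
    2, 23], 0, 8)]
  tris := []
  news := []
  mgs := [(23, 21), (19, 16)]
  br := [(9, 16, 16), (8, 16, 9), (11, 16, 8), (0, 21, 21), (1, 21, 0), (2, 21, 1)]

def ac_MVMMo : ACert where
  gens := [([(0, 2), (1, 2), (2, 2), (3, 2), (4, 2), (5, 2), (6, 2), (7, 2), (8, 2), (9, 2), (10,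
    2), (11, 2), (12, 2), (13, 2), (14, 2), (15, 2)], [([16, 16], false), ([18, 18], true), ([16,
    19], false), ([19, 19], false), ([18, 21], true), ([21, 23], false), ([23, 23], false)])]
  sqs := []

theorem ok_MVMMo : clOk cl_MVMMo ct_MVMMo = true := by decide +kernel

theorem ak_MVMMo : acheck ct_MVMMo.nV cl_MVMMo.nD (edL cl_MVMMo) [] ct_MVMMo.mgs (nwL ct_MVMMo) ac_MVMMo = true := by
  decide +kernel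

theorem red_MVMMo {V : Type} [Fintype V] {G : SimpleGraph V} {ι : Type} [Fintype ι] {F : ι → EV V}
    {i0 : ι} {m : ℕ} {x : ZMod m → V} {C : Finset V} (E : Env G ι F i0 m x C) (M : OM G F) {φ : ℕ → V}
    (h : Occ M C φ cl_MVMMo) : False :=
  cluster E M h ct_MVMMo ac_MVMMo ok_MVMMo ak_MVMMo

end Pool.Agent.W_fb73a4_h51
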