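import Pool.Agent.W_fb73a4_h51.SJ
import Pool.Agent.W_fb73a4_h51.ConfData

/-!
MP_fb73a4_co [T7]: the configuration `cl_P10` is reducible: covers adjacent asks M-MMi, MMi-MMi and M-V-MMi.
(Certificate: helper32.)
-/

set_option autoImplicit false
set_option maxRecDepth 100000

namespace Pool.Agent.W_fb73a4_h51

open scoped Classical
open Pool.Agent.W_fb73a4_h20
open Pool.Agent.W_fb73a4_t7 (Conf Occ OM Env)
open Pool.Agent.W_fb73a4_h57 (ACert acheck)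

def ct_P10 : Ct where
  nV := 16
  dst := [[0, 1], [0, 14], [0, 15], [1, 2], [1, 4], [1, 14], [2, 3], [2, 4], [3, 5], [3, 10], [4,
    6], [4, 13], [5, 8], [5, 10], [6, 7], [6, 13], [7, 9], [7, 12], [8, 9], [8, 11], [9, 11], [9,
    12], [0, 1, 2], [0, 1, 4], [1, 2, 3], [1, 4, 6], [1, 4, 13], [1, 0, 15], [2, 3, 5], [2, 4,
    6], [2, 3, 10], [2, 4, 13], [2, 1, 14], [3, 2, 4], [3, 5, 8], [4, 6, 7], [4, 1, 14], [5, 8,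
    9], [5, 8, 11], [6, 7, 9], [6, 7, 12], [7, 9, 8], [7, 9, 11], [7, 6, 13], [8, 5, 10], [8, 9,
    12], [0, 1, 2, 3], [0, 1, 4, 6], [0, 1, 4, 13], [1, 2, 3, 5], [1, 4, 6, 7], [1, 2, 3, 10],
    [2, 4, 6, 7], [2, 3, 5, 8], [2, 1, 0, 15], [3, 2, 4, 6], [3, 5, 8, 9], [3, 5, 8, 11], [3, 2,
    4, 13], [3, 2, 1, 14], [4, 2, 3, 5], [4, 6, 7, 9], [4, 2, 3, 10], [4, 6, 7, 12], [4, 1, 0,
    15], [5, 8, 9, 7], [5, 8, 9, 12], [6, 7, 9, 8], [6, 7, 9, 11], [6, 4, 1, 14], [9, 8, 5, 10],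
    [9, 7, 6, 13], [0, 1, 2, 3, 5], [0, 1, 4, 6, 7], [0, 1, 2, 3, 10], [1, 2, 3, 5, 8], [1, 4, 6,
    7, 9], [1, 4, 6, 7, 12], [2, 4, 6, 7, 9], [2, 3, 5, 8, 11], [2, 4, 6, 7, 12], [3, 2, 4, 6,
    7], [3, 5, 8, 9, 12], [3, 2, 1, 0, 15], [4, 6, 7, 9, 8], [4, 6, 7, 9, 11], [5, 3, 2, 4, 6],
    [5, 3, 2, 4, 13], [5, 3, 2, 1, 14], [6, 4, 2, 3, 10], [6, 4, 1, 0, 15], [7, 9, 8, 5, 10], [7,
    6, 4, 1, 14], [8, 9, 7, 6, 13], [0, 1, 2, 3, 5, 8], [0, 1, 4, 6, 7, 9], [0, 1, 4, 6, 7, 12],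
    [1, 4, 6, 7, 9, 11], [5, 3, 2, 1, 0, 15], [7, 6, 4, 1, 0, 15], [8, 5, 3, 2, 1, 14], [9, 7, 6,
    4, 1, 14], [0, 1, 4, 6, 7, 9, 11], [8, 5, 3, 2, 1, 0, 15], [9, 7, 6, 4, 1, 0, 15]]
  spc := []
  tab := [([10, 5, 8, 11], 0, 5), ([10, 3, 2, 4, 6, 7, 12], 0, 6), ([10, 3, 2, 4, 13], 0, 8),
    ([10, 3, 2, 1, 14], 0, 8), ([10, 3, 2, 1, 0, 15], 0, 3), ([11, 9, 12], 0, 6), ([11, 9, 7, 6,
    13], 0, 6), ([11, 8, 5, 3, 2, 1, 14], 0, 6), ([11, 8, 5, 3, 2, 1, 0, 15], 0, 5), ([12, 7, 6,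
    13], 0, 5), ([12, 7, 6, 4, 1, 14], 0, 5), ([12, 7, 6, 4, 1, 0, 15], 0, 5), ([13, 4, 1, 14],
    0, 5), ([13, 4, 1, 0, 15], 0, 5), ([14, 0, 15], 0, 6), ([10, 5, 8, 9, 12], 0, 8), ([11, 9, 7,
    6, 13], 0, 8), ([12, 7, 6, 4, 1, 14], 0, 7), ([12, 7, 6, 4, 1, 0, 15], 0, 6), ([13, 4, 1, 0,
    15], 0, 8)]
  tris := []
  news := []
  mgs := [(15, 13), (12, 10)]
  br := [(5, 10, 10), (8, 10, 5), (9, 10, 8), (4, 13, 13), (1, 13, 4), (0, 13, 1)]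

def ac_P10 : ACert where
  gens := [([(0, 2), (1, 2), (2, 2), (3, 2), (4, 2), (5, 2), (6, 2), (7, 2), (8, 2), (9, 2)],
    [([11, 11], false), ([11, 12], false), ([12, 12], true), ([11, 13], false), ([12, 13], true),
    ([13, 13], true), ([10, 15], false), ([12, 15], false)]), ([(0, 2), (1, 2), (2, 2), (3, 2),
    (4, 2), (5, 2), (6, 1), (7, 2), (8, 2), (9, 2)], [([10], true), ([11], true), ([12], false),
    ([13], true)]), ([(0, 2), (1, 2), (2, 2), (3, 2), (4, 2), (5, 1), (6, 2), (7, 2), (8, 2), (9,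
    2)], [([15], false)]), ([(0, 2), (1, 2), (2, 2), (3, 2), (4, 2), (5, 1), (6, 1), (7, 2), (8,
    2), (9, 2)], [([], true)])]
  sqs := []

theorem ok_P10 : clOk cl_P10 ct_P10 = true := by decide +kernel

theorem ak_P10 : acheck ct_P10.nV cl_P10.nD (edL cl_P10) [] ct_P10.mgs (nwL ct_P10) ac_P10 = true := by
  decide +kernel

theorem red_P10 {V : Type} [Fintype V] {G : SimpleGraph V} {ι : Type} [Fintype ι] {F : ι → EV V}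
    {i0 : ι} {m : ℕ} {x : ZMod m → V} {C : Finset V} (E : Env G ι F i0 m x C) (M : OM G F) {φ : ℕ → V}
    (h : Occ M C φ cl_P10) : False :=
  cluster E M h ct_P10 ac_P10 ok_P10 ak_P10

end Pool.Agent.W_fb73a4_h51
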