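import Pool.Agent.W_fb73a4_h51.SJ
import Pool.Agent.W_fb73a4_h51.ConfData

/-!
MP_fb73a4_co [T7]: the configuration `cl_P9` is reducible: covers MM a=3 (e=3), adjacent asks M-MMo and MMi-MMo.
(Certificate: helper32.)
-/

set_option autoImplicit false
set_option maxRecDepth 100000

namespace Pool.Agent.W_fb73a4_h51

open scoped Classical
open Pool.Agent.W_fb73a4_h20
open Pool.Agent.W_fb73a4_t7 (Conf Occ OM Env)
open Pool.Agent.W_fb73a4_h57 (ACert acheck)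

def ct_P9 : Ct where
  nV := 14
  dst := [[0, 1], [0, 6], [0, 13], [1, 2], [1, 12], [1, 13], [2, 3], [2, 12], [3, 4], [3, 11],
    [4, 5], [4, 11], [5, 8], [5, 10], [6, 7], [6, 8], [7, 8], [7, 9], [8, 10], [0, 1, 2], [0, 6,
    7], [0, 6, 8], [0, 1, 12], [1, 2, 3], [1, 0, 6], [2, 3, 4], [2, 3, 11], [2, 1, 13], [3, 4,
    5], [3, 2, 12], [4, 5, 8], [4, 5, 10], [5, 8, 6], [5, 8, 7], [5, 4, 11], [6, 7, 9], [6, 8,
    10], [6, 0, 13], [7, 8, 10], [8, 7, 9], [0, 1, 2, 3], [0, 6, 8, 5], [0, 6, 7, 9], [0, 6, 8,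
    10], [1, 2, 3, 4], [1, 0, 6, 7], [1, 0, 6, 8], [1, 2, 3, 11], [2, 3, 4, 5], [2, 1, 0, 6], [3,
    4, 5, 8], [3, 4, 5, 10], [3, 2, 1, 13], [4, 5, 8, 6], [4, 5, 8, 7], [4, 3, 2, 12], [5, 8, 7,
    9], [6, 0, 1, 12], [7, 6, 0, 13], [8, 5, 4, 11], [8, 6, 0, 13], [0, 1, 2, 3, 4], [0, 1, 2, 3,
    11], [1, 2, 3, 4, 5], [1, 0, 6, 7, 9], [1, 0, 6, 8, 10], [2, 1, 0, 6, 7], [2, 1, 0, 6, 8],
    [2, 3, 4, 5, 10], [3, 2, 1, 0, 6], [3, 4, 5, 8, 7], [4, 5, 8, 7, 9], [4, 3, 2, 1, 13], [5, 4,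
    3, 2, 12], [5, 8, 6, 0, 13], [6, 8, 5, 4, 11], [7, 8, 5, 4, 11], [7, 6, 0, 1, 12], [8, 6, 0,
    1, 12], [2, 1, 0, 6, 7, 9], [3, 4, 5, 8, 7, 9]]
  spc := []
  tab := [([9, 7, 8, 10], 0, 5), ([9, 7, 8, 5, 4, 11], 0, 5), ([9, 7, 8, 5, 4, 3, 2, 12], 0, 5),
    ([9, 7, 6, 0, 13], 0, 4), ([10, 5, 4, 11], 0, 5), ([10, 8, 6, 0, 1, 12], 0, 7), ([10, 8, 6,
    0, 13], 0, 8), ([11, 3, 2, 12], 0, 5), ([11, 4, 5, 8, 6, 0, 13], 0, 6), ([12, 1, 13], 0, 6),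
    ([9, 7, 8, 5, 4, 11], 0, 7), ([9, 7, 6, 0, 1, 12], 0, 7), ([11, 3, 2, 1, 13], 0, 8)]
  tris := []
  news := [(12, 9)]
  mgs := []
  br := [(1, 12, 12), (0, 12, 1), (6, 12, 0), (7, 12, 6)]

def ac_P9 : ACert where
  gens := [([(0, 2), (1, 2), (2, 2), (3, 2), (4, 2), (5, 2), (6, 2), (7, 2), (8, 2)], [([],
    false)])]
  sqs := []

theorem ok_P9 : clOk cl_P9 ct_P9 = true := by decide +kernel

theorem ak_P9 : acheck ct_P9.nV cl_P9.nD (edL cl_P9) [] ct_P9.mgs (nwL ct_P9) ac_P9 = true := by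
  decide +kernel

theorem red_P9 {V : Type} [Fintype V] {G : SimpleGraph V} {ι : Type} [Fintype ι] {F : ι → EV V}
    {i0 : ι} {m : ℕ} {x : ZMod m → V} {C : Finset V} (E : Env G ι F i0 m x C) (M : OM G F) {φ : ℕ → V}
    (h : Occ M C φ cl_P9) : False :=
  cluster E M h ct_P9 ac_P9 ok_P9 ak_P9

end Pool.Agent.W_fb73a4_h51
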