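import Pool.Agent.W_fb73a4_h51.SJ
import Pool.Agent.W_fb73a4_h51.ConfData

/-!
MP_fb73a4_co [T7]: the configuration `cl_TET` is reducible: tetrad T=T-T=T (v1..v4).
(Certificate: helper32.)
-/

set_option autoImplicit false
set_option maxRecDepth 100000

namespace Pool.Agent.W_fb73a4_h51

open scoped Classical
open Pool.Agent.W_fb73a4_h20
open Pool.Agent.W_fb73a4_t7 (Conf Occ OM Env)
open Pool.Agent.W_fb73a4_h57 (ACert acheck)

def ct_TET : Ct where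
  nV := 8
  dst := [[0, 1], [0, 6], [0, 7], [1, 2], [1, 6], [2, 3], [2, 5], [3, 4], [3, 5], [0, 1, 2], [1,
    2, 3], [1, 2, 5], [1, 0, 7], [2, 3, 4], [2, 1, 6], [0, 1, 2, 3], [0, 1, 2, 5], [1, 2, 3, 4],
    [2, 1, 0, 7], [3, 2, 1, 6], [0, 1, 2, 3, 4], [3, 2, 1, 0, 7]]
  spc := []
  tab := [([4, 3, 5], 0, 6), ([4, 3, 2, 1, 6], 0, 6), ([4, 3, 2, 1, 0, 7], 0, 3), ([5, 2, 1, 6],
    0, 5), ([5, 2, 1, 0, 7], 0, 5), ([6, 0, 7], 0, 6), ([4, 3, 2, 1, 6], 0, 8), ([5, 2, 1, 0, 7],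
    0, 8)]
  tris := []
  news := []
  mgs := [(7, 5)]
  br := [(2, 5, 5), (1, 5, 2), (0, 5, 1)]

def ac_TET : ACert where
  gens := [([(0, 2), (1, 2), (2, 2), (3, 2)], [([7], false)]), ([(0, 2), (1, 2), (2, 2), (3, 1)],
    [([], true)])]
  sqs := []

theorem ok_TET : clOk cl_TET ct_TET = true := by decide +kernel

theorem ak_TET : acheck ct_TET.nV cl_TET.nD (edL cl_TET) [] ct_TET.mgs (nwL ct_TET) ac_TET = true := by
  decide +kernel

theorem red_TET {V : Type} [Fintype V] {G : SimpleGraph V} {ι : Type} [Fintype ι] {F : ι → EV V}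
    {i0 : ι} {m : ℕ} {x : ZMod m → V} {C : Finset V} (E : Env G ι F i0 m x C) (M : OM G F) {φ : ℕ → V}
    (h : Occ M C φ cl_TET) : False :=
  cluster E M h ct_TET ac_TET ok_TET ak_TET

end Pool.Agent.W_fb73a4_h51
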