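import Pool.Agent.W_fb73a4_h51.SJ
import Pool.Agent.W_fb73a4_h51.ConfData

/-!
MP_fb73a4_co [T7]: the configuration `cl_X1M` is reducible: M + X1 (one new vertex).
(Certificate: helper32.)
-/

set_option autoImplicit false
set_option maxRecDepth 100000

namespace Pool.Agent.W_fb73a4_h51

open scoped Classical
open Pool.Agent.W_fb73a4_h20
open Pool.Agent.W_fb73a4_t7 (Conf Occ OM Env)
open Pool.Agent.W_fb73a4_h57 (ACert acheck)

def ct_X1M : Ct where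
  nV := 21
  dst := [[0, 1], [0, 19], [0, 20], [1, 2], [1, 20], [2, 3], [2, 9], [3, 4], [3, 9], [3, 14], [4,
    5], [4, 14], [5, 6], [5, 15], [6, 7], [6, 15], [6, 16], [7, 8], [7, 16], [8, 10], [8, 17],
    [9, 10], [9, 11], [10, 11], [10, 17], [11, 12], [12, 13], [12, 18], [13, 18], [13, 19], [0,
    1, 2], [1, 2, 3], [1, 2, 9], [1, 0, 19], [2, 3, 4], [2, 9, 10], [2, 9, 11], [2, 3, 14], [2,
    1, 20], [3, 4, 5], [3, 9, 10], [3, 9, 11], [4, 5, 6], [4, 3, 9], [4, 5, 15], [5, 6, 7], [5,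
    4, 14], [5, 6, 16], [6, 7, 8], [7, 8, 10], [7, 6, 15], [7, 8, 17], [8, 10, 9], [8, 10, 11],
    [8, 7, 16], [9, 11, 12], [9, 3, 14], [9, 10, 17], [10, 11, 12], [11, 12, 13], [11, 10, 17],
    [11, 12, 18], [12, 13, 19], [0, 1, 2, 3], [0, 1, 2, 9], [1, 2, 3, 4], [1, 2, 9, 10], [1, 2,
    9, 11], [1, 2, 3, 14], [2, 3, 4, 5], [2, 9, 10, 8], [2, 9, 11, 12], [2, 9, 10, 17], [2, 1, 0,
    19], [3, 4, 5, 6], [3, 9, 10, 8], [3, 9, 11, 12], [3, 4, 5, 15], [3, 9, 10, 17], [3, 2, 1,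
    20], [4, 5, 6, 7], [4, 3, 9, 10], [4, 3, 9, 11], [4, 5, 6, 16], [5, 6, 7, 8], [5, 4, 3, 9],
    [6, 7, 8, 10], [6, 5, 4, 14], [6, 7, 8, 17], [7, 8, 10, 9], [7, 8, 10, 11], [8, 10, 11, 12],
    [8, 7, 6, 15], [9, 11, 12, 13], [9, 11, 12, 18], [9, 2, 1, 20], [10, 11, 12, 13], [10, 9, 3,
    14], [10, 8, 7, 16], [10, 11, 12, 18], [11, 9, 3, 14], [11, 12, 13, 19], [12, 11, 10, 17],
    [0, 1, 2, 3, 4], [0, 1, 2, 9, 10], [0, 1, 2, 9, 11], [0, 1, 2, 3, 14], [1, 2, 3, 4, 5], [1,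
    2, 9, 10, 8], [1, 2, 9, 11, 12], [1, 2, 9, 10, 17], [2, 3, 4, 5, 6], [2, 9, 10, 8, 7], [2, 9,
    11, 12, 13], [2, 3, 4, 5, 15], [2, 9, 11, 12, 18], [3, 4, 5, 6, 7], [3, 9, 11, 12, 13], [3,
    4, 5, 6, 16], [3, 9, 11, 12, 18], [3, 2, 1, 0, 19], [4, 5, 6, 7, 8], [4, 3, 9, 11, 12], [4,
    3, 9, 10, 17], [4, 3, 2, 1, 20], [5, 6, 7, 8, 10], [5, 4, 3, 9, 11], [5, 6, 7, 8, 17], [6, 7,
    8, 10, 9], [6, 7, 8, 10, 11], [7, 8, 10, 11, 12], [7, 6, 5, 4, 14], [8, 10, 11, 12, 13], [8,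
    10, 9, 3, 14], [8, 10, 11, 12, 18], [9, 3, 4, 5, 15], [9, 10, 8, 7, 16], [9, 2, 1, 0, 19],
    [10, 8, 7, 6, 15], [10, 11, 12, 13, 19], [10, 9, 2, 1, 20], [11, 10, 8, 7, 16], [11, 9, 2, 1,
    20], [12, 11, 9, 3, 14], [13, 12, 11, 10, 17], [0, 1, 2, 3, 4, 5], [0, 1, 2, 9, 10, 8], [0,
    1, 2, 9, 11, 12], [0, 1, 2, 9, 10, 17], [1, 2, 3, 4, 5, 6], [1, 2, 9, 10, 8, 7], [1, 2, 9,
    11, 12, 13], [1, 2, 3, 4, 5, 15], [1, 2, 9, 11, 12, 18], [2, 3, 4, 5, 6, 16], [4, 3, 9, 11,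
    12, 13], [4, 3, 9, 11, 12, 18], [4, 3, 2, 1, 0, 19], [5, 4, 3, 9, 11, 12], [5, 4, 3, 2, 1,
    20], [6, 7, 8, 10, 11, 12], [7, 8, 10, 11, 12, 13], [7, 8, 10, 11, 12, 18], [8, 10, 11, 12,
    13, 19], [8, 10, 9, 2, 1, 20], [11, 9, 3, 4, 5, 15], [12, 11, 10, 8, 7, 16], [12, 11, 9, 2,
    1, 20], [13, 12, 11, 9, 3, 14], [0, 1, 2, 3, 4, 5, 6], [0, 1, 2, 9, 10, 8, 7], [0, 1, 2, 9,
    11, 12, 13], [0, 1, 2, 3, 4, 5, 15], [0, 1, 2, 9, 11, 12, 18], [1, 2, 3, 4, 5, 6, 16], [5, 4,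
    3, 9, 11, 12, 13], [5, 4, 3, 9, 11, 12, 18], [5, 4, 3, 2, 1, 0, 19], [6, 7, 8, 10, 11, 12,
    13], [6, 7, 8, 10, 11, 12, 18], [6, 5, 4, 3, 2, 1, 20], [7, 8, 10, 11, 12, 13, 19], [7, 8,
    10, 9, 2, 1, 20], [12, 11, 9, 3, 4, 5, 15], [13, 12, 11, 10, 8, 7, 16], [13, 12, 11, 9, 2, 1,
    20], [0, 1, 2, 3, 4, 5, 6, 16], [6, 7, 8, 10, 11, 12, 13, 19], [13, 12, 11, 9, 3, 4, 5, 15]]
  spc := []
  tab := [([14, 4, 5, 15], 0, 5), ([14, 3, 9, 10, 8, 7, 16], 0, 6), ([14, 3, 9, 10, 17], 0, 8),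
    ([14, 3, 9, 11, 12, 18], 0, 7), ([14, 3, 9, 11, 12, 13, 19], 0, 6), ([14, 3, 2, 1, 20], 0,
    4), ([15, 6, 16], 0, 6), ([15, 6, 7, 8, 17], 0, 6), ([15, 5, 4, 3, 9, 11, 12, 18], 0, 5),
    ([15, 5, 4, 3, 2, 1, 0, 19], 0, 5), ([15, 5, 4, 3, 2, 1, 20], 0, 6), ([16, 7, 8, 17], 0, 5),
    ([16, 7, 8, 10, 11, 12, 18], 0, 5), ([16, 7, 8, 10, 11, 12, 13, 19], 0, 5), ([16, 6, 5, 4, 3,
    2, 1, 20], 0, 5), ([17, 10, 11, 12, 18], 0, 4), ([17, 10, 9, 2, 1, 0, 19], 0, 6), ([17, 10,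
    9, 2, 1, 20], 0, 7), ([18, 13, 19], 0, 6), ([18, 12, 11, 9, 2, 1, 20], 0, 6), ([19, 0, 20],
    0, 6), ([14, 4, 5, 6, 16], 0, 8), ([14, 3, 2, 1, 0, 19], 0, 7), ([15, 6, 7, 8, 17], 0, 8),
    ([16, 7, 8, 10, 11, 12, 18], 0, 6), ([17, 10, 11, 12, 13, 19], 0, 7)]
  tris := [(0, 17, 20)]
  news := [(0, 19)]
  mgs := [(14, 16)]
  br := [(0, 0, 0), (6, 16, 16), (5, 16, 6), (4, 16, 5), (10, 17, 17), (9, 17, 10), (2, 17, 9),
    (1, 17, 2)]

def ac_X1M : ACert where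
  gens := [([(0, 2), (1, 2), (2, 2), (3, 2), (4, 2), (5, 2), (6, 2), (7, 2), (8, 2), (9, 2), (10,
    2), (11, 2), (12, 2), (13, 2)], [([14, 15, 15, 16], false), ([14, 14, 16, 16], false), ([14,
    15, 16, 16], true), ([15, 15, 16, 16], true), ([14, 15, 15, 17], false), ([14, 14, 16, 17],
    false), ([14, 15, 16, 17], true), ([15, 15, 16, 17], false), ([14, 16, 16, 17], false), ([15,
    16, 16, 17], false), ([14, 14, 17, 17], false), ([14, 15, 17, 17], false), ([14, 14, 15, 19],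
    false), ([14, 15, 15, 19], true), ([14, 14, 16, 19], true), ([14, 15, 16, 19], true), ([14,
    16, 16, 19], false), ([15, 16, 16, 19], true), ([14, 14, 17, 19], false), ([15, 15, 17, 19],
    false), ([14, 16, 17, 19], false), ([14, 14, 15, 20], true), ([14, 14, 16, 20], false), ([14,
    15, 16, 20], false), ([14, 14, 17, 20], true), ([14, 16, 17, 20], true), ([16, 16, 17, 20],
    true), ([16, 17, 17, 20], true), ([14, 14, 19, 20], true), ([14, 16, 19, 20], true), ([14,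
    17, 19, 20], true), ([16, 17, 19, 20], true), ([17, 17, 19, 20], false), ([16, 19, 19, 20],
    true), ([17, 19, 19, 20], false), ([14, 14, 20, 20], true), ([14, 15, 20, 20], false), ([14,
    16, 20, 20], false), ([14, 17, 20, 20], true), ([14, 14, 15, 0], false), ([14, 15, 15, 0],
    true), ([14, 14, 16, 0], false), ([14, 15, 16, 0], false), ([14, 16, 16, 0], true), ([14, 15,
    17, 0], true), ([14, 16, 17, 0], false), ([14, 17, 17, 0], false), ([15, 17, 17, 0], true),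
    ([16, 17, 17, 0], false), ([14, 14, 19, 0], false), ([14, 15, 19, 0], true), ([14, 16, 19,
    0], false), ([15, 17, 19, 0], false), ([17, 17, 19, 0], true), ([16, 19, 19, 0], false),
    ([17, 19, 19, 0], true), ([14, 15, 20, 0], true), ([14, 16, 20, 0], false), ([15, 16, 20, 0],
    true), ([16, 16, 20, 0], false), ([14, 19, 20, 0], false), ([16, 19, 20, 0], false), ([17,
    19, 20, 0], false), ([14, 20, 20, 0], true), ([15, 20, 20, 0], true), ([16, 20, 20, 0],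
    true), ([17, 20, 20, 0], false), ([15, 15, 0, 0], true), ([17, 17, 0, 0], false), ([14, 19,
    0, 0], true), ([15, 19, 0, 0], false), ([16, 19, 0, 0], false), ([15, 20, 0, 0], true), ([16,
    20, 0, 0], true), ([20, 20, 0, 0], true)]), ([(0, 1), (1, 2), (2, 2), (3, 2), (4, 2), (5, 2),
    (6, 2), (7, 2), (8, 2), (9, 2), (10, 2), (11, 2), (12, 2), (13, 2)], [([14, 14, 15], true),
    ([14, 16, 16], false), ([14, 14, 17], true), ([14, 15, 17], false), ([14, 16, 17], true),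
    ([16, 16, 17], true), ([14, 17, 17], true), ([14, 14, 19], false), ([14, 15, 19], true),
    ([14, 17, 19], false), ([14, 15, 0], true), ([14, 16, 0], true), ([15, 17, 0], true), ([17,
    17, 0], false), ([14, 19, 0], false), ([15, 19, 0], false), ([17, 19, 0], true), ([15, 0, 0],
    true), ([16, 0, 0], true), ([19, 0, 0], false)]), ([(0, 2), (1, 2), (2, 2), (3, 2), (4, 2),
    (5, 2), (6, 2), (7, 2), (8, 2), (9, 2), (10, 2), (11, 1), (12, 2), (13, 2)], [([14, 14, 15],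
    false), ([14, 14, 16], false), ([14, 14, 17], false), ([14, 14, 19], false), ([14, 14, 20],
    true), ([14, 15, 20], true), ([14, 17, 20], true), ([14, 20, 20], false), ([14, 14, 0],
    false), ([14, 15, 0], true), ([14, 16, 0], false), ([14, 17, 0], true), ([14, 19, 0], false),
    ([14, 20, 0], true), ([15, 20, 0], false), ([17, 20, 0], false), ([20, 20, 0], true), ([16,
    0, 0], false), ([19, 0, 0], false), ([20, 0, 0], true)]), ([(0, 2), (1, 2), (2, 1), (3, 2),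
    (4, 2), (5, 2), (6, 2), (7, 2), (8, 2), (9, 2), (10, 2), (11, 2), (12, 2), (13, 2)], [([14,
    14, 15], true), ([14, 14, 16], false), ([14, 14, 20], true), ([14, 15, 20], false), ([14, 16,
    20], true), ([14, 17, 20], false), ([14, 14, 0], false), ([14, 15, 0], false), ([14, 16, 0],
    true), ([14, 17, 0], true), ([14, 20, 0], false), ([15, 20, 0], true), ([16, 20, 0], false),
    ([17, 20, 0], true), ([14, 0, 0], true), ([17, 0, 0], false)]), ([(0, 2), (1, 2), (2, 2), (3,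
    2), (4, 2), (5, 1), (6, 2), (7, 2), (8, 2), (9, 2), (10, 2), (11, 2), (12, 2), (13, 2)],
    [([14, 20, 20], false), ([14, 14, 0], false), ([14, 20, 0], false), ([20, 20, 0], true),
    ([14, 0, 0], true), ([20, 0, 0], true)]), ([(0, 1), (1, 2), (2, 2), (3, 2), (4, 2), (5, 2),
    (6, 2), (7, 2), (8, 2), (9, 2), (10, 2), (11, 1), (12, 2), (13, 2)], [([14, 14], true), ([14,
    0], true), ([0, 0], true)]), ([(0, 1), (1, 2), (2, 2), (3, 2), (4, 2), (5, 1), (6, 2), (7,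
    2), (8, 2), (9, 2), (10, 2), (11, 2), (12, 2), (13, 2)], [([14, 14], true), ([14, 0], true),
    ([0, 0], true)])]
  sqs := []

theorem ok_X1M : clOk cl_X1M ct_X1M = true := by decide +kernel

theorem ak_X1M : acheck ct_X1M.nV cl_X1M.nD (edL cl_X1M) [] ct_X1M.mgs (nwL ct_X1M) ac_X1M = true := by
  decide +kernel

theorem red_X1M {V : Type} [Fintype V] {G : SimpleGraph V} {ι : Type} [Fintype ι] {F : ι → EV V}
    {i0 : ι} {m : ℕ} {x : ZMod m → V} {C : Finset V} (E : Env G ι F i0 m x C) (M : OM G F) {φ : ℕ → V}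
    (h : Occ M C φ cl_X1M) : False :=
  cluster E M h ct_X1M ac_X1M ok_X1M ak_X1M

end Pool.Agent.W_fb73a4_h51
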