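import Pool.Agent.W_fb73a4_h51.SJ
import Pool.Agent.W_fb73a4_h51.ConfData

/-!
MP_fb73a4_co [T7]: the configuration `cl_X2` is reducible: covers X2 (Z any type, = A1) for M and MM, all orientations.
(Certificate: helper32.)
-/

set_option autoImplicit false
set_option maxRecDepth 100000

namespace Pool.Agent.W_fb73a4_h51

open scoped Classical
open Pool.Agent.W_fb73a4_h20
open Pool.Agent.W_fb73a4_t7 (Conf Occ OM Env)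
open Pool.Agent.W_fb73a4_h57 (ACert acheck)

def ct_X2 : Ct where
  nV := 15
  dst := [[0, 1], [0, 9], [0, 14], [1, 2], [1, 3], [1, 14], [2, 3], [2, 13], [3, 4], [3, 5], [4,
    5], [4, 12], [5, 6], [5, 11], [6, 7], [6, 11], [7, 8], [7, 10], [8, 9], [8, 10], [0, 1, 2],
    [0, 1, 3], [1, 3, 4], [1, 3, 5], [1, 0, 9], [1, 2, 13], [2, 3, 4], [2, 3, 5], [2, 1, 14], [3,
    5, 6], [3, 5, 11], [3, 4, 12], [3, 2, 13], [3, 1, 14], [4, 5, 6], [4, 5, 11], [5, 6, 7], [5,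
    4, 12], [6, 7, 8], [6, 7, 10], [7, 8, 9], [7, 6, 11], [0, 1, 3, 4], [0, 1, 3, 5], [0, 1, 2,
    13], [1, 3, 5, 6], [1, 3, 5, 11], [1, 3, 4, 12], [2, 3, 5, 6], [2, 1, 0, 9], [2, 3, 5, 11],
    [2, 3, 4, 12], [3, 5, 6, 7], [3, 1, 0, 9], [4, 5, 6, 7], [4, 3, 2, 13], [4, 3, 1, 14], [5, 6,
    7, 8], [5, 6, 7, 10], [5, 3, 2, 13], [5, 3, 1, 14], [6, 7, 8, 9], [6, 5, 4, 12], [8, 7, 6,
    11], [0, 1, 3, 5, 6], [0, 1, 3, 5, 11], [0, 1, 3, 4, 12], [1, 3, 5, 6, 7], [2, 3, 5, 6, 7],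
    [3, 5, 6, 7, 8], [3, 5, 6, 7, 10], [4, 5, 6, 7, 8], [4, 3, 1, 0, 9], [4, 5, 6, 7, 10], [5, 3,
    1, 0, 9], [6, 5, 3, 2, 13], [6, 5, 3, 1, 14], [7, 6, 5, 4, 12], [0, 1, 3, 5, 6, 7], [1, 3, 5,
    6, 7, 8], [1, 3, 5, 6, 7, 10], [2, 3, 5, 6, 7, 8], [2, 3, 5, 6, 7, 10], [7, 6, 5, 3, 2, 13],
    [7, 6, 5, 3, 1, 14], [8, 7, 6, 5, 4, 12], [0, 1, 3, 5, 6, 7, 8], [0, 1, 3, 5, 6, 7, 10], [8,
    7, 6, 5, 3, 2, 13], [8, 7, 6, 5, 3, 1, 14]]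
  spc := []
  tab := [([9, 8, 10], 0, 6), ([9, 0, 1, 3, 5, 11], 2, 7), ([9, 0, 1, 3, 4, 12], 2, 7), ([9, 8,
    7, 6, 5, 3, 2, 13], 0, 5), ([9, 0, 14], 0, 6), ([10, 7, 6, 11], 0, 5), ([10, 7, 6, 5, 4, 12],
    0, 5), ([10, 7, 6, 5, 3, 2, 13], 3, 6), ([10, 7, 6, 5, 3, 1, 14], 3, 6), ([11, 5, 4, 12], 0,
    5), ([11, 5, 3, 2, 13], 0, 8), ([11, 5, 3, 1, 14], 0, 8), ([12, 4, 3, 2, 13], 0, 4), ([12, 4,
    3, 1, 14], 0, 8), ([13, 2, 1, 14], 0, 5), ([9, 8, 7, 6, 11], 0, 8), ([9, 0, 1, 2, 13], 0, 8),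
    ([10, 7, 6, 5, 4, 12], 0, 7)]
  tris := []
  news := []
  mgs := [(9, 11), (11, 13)]
  br := [(5, 11, 11), (3, 11, 5), (1, 11, 3), (2, 11, 1), (0, 11, 1)]

def ac_X2 : ACert where
  gens := [([(0, 2), (1, 2), (2, 2), (3, 2), (4, 2), (5, 2), (6, 2), (7, 2), (8, 2)], [([9, 11],
    true), ([11, 11], true), ([12, 12], false), ([9, 13], true), ([9, 14], false), ([14, 14],
    false)]), ([(0, 2), (1, 2), (2, 2), (3, 2), (4, 1), (5, 2), (6, 2), (7, 2), (8, 2)], [([9],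
    false), ([12], false), ([13], false)])]
  sqs := []

theorem ok_X2 : clOk cl_X2 ct_X2 = true := by decide +kernel

theorem ak_X2 : acheck ct_X2.nV cl_X2.nD (edL cl_X2) [] ct_X2.mgs (nwL ct_X2) ac_X2 = true := by
  decide +kernel

theorem red_X2 {V : Type} [Fintype V] {G : SimpleGraph V} {ι : Type} [Fintype ι] {F : ι → EV V}
    {i0 : ι} {m : ℕ} {x : ZMod m → V} {C : Finset V} (E : Env G ι F i0 m x C) (M : OM G F) {φ : ℕ → V}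
    (h : Occ M C φ cl_X2) : False :=
  cluster E M h ct_X2 ac_X2 ok_X2 ak_X2

end Pool.Agent.W_fb73a4_h51
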