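import Pool.Agent.W_fb73a4_h51.SJ
import Pool.Agent.W_fb73a4_h51.ConfData

/-!
MP_fb73a4_co [T7]: the configuration `cl_X3M` is reducible: M + V*=V=T-T=T next to the centre (covers X3 for M, also X2 for M).
(Certificate: helper32.)
-/

set_option autoImplicit false
set_option maxRecDepth 100000

namespace Pool.Agent.W_fb73a4_h51

open scoped Classical
open Pool.Agent.W_fb73a4_h20
open Pool.Agent.W_fb73a4_t7 (Conf Occ OM Env)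
open Pool.Agent.W_fb73a4_h57 (ACert acheck)

def ct_X3M : Ct where
  nV := 18
  dst := [[0, 1], [0, 16], [0, 17], [1, 2], [1, 16], [2, 3], [2, 15], [3, 4], [3, 5], [3, 15],
    [4, 5], [4, 7], [5, 6], [5, 11], [6, 9], [6, 11], [7, 8], [7, 14], [8, 13], [8, 14], [9, 10],
    [9, 12], [10, 12], [10, 13], [0, 1, 2], [1, 2, 3], [1, 2, 15], [1, 0, 17], [2, 3, 4], [2, 3,
    5], [2, 1, 16], [3, 5, 6], [3, 4, 7], [3, 5, 11], [4, 5, 6], [4, 7, 8], [4, 5, 11], [4, 7,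
    14], [4, 3, 15], [5, 4, 7], [5, 6, 9], [5, 3, 15], [6, 9, 10], [6, 9, 12], [7, 8, 13], [9, 6,
    11], [9, 10, 13], [0, 1, 2, 3], [0, 1, 2, 15], [1, 2, 3, 4], [1, 2, 3, 5], [2, 3, 5, 6], [2,
    3, 4, 7], [2, 3, 5, 11], [2, 1, 0, 17], [3, 4, 7, 8], [3, 5, 6, 9], [3, 4, 7, 14], [3, 2, 1,
    16], [4, 5, 6, 9], [4, 7, 8, 13], [5, 4, 7, 8], [5, 6, 9, 10], [5, 6, 9, 12], [5, 4, 7, 14],
    [6, 5, 4, 7], [6, 9, 10, 13], [6, 5, 3, 15], [7, 4, 5, 11], [7, 4, 3, 15], [10, 9, 6, 11],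
    [0, 1, 2, 3, 4], [0, 1, 2, 3, 5], [1, 2, 3, 5, 6], [1, 2, 3, 4, 7], [1, 2, 3, 5, 11], [2, 3,
    4, 7, 8], [2, 3, 5, 6, 9], [2, 3, 4, 7, 14], [3, 5, 6, 9, 10], [3, 5, 6, 9, 12], [3, 4, 7, 8,
    13], [3, 2, 1, 0, 17], [4, 5, 6, 9, 10], [4, 5, 6, 9, 12], [4, 3, 2, 1, 16], [5, 4, 7, 8,
    13], [5, 3, 2, 1, 16], [6, 5, 4, 7, 8], [6, 5, 4, 7, 14], [7, 4, 5, 6, 9], [8, 7, 4, 5, 11],
    [8, 7, 4, 3, 15], [9, 6, 5, 3, 15], [0, 1, 2, 3, 5, 6], [0, 1, 2, 3, 4, 7], [0, 1, 2, 3, 5,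
    11], [1, 2, 3, 4, 7, 8], [1, 2, 3, 5, 6, 9], [1, 2, 3, 4, 7, 14], [2, 3, 5, 6, 9, 10], [2, 3,
    5, 6, 9, 12], [2, 3, 4, 7, 8, 13], [4, 3, 2, 1, 0, 17], [5, 3, 2, 1, 0, 17], [6, 5, 3, 2, 1,
    16], [7, 4, 5, 6, 9, 10], [7, 4, 5, 6, 9, 12], [7, 4, 3, 2, 1, 16], [8, 7, 4, 5, 6, 9], [9,
    6, 5, 4, 7, 14], [10, 9, 6, 5, 3, 15], [0, 1, 2, 3, 4, 7, 8], [0, 1, 2, 3, 5, 6, 9], [0, 1,
    2, 3, 4, 7, 14], [1, 2, 3, 5, 6, 9, 10], [1, 2, 3, 5, 6, 9, 12], [1, 2, 3, 4, 7, 8, 13], [6,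
    5, 3, 2, 1, 0, 17], [7, 4, 3, 2, 1, 0, 17], [8, 7, 4, 5, 6, 9, 10], [8, 7, 4, 5, 6, 9, 12],
    [8, 7, 4, 3, 2, 1, 16], [9, 6, 5, 3, 2, 1, 16], [10, 9, 6, 5, 4, 7, 14], [0, 1, 2, 3, 5, 6,
    9, 10], [0, 1, 2, 3, 5, 6, 9, 12], [0, 1, 2, 3, 4, 7, 8, 13], [8, 7, 4, 3, 2, 1, 0, 17], [9,
    6, 5, 3, 2, 1, 0, 17], [10, 9, 6, 5, 3, 2, 1, 16]]
  spc := [([10, 9, 6, 5, 3, 2, 1, 0, 17], 0)]
  tab := [([11, 6, 9, 12], 0, 5), ([11, 5, 4, 7, 8, 13], 0, 7), ([11, 5, 4, 7, 14], 0, 8), ([11,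
    5, 3, 15], 0, 9), ([11, 5, 3, 2, 1, 16], 0, 7), ([11, 5, 3, 2, 1, 0, 17], 0, 2), ([12, 10,
    13], 0, 6), ([12, 9, 6, 5, 4, 7, 14], 0, 6), ([12, 9, 6, 5, 3, 15], 0, 7), ([12, 9, 6, 5, 3,
    2, 1, 16], 0, 5), ([12, 9, 6, 5, 3, 2, 1, 0, 17], 0, 4), ([13, 8, 14], 0, 6), ([13, 8, 7, 4,
    3, 15], 0, 6), ([13, 8, 7, 4, 3, 2, 1, 16], 0, 5), ([13, 8, 7, 4, 3, 2, 1, 0, 17], 0, 4),
    ([14, 7, 4, 3, 15], 0, 4), ([14, 7, 4, 3, 2, 1, 16], 0, 4), ([14, 7, 4, 3, 2, 1, 0, 17], 0,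
    4), ([15, 2, 1, 16], 0, 5), ([15, 2, 1, 0, 17], 0, 5), ([16, 0, 17], 0, 6), ([11, 6, 9, 10,
    13], 0, 8), ([13, 8, 7, 4, 3, 15], 0, 7), ([14, 7, 4, 3, 2, 1, 16], 0, 6), ([14, 7, 4, 3, 2,
    1, 0, 17], 0, 5), ([15, 2, 1, 0, 17], 0, 8)]
  tris := []
  news := []
  mgs := [(17, 15), (13, 11)]
  br := [(6, 11, 11), (9, 11, 6), (10, 11, 9), (2, 15, 15), (1, 15, 2), (0, 15, 1)]

def ac_X3M : ACert where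
  gens := [([(0, 2), (1, 2), (2, 2), (3, 2), (4, 2), (5, 2), (6, 2), (7, 2), (8, 2), (9, 2), (10,
    2)], [([11, 11], false), ([11, 13], false), ([15, 15], true), ([13, 17], true), ([15, 17],
    true), ([17, 17], false)])]
  sqs := []

theorem ok_X3M : clOk cl_X3M ct_X3M = true := by decide +kernel

theorem ak_X3M : acheck ct_X3M.nV cl_X3M.nD (edL cl_X3M) [] ct_X3M.mgs (nwL ct_X3M) ac_X3M = true := by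
  decide +kernel

theorem red_X3M {V : Type} [Fintype V] {G : SimpleGraph V} {ι : Type} [Fintype ι] {F : ι → EV V}
    {i0 : ι} {m : ℕ} {x : ZMod m → V} {C : Finset V} (E : Env G ι F i0 m x C) (M : OM G F) {φ : ℕ → V}
    (h : Occ M C φ cl_X3M) : False :=
  cluster E M h ct_X3M ac_X3M ok_X3M ak_X3M

end Pool.Agent.W_fb73a4_h51
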