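import Pool.Agent.W_fb73a4_h51.SJ
import Pool.Agent.W_fb73a4_h51.ConfData

/-!
MP_fb73a4_co [T7]: the configuration `cl_X3MMi` is reducible: MM + V*=V=T-T=T on the side of the run of 4.
(Certificate: helper32.)
-/

set_option autoImplicit false
set_option maxRecDepth 100000

namespace Pool.Agent.W_fb73a4_h51

open scoped Classical
open Pool.Agent.W_fb73a4_h20
open Pool.Agent.W_fb73a4_t7 (Conf Occ OM Env)
open Pool.Agent.W_fb73a4_h57 (ACert acheck)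

def ct_X3MMi : Ct where
  nV := 19
  dst := [[0, 1], [0, 17], [0, 18], [1, 2], [1, 17], [2, 3], [2, 16], [3, 4], [3, 5], [3, 16],
    [4, 5], [4, 7], [5, 6], [5, 12], [6, 10], [6, 12], [7, 8], [7, 15], [8, 9], [8, 15], [9, 11],
    [9, 14], [10, 11], [10, 13], [11, 13], [11, 14], [0, 1, 2], [1, 2, 3], [1, 2, 16], [1, 0,
    18], [2, 3, 4], [2, 3, 5], [2, 1, 17], [3, 5, 6], [3, 4, 7], [3, 5, 12], [4, 5, 6], [4, 7,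
    8], [4, 5, 12], [4, 7, 15], [4, 3, 16], [5, 4, 7], [5, 6, 10], [5, 3, 16], [6, 10, 11], [6,
    10, 13], [7, 8, 9], [8, 9, 11], [8, 9, 14], [9, 11, 10], [9, 11, 13], [9, 8, 15], [10, 6,
    12], [10, 11, 14], [0, 1, 2, 3], [0, 1, 2, 16], [1, 2, 3, 4], [1, 2, 3, 5], [2, 3, 5, 6], [2,
    3, 4, 7], [2, 3, 5, 12], [2, 1, 0, 18], [3, 4, 7, 8], [3, 5, 6, 10], [3, 4, 7, 15], [3, 2, 1,
    17], [4, 7, 8, 9], [4, 5, 6, 10], [5, 4, 7, 8], [5, 6, 10, 11], [5, 6, 10, 13], [5, 4, 7,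
    15], [6, 5, 4, 7], [6, 10, 11, 9], [6, 10, 11, 14], [6, 5, 3, 16], [7, 8, 9, 11], [7, 4, 5,
    12], [7, 8, 9, 14], [7, 4, 3, 16], [8, 9, 11, 10], [8, 9, 11, 13], [11, 10, 6, 12], [11, 9,
    8, 15], [0, 1, 2, 3, 4], [0, 1, 2, 3, 5], [1, 2, 3, 5, 6], [1, 2, 3, 4, 7], [1, 2, 3, 5, 12],
    [2, 3, 4, 7, 8], [2, 3, 5, 6, 10], [2, 3, 4, 7, 15], [3, 4, 7, 8, 9], [3, 5, 6, 10, 11], [3,
    5, 6, 10, 13], [3, 2, 1, 0, 18], [4, 7, 8, 9, 11], [4, 5, 6, 10, 13], [4, 7, 8, 9, 14], [4,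
    3, 2, 1, 17], [5, 4, 7, 8, 9], [5, 6, 10, 11, 14], [5, 3, 2, 1, 17], [6, 5, 4, 7, 8], [6, 5,
    4, 7, 15], [7, 4, 5, 6, 10], [7, 8, 9, 11, 13], [8, 7, 4, 5, 12], [8, 7, 4, 3, 16], [9, 11,
    10, 6, 12], [10, 11, 9, 8, 15], [10, 6, 5, 3, 16], [0, 1, 2, 3, 5, 6], [0, 1, 2, 3, 4, 7],
    [0, 1, 2, 3, 5, 12], [1, 2, 3, 4, 7, 8], [1, 2, 3, 5, 6, 10], [1, 2, 3, 4, 7, 15], [2, 3, 4,
    7, 8, 9], [2, 3, 5, 6, 10, 11], [2, 3, 5, 6, 10, 13], [3, 4, 7, 8, 9, 14], [4, 3, 2, 1, 0,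
    18], [5, 3, 2, 1, 0, 18], [6, 5, 3, 2, 1, 17], [7, 4, 3, 2, 1, 17], [9, 8, 7, 4, 3, 16], [11,
    10, 6, 5, 3, 16], [0, 1, 2, 3, 4, 7, 8], [0, 1, 2, 3, 5, 6, 10], [0, 1, 2, 3, 4, 7, 15], [1,
    2, 3, 4, 7, 8, 9], [1, 2, 3, 5, 6, 10, 11], [1, 2, 3, 5, 6, 10, 13], [2, 3, 4, 7, 8, 9, 14],
    [6, 5, 3, 2, 1, 0, 18], [7, 4, 3, 2, 1, 0, 18], [8, 7, 4, 3, 2, 1, 17], [10, 6, 5, 3, 2, 1,
    17], [0, 1, 2, 3, 4, 7, 8, 9], [0, 1, 2, 3, 5, 6, 10, 11], [0, 1, 2, 3, 5, 6, 10, 13], [1, 2,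
    3, 4, 7, 8, 9, 14], [8, 7, 4, 3, 2, 1, 0, 18], [9, 8, 7, 4, 3, 2, 1, 17], [10, 6, 5, 3, 2, 1,
    0, 18], [11, 10, 6, 5, 3, 2, 1, 17]]
  spc := [([0, 1, 2, 3, 4, 7, 8, 9, 14], 0), ([9, 8, 7, 4, 3, 2, 1, 0, 18], 0), ([11, 10, 6, 5,
    3, 2, 1, 0, 18], 0)]
  tab := [([12, 6, 10, 13], 0, 5), ([12, 5, 4, 7, 8, 9, 14], 0, 6), ([12, 5, 4, 7, 15], 0, 8),
    ([12, 5, 3, 16], 0, 9), ([12, 5, 3, 2, 1, 17], 0, 7), ([12, 5, 3, 2, 1, 0, 18], 0, 2), ([13,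
    11, 14], 0, 6), ([13, 11, 9, 8, 15], 0, 6), ([13, 10, 6, 5, 3, 16], 0, 7), ([13, 10, 6, 5, 3,
    2, 1, 17], 0, 5), ([13, 10, 6, 5, 3, 2, 1, 0, 18], 0, 4), ([14, 9, 8, 15], 0, 5), ([14, 11,
    10, 6, 5, 3, 16], 0, 6), ([14, 9, 8, 7, 4, 3, 2, 1, 17], 0, 4), ([14, 9, 8, 7, 4, 3, 2, 1, 0,
    18], 0, 3), ([15, 7, 4, 3, 16], 0, 4), ([15, 7, 4, 3, 2, 1, 17], 0, 4), ([15, 7, 4, 3, 2, 1,
    0, 18], 0, 4), ([16, 2, 1, 17], 0, 5), ([16, 2, 1, 0, 18], 0, 5), ([17, 0, 18], 0, 6), ([12,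
    6, 10, 11, 14], 0, 8), ([13, 11, 9, 8, 15], 0, 8), ([15, 7, 4, 3, 2, 1, 17], 0, 6), ([15, 7,
    4, 3, 2, 1, 0, 18], 0, 5), ([16, 2, 1, 0, 18], 0, 8)]
  tris := []
  news := []
  mgs := [(18, 16), (15, 13)]
  br := [(11, 13, 13), (9, 13, 11), (8, 13, 9), (2, 16, 16), (1, 16, 2), (0, 16, 1)]

def ac_X3MMi : ACert where
  gens := [([(0, 2), (1, 2), (2, 2), (3, 2), (4, 2), (5, 2), (6, 2), (7, 2), (8, 2), (9, 2), (10,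
    2), (11, 2)], [([12, 12], true), ([13, 13], false), ([12, 14], true), ([14, 14], true), ([12,
    15], true), ([13, 18], false), ([15, 18], false)]), ([(0, 2), (1, 2), (2, 2), (3, 2), (4, 2),
    (5, 2), (6, 2), (7, 2), (8, 1), (9, 2), (10, 2), (11, 2)], [([12], true), ([15], false),
    ([18], false)]), ([(0, 2), (1, 2), (2, 2), (3, 2), (4, 2), (5, 2), (6, 1), (7, 2), (8, 2),
    (9, 2), (10, 2), (11, 2)], [([12], true), ([15], true)]), ([(0, 2), (1, 2), (2, 2), (3, 2),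
    (4, 2), (5, 2), (6, 1), (7, 2), (8, 1), (9, 2), (10, 2), (11, 2)], [([], true)])]
  sqs := []

theorem ok_X3MMi : clOk cl_X3MMi ct_X3MMi = true := by decide +kernel

theorem ak_X3MMi : acheck ct_X3MMi.nV cl_X3MMi.nD (edL cl_X3MMi) [] ct_X3MMi.mgs (nwL ct_X3MMi) ac_X3MMi = true := by
  decide +kernel

theorem red_X3MMi {V : Type} [Fintype V] {G : SimpleGraph V} {ι : Type} [Fintype ι] {F : ι → EV V}
    {i0 : ι} {m : ℕ} {x : ZMod m → V} {C : Finset V} (E : Env G ι F i0 m x C) (M : OM G F) {φ : ℕ → V}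
    (h : Occ M C φ cl_X3MMi) : False :=
  cluster E M h ct_X3MMi ac_X3MMi ok_X3MMi ak_X3MMi

end Pool.Agent.W_fb73a4_h51
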