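import Pool.Agent.W_fb73a4_h51.SJ
import Pool.Agent.W_fb73a4_h51.ConfData

/-!
MP_fb73a4_co [T7]: the configuration `cl_X3MMo` is reducible: MM + X3, run of 2 side.
(Certificate: helper32.)
-/

set_option autoImplicit false
set_option maxRecDepth 100000

namespace Pool.Agent.W_fb73a4_h51

open scoped Classical
open Pool.Agent.W_fb73a4_h20
open Pool.Agent.W_fb73a4_t7 (Conf Occ OM Env)
open Pool.Agent.W_fb73a4_h57 (ACert acheck)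

def ct_X3MMo : Ct where
  nV := 22
  dst := [[0, 1], [0, 5], [0, 15], [1, 2], [1, 16], [2, 3], [2, 16], [3, 4], [3, 17], [4, 8], [4,
    17], [4, 18], [5, 6], [5, 7], [5, 15], [6, 7], [6, 10], [7, 8], [7, 9], [8, 9], [8, 18], [9,
    11], [10, 14], [10, 21], [11, 12], [11, 19], [12, 13], [12, 19], [13, 14], [13, 20], [14,
    20], [14, 21], [0, 1, 2], [0, 5, 6], [0, 5, 7], [0, 1, 16], [1, 2, 3], [1, 0, 5], [1, 0, 15],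
    [2, 3, 4], [2, 3, 17], [3, 4, 8], [3, 2, 16], [3, 4, 18], [4, 8, 7], [4, 8, 9], [5, 7, 8],
    [5, 7, 9], [5, 6, 10], [6, 7, 8], [6, 7, 9], [6, 10, 14], [6, 5, 15], [6, 10, 21], [7, 6,
    10], [7, 9, 11], [7, 5, 15], [7, 8, 18], [8, 9, 11], [8, 4, 17], [9, 11, 12], [9, 8, 18], [9,
    11, 19], [10, 14, 13], [10, 14, 20], [11, 12, 13], [12, 13, 14], [12, 13, 20], [13, 12, 19],
    [13, 14, 21], [0, 1, 2, 3], [0, 5, 7, 8], [0, 5, 7, 9], [0, 5, 6, 10], [1, 2, 3, 4], [1, 0,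
    5, 6], [1, 0, 5, 7], [1, 2, 3, 17], [2, 1, 0, 5], [2, 3, 4, 8], [2, 1, 0, 15], [2, 3, 4, 18],
    [3, 4, 8, 7], [3, 4, 8, 9], [4, 8, 7, 5], [4, 8, 7, 6], [4, 8, 9, 11], [4, 3, 2, 16], [5, 7,
    9, 11], [5, 6, 10, 14], [5, 0, 1, 16], [5, 7, 8, 18], [5, 6, 10, 21], [6, 7, 9, 11], [6, 10,
    14, 13], [6, 7, 8, 18], [6, 10, 14, 20], [7, 9, 11, 12], [7, 6, 10, 14], [7, 8, 4, 17], [7,
    9, 11, 19], [7, 6, 10, 21], [8, 7, 6, 10], [8, 9, 11, 12], [8, 7, 5, 15], [8, 9, 11, 19], [9,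
    7, 6, 10], [9, 11, 12, 13], [9, 7, 5, 15], [9, 8, 4, 17], [10, 14, 13, 12], [10, 6, 5, 15],
    [11, 12, 13, 14], [11, 9, 8, 18], [11, 12, 13, 20], [12, 13, 14, 21], [14, 13, 12, 19], [0,
    1, 2, 3, 4], [0, 5, 7, 9, 11], [0, 5, 6, 10, 14], [0, 1, 2, 3, 17], [0, 5, 7, 8, 18], [0, 5,
    6, 10, 21], [1, 2, 3, 4, 8], [1, 0, 5, 7, 9], [1, 0, 5, 6, 10], [1, 2, 3, 4, 18], [2, 1, 0,
    5, 6], [2, 3, 4, 8, 7], [2, 3, 4, 8, 9], [3, 4, 8, 7, 5], [3, 4, 8, 7, 6], [3, 4, 8, 9, 11],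
    [3, 2, 1, 0, 15], [4, 8, 7, 6, 10], [4, 8, 9, 11, 12], [4, 8, 7, 5, 15], [4, 8, 9, 11, 19],
    [5, 7, 9, 11, 12], [5, 6, 10, 14, 13], [5, 7, 8, 4, 17], [5, 7, 9, 11, 19], [5, 6, 10, 14,
    20], [6, 10, 14, 13, 12], [6, 5, 0, 1, 16], [6, 7, 8, 4, 17], [6, 7, 9, 11, 19], [7, 6, 10,
    14, 13], [7, 5, 0, 1, 16], [7, 6, 10, 14, 20], [8, 9, 11, 12, 13], [8, 7, 6, 10, 14], [8, 4,
    3, 2, 16], [8, 7, 6, 10, 21], [9, 7, 6, 10, 14], [9, 11, 12, 13, 20], [9, 7, 6, 10, 21], [10,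
    6, 7, 9, 11], [10, 6, 7, 8, 18], [10, 14, 13, 12, 19], [11, 9, 7, 5, 15], [11, 9, 8, 4, 17],
    [11, 12, 13, 14, 21], [12, 11, 9, 8, 18], [14, 10, 6, 5, 15], [0, 5, 7, 9, 11, 12], [0, 5, 6,
    10, 14, 13], [0, 5, 7, 9, 11, 19], [0, 5, 6, 10, 14, 20], [1, 0, 5, 7, 9, 11], [1, 0, 5, 6,
    10, 14], [1, 0, 5, 6, 10, 21], [2, 1, 0, 5, 6, 10], [2, 3, 4, 8, 9, 11], [3, 4, 8, 7, 6, 10],
    [3, 4, 8, 9, 11, 12], [3, 4, 8, 9, 11, 19], [4, 8, 9, 11, 12, 13], [4, 8, 7, 6, 10, 14], [4,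
    8, 7, 6, 10, 21], [8, 7, 6, 10, 14, 20], [9, 7, 5, 0, 1, 16], [10, 6, 5, 0, 1, 16], [10, 6,
    7, 8, 4, 17], [12, 11, 9, 7, 5, 15], [12, 11, 9, 8, 4, 17], [13, 14, 10, 6, 5, 15], [13, 12,
    11, 9, 8, 18], [14, 10, 6, 7, 8, 18], [1, 0, 5, 7, 9, 11, 12], [1, 0, 5, 6, 10, 14, 13], [1,
    0, 5, 7, 9, 11, 19], [1, 0, 5, 6, 10, 14, 20], [2, 3, 4, 8, 9, 11, 12], [2, 1, 0, 5, 6, 10,
    14], [2, 3, 4, 8, 9, 11, 19], [2, 1, 0, 5, 6, 10, 21], [3, 4, 8, 9, 11, 12, 13], [3, 4, 8, 7,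
    6, 10, 14], [3, 4, 8, 7, 6, 10, 21], [4, 8, 7, 6, 10, 14, 20], [11, 9, 7, 5, 0, 1, 16], [13,
    12, 11, 9, 8, 4, 17], [14, 10, 6, 5, 0, 1, 16], [14, 10, 6, 7, 8, 4, 17], [2, 3, 4, 8, 9, 11,
    12, 13], [2, 1, 0, 5, 6, 10, 14, 20], [3, 4, 8, 7, 6, 10, 14, 20], [12, 11, 9, 7, 5, 0, 1,
    16], [13, 14, 10, 6, 5, 0, 1, 16]]
  spc := []
  tab := [([15, 0, 1, 16], 0, 5), ([15, 5, 7, 8, 4, 17], 0, 7), ([15, 5, 7, 8, 18], 0, 8), ([15,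
    5, 7, 9, 11, 19], 0, 7), ([15, 5, 7, 9, 11, 12, 13, 20], 0, 5), ([15, 5, 6, 10, 21], 0, 4),
    ([16, 2, 3, 17], 0, 5), ([16, 1, 0, 5, 7, 8, 18], 0, 6), ([16, 1, 0, 5, 7, 9, 11, 19], 0, 5),
    ([16, 1, 0, 5, 6, 10, 14, 20], 0, 5), ([16, 1, 0, 5, 6, 10, 21], 0, 6), ([17, 4, 18], 0, 6),
    ([17, 4, 8, 9, 11, 19], 0, 6), ([17, 4, 8, 7, 6, 10, 14, 20], 0, 5), ([17, 4, 8, 7, 6, 10,
    21], 0, 6), ([18, 8, 9, 11, 19], 0, 4), ([18, 8, 7, 6, 10, 14, 20], 0, 6), ([18, 8, 7, 6, 10,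
    21], 0, 7), ([19, 12, 13, 20], 0, 5), ([19, 11, 9, 7, 6, 10, 21], 0, 6), ([20, 14, 21], 0,
    6), ([15, 5, 6, 10, 14, 20], 0, 7), ([16, 2, 3, 4, 18], 0, 8), ([17, 4, 8, 9, 11, 19], 0, 7),
    ([19, 12, 13, 14, 21], 0, 8)]
  tris := []
  news := []
  mgs := [(15, 18), (21, 19)]
  br := [(8, 18, 18), (7, 18, 8), (5, 18, 7), (12, 19, 19), (13, 19, 12), (14, 19, 13)]

def ac_X3MMo : ACert where
  gens := [([(0, 2), (1, 2), (2, 2), (3, 2), (4, 2), (5, 2), (6, 2), (7, 2), (8, 2), (9, 2), (10,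
    2), (11, 2), (12, 2), (13, 2), (14, 2)], [([19, 19], false), ([17, 21], false), ([18, 21],
    true), ([20, 21], true), ([21, 21], false)]), ([(0, 2), (1, 2), (2, 2), (3, 2), (4, 2), (5,
    2), (6, 2), (7, 2), (8, 2), (9, 2), (10, 2), (11, 1), (12, 2), (13, 2), (14, 2)], [([18],
    false), ([19], false)]), ([(0, 2), (1, 2), (2, 2), (3, 2), (4, 2), (5, 2), (6, 2), (7, 2),
    (8, 2), (9, 2), (10, 2), (11, 2), (12, 2), (13, 1), (14, 2)], [([17], true), ([20], false)]),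
    ([(0, 2), (1, 2), (2, 2), (3, 2), (4, 2), (5, 2), (6, 2), (7, 2), (8, 2), (9, 1), (10, 2),
    (11, 2), (12, 2), (13, 2), (14, 2)], [([21], true)]), ([(0, 2), (1, 2), (2, 2), (3, 2), (4,
    2), (5, 2), (6, 2), (7, 2), (8, 2), (9, 1), (10, 2), (11, 1), (12, 2), (13, 2), (14, 2)],
    [([], false)])]
  sqs := []

theorem ok_X3MMo : clOk cl_X3MMo ct_X3MMo = true := by decide +kernel

theorem ak_X3MMo : acheck ct_X3MMo.nV cl_X3MMo.nD (edL cl_X3MMo) [] ct_X3MMo.mgs (nwL ct_X3MMo) ac_X3MMo = true := by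
  decide +kernel

theorem red_X3MMo {V : Type} [Fintype V] {G : SimpleGraph V} {ι : Type} [Fintype ι] {F : ι → EV V}
    {i0 : ι} {m : ℕ} {x : ZMod m → V} {C : Finset V} (E : Env G ι F i0 m x C) (M : OM G F) {φ : ℕ → V}
    (h : Occ M C φ cl_X3MMo) : False :=
  cluster E M h ct_X3MMo ac_X3MMo ok_X3MMo ak_X3MMo

end Pool.Agent.W_fb73a4_h51
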