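import Pool.Agent.W_fb73a4_h51.GoodE
import Pool.Agent.W_fb73a4_t7.DF
import Pool.Agent.W_fb73a4_t7.EB

/-!
MP_fb73a4_co [T7]: the theorem about the class `C7`.
-/

set_option autoImplicit false

namespace Pool.Agent.W_fb73a4_h51

open Pool.Agent.W_fb73a4_t7

/-- every graph of the class `C7` has a graph polynomial which is not zero modulo 3 and the cubes, and
the same relative to a cycle of length at most 11 -/
theorem thm_c7 {V : Type} [Fintype V] (n : ℕ) : Thm (V := V) n :=
  thm_all (fun _ _ _ _ _ _ _ _ E => no_env E fun M => good_all E M) n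

theorem nz_c7 {V : Type} [Fintype V] {G : SimpleGraph V} (h : Pool.Agent.W_fb73a4_t7.C7 G) :
    Pool.Agent.W_fb73a4_t7.NZ G ∅ :=
  ((thm_c7 G.edgeSet.ncard) G h le_rfl).2

end Pool.Agent.W_fb73a4_h51
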