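import Pool.Agent.W_fb73a4_h51.Fin
import Pool.Agent.W_fb73a4_h57.KX
import Pool.Agent.W_fb73a4_h57.TG
import Pool.Agent.W_fb73a4_h20.MZ

/-!
MP_fb73a4_co [T7]: from the theorem modulo 3 to colourings: Alon-Tarsi monomial, 3-choosability, and
extension of colourings of cycles of length at most 11.
-/

set_option autoImplicit false

namespace Pool.Agent.W_fb73a4_h51

open Finset MvPolynomial
open scoped Classical
open Pool.Agent.W_fb73a4_h20
open Pool.Agent.W_fb73a4_h57 (P3 I3 kill gp gpz LP eds lin LP_rep LP_eq_gp mem_I3_iff exists_coeff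
  t7_NZ mk_mem_eds mem_eds)

variable {V : Type}

/-- coefficients after setting the variables of `C` to zero -/
theorem coeff_kill (C : Finset V) (p : P3 V) (d : V →₀ ℕ) :
    coeff d (kill C p) = if (∀ v ∈ C, d v = 0) then coeff d p else 0 := by
  induction p using MvPolynomial.induction_on' with
  | add p q hp hq =>
    rw [map_add, coeff_add, coeff_add, hp, hq]
    split_ifs <;> simp
  | monomial u a =>
    have h1 : kill C (monomial u a : P3 V) = if (∀ v ∈ C, u v = 0) then monomial u a else 0 := by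
      unfold kill
      rw [aeval_monomial]
      split_ifs with h
      · rw [monomial_eq]
        congr 1
        refine Finsupp.prod_congr fun v hv => ?_
        rw [if_neg]
        intro hvC
        exact (Finsupp.mem_support_iff.1 hv) (h v hvC)
      · push Not at h
        obtain ⟨v, hvC, hv⟩ := h
        rw [Finsupp.prod, Finset.prod_eq_zero (Finsupp.mem_support_iff.2 hv), mul_zero]
        rw [if_pos hvC, zero_pow hv]
    rw [h1]
    by_cases h : ∀ v ∈ C, u v = 0
    · rw [if_pos h]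
      by_cases h2 : ∀ v ∈ C, d v = 0
      · rw [if_pos h2]
      · rw [if_neg h2, coeff_monomial, if_neg]
        rintro rfl
        exact h2 h
    · rw [if_neg h, coeff_zero]
      split_ifs with h2
      · rw [coeff_monomial, if_neg]
        rintro rfl
        exact h h2
      · rfl

theorem gp_map (E : Multiset (V × V)) :
    gp E = MvPolynomial.map (Int.castRingHom (ZMod 3)) (gpz E) := by
  rw [gp, gpz, map_multiset_prod, Multiset.map_map]
  refine congrArg _ (Multiset.map_congr rfl fun e _ => ?_)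
  simp

theorem gpz_hom' (E : Multiset (V × V)) : (gpz E).IsHomogeneous (Multiset.card E) := by
  induction E using Multiset.induction_on with
  | empty => simpa [gpz] using isHomogeneous_one V ℤ
  | cons e E ih =>
    have h1 : gpz (e ::ₘ E) = (X e.1 - X e.2) * gpz E := by
      rw [gpz, Multiset.map_cons, Multiset.prod_cons, gpz]
    rw [h1, Multiset.card_cons, add_comm]
    exact ((isHomogeneous_X ℤ e.1).sub (isHomogeneous_X ℤ e.2)).mul ih

/-- EXTENSION. If the polynomial of the edges `E`, with the variables of `C` set to zero, is not zero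
modulo 3 and the cubes, then all values on `C` extend. -/
theorem extend [Finite V] (E : Multiset (V × V)) (C : Finset V) (h : kill C (gp E) ∉ I3 V)
    (L : V → Finset ℕ) (g : V → ℕ) (hL : ∀ v, v ∉ C → 3 ≤ (L v).card) :
    ∃ f : V → ℕ, (∀ v ∈ C, f v = g v) ∧ (∀ v, v ∉ C → f v ∈ L v) ∧ ∀ e ∈ E, f e.1 ≠ f e.2 := by
  rw [mem_I3_iff] at h
  push Not at h
  obtain ⟨d, hd, hc⟩ := h
  rw [coeff_kill] at hc
  have hdC : ∀ v ∈ C, d v = 0 := by
    by_contra hn
    rw [if_neg hn] at hc
    exact hc rfl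
  rw [if_pos hdC, gp_map, coeff_map] at hc
  have hcz : coeff d (gpz E) ≠ 0 := by
    intro h0
    rw [h0, map_zero] at hc
    exact hc rfl
  have hne : gpz E ≠ 0 := fun h0 => hcz (by rw [h0, coeff_zero])
  have hdeg : (gpz E).totalDegree = d.degree := by
    rw [(gpz_hom' E).totalDegree hne]
    have h1 := gpz_hom' E hcz
    rw [← h1, Finsupp.degree_eq_weight_one]
    rfl
  have hinj : Function.Injective (Nat.cast : ℕ → ℤ) := Nat.cast_injective
  obtain ⟨s, hs, hev⟩ := combinatorial_nullstellensatz_exists_eval_nonzero (gpz E) d hcz hdeg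
    (fun v => (if v ∈ C then {g v} else L v).image (Nat.cast : ℕ → ℤ)) (fun v => by
      rw [Finset.card_image_of_injective _ hinj]
      by_cases hv : v ∈ C
      · rw [if_pos hv, hdC v hv, Finset.card_singleton]
        norm_num
      · rw [if_neg hv]
        exact lt_of_le_of_lt (hd v) (lt_of_lt_of_le (by norm_num) (hL v hv)))
  choose f hf hfs using fun v => Finset.mem_image.1 (hs v)
  refine ⟨f, fun v hv => ?_, fun v hv => ?_, fun e he heq => hev ?_⟩
  · have h1 := hf v
    rw [if_pos hv, Finset.mem_singleton] at h1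
    exact h1
  · have h1 := hf v
    rw [if_neg hv] at h1
    exact h1
  · rw [gpz, map_multiset_prod, Multiset.map_map]
    refine Multiset.prod_eq_zero (Multiset.mem_map.2 ⟨e, he, ?_⟩)
    simp only [Function.comp_apply, map_sub, eval_X]
    rw [← hfs e.1, ← hfs e.2, heq, sub_self]

variable [Fintype V]

/-- the same for graphs -/
theorem extend_graph (G : SimpleGraph V) (C : Finset V) (h : Pool.Agent.W_fb73a4_t7.NZ G C)
    (L : V → Finset ℕ) (g : V → ℕ) (hL : ∀ v, v ∉ C → 3 ≤ (L v).card)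
    (hg : ∀ u ∈ C, ∀ v ∈ C, G.Adj u v → g u ≠ g v) :
    ∃ f : V → ℕ, (∀ v ∈ C, f v = g v) ∧ (∀ v, v ∉ C → f v ∈ L v) ∧ ∀ u v, G.Adj u v → f u ≠ f v := by
  rw [t7_NZ] at h
  unfold Pool.Agent.W_fb73a4_h57.NZ at h
  rw [LP_eq_gp] at h
  obtain ⟨f, h1, h2, h3⟩ := extend _ C h L g hL
  refine ⟨f, h1, h2, fun u v huv => ?_⟩
  by_cases hC : u ∈ C ∧ v ∈ C
  · rw [h1 u hC.1, h1 v hC.2]
    exact hg u hC.1 v hC.2 huv
  · have h4 : s(u, v) ∈ eds G C := by
      rw [mk_mem_eds]
      refine ⟨huv, ?_⟩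
      by_cases hu : u ∈ C
      · exact Or.inr fun hv => hC ⟨hu, hv⟩
      · exact Or.inl hu
    have h5 := h3 (Quot.out s(u, v)) (Multiset.mem_map.2 ⟨_, h4, rfl⟩)
    have h6 : s((Quot.out s(u, v)).1, (Quot.out s(u, v)).2) = s(u, v) := Quot.out_eq _
    rcases Sym2.eq_iff.1 h6 with ⟨ha, hb⟩ | ⟨ha, hb⟩
    · rw [ha, hb] at h5
      exact h5
    · rw [ha, hb] at h5
      exact h5.symm

/-- the class in terms of closed walks -/
theorem c7_of_walk {G : SimpleGraph V} (hM : MacLane G)
    (h456 : ∀ (v : V) (c : G.Walk v v), c.IsCycle → c.length ≠ 4 ∧ c.length ≠ 5 ∧ c.length ≠ 6)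
    (h7 : ∀ (v : V) (c : G.Walk v v), c.IsCycle → c.length = 7 →
      ∀ a b t, s(a, b) ∈ c.edges → ¬ (G.Adj a t ∧ G.Adj b t)) : Pool.Agent.W_fb73a4_t7.C7 G := by
  rw [c7_iff]
  refine ⟨hM, ?_, ?_⟩
  · intro n x hx
    obtain ⟨c, h1, h2, -⟩ := exists_walk_of_cycSeq hx
    have h3 := h456 _ c h1
    rw [h2] at h3
    exact h3
  · intro x hx j t h1 h2
    obtain ⟨c, h3, h4, h5⟩ := exists_walk_of_cycSeq hx
    exact h7 _ c h3 h4 _ _ t (h5 j) ⟨h1, h2⟩

/-- a closed walk which is a cycle as a sequence -/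
theorem cycSeq_of_walk {G : SimpleGraph V} {v : V} (c : G.Walk v v) (hc : c.IsCycle) :
    ∃ x : ZMod c.length → V, IsCycSeq G x ∧ ∀ w, w ∈ c.support ↔ w ∈ Set.range x := by
  have h3 := hc.three_le_length
  have : NeZero c.length := ⟨by omega⟩
  refine ⟨fun j => c.getVert j.val, ⟨h3, ?_, ?_⟩, ?_⟩
  · intro a b hab
    have h1 := hc.getVert_injOn'
    have ha : a.val ∈ {i | i ≤ c.length - 1} := by
      have := ZMod.val_lt a
      simp only [Set.mem_ofPred_eq]
      omega
    have hb : b.val ∈ {i | i ≤ c.length - 1} := by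
      have := ZMod.val_lt b
      simp only [Set.mem_ofPred_eq]
      omega
    exact ZMod.val_injective _ (h1 ha hb hab)
  · intro j
    have hj := ZMod.val_lt j
    have h1 := c.adj_getVert_succ hj
    show G.Adj (c.getVert j.val) (c.getVert (j + 1).val)
    by_cases hlast : j.val + 1 < c.length
    · have h2 : (j + 1).val = j.val + 1 := by
        rw [ZMod.val_add, ZMod.val_one'' (by omega), Nat.mod_eq_of_lt hlast]
      rw [h2]
      exact h1
    · have h2 : j.val + 1 = c.length := by omega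
      have h4 : (j + 1).val = 0 := by
        rw [ZMod.val_add, ZMod.val_one'' (by omega), h2, Nat.mod_self]
      rw [h4]
      rw [h2] at h1
      rw [c.getVert_length] at h1
      rw [c.getVert_zero]
      exact h1
  · intro w
    rw [SimpleGraph.Walk.mem_support_iff_exists_getVert]
    constructor
    · rintro ⟨n, hn, hle⟩
      by_cases hlt : n < c.length
      · refine ⟨(n : ZMod c.length), ?_⟩
        show c.getVert (n : ZMod c.length).val = w
        rw [ZMod.val_natCast, Nat.mod_eq_of_lt hlt]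
        exact hn
      · have h4 : n = c.length := by omega
        refine ⟨0, ?_⟩
        show c.getVert (0 : ZMod c.length).val = w
        rw [ZMod.val_zero, c.getVert_zero, ← hn, h4, c.getVert_length]
    · rintro ⟨j, rfl⟩
      exact ⟨j.val, rfl, (ZMod.val_lt j).le⟩

/-- THEOREM -/
theorem main_c7 (G : SimpleGraph V) (hM : MacLane G)
    (h456 : ∀ (v : V) (c : G.Walk v v), c.IsCycle → c.length ≠ 4 ∧ c.length ≠ 5 ∧ c.length ≠ 6)
    (h7 : ∀ (v : V) (c : G.Walk v v), c.IsCycle → c.length = 7 →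
      ∀ a b t, s(a, b) ∈ c.edges → ¬ (G.Adj a t ∧ G.Adj b t)) :
    (∀ L : V → Finset ℕ, (∀ v, 3 ≤ (L v).card) →
      ∃ f : V → ℕ, (∀ v, f v ∈ L v) ∧ ∀ u v, G.Adj u v → f u ≠ f v) ∧
    (∀ E : Finset (V × V), (∀ u v, G.Adj u v ↔ (u, v) ∈ E ∨ (v, u) ∈ E) →
      (∀ u v, (u, v) ∈ E → (v, u) ∉ E) →
      ∃ d : V →₀ ℕ, (∀ v, d v ≤ 2) ∧
        ¬ (3 : ℤ) ∣ coeff d (∏ e ∈ E, (X e.1 - X e.2 : MvPolynomial V ℤ))) ∧
    (∀ (v₀ : V) (c : G.Walk v₀ v₀), c.IsCycle → c.length ≤ 11 →
      ∀ (L : V → Finset ℕ) (g : V → ℕ), (∀ v, v ∉ c.support → 3 ≤ (L v).card) →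
        (∀ u ∈ c.support, ∀ v ∈ c.support, G.Adj u v → g u ≠ g v) →
        ∃ f : V → ℕ, (∀ v ∈ c.support, f v = g v) ∧ (∀ v, v ∉ c.support → f v ∈ L v) ∧
          ∀ u v, G.Adj u v → f u ≠ f v) := by
  have hG := c7_of_walk hM h456 h7
  refine ⟨fun L hL => ?_, fun E hE1 hE2 => ?_, fun v₀ c hc h11 L g hL hg => ?_⟩
  · obtain ⟨f, -, h2, h3⟩ := extend_graph G ∅ (nz_c7 hG) L (fun _ => 0) (fun v _ => hL v)
      (fun u hu => absurd hu (Finset.notMem_empty u))
    exact ⟨f, fun v => h2 v (Finset.notMem_empty v), h3⟩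
  · have h1 := nz_c7 hG
    rw [t7_NZ] at h1
    unfold Pool.Agent.W_fb73a4_h57.NZ at h1
    have h2 : (E.val.map fun p => s(p.1, p.2)) = (eds G ∅).val := by
      have hnd : (E.val.map fun p : V × V => s(p.1, p.2)).Nodup := by
        refine Multiset.Nodup.map_on ?_ E.nodup
        rintro ⟨a, b⟩ hab ⟨a', b'⟩ hab' he
        rcases Sym2.eq_iff.1 he with ⟨h3, h4⟩ | ⟨h3, h4⟩
        · exact Prod.ext h3 h4
        · simp only at h3 h4
          subst h3 h4
          exact absurd hab' (hE2 _ _ hab)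
      refine (Multiset.Nodup.ext hnd (eds G ∅).nodup).2 fun e => ?_
      rw [Finset.mem_val, mem_eds, Multiset.mem_map]
      constructor
      · rintro ⟨⟨a, b⟩, hab, rfl⟩
        refine ⟨(hE1 a b).2 (Or.inl hab), a, Sym2.mem_mk_left _ _, Finset.notMem_empty _⟩
      · rintro ⟨h3, -⟩
        induction e using Sym2.ind with
        | _ a b =>
          rcases (hE1 a b).1 h3 with h4 | h4
          · exact ⟨(a, b), h4, rfl⟩
          · exact ⟨(b, a), h4, Sym2.eq_swap⟩
    have h3 : gp E.val ∉ I3 V := by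
      rcases LP_rep (eds G ∅) E.val h2 with h4 | h4
      · rw [← h4]
        rwa [Pool.Agent.W_fb73a4_h57.kill_empty] at h1
      · intro h5
        rw [Pool.Agent.W_fb73a4_h57.kill_empty, h4, Pool.Agent.W_fb73a4_h57.mem_neg_iff] at h1
        exact h1 h5
    obtain ⟨d, hd, hc⟩ := exists_coeff E.val h3
    exact ⟨d, hd, hc⟩
  · obtain ⟨x, hx, hr⟩ := cycSeq_of_walk c hc
    have h1 := ((thm_c7 G.edgeSet.ncard) G hG le_rfl).1 c.length x c.support.toFinset h11 hx
      (fun v => by rw [List.mem_toFinset]; exact hr v)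
    obtain ⟨f, h2, h3, h4⟩ := extend_graph G c.support.toFinset h1 L g
      (fun v hv => hL v (fun h => hv (List.mem_toFinset.2 h)))
      (fun u hu v hv => hg u (List.mem_toFinset.1 hu) v (List.mem_toFinset.1 hv))
    exact ⟨f, fun v hv => h2 v (List.mem_toFinset.2 hv),
      fun v hv => h3 v (fun h => hv (List.mem_toFinset.1 h)), h4⟩

end Pool.Agent.W_fb73a4_h51
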