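import Pool.Agent.W_fb73a4_h51.GA

/-!
MP_fb73a4_co [T7] GB: a new triangle whose three edges are new.
-/

set_option autoImplicit false

namespace Pool.Agent.W_fb73a4_h51

open Finset
open scoped Classical
open Pool.Agent.W_fb73a4_h20

variable {V : Type}

/-- the step of the walk around a short cycle: from a vertex of `S` the next vertex of `S` on the cycle
is the next vertex of the cycle -/
theorem GB_step {H K : SimpleGraph V} {S : Set V}
    (hK : ∀ u v, K.Adj u v → H.Adj u v ∨ (u ∈ S ∧ v ∈ S))
    (hfar : ∀ p ∈ S, ∀ q ∈ S, p ≠ q → far H p q 7) {n : ℕ} (hn : n ≤ 7) {x : ZMod n → V}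
    (hx : IsCycSeq K x) {k l : ZMod n} (hk : x k ∈ S) (hl : x l ∈ S) (hkl : l ≠ k) :
    x (k + 1) ∈ S := by
  have hn3 := hx.three
  have : NeZero n := ⟨by omega⟩
  have hinj : ∀ i j : ℕ, i < n → j < n → (i : ZMod n) = (j : ZMod n) → i = j := by
    intro i j hi hj h
    have h1 := congrArg ZMod.val h
    rwa [ZMod.val_natCast_of_lt hi, ZMod.val_natCast_of_lt hj] at h1
  have hval : ((l - k).val : ZMod n) = l - k := ZMod.natCast_zmod_val _
  have hlt : (l - k).val < n := ZMod.val_lt _
  have hpos : 1 ≤ (l - k).val := by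
    rcases Nat.eq_zero_or_pos (l - k).val with h | h
    · exfalso
      rw [h, Nat.cast_zero] at hval
      exact hkl (sub_eq_zero.1 hval.symm)
    · exact h
  have hex : ∃ m : ℕ, 1 ≤ m ∧ x (k + (m : ZMod n)) ∈ S := by
    refine ⟨(l - k).val, hpos, ?_⟩
    rw [hval, add_sub_cancel]
    exact hl
  obtain ⟨m, ⟨hm1, hmS⟩, hmin⟩ : ∃ m : ℕ, (1 ≤ m ∧ x (k + (m : ZMod n)) ∈ S) ∧
      ∀ i : ℕ, 1 ≤ i → x (k + (i : ZMod n)) ∈ S → m ≤ i :=
    ⟨Nat.find hex, Nat.find_spec hex, fun i h1 h2 => Nat.find_min' hex ⟨h1, h2⟩⟩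
  have hmn : m < n := by
    have h1 := hmin (l - k).val hpos (by rw [hval, add_sub_cancel]; exact hl)
    omega
  rcases Nat.lt_or_ge m 2 with h2 | h2
  · have h3 : m = 1 := by omega
    subst h3
    simpa using hmS
  · exfalso
    have hpath : IsPathN H m (fun i : ℕ => x (k + (i : ZMod n))) := by
      refine ⟨fun i hi => ?_, fun i j hi hj hij => ?_⟩
      · have h3 := hx.adj (k + (i : ZMod n))
        rw [add_assoc] at h3
        have h4 : ((i + 1 : ℕ) : ZMod n) = (i : ZMod n) + 1 := by push_cast; ring
        show H.Adj (x (k + (i : ZMod n))) (x (k + ((i + 1 : ℕ) : ZMod n)))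
        rw [h4]
        rcases hK _ _ h3 with h5 | ⟨h5, h6⟩
        · exact h5
        · exfalso
          rcases Nat.eq_zero_or_pos i with h7 | h7
          · subst h7
            have h8 := hmin 1 le_rfl (by simpa using h6)
            omega
          · have h8 := hmin i h7 h5
            omega
      · have h3 := hx.inj hij
        exact hinj i j (by omega) (by omega) (add_left_cancel h3)
    have hne : x k ≠ x (k + (m : ZMod n)) := by
      intro h
      have h3 := hx.inj h
      have h4 : ((0 : ℕ) : ZMod n) = (m : ZMod n) := by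
        have h5 : k + 0 = k + (m : ZMod n) := by rw [add_zero]; exact h3
        rw [Nat.cast_zero]
        exact add_left_cancel h5
      have h6 := hinj 0 m (by omega) hmn h4
      omega
    have h3 := hfar _ hk _ hmS hne m _ hpath (by simp) rfl
    omega

/-- a short cycle with two vertices in `S` has all its vertices in `S` -/
theorem GB_all {H K : SimpleGraph V} {S : Set V}
    (hK : ∀ u v, K.Adj u v → H.Adj u v ∨ (u ∈ S ∧ v ∈ S))
    (hfar : ∀ p ∈ S, ∀ q ∈ S, p ≠ q → far H p q 7) {n : ℕ} (hn : n ≤ 7) {x : ZMod n → V}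
    (hx : IsCycSeq K x) {i j : ZMod n} (hi : x i ∈ S) (hj : x j ∈ S) (hij : i ≠ j)
    (k : ZMod n) : x k ∈ S := by
  have hn3 := hx.three
  have : NeZero n := ⟨by omega⟩
  have hstep : ∀ k, x k ∈ S → x (k + 1) ∈ S := by
    intro k hk
    by_cases h : i = k
    · subst h
      exact GB_step hK hfar hn hx hk hj (fun h => hij h.symm)
    · exact GB_step hK hfar hn hx hk hi h
  have hind : ∀ m : ℕ, x (i + (m : ZMod n)) ∈ S := by
    intro m
    induction m with
    | zero => simpa using hi
    | succ m ih =>
      have h1 := hstep _ ih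
      have h2 : i + ((m + 1 : ℕ) : ZMod n) = i + (m : ZMod n) + 1 := by push_cast; ring
      rw [h2]
      exact h1
  have h1 := hind (k - i).val
  rw [ZMod.natCast_zmod_val, add_sub_cancel] at h1
  exact h1

/-- a path of length 2 -/
theorem GB_two {H : SimpleGraph V} {p q r : V} (h1 : H.Adj p q) (h2 : H.Adj q r) (h3 : p ≠ r)
    (hf : far H p r 7) : False := by
  have h := hf 2 (fun i : ℕ => if i = 0 then p else if i = 1 then q else r) ⟨?_, ?_⟩ rfl rfl
  · omega
  · intro i hi
    interval_cases i
    · exact h1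
    · exact h2
  · intro i j hi hj hij
    interval_cases i <;> interval_cases j <;> first | rfl | (exfalso; revert hij; simp; first
      | exact h1.ne | exact h1.ne.symm | exact h2.ne | exact h2.ne.symm | exact h3 | exact h3.symm)

/-- the class `C7` and new edges inside a set `S` of at most three vertices which are far apart -/
theorem GB_core {H K : SimpleGraph V} {S : Set V} (hH : C7 H)
    (hK : ∀ u v, K.Adj u v → H.Adj u v ∨ (u ∈ S ∧ v ∈ S))
    (hfar : ∀ p ∈ S, ∀ q ∈ S, p ≠ q → far H p q 7)
    (hS : ∀ n : ℕ, ∀ x : ZMod n → V, 3 ≤ n → Function.Injective x → (∀ k, x k ∈ S) → n ≤ 3) :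
    C7 K := by
  have key : ∀ (n : ℕ) (x : ZMod n → V), IsCycSeq K x → 4 ≤ n → n ≤ 7 →
      (∀ i j, x i ∈ S → x j ∈ S → i = j) ∧ IsCycSeq H x := by
    intro n x hx h4 h7
    have h1 : ∀ i j, x i ∈ S → x j ∈ S → i = j := by
      intro i j hi hj
      by_contra hij
      have h2 := hS n x hx.three hx.inj (GB_all hK hfar h7 hx hi hj hij)
      omega
    refine ⟨h1, hx.three, hx.inj, fun j => ?_⟩
    rcases hK _ _ (hx.adj j) with h2 | ⟨h2, h3⟩
    · exact h2
    · exfalso
      have h5 := h1 _ _ h2 h3
      exact (hx.adj j).ne (congrArg x h5)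
  refine ⟨fun n x hx => ?_, fun x hx j t h1 h2 => ?_⟩
  · by_contra hcon
    have h4 : 4 ≤ n ∧ n ≤ 7 := by omega
    exact hcon (hH.no456 n x (key n x hx h4.1 h4.2).2)
  · obtain ⟨h3, h4⟩ := key 7 x hx (by norm_num) le_rfl
    have h5 : ¬ (x j ∈ S ∧ x (j + 1) ∈ S) := by
      rintro ⟨h6, h7⟩
      exact (hx.adj j).ne (congrArg x (h3 _ _ h6 h7))
    rcases hK _ _ h1 with h6 | ⟨h6, h7⟩
    · rcases hK _ _ h2 with h8 | ⟨h8, h9⟩
      · exact hH.no73 x h4 j t h6 h8
      · exact GB_two (h4.adj j).symm h6 h2.ne (hfar _ h8 _ h9 h2.ne)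
    · rcases hK _ _ h2 with h8 | ⟨h8, h9⟩
      · exact GB_two (h4.adj j) h8 h1.ne (hfar _ h6 _ h7 h1.ne)
      · exact h5 ⟨h6, h8⟩

/-- The graph `K = addE (addE (addE H a b) b c) a c`. Claim: a cycle of `K` of length `n` which is
not a cycle of `H` has `8 ≤ n`, or `n = 3` and its vertices are `a, b, c`. Proof: if it uses only
one of the three new edges, the rest is a path of `H` of length `n - 1` between the two ends, so
`7 ≤ n - 1`. If it uses exactly two of them, say (up to symmetry) `a b` and `b c`: they are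
consecutive on the cycle (both contain `b`), the rest is a path of `H` of length `n - 2` from `c`
to `a`, so `9 ≤ n`. If it uses all three, then any two of them are consecutive and the cycle is the
triangle. So cycles of length 4, ..., 7 of `K` are cycles of `H`: `no456`. For `no73`: the 7-cycle is
a cycle of `H`; its edge `x j, x (j+1)` is an edge of `H`, so it is none of the three new edges
(`far` gives that the ends of a new edge are not adjacent in `H`); the triangle `x j, x (j+1), t` of
`K` is therefore not the triangle `a b c` (all edges of that one are new), so it is a cycle of `H`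
by the claim, contradiction with `no73` for `H`.
It may be convenient to prove first: `far (addE H a b) b c 7` and `far (addE H a b) a c 7` fail only
because of the path through the new edge; so a direct proof by cases on which new edges occur in the
cycle is best. -/
theorem C7_tri {H : SimpleGraph V} (hH : C7 H) {a b c : V} (h1 : far H a b 7) (h2 : far H b c 7)
    (h3 : far H a c 7) : C7 (addE (addE (addE H a b) b c) a c) := by
  have hf : ∀ {p q : V}, far H p q 7 → far H q p 7 := fun h => far_symm h
  refine GB_core (H := H) (S := ({a, b, c} : Set V)) hH ?_ ?_ ?_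
  · intro u v h
    rcases h with ((h | ⟨-, ⟨rfl, rfl⟩ | ⟨rfl, rfl⟩⟩) | ⟨-, ⟨rfl, rfl⟩ | ⟨rfl, rfl⟩⟩) |
      ⟨-, ⟨rfl, rfl⟩ | ⟨rfl, rfl⟩⟩
    · exact Or.inl h
    all_goals exact Or.inr ⟨by simp, by simp⟩
  · intro p hp q hq hpq
    simp only [Set.mem_insert_iff, Set.mem_singleton_iff] at hp hq
    rcases hp with rfl | rfl | rfl <;> rcases hq with rfl | rfl | rfl <;>
      first | exact absurd rfl hpq | assumption | exact hf (by assumption)
  · intro n x hn hinj hall
    have : NeZero n := ⟨by omega⟩
    have h4 : Set.range x ⊆ ({a, b, c} : Set V) := by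
      rintro _ ⟨k, rfl⟩
      exact hall k
    have h5 : (Set.range x).ncard = n := by
      rw [← Set.image_univ, Set.ncard_image_of_injective _ hinj, Set.ncard_univ,
        Nat.card_eq_fintype_card, ZMod.card]
    have h6 := Set.ncard_le_ncard h4 (Set.toFinite _)
    have h7 : ({a, b, c} : Set V).ncard ≤ 3 := by
      have h8 := Set.ncard_insert_le a ({b, c} : Set V)
      have h9 := Set.ncard_insert_le b ({c} : Set V)
      have h10 := Set.ncard_singleton c
      omega
    omega

end Pool.Agent.W_fb73a4_h51
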