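import Pool.Agent.W_fb73a4_h51.GA

/-!
MP_fb73a4_co [T7] GC: identification of two vertices at distance at least 8.
-/

set_option autoImplicit false

namespace Pool.Agent.W_fb73a4_h51

open Finset
open scoped Classical
open Pool.Agent.W_fb73a4_h20

variable {V : Type}

section GC_aux

variable {G : SimpleGraph V} {p q : V}

private theorem GC_add_ne {n : ℕ} (hn : 3 ≤ n) (j : ZMod n) : j + 1 ≠ j := by
  intro h
  have h1 : (1 : ZMod n) = 0 := by
    have := congrArg (fun t => t - j) h
    simpa using this
  have h2 : ((1 : ℕ) : ZMod n) = 0 := by simpa using h1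
  rw [ZMod.natCast_eq_zero_iff] at h2
  have := Nat.le_of_dvd (by norm_num) h2
  omega

/-- a cycle of the new graph is a cycle of the old graph (after replacing `p` by `q` if necessary)
or comes from a path from `p` to `q` of the same length -/
private theorem GC_cycle (hpq : p ≠ q) {n : ℕ} {x : ZMod n → V} (hx : IsCycSeq (ident G p q) x) :
    (∃ x' : ZMod n → V, IsCycSeq G x' ∧ ∀ j, x' j = x j ∨ (x j = p ∧ x' j = q)) ∨
      (∃ y : ℕ → V, IsPathN G n y ∧ y 0 = p ∧ y n = q) := by
  have hn := hx.three
  have : NeZero n := ⟨by omega⟩
  have hq : ∀ j, x j ≠ q := fun j => (hx.adj j).2.1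
  by_cases hp : ∃ j0, x j0 = p
  · obtain ⟨j0, hj0⟩ := hp
    have hother : ∀ j, j ≠ j0 → j + 1 ≠ j0 → G.Adj (x j) (x (j + 1)) := by
      intro j h1 h2
      rcases (hx.adj j).2.2.2 with h | ⟨h, -⟩ | ⟨h, -⟩
      · exact h
      · exact absurd (hx.inj (h.trans hj0.symm)) h1
      · exact absurd (hx.inj (h.trans hj0.symm)) h2
    have hR : G.Adj p (x (j0 + 1)) ∨ G.Adj q (x (j0 + 1)) := by
      rcases (hx.adj j0).2.2.2 with h | ⟨_, h⟩ | ⟨h, -⟩
      · left; rw [← hj0]; exact h
      · right; exact h
      · exact absurd (hx.inj (h.trans hj0.symm)) (GC_add_ne hn j0)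
    have hL : G.Adj (x (j0 - 1)) p ∨ G.Adj (x (j0 - 1)) q := by
      have h0 := hx.adj (j0 - 1)
      rw [sub_add_cancel] at h0
      rcases h0.2.2.2 with h | ⟨h, -⟩ | ⟨_, h⟩
      · left; rw [← hj0]; exact h
      · exfalso
        have h1 := hx.inj (h.trans hj0.symm)
        have h2 := GC_add_ne hn (j0 - 1)
        rw [sub_add_cancel] at h2
        exact h2 h1.symm
      · right; exact h
    -- vertices of the path in positive direction
    have hval : ∀ i : ℕ, i < n → (((i : ℕ) : ZMod n)).val = i := fun i hi => ZMod.val_natCast_of_lt hi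
    have hcast : ∀ i j : ℕ, i < n → j < n → ((i : ℕ) : ZMod n) = ((j : ℕ) : ZMod n) → i = j := by
      intro i j hi hj h
      have := congrArg ZMod.val h
      rwa [hval i hi, hval j hj] at this
    have hn1 : ((n - 1 : ℕ) : ZMod n) = -1 := by
      have h1 : ((n - 1 + 1 : ℕ) : ZMod n) = 0 := by
        rw [Nat.sub_add_cancel (by omega)]
        exact ZMod.natCast_self n
      push_cast at h1
      exact eq_neg_of_add_eq_zero_left h1
    have hne0 : ∀ i : ℕ, 0 < i → i < n → ((i : ℕ) : ZMod n) ≠ 0 := by
      intro i h1 h2 h3
      have := hcast i 0 h2 (by omega) (by simpa using h3)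
      omega
    rcases hR with hR | hR <;> rcases hL with hL | hL
    · left
      refine ⟨x, ⟨hn, hx.inj, ?_⟩, fun j => Or.inl rfl⟩
      intro j
      by_cases h1 : j = j0
      · subst h1; rw [hj0]; exact hR
      · by_cases h2 : j + 1 = j0
        · have h3 : j = j0 - 1 := by rw [← h2]; ring
          subst h3
          rw [h2, hj0]; exact hL
        · exact hother j h1 h2
    · right
      refine ⟨fun i => if i = n then q else x (j0 + (i : ZMod n)), ⟨?_, ?_⟩, ?_, ?_⟩
      · intro i hi
        by_cases h1 : i + 1 = n
        · have h2 : i = n - 1 := by omega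
          simp only [h1, if_true]
          rw [if_neg (by omega), h2, hn1, ← sub_eq_add_neg]
          exact hL
        · rw [if_neg (by omega), if_neg h1]
          by_cases h3 : i = 0
          · subst h3
            simp only [Nat.cast_zero, add_zero, zero_add, Nat.cast_one]
            rw [hj0]; exact hR
          · have h4 := hother (j0 + (i : ZMod n)) (fun h => hne0 i (by omega) (by omega) (by
                simpa using h)) (fun h => hne0 (i + 1) (by omega) (by omega) (by
                have : j0 + ((i : ZMod n) + 1) = j0 := by rw [← add_assoc]; exact h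
                have h5 : (i : ZMod n) + 1 = 0 := by simpa using this
                push_cast; exact h5))
            rw [add_assoc] at h4
            push_cast
            exact h4
      · intro i j hi hj h
        by_cases h1 : i = n <;> by_cases h2 : j = n
        · omega
        · rw [if_pos h1, if_neg h2] at h
          exact absurd h.symm (hq _)
        · rw [if_neg h1, if_pos h2] at h
          exact absurd h (hq _)
        · rw [if_neg h1, if_neg h2] at h
          have := hx.inj h
          exact hcast i j (by omega) (by omega) (by simpa using this)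
      · show (if (0 : ℕ) = n then q else x (j0 + ((0 : ℕ) : ZMod n))) = p
        rw [if_neg (by omega)]; simpa using hj0
      · simp
    · right
      refine ⟨fun i => if i = n then q else x (j0 - (i : ZMod n)), ⟨?_, ?_⟩, ?_, ?_⟩
      · intro i hi
        by_cases h1 : i + 1 = n
        · have h2 : i = n - 1 := by omega
          simp only [h1, if_true]
          rw [if_neg (by omega), h2, hn1, sub_neg_eq_add]
          exact hR.symm
        · rw [if_neg (by omega), if_neg h1]
          by_cases h3 : i = 0
          · subst h3
            simp only [Nat.cast_zero, sub_zero, zero_add, Nat.cast_one]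
            rw [hj0]; exact hL.symm
          · have h4 := hother (j0 - ((i + 1 : ℕ) : ZMod n)) (fun h => hne0 (i + 1) (by omega) (by omega) (by
                have : j0 - ((i + 1 : ℕ) : ZMod n) = j0 - 0 := by rw [h, sub_zero]
                exact sub_right_injective this)) (fun h => hne0 i (by omega) (by omega) (by
                have : j0 - ((i : ℕ) : ZMod n) = j0 - 0 := by
                  rw [sub_zero]
                  have h6 : j0 - ((i + 1 : ℕ) : ZMod n) + 1 = j0 - ((i : ℕ) : ZMod n) := by
                    push_cast; ring
                  rw [← h6]; exact h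
                exact sub_right_injective this))
            have h6 : j0 - ((i + 1 : ℕ) : ZMod n) + 1 = j0 - ((i : ℕ) : ZMod n) := by
              push_cast; ring
            rw [h6] at h4
            exact h4.symm
      · intro i j hi hj h
        by_cases h1 : i = n <;> by_cases h2 : j = n
        · omega
        · rw [if_pos h1, if_neg h2] at h
          exact absurd h.symm (hq _)
        · rw [if_neg h1, if_pos h2] at h
          exact absurd h (hq _)
        · rw [if_neg h1, if_neg h2] at h
          have := sub_right_injective (hx.inj h)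
          exact hcast i j (by omega) (by omega) this
      · show (if (0 : ℕ) = n then q else x (j0 - ((0 : ℕ) : ZMod n))) = p
        rw [if_neg (by omega)]; simpa using hj0
      · simp
    · left
      refine ⟨Function.update x j0 q, ⟨hn, ?_, ?_⟩, ?_⟩
      · intro i j h
        by_cases h1 : i = j0 <;> by_cases h2 : j = j0
        · rw [h1, h2]
        · rw [h1, Function.update_self, Function.update_of_ne h2] at h
          exact absurd h.symm (hq _)
        · rw [h2, Function.update_self, Function.update_of_ne h1] at h
          exact absurd h (hq _)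
        · rw [Function.update_of_ne h1, Function.update_of_ne h2] at h
          exact hx.inj h
      · intro j
        by_cases h1 : j = j0
        · subst h1
          rw [Function.update_self, Function.update_of_ne (GC_add_ne hn j)]
          exact hR
        · by_cases h2 : j + 1 = j0
          · have h3 : j = j0 - 1 := by rw [← h2]; ring
            rw [h2, Function.update_self, Function.update_of_ne h1, h3]
            exact hL
          · rw [Function.update_of_ne h1, Function.update_of_ne h2]
            exact hother j h1 h2
      · intro j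
        by_cases h1 : j = j0
        · right; subst h1; exact ⟨hj0, Function.update_self ..⟩
        · left; exact Function.update_of_ne h1 ..
  · left
    refine ⟨x, ⟨hn, hx.inj, ?_⟩, fun j => Or.inl rfl⟩
    intro j
    rcases (hx.adj j).2.2.2 with h | ⟨h, -⟩ | ⟨h, -⟩
    · exact h
    · exact absurd ⟨j, h⟩ hp
    · exact absurd ⟨j + 1, h⟩ hp

private theorem GC_path_one {a b : V} (h : G.Adj a b) :
    IsPathN G 1 (fun i => if i = 0 then a else b) := by
  refine ⟨?_, ?_⟩
  · intro i hi
    have : i = 0 := by omega
    subst this
    simpa using h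
  · intro i j hi hj hij
    have h1 := h.ne
    interval_cases i <;> interval_cases j <;> simp_all

private theorem GC_path_two {a b c : V} (h : G.Adj a b) (h' : G.Adj b c) (hac : a ≠ c) :
    IsPathN G 2 (fun i => if i = 0 then a else if i = 1 then b else c) := by
  refine ⟨?_, ?_⟩
  · intro i hi
    interval_cases i
    · simpa using h
    · simpa using h'
  · intro i j hi hj hij
    have h1 := h.ne
    have h2 := h'.ne
    interval_cases i <;> interval_cases j <;> simp_all

private theorem GC_path_three {a b c d : V} (h : G.Adj a b) (h' : G.Adj b c) (h'' : G.Adj c d)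
    (hac : a ≠ c) (had : a ≠ d) (hbd : b ≠ d) :
    IsPathN G 3 (fun i => if i = 0 then a else if i = 1 then b else if i = 2 then c else d) := by
  refine ⟨?_, ?_⟩
  · intro i hi
    interval_cases i
    · simpa using h
    · simpa using h'
    · simpa using h''
  · intro i j hi hj hij
    have h1 := h.ne
    have h2 := h'.ne
    have h3 := h''.ne
    interval_cases i <;> interval_cases j <;> simp_all

/-- `p` and `q` are not adjacent and have no common neighbour -/
private theorem GC_no_common (hpq : p ≠ q) (hfar : far G p q 8) :
    ¬ G.Adj p q ∧ ∀ u, G.Adj p u → G.Adj q u → False := by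
  refine ⟨fun h => ?_, fun u h1 h2 => ?_⟩
  · have := hfar 1 _ (GC_path_one h) (by simp) (by simp)
    omega
  · have := hfar 2 _ (GC_path_two h1 h2.symm hpq) (by simp) (by simp)
    omega

/-- no path `p u w q` -/
private theorem GC_no_three (hpq : p ≠ q) (hfar : far G p q 8) {u w : V}
    (h1 : G.Adj p u) (h2 : G.Adj u w) (h3 : G.Adj w q) : False := by
  have hc := GC_no_common hpq hfar
  have hpw : p ≠ w := by rintro rfl; exact hc.1 h3
  have huq : u ≠ q := by rintro rfl; exact hc.1 h1
  have := hfar 3 _ (GC_path_three h1 h2 h3 hpw hpq huq) (by simp) (by simp)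
  omega

/-- triangles of the new graph are triangles of the old graph -/
private theorem GC_triangle (hpq : p ≠ q) (hfar : far G p q 8)
    {u v w : V} (h1 : (ident G p q).Adj u v) (h2 : (ident G p q).Adj v w)
    (h3 : (ident G p q).Adj u w) :
    ∃ u' v' w', G.Adj u' v' ∧ G.Adj v' w' ∧ G.Adj u' w' ∧ (u' = u ∨ (u = p ∧ u' = q)) ∧
      (v' = v ∨ (v = p ∧ v' = q)) ∧ (w' = w ∨ (w = p ∧ w' = q)) := by
  have hc := GC_no_common hpq hfar
  have key : ∀ a b c : V, G.Adj p a → G.Adj a b → G.Adj b q → False := fun a b _ ha hb hc' =>
    GC_no_three hpq hfar ha hb hc'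
  obtain ⟨n1, -, -, h1⟩ := h1
  obtain ⟨n2, -, -, h2⟩ := h2
  obtain ⟨n3, -, -, h3⟩ := h3
  by_cases hu : u = p
  · subst hu
    have hv : ¬ v = u := fun h => n1 h.symm
    have hw : ¬ w = u := fun h => n3 h.symm
    have h2' : G.Adj v w := by
      rcases h2 with h | ⟨h, -⟩ | ⟨h, -⟩
      · exact h
      · exact absurd h hv
      · exact absurd h hw
    rcases h1 with h | ⟨_, h⟩ | ⟨h, -⟩
    · rcases h3 with h' | ⟨_, h'⟩ | ⟨h', -⟩
      · exact ⟨u, v, w, h, h2', h', Or.inl rfl, Or.inl rfl, Or.inl rfl⟩
      · exact (key v w w h h2' h'.symm).elim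
      · exact absurd h' hw
    · rcases h3 with h' | ⟨_, h'⟩ | ⟨h', -⟩
      · exact (key w v v h' h2'.symm h.symm).elim
      · exact ⟨q, v, w, h, h2', h', Or.inr ⟨rfl, rfl⟩, Or.inl rfl, Or.inl rfl⟩
      · exact absurd h' hw
    · exact absurd h hv
  · by_cases hv : v = p
    · subst hv
      have hw : ¬ w = v := fun h => n2 h.symm
      have h3' : G.Adj u w := by
        rcases h3 with h | ⟨h, -⟩ | ⟨h, -⟩
        · exact h
        · exact absurd h hu
        · exact absurd h hw
      rcases h1 with h | ⟨h, -⟩ | ⟨_, h⟩
      · rcases h2 with h' | ⟨_, h'⟩ | ⟨h', -⟩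
        · exact ⟨u, v, w, h, h', h3', Or.inl rfl, Or.inl rfl, Or.inl rfl⟩
        · exact (key u w w h.symm h3' h'.symm).elim
        · exact absurd h' hw
      · exact absurd h hu
      · rcases h2 with h' | ⟨_, h'⟩ | ⟨h', -⟩
        · exact (key w u u h' h3'.symm h).elim
        · exact ⟨u, q, w, h, h', h3', Or.inl rfl, Or.inr ⟨rfl, rfl⟩, Or.inl rfl⟩
        · exact absurd h' hw
    · have h1' : G.Adj u v := by
        rcases h1 with h | ⟨h, -⟩ | ⟨h, -⟩
        · exact h
        · exact absurd h hu
        · exact absurd h hv
      by_cases hw : w = p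
      · subst hw
        rcases h2 with h | ⟨h, -⟩ | ⟨_, h⟩
        · rcases h3 with h' | ⟨h', -⟩ | ⟨_, h'⟩
          · exact ⟨u, v, w, h1', h, h', Or.inl rfl, Or.inl rfl, Or.inl rfl⟩
          · exact absurd h' hu
          · exact (key v u u h.symm h1'.symm h').elim
        · exact absurd h hv
        · rcases h3 with h' | ⟨h', -⟩ | ⟨_, h'⟩
          · exact (key u v v h'.symm h1' h).elim
          · exact absurd h' hu
          · exact ⟨u, v, q, h1', h, h', Or.inl rfl, Or.inl rfl, Or.inr ⟨rfl, rfl⟩⟩
      · refine ⟨u, v, w, h1', ?_, ?_, Or.inl rfl, Or.inl rfl, Or.inl rfl⟩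
        · rcases h2 with h | ⟨h, -⟩ | ⟨h, -⟩
          · exact h
          · exact absurd h hv
          · exact absurd h hw
        · rcases h3 with h | ⟨h, -⟩ | ⟨h, -⟩
          · exact h
          · exact absurd h hu
          · exact absurd h hw

private theorem GC_adj_other {u v : V} (h : (ident G p q).Adj u v) (hu : u ≠ p) (hv : v ≠ p) :
    G.Adj u v := by
  rcases h.2.2.2 with h | ⟨h, -⟩ | ⟨h, -⟩
  · exact h
  · exact absurd h hu
  · exact absurd h hv

/-- If an edge `x j, x (j+1)` of a lifted cycle is in a triangle of the new graph, then the lifted edge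
is in a triangle of the old graph. -/
private theorem GC_lift_tri (hpq : p ≠ q) (hfar : far G p q 8)
    {a b t a' b' : V} (hab : (ident G p q).Adj a b) (hat : (ident G p q).Adj a t)
    (hbt : (ident G p q).Adj b t) (hab' : G.Adj a' b') (ha' : a' = a ∨ (a = p ∧ a' = q))
    (hb' : b' = b ∨ (b = p ∧ b' = q)) : ∃ t', G.Adj a' t' ∧ G.Adj b' t' := by
  obtain ⟨a2, b2, t2, h1, h2, h3, e1, e2, e3⟩ := GC_triangle hpq hfar hab hbt hat
  have hc := GC_no_common hpq hfar
  have haq : a ≠ q := hab.2.1
  have hbq : b ≠ q := hab.2.2.1
  have hne : a ≠ b := hab.1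
  -- the two lifts of the edge agree
  have key : a' = a2 ∧ b' = b2 := by
    rcases ha' with ha | ⟨ha, ha'⟩
    · rcases hb' with hb | ⟨hb, hb'⟩
      · rcases e1 with e1 | ⟨e1, e1'⟩
        · rcases e2 with e2 | ⟨e2, e2'⟩
          · exact ⟨ha.trans e1.symm, hb.trans e2.symm⟩
          · exfalso
            rw [e1, e2'] at h1
            rw [ha, hb, e2] at hab'
            exact hc.2 a hab'.symm h1.symm
        · exfalso
          rcases e2 with e2 | ⟨e2, -⟩
          · rw [e1', e2] at h1
            rw [ha, hb, e1] at hab'
            exact hc.2 b hab' h1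
          · exact hne (e1.trans e2.symm)
      · rcases e1 with e1 | ⟨e1, -⟩
        · rcases e2 with e2 | ⟨-, e2'⟩
          · exfalso
            rw [e1, e2, hb] at h1
            rw [ha, hb'] at hab'
            exact hc.2 a h1.symm hab'.symm
          · exact ⟨ha.trans e1.symm, hb'.trans e2'.symm⟩
        · exact absurd (e1.trans hb.symm) hne
    · rcases hb' with hb | ⟨hb, -⟩
      · rcases e1 with e1 | ⟨-, e1'⟩
        · exfalso
          rcases e2 with e2 | ⟨e2, -⟩
          · rw [e1, e2, ha] at h1
            rw [ha', hb] at hab'
            exact hc.2 b h1 hab'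
          · exact hne (ha.trans e2.symm)
        · rcases e2 with e2 | ⟨e2, -⟩
          · exact ⟨ha'.trans e1'.symm, hb.trans e2.symm⟩
          · exact absurd (ha.trans e2.symm) hne
      · exact absurd (ha.trans hb.symm) hne
  rw [key.1, key.2]
  exact ⟨t2, h3, h2⟩


end GC_aux

/-- A cycle of `ident H p q` of length `n`: either it lifts to a cycle of `H` of length `n` (every
vertex `v ≠ p` is kept, `p` may be replaced by `q`), or the two neighbours of `p` on it come from
different ends and it gives a path of `H` of length `n` from `p` to `q`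
(`Pool.Agent.W_fb73a4_h20.ident_cycle`, in MT, is this statement), so `8 ≤ n`. So cycles of length
at most 7 lift: `no456`. For `no73`: the 7-cycle lifts to `x'`; the triangle `x j, x (j+1), t` of
`ident H p q` is a cycle of length 3, lifts too; both contain the edge `x j, x (j+1)` of
`ident H p q`. The edge has exactly one preimage in `H` (two different preimages would be
`p u`, `q u`: a path of length 2 from `p` to `q`), so the lifted triangle contains the edge
`x' j, x' (j+1)`: contradiction with `no73` for `H`. -/
theorem C7_ident {H : SimpleGraph V} (hH : C7 H) {p q : V} (h : far H p q 8) :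
    C7 (ident H p q) := by
  have hpq : p ≠ q := far_ne h (by norm_num)
  have lift : ∀ (n : ℕ) (x : ZMod n → V), n ≤ 7 → IsCycSeq (ident H p q) x →
      ∃ x' : ZMod n → V, IsCycSeq H x' ∧ ∀ j, x' j = x j ∨ (x j = p ∧ x' j = q) := by
    intro n x hn hx
    rcases GC_cycle hpq hx with h' | ⟨y, h1, h2, h3⟩
    · exact h'
    · have := h n y h1 h2 h3
      omega
  constructor
  · intro n x hx
    by_cases hn : n ≤ 7
    · obtain ⟨x', hx', -⟩ := lift n x hn hx
      exact hH.no456 n x' hx'
    · omega
  · intro x hx j t h1 h2
    obtain ⟨x', hx', hl⟩ := lift 7 x (by omega) hx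
    obtain ⟨t', h3, h4⟩ := GC_lift_tri hpq h (hx.adj j) h1 h2 (hx'.adj j) (hl j) (hl (j + 1))
    exact hH.no73 x' hx' j t' h3 h4

theorem GC_mv_ne {p q : V} (hpq : p ≠ q) (v : V) : mv p q v ≠ q := by
  unfold mv
  split_ifs with h
  · exact hpq
  · exact h

theorem GC_ne_q {H : SimpleGraph V} {p q x : V} (hpq : p ≠ q) {m : ℕ} {z : ℕ → V}
    (hz : IsPathN (ident H p q) m z) (h0 : z 0 = mv p q x) (i : ℕ) (hi : i ≤ m) : z i ≠ q := by
  rcases Nat.eq_zero_or_pos m with hm | hm
  · have : i = 0 := by omega
    rw [this, h0]
    exact GC_mv_ne hpq x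
  · rcases Nat.lt_or_ge i m with h | h
    · exact (hz.adj i h).2.1
    · have h1 : i = m - 1 + 1 := by omega
      rw [h1]
      exact (hz.adj (m - 1) (by omega)).2.2.1

/-- the part of the path before the vertex `p` -/
theorem GC_left {H : SimpleGraph V} {p q x : V} (hpq : p ≠ q) {m : ℕ} {z : ℕ → V}
    (hz : IsPathN (ident H p q) m z) (h0 : z 0 = mv p q x) {i0 : ℕ} (hi0 : i0 ≤ m)
    (hp : z i0 = p) : ∃ e, (e = p ∨ e = q) ∧ IsPathN H i0 (Function.update z i0 e) ∧
      Function.update z i0 e 0 = x := by
  have nq := GC_ne_q hpq hz h0
  have np : ∀ j ≤ m, j ≠ i0 → z j ≠ p := fun j hj hne he =>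
    hne (hz.inj j i0 hj hi0 (he.trans hp.symm))
  cases i0 with
  | zero =>
    refine ⟨x, ?_, ⟨fun i hi => by omega, fun i j hi hj _ => by omega⟩, Function.update_self ..⟩
    rw [hp] at h0
    unfold mv at h0
    split_ifs at h0 with hx
    · exact Or.inr hx
    · exact Or.inl h0.symm
  | succ t =>
    have hx : x ≠ q := by
      intro hx
      have h1 := np 0 (by omega) (by omega)
      rw [h0] at h1
      unfold mv at h1
      rw [if_pos hx] at h1
      exact h1 rfl
    have hx0 : z 0 = x := by
      rw [h0]
      unfold mv
      rw [if_neg hx]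
    have hstep : ∀ i, i < t → H.Adj (z i) (z (i + 1)) := by
      intro i hi
      rcases (hz.adj i (by omega)).2.2.2 with h | ⟨h, -⟩ | ⟨h, -⟩
      · exact h
      · exact absurd h (np i (by omega) (by omega))
      · exact absurd h (np (i + 1) (by omega) (by omega))
    have hlast : ∃ e, (e = p ∨ e = q) ∧ H.Adj (z t) e := by
      rcases (hz.adj t (by omega)).2.2.2 with h | ⟨h, -⟩ | ⟨-, h⟩
      · rw [hp] at h
        exact ⟨p, Or.inl rfl, h⟩
      · exact absurd h (np t (by omega) (by omega))
      · exact ⟨q, Or.inr rfl, h⟩
    obtain ⟨e, he, hadj⟩ := hlast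
    have hne : ∀ j, j ≤ t → z j ≠ e := by
      intro j hj
      rcases he with rfl | rfl
      · exact np j (by omega) (by omega)
      · exact nq j (by omega)
    refine ⟨e, he, ⟨fun i hi => ?_, fun i j hi hj hij => ?_⟩, ?_⟩
    · rcases Nat.lt_or_ge i t with h | h
      · rw [Function.update_of_ne (by omega), Function.update_of_ne (by omega)]
        exact hstep i h
      · have hit : i = t := by omega
        rw [hit, Function.update_self, Function.update_of_ne (by omega)]
        exact hadj
    · by_cases h1 : i = t + 1 <;> by_cases h2 : j = t + 1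
      · omega
      · rw [h1, Function.update_self, Function.update_of_ne h2] at hij
        exact absurd hij.symm (hne j (by omega))
      · rw [h2, Function.update_self, Function.update_of_ne h1] at hij
        exact absurd hij (hne i (by omega))
      · rw [Function.update_of_ne h1, Function.update_of_ne h2] at hij
        exact hz.inj i j (by omega) (by omega) hij
    · rw [Function.update_of_ne (by omega)]
      exact hx0

/-- Let `z 0, ..., z m` be a path of `ident H p q` from `mv p q x` to `mv p q y`. If no `z i` is `p`
it is a path of `H` from `x` to `y`. Otherwise exactly one `z i` is `p` (and no `z i` is `q`: if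
`m = 0` this is clear, if `m ≥ 1` every `z i` has a neighbour in `ident H p q`). The step
`z (i-1), p` comes from `z (i-1), p` or `z (i-1), q` in `H` (if `i = 0`, the left end is `x` itself,
which is `p` or `q`), the step `p, z (i+1)` from `p, z (i+1)` or `q, z (i+1)` (if `i = m` the right
end is `y`, which is `p` or `q`). If both ends agree we get a path of `H` of length `m` from `x` to
`y`. If the left one is `p` and the right one `q`: a path from `x` to `p` of length `i` and a path
from `q` to `y` of length `m - i`, so `k ≤ n1 + n2 ≤ m`. The last case is the same with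
`n3`, `n4`. -/
theorem far_ident {H : SimpleGraph V} {p q x y : V} (hpq : p ≠ q) {k n n1 n2 n3 n4 : ℕ}
    (h : far H x y n) (h1 : far H x p n1) (h2 : far H q y n2) (h3 : far H x q n3)
    (h4 : far H p y n4) (hk : k ≤ n) (hk1 : k ≤ n1 + n2) (hk2 : k ≤ n3 + n4) :
    far (ident H p q) (mv p q x) (mv p q y) k := by
  intro m z hz hz0 hzm
  have nq := GC_ne_q hpq hz hz0
  by_cases hex : ∃ i, i ≤ m ∧ z i = p
  · obtain ⟨i0, hi0, hp⟩ := hex
    have np : ∀ j ≤ m, j ≠ i0 → z j ≠ p := fun j hj hne he =>
      hne (hz.inj j i0 hj hi0 (he.trans hp.symm))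
    obtain ⟨e, he, hL, hLx⟩ := GC_left hpq hz hz0 hi0 hp
    have hz' := GA_rev hz
    obtain ⟨e', he', hR, hRy⟩ := GC_left hpq hz' (x := y) (i0 := m - i0)
      (by simpa using hzm) (by omega) (by
        show z (m - (m - i0)) = p
        rw [show m - (m - i0) = i0 by omega]
        exact hp)
    have gL : ∀ N, far H x e N → N ≤ i0 := fun N hN => hN i0 _ hL hLx (Function.update_self ..)
    have gR : ∀ N, far H e' y N → N ≤ m - i0 := fun N hN =>
      far_symm hN (m - i0) _ hR hRy (Function.update_self ..)
    by_cases hee : e = e'
    · subst hee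
      have hpath : IsPathN H m (Function.update z i0 e) := by
        refine ⟨fun j hj => ?_, fun i j hi hj hij => ?_⟩
        · rcases Nat.lt_or_ge j i0 with hj0 | hj0
          · exact hL.adj j hj0
          · rcases Nat.eq_or_lt_of_le hj0 with hj1 | hj1
            · have h5 := hR.adj (m - i0 - 1) (by omega)
              rw [show m - i0 - 1 + 1 = m - i0 by omega, Function.update_self,
                Function.update_of_ne (by omega)] at h5
              rw [← hj1, Function.update_self, Function.update_of_ne (by omega)]
              rw [show m - (m - i0 - 1) = i0 + 1 by omega] at h5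
              exact h5.symm
            · rw [Function.update_of_ne (by omega), Function.update_of_ne (by omega)]
              rcases (hz.adj j hj).2.2.2 with h5 | ⟨h5, -⟩ | ⟨h5, -⟩
              · exact h5
              · exact absurd h5 (np j (by omega) (by omega))
              · exact absurd h5 (np (j + 1) (by omega) (by omega))
        · have hne : ∀ j, j ≤ m → j ≠ i0 → z j ≠ e := by
            intro j hj hji
            rcases he with rfl | rfl
            · exact np j hj hji
            · exact nq j hj
          by_cases g1 : i = i0 <;> by_cases g2 : j = i0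
          · omega
          · rw [g1, Function.update_self, Function.update_of_ne g2] at hij
            exact absurd hij.symm (hne j hj g2)
          · rw [g2, Function.update_self, Function.update_of_ne g1] at hij
            exact absurd hij (hne i hi g1)
          · rw [Function.update_of_ne g1, Function.update_of_ne g2] at hij
            exact hz.inj i j hi hj hij
      have hend : Function.update z i0 e m = y := by
        rcases Nat.eq_or_lt_of_le hi0 with hm | hm
        · subst hm
          rw [Nat.sub_self, Function.update_self] at hRy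
          rw [Function.update_self]
          exact hRy
        · rw [Function.update_of_ne (by omega)] at hRy ⊢
          rw [Nat.sub_zero] at hRy
          exact hRy
      exact hk.trans (h m _ hpath hLx hend)
    · rcases he with rfl | rfl <;> rcases he' with rfl | rfl
      · exact absurd rfl hee
      · have g1 := gL n1 h1
        have g2 := gR n2 h2
        omega
      · have g1 := gL n3 h3
        have g2 := gR n4 h4
        omega
      · exact absurd rfl hee
  · push Not at hex
    have hx : mv p q x = x := by
      have h5 := hex 0 (by omega)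
      rw [hz0] at h5
      unfold mv at h5 ⊢
      split_ifs at h5 ⊢ with h6
      · exact absurd rfl h5
      · rfl
    have hy : mv p q y = y := by
      have h5 := hex m le_rfl
      rw [hzm] at h5
      unfold mv at h5 ⊢
      split_ifs at h5 ⊢ with h6
      · exact absurd rfl h5
      · rfl
    refine hk.trans (h m z ⟨fun j hj => ?_, hz.inj⟩ (hz0.trans hx) (hzm.trans hy))
    rcases (hz.adj j hj).2.2.2 with h5 | ⟨h5, -⟩ | ⟨h5, -⟩
    · exact h5
    · exact absurd h5 (hex j hj.le)
    · exact absurd h5 (hex (j + 1) hj)

end Pool.Agent.W_fb73a4_h51
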