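import Pool.Agent.W_fb73a4_h51.GDefs
import Pool.Agent.W_fb73a4_t7.Minor

/-!
MP_fb73a4_co [T7] GD: MacLane's criterion is closed under minors (corollary of
`Pool.Agent.W_fb73a4_t7.maclane_minor`).
-/

set_option autoImplicit false

namespace Pool.Agent.W_fb73a4_h51

open Finset
open scoped Classical
open Pool.Agent.W_fb73a4_h20

variable {V : Type} [Fintype V]

/-- `K` is a minor of `H`: the fibres of `π` are connected in `H`, every edge of `K` comes from an
edge of `H`. -/
theorem maclane_minor {H K : SimpleGraph V} (hH : MacLane H) (π : V → V)
    (hconn : ∀ u v, π u = π v → Relation.ReflTransGen (fun a b => H.Adj a b ∧ π a = π b) u v)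
    (hK : ∀ x y, K.Adj x y → ∃ u v, H.Adj u v ∧ π u = x ∧ π v = y) : MacLane K := by
  refine Pool.Agent.W_fb73a4_t7.maclane_minor hH (fun v => some (π v)) ?_ ?_
  · intro u v a hu hv
    have hu' : π u = a := Option.some_injective _ hu
    have hv' : π v = a := Option.some_injective _ hv
    have h := hconn u v (hu'.trans hv'.symm)
    clear hv hv'
    induction h with
    | refl => exact Relation.ReflTransGen.refl
    | @tail b c hb hbc ih =>
      have hb' : π b = a := by
        have h1 : ∀ x, Relation.ReflTransGen (fun a b => H.Adj a b ∧ π a = π b) u x → π x = a := by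
          intro x hx
          induction hx with
          | refl => exact hu'
          | tail _ h2 ih2 => exact h2.2.symm.trans ih2
        exact h1 b hb
      exact Relation.ReflTransGen.tail ih
        ⟨hbc.1, congrArg some hb', congrArg some (hbc.2.symm.trans hb')⟩
  · intro x y hxy
    obtain ⟨u, v, h1, h2, h3⟩ := hK x y hxy
    exact ⟨u, v, congrArg some h2, congrArg some h3, h1⟩

end Pool.Agent.W_fb73a4_h51
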