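import Pool.Agent.W_fb73a4_t7.RGA
import Pool.Agent.W_fb73a4_h51.DataTET
import Pool.Agent.W_fb73a4_h51.DataM9
import Pool.Agent.W_fb73a4_h51.DataMM9
import Pool.Agent.W_fb73a4_h51.DataB3
import Pool.Agent.W_fb73a4_h51.DataP9

/-!
MP_fb73a4_co [T7]: the fields `tet`, `len8`, `nb` of `Good`.
-/

set_option autoImplicit false

namespace Pool.Agent.W_fb73a4_h51

open Finset
open scoped Classical
open Pool.Agent.W_fb73a4_h20
open Pool.Agent.W_fb73a4_t7

variable {V : Type} [Fintype V] {G : SimpleGraph V} {ι : Type} [Fintype ι] {F : ι → EV V}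
  {i0 : ι} {m : ℕ} {x : ZMod m → V} {C : Finset V}

theorem good_tet (E : Env G ι F i0 m x C) (M : OM G F) (u v : V) (ha : G.Adj u v) :
    ¬ (M.hx C u v .T2 ∧ M.hx C (M.fw u v 1) (M.fw u v 2) .T1 ∧
      M.hx C (M.fw u v 2) (M.fw u v 3) .T2 ∧ M.hx C (M.fw u v 3) (M.fw u v 4) .T1) := by
  rintro ⟨h1, h2, h3, h4⟩
  refine use E M ha pr_tet cl_TET pr_tet_ok (fun M φ h => red_TET E M h) ?_
  intro f hf
  simp only [pr_tet, List.mem_cons, List.not_mem_nil, or_false] at hf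
  rcases hf with rfl | rfl | rfl | rfl
  · exact ⟨ha, h1⟩
  · exact ⟨M.fw_adj ha 1, h2⟩
  · exact ⟨M.fw_adj ha 2, h3⟩
  · exact ⟨M.fw_adj ha 3, h4⟩

theorem good_len8 (E : Env G ι F i0 m x C) (M : OM G F) (u v : V) (ha : G.Adj u v)
    (h : M.Asked C u v) : M.fl u v ≤ 8 := by
  by_contra hc
  have h9 : 9 ≤ M.fl u v := by omega
  rcases h with ⟨h1, h2⟩ | ⟨h1, h2⟩ | ⟨h1, h2⟩
  · refine use E M ha pr_len8M cl_M9 pr_len8M_ok (fun M φ h => red_M9 E M h) ?_
    intro f hf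
    simp only [pr_len8M, List.mem_cons, List.not_mem_nil, or_false] at hf
    rcases hf with rfl | rfl | rfl
    · exact ⟨ha, h1⟩
    · exact h2
    · exact ⟨ha, h9⟩
  · refine use E M ha pr_len8L cl_MM9 pr_len8L_ok (fun M φ h => red_MM9 E M h) ?_
    intro f hf
    simp only [pr_len8L, List.mem_cons, List.not_mem_nil, or_false] at hf
    rcases hf with rfl | rfl | rfl
    · exact ⟨ha, h1⟩
    · exact h2
    · exact ⟨ha, h9⟩
  · refine use_rv E M ha pr_len8R cl_MM9 pr_len8R_ok (by decide) (fun M φ h => red_MM9 E M h) ?_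
    intro f hf
    simp only [pr_len8R, List.mem_cons, List.not_mem_nil, or_false] at hf
    rcases hf with rfl | rfl | rfl
    · exact ⟨ha, h1⟩
    · exact h2
    · exact ⟨ha, h9⟩

theorem good_nb (E : Env G ι F i0 m x C) (M : OM G F) (u v : V) (ha : G.Adj u v)
    (h : M.Asked C u v) (hu : u ∉ C) : dgr G u ≠ 3 := by
  intro h3
  rcases h with ⟨h1, h2⟩ | ⟨h1, h2⟩ | ⟨h1, h2⟩
  · refine use E M ha pr_nbM cl_B3 pr_nbM_ok (fun M φ h => red_B3 E M h) ?_
    intro f hf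
    simp only [pr_nbM, List.mem_cons, List.not_mem_nil, or_false] at hf
    rcases hf with rfl | rfl | rfl
    · exact ⟨ha, h1⟩
    · exact h2
    · exact ⟨hu, h3⟩
  · refine use_rv E M ha pr_nbL cl_P9 pr_nbL_ok (by decide) (fun M φ h => red_P9 E M h) ?_
    intro f hf
    simp only [pr_nbL, List.mem_cons, List.not_mem_nil, or_false] at hf
    rcases hf with rfl | rfl | rfl
    · exact ⟨ha, h1⟩
    · exact h2
    · exact ⟨hu, h3⟩
  · refine use E M ha pr_nbR cl_B3 pr_nbR_ok (fun M φ h => red_B3 E M h) ?_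
    intro f hf
    simp only [pr_nbR, List.mem_cons, List.not_mem_nil, or_false] at hf
    rcases hf with rfl | rfl | rfl
    · exact ⟨ha, h1⟩
    · exact h2
    · exact ⟨hu, h3⟩

end Pool.Agent.W_fb73a4_h51
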