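import Pool.Agent.W_fb73a4_t7.RGA
import Pool.Agent.W_fb73a4_t7.PB
import Pool.Agent.W_fb73a4_h51.DataMM
import Pool.Agent.W_fb73a4_h51.DataP10
import Pool.Agent.W_fb73a4_h51.DataP9

/-!
MP_fb73a4_co [T7]: the field `adj` of `Good`, first letter `M`.
-/

set_option autoImplicit false

namespace Pool.Agent.W_fb73a4_h51

open Finset
open scoped Classical
open Pool.Agent.W_fb73a4_h20
open Pool.Agent.W_fb73a4_t7

variable {V : Type} [Fintype V] {G : SimpleGraph V} {ι : Type} [Fintype ι] {F : ι → EV V}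
  {i0 : ι} {m : ℕ} {x : ZMod m → V} {C : Finset V}

theorem adj_MM (E : Env G ι F i0 m x C) (M : OM G F) (u v : V) (ha : G.Adj u v)
    (h : M.hx C u v .M) (h' : M.hx C v (M.s u v) .M) : False := by
  obtain ⟨h1, h2⟩ := h
  obtain ⟨h3, h4⟩ := h'
  have hd : defsOk 2 pr_adjMM.defs = true := by decide
  have e0 : pr_adjMM.phi M u v 0 = u := phi_zero _ M u v
  have e1 : pr_adjMM.phi M u v 1 = v := phi_one _ M u v
  have e2 : pr_adjMM.phi M u v 2 = M.s u v := by
    rw [show pr_adjMM.phi M u v 2 = M.s (pr_adjMM.phi M u v 0) (pr_adjMM.phi M u v 1) from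
      phi_new _ hd M u v 0 (by decide), e0, e1] <;> rfl
  have e3 : pr_adjMM.phi M u v 3 = M.s v (M.s u v) := by
    rw [show pr_adjMM.phi M u v 3 = M.s (pr_adjMM.phi M u v 1) (pr_adjMM.phi M u v 2) from
      phi_new _ hd M u v 1 (by decide), e1, e2] <;> rfl
  have e4 : pr_adjMM.phi M u v 4 = M.op u v := by
    rw [show pr_adjMM.phi M u v 4 = M.s (pr_adjMM.phi M u v 2) (pr_adjMM.phi M u v 1) from
      phi_new _ hd M u v 2 (by decide), e2, e1] <;> rfl
  have e5 : pr_adjMM.phi M u v 5 = M.op v (M.s u v) := by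
    rw [show pr_adjMM.phi M u v 5 = M.s (pr_adjMM.phi M u v 3) (pr_adjMM.phi M u v 2) from
      phi_new _ hd M u v 3 (by decide), e3, e2] <;> rfl
  refine use E M ha pr_adjMM cl_MM pr_adjMM_ok (fun M φ h => red_MM E M h) ?_
  intro f hf
  simp only [pr_adjMM, List.mem_cons, List.not_mem_nil, or_false] at hf
  rcases hf with rfl | rfl | rfl | rfl
  · show G.Adj (pr_adjMM.phi M u v 0) (pr_adjMM.phi M u v 1) ∧ M.holds C (pr_adjMM.phi M u v 0) (pr_adjMM.phi M u v 1)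
      (M.s (pr_adjMM.phi M u v 0) (pr_adjMM.phi M u v 1)) .V
    rw [e0, e1]
    exact ⟨ha, h1⟩
  · show G.Adj (pr_adjMM.phi M u v 1) (pr_adjMM.phi M u v 2) ∧ M.holds C (pr_adjMM.phi M u v 1) (pr_adjMM.phi M u v 2)
      (M.s (pr_adjMM.phi M u v 1) (pr_adjMM.phi M u v 2)) .V
    rw [e1, e2]
    exact ⟨M.adj _ _ ha, h3⟩
  · show M.Word C (pr_adjMM.phi M u v 4) (pr_adjMM.phi M u v 1) wM
    rw [e4, e1]
    exact h2
  · show M.Word C (pr_adjMM.phi M u v 5) (pr_adjMM.phi M u v 2) wM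
    rw [e5, e2]
    exact h4

theorem adj_ML (E : Env G ι F i0 m x C) (M : OM G F) (u v : V) (ha : G.Adj u v)
    (h : M.hx C u v .M) (h' : M.hx C v (M.s u v) .L) : False := by
  obtain ⟨h1, h2⟩ := h
  obtain ⟨h3, h4⟩ := h'
  have hd : defsOk 2 pr_adjML.defs = true := by decide
  have e0 : pr_adjML.phi M u v 0 = u := phi_zero _ M u v
  have e1 : pr_adjML.phi M u v 1 = v := phi_one _ M u v
  have e2 : pr_adjML.phi M u v 2 = M.s u v := by
    rw [show pr_adjML.phi M u v 2 = M.s (pr_adjML.phi M u v 0) (pr_adjML.phi M u v 1) from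
      phi_new _ hd M u v 0 (by decide), e0, e1] <;> rfl
  have e3 : pr_adjML.phi M u v 3 = M.s v (M.s u v) := by
    rw [show pr_adjML.phi M u v 3 = M.s (pr_adjML.phi M u v 1) (pr_adjML.phi M u v 2) from
      phi_new _ hd M u v 1 (by decide), e1, e2] <;> rfl
  have e4 : pr_adjML.phi M u v 4 = M.op u v := by
    rw [show pr_adjML.phi M u v 4 = M.s (pr_adjML.phi M u v 2) (pr_adjML.phi M u v 1) from
      phi_new _ hd M u v 2 (by decide), e2, e1] <;> rfl
  have e5 : pr_adjML.phi M u v 5 = M.op v (M.s u v) := by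
    rw [show pr_adjML.phi M u v 5 = M.s (pr_adjML.phi M u v 3) (pr_adjML.phi M u v 2) from
      phi_new _ hd M u v 3 (by decide), e3, e2] <;> rfl
  refine use E M ha pr_adjML cl_P9 pr_adjML_ok (fun M φ h => red_P9 E M h) ?_
  intro f hf
  simp only [pr_adjML, List.mem_cons, List.not_mem_nil, or_false] at hf
  rcases hf with rfl | rfl | rfl | rfl
  · show G.Adj (pr_adjML.phi M u v 0) (pr_adjML.phi M u v 1) ∧ M.holds C (pr_adjML.phi M u v 0) (pr_adjML.phi M u v 1)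
      (M.s (pr_adjML.phi M u v 0) (pr_adjML.phi M u v 1)) .V
    rw [e0, e1]
    exact ⟨ha, h1⟩
  · show G.Adj (pr_adjML.phi M u v 1) (pr_adjML.phi M u v 2) ∧ M.holds C (pr_adjML.phi M u v 1) (pr_adjML.phi M u v 2)
      (M.s (pr_adjML.phi M u v 1) (pr_adjML.phi M u v 2)) .V
    rw [e1, e2]
    exact ⟨M.adj _ _ ha, h3⟩
  · show M.Word C (pr_adjML.phi M u v 4) (pr_adjML.phi M u v 1) wM
    rw [e4, e1]
    exact h2
  · show M.Word C (pr_adjML.phi M u v 5) (pr_adjML.phi M u v 2) wL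
    rw [e5, e2]
    exact h4

theorem adj_MR (E : Env G ι F i0 m x C) (M : OM G F) (u v : V) (ha : G.Adj u v)
    (h : M.hx C u v .M) (h' : M.hx C v (M.s u v) .R) : False := by
  obtain ⟨h1, h2⟩ := h
  obtain ⟨h3, h4⟩ := h'
  have hd : defsOk 2 pr_adjMR.defs = true := by decide
  have e0 : pr_adjMR.phi M u v 0 = u := phi_zero _ M u v
  have e1 : pr_adjMR.phi M u v 1 = v := phi_one _ M u v
  have e2 : pr_adjMR.phi M u v 2 = M.s u v := by
    rw [show pr_adjMR.phi M u v 2 = M.s (pr_adjMR.phi M u v 0) (pr_adjMR.phi M u v 1) from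
      phi_new _ hd M u v 0 (by decide), e0, e1] <;> rfl
  have e3 : pr_adjMR.phi M u v 3 = M.s v (M.s u v) := by
    rw [show pr_adjMR.phi M u v 3 = M.s (pr_adjMR.phi M u v 1) (pr_adjMR.phi M u v 2) from
      phi_new _ hd M u v 1 (by decide), e1, e2] <;> rfl
  have e4 : pr_adjMR.phi M u v 4 = M.op u v := by
    rw [show pr_adjMR.phi M u v 4 = M.s (pr_adjMR.phi M u v 2) (pr_adjMR.phi M u v 1) from
      phi_new _ hd M u v 2 (by decide), e2, e1] <;> rfl
  have e5 : pr_adjMR.phi M u v 5 = M.op v (M.s u v) := by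
    rw [show pr_adjMR.phi M u v 5 = M.s (pr_adjMR.phi M u v 3) (pr_adjMR.phi M u v 2) from
      phi_new _ hd M u v 3 (by decide), e3, e2] <;> rfl
  refine use E M ha pr_adjMR cl_P10 pr_adjMR_ok (fun M φ h => red_P10 E M h) ?_
  intro f hf
  simp only [pr_adjMR, List.mem_cons, List.not_mem_nil, or_false] at hf
  rcases hf with rfl | rfl | rfl | rfl
  · show G.Adj (pr_adjMR.phi M u v 0) (pr_adjMR.phi M u v 1) ∧ M.holds C (pr_adjMR.phi M u v 0) (pr_adjMR.phi M u v 1)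
      (M.s (pr_adjMR.phi M u v 0) (pr_adjMR.phi M u v 1)) .V
    rw [e0, e1]
    exact ⟨ha, h1⟩
  · show G.Adj (pr_adjMR.phi M u v 1) (pr_adjMR.phi M u v 2) ∧ M.holds C (pr_adjMR.phi M u v 1) (pr_adjMR.phi M u v 2)
      (M.s (pr_adjMR.phi M u v 1) (pr_adjMR.phi M u v 2)) .V
    rw [e1, e2]
    exact ⟨M.adj _ _ ha, h3⟩
  · show M.Word C (pr_adjMR.phi M u v 4) (pr_adjMR.phi M u v 1) wM
    rw [e4, e1]
    exact h2
  · show M.Word C (pr_adjMR.phi M u v 5) (pr_adjMR.phi M u v 2) wR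
    rw [e5, e2]
    exact h4

end Pool.Agent.W_fb73a4_h51
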