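import Pool.Agent.W_fb73a4_t7.RGA
import Pool.Agent.W_fb73a4_t7.PC
import Pool.Agent.W_fb73a4_h51.DataMVMMo

/-!
MP_fb73a4_co [T7]: the field `mvm` of `Good`, last letter `L`.
-/

set_option autoImplicit false

namespace Pool.Agent.W_fb73a4_h51

open Finset
open scoped Classical
open Pool.Agent.W_fb73a4_h20
open Pool.Agent.W_fb73a4_t7

variable {V : Type} [Fintype V] {G : SimpleGraph V} {ι : Type} [Fintype ι] {F : ι → EV V}
  {i0 : ι} {m : ℕ} {x : ZMod m → V} {C : Finset V}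

theorem mvm_L (E : Env G ι F i0 m x C) (M : OM G F) (u v : V) (ha : G.Adj u v)
    (h : M.hx C u v .M) (hV : M.hx C (M.fw u v 1) (M.fw u v 2) .V)
    (h' : M.hx C (M.fw u v 2) (M.fw u v 3) .L) : False := by
  obtain ⟨h1, h2⟩ := h
  obtain ⟨h3, h4⟩ := h'
  have hd : defsOk 2 pr_mvmL.defs = true := by decide
  have e0 : pr_mvmL.phi M u v 0 = u := phi_zero _ M u v
  have e1 : pr_mvmL.phi M u v 1 = v := phi_one _ M u v
  have e2 : pr_mvmL.phi M u v 2 = M.fw u v 2 := by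
    rw [show pr_mvmL.phi M u v 2 = M.s (pr_mvmL.phi M u v 0) (pr_mvmL.phi M u v 1) from
      phi_new _ hd M u v 0 (by decide), e0, e1] <;> rfl
  have e3 : pr_mvmL.phi M u v 3 = M.fw u v 3 := by
    rw [show pr_mvmL.phi M u v 3 = M.s (pr_mvmL.phi M u v 1) (pr_mvmL.phi M u v 2) from
      phi_new _ hd M u v 1 (by decide), e1, e2] <;> rfl
  have e4 : pr_mvmL.phi M u v 4 = M.fw u v 4 := by
    rw [show pr_mvmL.phi M u v 4 = M.s (pr_mvmL.phi M u v 2) (pr_mvmL.phi M u v 3) from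
      phi_new _ hd M u v 2 (by decide), e2, e3] <;> rfl
  have e5 : pr_mvmL.phi M u v 5 = M.op u v := by
    rw [show pr_mvmL.phi M u v 5 = M.s (pr_mvmL.phi M u v 2) (pr_mvmL.phi M u v 1) from
      phi_new _ hd M u v 3 (by decide), e2, e1] <;> rfl
  have e6 : pr_mvmL.phi M u v 6 = M.op (M.fw u v 2) (M.fw u v 3) := by
    rw [show pr_mvmL.phi M u v 6 = M.s (pr_mvmL.phi M u v 4) (pr_mvmL.phi M u v 3) from
      phi_new _ hd M u v 4 (by decide), e4, e3] <;> rfl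
  refine use_rv E M ha pr_mvmL cl_MVMMo pr_mvmL_ok (by decide) (fun M φ h => red_MVMMo E M h) ?_
  intro f hf
  simp only [pr_mvmL, List.mem_cons, List.not_mem_nil, or_false] at hf
  rcases hf with rfl | rfl | rfl | rfl | rfl
  · show G.Adj (pr_mvmL.phi M u v 0) (pr_mvmL.phi M u v 1) ∧ M.holds C (pr_mvmL.phi M u v 0) (pr_mvmL.phi M u v 1)
      (M.s (pr_mvmL.phi M u v 0) (pr_mvmL.phi M u v 1)) .V
    rw [e0, e1]
    exact ⟨ha, h1⟩
  · show G.Adj (pr_mvmL.phi M u v 1) (pr_mvmL.phi M u v 2) ∧ M.holds C (pr_mvmL.phi M u v 1) (pr_mvmL.phi M u v 2)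
      (M.s (pr_mvmL.phi M u v 1) (pr_mvmL.phi M u v 2)) .V
    rw [e1, e2]
    exact ⟨M.fw_adj ha 1, hV⟩
  · show G.Adj (pr_mvmL.phi M u v 2) (pr_mvmL.phi M u v 3) ∧ M.holds C (pr_mvmL.phi M u v 2) (pr_mvmL.phi M u v 3)
      (M.s (pr_mvmL.phi M u v 2) (pr_mvmL.phi M u v 3)) .V
    rw [e2, e3]
    exact ⟨M.fw_adj ha 2, h3⟩
  · show M.Word C (pr_mvmL.phi M u v 5) (pr_mvmL.phi M u v 1) wM
    rw [e5, e1]
    exact h2
  · show M.Word C (pr_mvmL.phi M u v 6) (pr_mvmL.phi M u v 3) wL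
    rw [e6, e3]
    exact h4

end Pool.Agent.W_fb73a4_h51
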