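import Pool.Agent.W_fb73a4_t7.RGA

/-!
MP_fb73a4_co [T7]: words with extended letters give words.
-/

set_option autoImplicit false

namespace Pool.Agent.W_fb73a4_h51

open Finset
open scoped Classical
open Pool.Agent.W_fb73a4_h20
open Pool.Agent.W_fb73a4_t7

variable {V : Type} [Fintype V] {G : SimpleGraph V} {ι : Type} [Fintype ι] {F : ι → EV V}
  {i0 : ι} {m : ℕ} {x : ZMod m → V} {C : Finset V}

/-- the simple letter of an extended letter -/
def lxt : Lx → Lt
  | .T1 => .T1
  | .T2 => .T2
  | .Z => .Z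
  | .Y => .Y
  | .V | .M | .L | .R | .Q => .V
  | .A => .A

omit [Fintype ι] in
theorem hx_lxt {M : OM G F} {p y : V} {l : Lx} (h : M.hx C p y l) :
    M.holds C p y (M.s p y) (lxt l) := by
  cases l with
  | T1 => exact h
  | T2 => exact h
  | Z => exact h
  | Y => exact h
  | V => exact h
  | M => exact h.1
  | L => exact h.1
  | R => exact h.1
  | Q => exact h.1
  | A => trivial

omit [Fintype ι] in
theorem wordX_word {M : OM G F} {u v : V} {w : List Lx} (h : M.WordX C u v w) :
    M.Word C u v (w.map lxt) := by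
  refine ⟨h.1, by rw [List.length_map]; exact h.2.1, fun k hk => ?_⟩
  rw [List.length_map] at hk
  have h1 := hx_lxt (h.2.2 k hk)
  have h2 : (w.map lxt).getD k .A = lxt (w.getD k .A) := by
    rw [List.getD_eq_getElem _ _ (by rw [List.length_map]; exact hk), List.getElem_map,
      List.getD_eq_getElem _ _ hk]
  rw [h2]
  exact h1

omit [Fintype ι] in
/-- in a poor face the neighbours of the first `V` are inner vertices of degree 3 -/
theorem poor_deg {M : OM G F} {p y : V}
    (h : M.Word C p y wM ∨ M.Word C p y wL ∨ M.Word C p y wR) :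
    (p ∉ C ∧ dgr G p = 3) ∧ (M.s p y ∉ C ∧ dgr G (M.s p y) = 3) := by
  have key : ∀ w : List Lt, w.length = 8 → w.getD 1 .A = .T1 → w.getD 7 .A = .T2 →
      M.Word C p y w → (p ∉ C ∧ dgr G p = 3) ∧ (M.s p y ∉ C ∧ dgr G (M.s p y) = 3) := by
    intro w hl h1 h7 hw
    have a1 := hw.2.2 1 (by omega)
    have a7 := hw.2.2 7 (by omega)
    rw [h1] at a1
    rw [h7] at a7
    have e8 : M.fw p y 8 = p := by
      have h3 := M.fw_period hw.1 0
      rw [hw.2.1, hl] at h3
      exact h3
    rw [show 7 + 1 = 8 from rfl, e8] at a7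
    exact ⟨⟨a7.1, a7.2.1⟩, ⟨a1.1, a1.2.1⟩⟩
  rcases h with h | h | h
  · exact key _ rfl rfl rfl h
  · exact key _ rfl rfl rfl h
  · exact key _ rfl rfl rfl h

end Pool.Agent.W_fb73a4_h51
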