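import Pool.Agent.W_fb73a4_h51.GoodD
import Pool.Agent.W_fb73a4_t7.RGA
import Pool.Agent.W_fb73a4_t7.PD
import Pool.Agent.W_fb73a4_h51.DataA2MM

/-!
MP_fb73a4_co [T7]: bad word number 3.
-/

set_option autoImplicit false

namespace Pool.Agent.W_fb73a4_h51

open Finset
open scoped Classical
open Pool.Agent.W_fb73a4_h20
open Pool.Agent.W_fb73a4_t7

variable {V : Type} [Fintype V] {G : SimpleGraph V} {ι : Type} [Fintype ι] {F : ι → EV V}
  {i0 : ι} {m : ℕ} {x : ZMod m → V} {C : Finset V}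

theorem bad_3 (E : Env G ι F i0 m x C) (M : OM G F) (u v : V)
    (h : M.WordX C u v [.M, .V, .T1, .T2, .V, .M, .V, .V]) : False := by
  have ha := h.1
  have h1 := wordX_word h
  have h2 : M.hx C u v .M := h.2.2 0 (by decide)
  have h3 : M.hx C (M.fw u v 5) (M.fw u v 6) .M := h.2.2 5 (by decide)
  have hd : defsOk 2 pr_bad3.defs = true := by decide
  have e0 : pr_bad3.phi M u v 0 = u := phi_zero _ M u v
  have e1 : pr_bad3.phi M u v 1 = v := phi_one _ M u v
  have e2 : pr_bad3.phi M u v 2 = M.fw u v 2 := by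
    rw [show pr_bad3.phi M u v 2 = M.s (pr_bad3.phi M u v 0) (pr_bad3.phi M u v 1) from
      phi_new _ hd M u v 0 (by decide), e0, e1] <;> rfl
  have e3 : pr_bad3.phi M u v 3 = M.fw u v 3 := by
    rw [show pr_bad3.phi M u v 3 = M.s (pr_bad3.phi M u v 1) (pr_bad3.phi M u v 2) from
      phi_new _ hd M u v 1 (by decide), e1, e2] <;> rfl
  have e4 : pr_bad3.phi M u v 4 = M.fw u v 4 := by
    rw [show pr_bad3.phi M u v 4 = M.s (pr_bad3.phi M u v 2) (pr_bad3.phi M u v 3) from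
      phi_new _ hd M u v 2 (by decide), e2, e3] <;> rfl
  have e5 : pr_bad3.phi M u v 5 = M.fw u v 5 := by
    rw [show pr_bad3.phi M u v 5 = M.s (pr_bad3.phi M u v 3) (pr_bad3.phi M u v 4) from
      phi_new _ hd M u v 3 (by decide), e3, e4] <;> rfl
  have e6 : pr_bad3.phi M u v 6 = M.fw u v 6 := by
    rw [show pr_bad3.phi M u v 6 = M.s (pr_bad3.phi M u v 4) (pr_bad3.phi M u v 5) from
      phi_new _ hd M u v 4 (by decide), e4, e5] <;> rfl
  have e7 : pr_bad3.phi M u v 7 = M.fw u v 7 := by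
    rw [show pr_bad3.phi M u v 7 = M.s (pr_bad3.phi M u v 5) (pr_bad3.phi M u v 6) from
      phi_new _ hd M u v 5 (by decide), e5, e6] <;> rfl
  have e8 : pr_bad3.phi M u v 8 = M.op u v := by
    rw [show pr_bad3.phi M u v 8 = M.s (pr_bad3.phi M u v 2) (pr_bad3.phi M u v 1) from
      phi_new _ hd M u v 6 (by decide), e2, e1] <;> rfl
  have e9 : pr_bad3.phi M u v 9 = M.op (M.fw u v 5) (M.fw u v 6) := by
    rw [show pr_bad3.phi M u v 9 = M.s (pr_bad3.phi M u v 7) (pr_bad3.phi M u v 6) from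
      phi_new _ hd M u v 7 (by decide), e7, e6] <;> rfl
  refine use E M ha pr_bad3 cl_A2MM pr_bad3_ok (fun M φ h => red_A2MM E M h) ?_
  intro f hf
  simp only [pr_bad3, List.mem_cons, List.not_mem_nil, or_false] at hf
  rcases hf with rfl | rfl | rfl
  · show M.Word C (pr_bad3.phi M u v 0) (pr_bad3.phi M u v 1) [.V, .V, .T1, .T2, .V, .V, .V, .V]
    rw [e0, e1]
    exact h1
  · show M.Word C (pr_bad3.phi M u v 8) (pr_bad3.phi M u v 1) wM
    rw [e8, e1]
    exact h2.2
  · show M.Word C (pr_bad3.phi M u v 9) (pr_bad3.phi M u v 6) wM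
    rw [e9, e6]
    exact h3.2

end Pool.Agent.W_fb73a4_h51
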