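import Pool.Agent.W_fb73a4_h51.GoodA
import Pool.Agent.W_fb73a4_h51.GoodBM
import Pool.Agent.W_fb73a4_h51.GoodBL
import Pool.Agent.W_fb73a4_h51.GoodBR
import Pool.Agent.W_fb73a4_h51.GoodCM
import Pool.Agent.W_fb73a4_h51.GoodCL
import Pool.Agent.W_fb73a4_h51.GoodCR
import Pool.Agent.W_fb73a4_h51.GoodD0
import Pool.Agent.W_fb73a4_h51.GoodD1
import Pool.Agent.W_fb73a4_h51.GoodD2
import Pool.Agent.W_fb73a4_h51.GoodD3
import Pool.Agent.W_fb73a4_h51.GoodD4
import Pool.Agent.W_fb73a4_h51.GoodD5
import Pool.Agent.W_fb73a4_h51.GoodD6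
import Pool.Agent.W_fb73a4_h51.GoodD7
import Pool.Agent.W_fb73a4_h51.GoodD8

/-!
MP_fb73a4_co [T7]: in a minimal counterexample all reductions hold.
-/

set_option autoImplicit false

namespace Pool.Agent.W_fb73a4_h51

open Finset
open scoped Classical
open Pool.Agent.W_fb73a4_h20
open Pool.Agent.W_fb73a4_t7

variable {V : Type} [Fintype V] {G : SimpleGraph V} {ι : Type} [Fintype ι] {F : ι → EV V}
  {i0 : ι} {m : ℕ} {x : ZMod m → V} {C : Finset V}

theorem good_all (E : Env G ι F i0 m x C) (M : OM G F) : Good M C where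
  tet := good_tet E M
  len8 := good_len8 E M
  nb := good_nb E M
  adj := by
    intro u v ha h h'
    rcases h with h | h | h <;> rcases h' with h' | h' | h'
    · exact adj_MM E M u v ha h h'
    · exact adj_ML E M u v ha h h'
    · exact adj_MR E M u v ha h h'
    · exact adj_LM E M u v ha h h'
    · exact adj_LL E M u v ha h h'
    · exact adj_LR E M u v ha h h'
    · exact adj_RM E M u v ha h h'
    · exact adj_RL E M u v ha h h'
    · exact adj_RR E M u v ha h h'
  mvm := by
    intro u v ha h hV h'
    rcases h' with h' | h' | h'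
    · exact mvm_M E M u v ha h hV h'
    · exact mvm_L E M u v ha h hV h'
    · exact mvm_R E M u v ha h hV h'
  bad := by
    intro u v w hw h
    simp only [badWords, List.mem_cons, List.not_mem_nil, or_false] at hw
    rcases hw with rfl | rfl | rfl | rfl | rfl | rfl | rfl | rfl | rfl
    · exact bad_0 E M u v h
    · exact bad_1 E M u v h
    · exact bad_2 E M u v h
    · exact bad_3 E M u v h
    · exact bad_4 E M u v h
    · exact bad_5 E M u v h
    · exact bad_6 E M u v h
    · exact bad_7 E M u v h
    · exact bad_8 E M u v h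

end Pool.Agent.W_fb73a4_h51
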