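import Pool.Agent.W_fb73a4_h51.CDefs

/-!
MP_fb73a4_co [T7] SA: the static functions on lists.
-/

set_option autoImplicit false

namespace Pool.Agent.W_fb73a4_h51

open Pool.Agent.W_fb73a4_t7 (Conf)

private theorem SA_beq {a b : ℕ} : Nat.beq a b = true ↔ a = b :=
  ⟨Nat.eq_of_beq_eq_true, fun h => by rw [h]; exact Nat.beq_refl b⟩

private theorem SA_beq_false {a b : ℕ} (h : a ≠ b) : Nat.beq a b = false := by
  rw [Bool.eq_false_iff]
  exact fun h2 => h (SA_beq.1 h2)

private theorem SA_blt {a b : ℕ} : Nat.blt a b = true ↔ a < b := by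
  unfold Nat.blt
  rw [Nat.ble_eq]
  exact Nat.succ_le_iff

theorem mem_iff (x : ℕ) (l : List ℕ) : mem x l = true ↔ x ∈ l := by
  induction l with
  | nil => simp [mem]
  | cons a l ih =>
    rw [mem, Bool.or_eq_true, ih, SA_beq, List.mem_cons]
    exact or_congr_left eq_comm

private theorem SA_mem_false {x : ℕ} {l : List ℕ} : mem x l = false ↔ x ∉ l := by
  rw [Bool.eq_false_iff, Ne, mem_iff]

theorem nodupB_iff (l : List ℕ) : nodupB l = true ↔ l.Nodup := by
  induction l with
  | nil => simp [nodupB]
  | cons a l ih =>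
    rw [nodupB, Bool.and_eq_true, ih, List.nodup_cons, Bool.not_eq_true', SA_mem_false]

private theorem SA_nbl {c : Conf} {i : ℕ} (hi : i < c.nD) : nbl c i = c.rot.getD i [] := by
  unfold nbl
  rw [SA_blt.2 hi]
  rfl

private theorem SA_nbl_out {c : Conf} {i : ℕ} (hi : ¬ i < c.nD) : nbl c i = [] := by
  unfold nbl
  rw [Bool.eq_false_iff.2 (fun h => hi (SA_blt.1 h))]
  rfl

/-- unfold `wf`; `nbl c i = c.rot.getD i []` for `i < nD` -/
theorem WF_of {c : Conf} {nV : ℕ} (h : wf c nV = true) : WF c nV := by
  unfold wf at h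
  simp only [Bool.and_eq_true, List.all_eq_true, List.mem_range, SA_beq, Nat.ble_eq, SA_blt,
    nodupB_iff, Bool.or_eq_true, mem_iff] at h
  obtain ⟨⟨⟨⟨h1, h2⟩, h3⟩, h4⟩, h5⟩ := h
  refine ⟨h1, h2, h3, ?_, ?_, ?_, ?_, ?_⟩
  · intro i hi
    have := (h4 i hi).1.1.1.1
    rwa [SA_nbl hi] at this
  · intro i hi
    have h6 := (h4 i hi).1.1.1.2
    have h7 := (h4 i hi).1.1.2
    rw [SA_nbl hi] at h6 h7
    exact ⟨h6, h7⟩
  · intro i hi
    have := (h4 i hi).1.2
    rwa [SA_nbl hi] at this
  · intro i hi j hj
    have h6 := (h4 i hi).2 j (by rw [SA_nbl hi]; exact hj)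
    refine ⟨h6.1, ?_⟩
    rcases h6.2 with h7 | h7
    · exact Or.inl h7
    · by_cases hj2 : j < c.nD
      · rw [SA_nbl hj2] at h7
        exact Or.inr h7
      · exact Or.inl (by omega)
  · intro t ht
    have h6 := h5 t ht
    refine ⟨h6.1, ?_⟩
    have h7 := h6.2
    rwa [SA_nbl h6.1] at h7

theorem mem_nbl {c : Conf} {i a : ℕ} (h : mem a (nbl c i) = true) :
    i < c.nD ∧ ∃ k < (c.rot.getD i []).length, a = c.nb i k := by
  by_cases hi : i < c.nD
  · refine ⟨hi, ?_⟩
    rw [SA_nbl hi, mem_iff] at h
    obtain ⟨k, hk, hk2⟩ := List.getElem_of_mem h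
    refine ⟨k, hk, ?_⟩
    unfold Conf.nb
    rw [Nat.mod_eq_of_lt hk, List.getD_eq_getElem _ _ hk]
    exact hk2.symm
  · rw [SA_nbl_out hi] at h
    simp [mem] at h

theorem nb_mem {c : Conf} {nV : ℕ} (hw : WF c nV) {i : ℕ} (hi : i < c.nD) (k : ℕ) :
    mem (c.nb i k) (nbl c i) = true := by
  rw [mem_iff, SA_nbl hi]
  unfold Conf.nb
  have h1 := (hw.deg i hi).1
  have h2 : k % (c.rot.getD i []).length < (c.rot.getD i []).length :=
    Nat.mod_lt _ (by omega)
  rw [List.getD_eq_getElem _ _ h2]
  exact List.getElem_mem h2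

private theorem SA_aftA (h : ℕ) : ∀ (l : List ℕ), l.Nodup → ∀ j, j < l.length →
    aftA (l.getD j 0) h l = if j + 1 < l.length then l.getD (j + 1) 0 else h := by
  intro l
  induction l with
  | nil => intro _ j hj; simp at hj
  | cons a l ih =>
    intro hn j hj
    cases l with
    | nil => simp [aftA]
    | cons b l =>
      cases j with
      | zero =>
        rw [aftA]
        simp
      | succ j =>
        have hj2 : j < (b :: l).length := by simpa using hj
        have h1 : (a :: b :: l).getD (j + 1) 0 = (b :: l).getD j 0 := rfl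
        have h2 : (b :: l).getD j 0 ∈ b :: l := by
          rw [List.getD_eq_getElem _ _ hj2]
          exact List.getElem_mem hj2
        have h3 : a ≠ (b :: l).getD j 0 := fun h4 => (List.nodup_cons.1 hn).1 (h4 ▸ h2)
        rw [aftA, h1, SA_beq_false h3]
        have h5 := ih (List.nodup_cons.1 hn).2 j hj2
        rw [cond_false, h5]
        have h6 : (a :: b :: l).getD (j + 1 + 1) 0 = (b :: l).getD (j + 1) 0 := rfl
        rw [h6]
        have h7 : (a :: b :: l).length = (b :: l).length + 1 := rfl
        rw [h7]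
        by_cases h8 : j + 1 < (b :: l).length
        · rw [if_pos h8, if_pos (by omega)]
        · rw [if_neg h8, if_neg (by omega)]

private theorem SA_aft {l : List ℕ} (hn : l.Nodup) {j : ℕ} (hj : j < l.length) :
    aft (l.getD j 0) l = l.getD ((j + 1) % l.length) 0 := by
  cases l with
  | nil => simp at hj
  | cons a l =>
    rw [aft, SA_aftA a _ hn j hj]
    by_cases h8 : j + 1 < (a :: l).length
    · rw [if_pos h8, Nat.mod_eq_of_lt h8]
    · have h9 : j + 1 = (a :: l).length := by omega
      rw [if_neg h8, h9, Nat.mod_self]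
      rfl

/-- `aft` is the cyclic successor -/
theorem aft_nb {c : Conf} {nV : ℕ} (hw : WF c nV) {i : ℕ} (hi : i < c.nD) (k : ℕ) :
    aft (c.nb i k) (nbl c i) = c.nb i (k + 1) := by
  rw [SA_nbl hi]
  unfold Conf.nb
  have h1 := (hw.deg i hi).1
  have h2 : k % (c.rot.getD i []).length < (c.rot.getD i []).length :=
    Nat.mod_lt _ (by omega)
  rw [SA_aft (hw.nd i hi) h2, Nat.mod_add_mod]

/-- `bef` is the inverse of `aft` -/
theorem bef_spec {c : Conf} {nV : ℕ} (hw : WF c nV) {i a : ℕ} (h : mem a (nbl c i) = true) :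
    mem (bef a (nbl c i)) (nbl c i) = true ∧ aft (bef a (nbl c i)) (nbl c i) = a := by
  have hi := (mem_nbl h).1
  have hn := hw.nd i hi
  rw [mem_iff] at h ⊢
  rw [SA_nbl hi] at h ⊢
  generalize c.rot.getD i [] = l at *
  obtain ⟨j, hj, hj2⟩ := List.getElem_of_mem (List.mem_reverse.2 h)
  have hr : l.reverse.getD j 0 = a := by rw [List.getD_eq_getElem _ _ hj, hj2]
  have hnr : l.reverse.Nodup := List.nodup_reverse.2 hn
  have hlr : l.reverse.length = l.length := List.length_reverse
  have hb : bef a l = l.reverse.getD ((j + 1) % l.reverse.length) 0 := by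
    unfold bef
    rw [← hr]
    exact SA_aft hnr hj
  have hpos : 0 < l.length := by omega
  have hlt : (j + 1) % l.reverse.length < l.reverse.length := Nat.mod_lt _ (by omega)
  have hb2 : bef a l = l.getD (l.length - 1 - (j + 1) % l.length) 0 := by
    rw [hb, List.getD_eq_getElem _ _ hlt, List.getElem_reverse,
      List.getD_eq_getElem _ _ (by omega)]
    congr 1
    rw [hlr]
  have hlt2 : l.length - 1 - (j + 1) % l.length < l.length := by omega
  have ha : a = l.getD (l.length - 1 - j) 0 := by
    rw [← hj2, List.getElem_reverse, List.getD_eq_getElem]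
  constructor
  · rw [hb2, List.getD_eq_getElem _ _ hlt2]
    exact List.getElem_mem hlt2
  · rw [hb2, SA_aft hn hlt2, ha]
    congr 1
    rw [hlr] at hj
    by_cases h8 : j + 1 < l.length
    · rw [Nat.mod_eq_of_lt h8, Nat.mod_eq_of_lt (by omega)]
      omega
    · have h9 : j + 1 = l.length := by omega
      rw [h9, Nat.mod_self]
      have h10 : l.length - 1 - 0 + 1 = l.length := by omega
      rw [h10, Nat.mod_self]
      omega

private theorem SA_triA_not : ∀ (l : List ℕ) (s : List Bool) (a : ℕ), a ∉ l → triA a l s = false := by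
  intro l
  induction l with
  | nil => intro s a _; simp [triA]
  | cons x l ih =>
    intro s a ha
    cases s with
    | nil => simp [triA]
    | cons t s =>
      rw [List.mem_cons, not_or] at ha
      rw [triA, SA_beq_false (Ne.symm ha.1), ih s a ha.2]
      rfl

private theorem SA_triA : ∀ (l : List ℕ) (s : List Bool), l.Nodup → s.length = l.length → ∀ k,
    k < l.length → triA (l.getD k 0) l s = s.getD k false := by
  intro l
  induction l with
  | nil => intro s _ _ k hk; simp at hk
  | cons x l ih =>
    intro s hn hs k hk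
    cases s with
    | nil => simp at hs
    | cons t s =>
      cases k with
      | zero =>
        have h1 : (x :: l).getD 0 0 = x := rfl
        rw [h1, triA, SA_triA_not l s x (List.nodup_cons.1 hn).1, Nat.beq_refl]
        simp
      | succ k =>
        have hk2 : k < l.length := by simpa using hk
        have h1 : (x :: l).getD (k + 1) 0 = l.getD k 0 := rfl
        have h2 : l.getD k 0 ∈ l := by
          rw [List.getD_eq_getElem _ _ hk2]
          exact List.getElem_mem hk2
        have h3 : x ≠ l.getD k 0 := fun h4 => (List.nodup_cons.1 hn).1 (h4 ▸ h2)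
        rw [h1, triA, SA_beq_false h3, ih s (List.nodup_cons.1 hn).2 (by simpa using hs) k hk2]
        rfl

theorem triC_nb {c : Conf} {nV : ℕ} (hw : WF c nV) {i : ℕ} (hi : i < c.nD) {k : ℕ}
    (hk : k < (c.rot.getD i []).length) :
    triC c i (c.nb i k) = (c.tri.getD i []).getD k false := by
  unfold triC
  rw [SA_nbl hi]
  unfold Conf.nb
  rw [Nat.mod_eq_of_lt hk]
  exact SA_triA _ _ (hw.nd i hi) (hw.lti i hi) k hk

private theorem SA_bit (K i : ℕ) : bit K i = K.testBit i := by
  unfold bit
  have h1 : Nat.land (Nat.shiftRight K i) 1 = (K >>> i) % 2 := by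
    rw [← Nat.and_one_is_mod]
    rfl
  rw [h1, Nat.testBit_eq_decide_div_mod_eq, Nat.shiftRight_eq_div_pow]
  rw [Bool.eq_iff_iff, SA_beq, decide_eq_true_iff]

private theorem SA_kn {K x y : ℕ} : kn K x y = true ↔
    (y < 32 ∧ K.testBit (32 * x + y) = true) ∨ (x < 32 ∧ K.testBit (32 * y + x) = true) := by
  unfold kn
  rw [SA_bit, SA_bit, Bool.or_eq_true, Bool.and_eq_true, Bool.and_eq_true, SA_blt, SA_blt]
  rfl

private theorem SA_ins {K x y i : ℕ} (h : (ins K x y).testBit i = true) :
    K.testBit i = true ∨ (y < 32 ∧ i = 32 * x + y) := by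
  unfold ins at h
  by_cases hy : y < 32
  · rw [SA_blt.2 hy, cond_true] at h
    have h1 : Nat.lor K (Nat.shiftLeft 1 (Nat.add (Nat.mul 32 x) y)) =
        K ||| (1 <<< (32 * x + y)) := rfl
    rw [h1, Nat.testBit_or, Bool.or_eq_true] at h
    rcases h with h | h
    · exact Or.inl h
    · refine Or.inr ⟨hy, ?_⟩
      rw [Nat.one_shiftLeft, Nat.testBit_two_pow] at h
      exact (decide_eq_true_iff.1 h).symm
  · rw [Bool.eq_false_iff.2 (fun h => hy (SA_blt.1 h)), cond_false] at h
    exact Or.inl h

/-- bits: `ins` adds exactly the bit `32 x + y` (if `y < 32`) -/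
theorem kn_ins {K x y a b : ℕ} (h : kn (ins K x y) a b = true) :
    kn K a b = true ∨ (a = x ∧ b = y) ∨ (a = y ∧ b = x) := by
  rw [SA_kn] at h ⊢
  rcases h with ⟨h1, h2⟩ | ⟨h1, h2⟩
  · rcases SA_ins h2 with h3 | ⟨h3, h4⟩
    · exact Or.inl (Or.inl ⟨h1, h3⟩)
    · exact Or.inr (Or.inl (by omega))
  · rcases SA_ins h2 with h3 | ⟨h3, h4⟩
    · exact Or.inl (Or.inr ⟨h1, h3⟩)
    · exact Or.inr (Or.inr (by omega))

theorem kn_zero (a b : ℕ) : kn 0 a b = false := by
  rw [Bool.eq_false_iff]
  intro h
  rw [SA_kn] at h
  simp at h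

/-- from `pathOk` to `PathF`; the list has at least two elements -/
theorem pathF_of {c : Conf} {p : List ℕ} (h : pathOk c p = true) :
    2 ≤ p.length ∧ PathF c (p.length - 1) (fun i => p.getD i 0) := by
  induction p with
  | nil => simp [pathOk] at h
  | cons a p ih =>
    cases p with
    | nil => simp [pathOk] at h
    | cons b l =>
      cases l with
      | nil =>
        rw [pathOk, Bool.or_eq_true] at h
        refine ⟨by simp, ?_, ?_⟩
        · intro i hi
          have h0 : i = 0 := by simpa using hi
          subst h0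
          exact h.symm
        · intro i h1 h2
          have h3 : i < 1 := by simpa using h2
          omega
      | cons d l =>
        rw [pathOk, Bool.and_eq_true] at h
        obtain ⟨h1, h2⟩ := h
        obtain ⟨h3, h4⟩ := ih h2
        rw [stepOk] at h1
        simp only [Bool.and_eq_true, Bool.not_eq_true'] at h1
        obtain ⟨⟨⟨h5, h6⟩, h7⟩, h8⟩ := h1
        have h9 : a ≠ d := fun h10 => by
          rw [h10, Nat.beq_refl] at h7
          exact absurd h7 (by simp)
        have hl : (a :: b :: d :: l).length - 1 = (b :: d :: l).length := rfl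
        have hl2 : (b :: d :: l).length - 1 = (d :: l).length := rfl
        have hl3 : (b :: d :: l).length = (d :: l).length + 1 := rfl
        rw [hl2] at h4
        refine ⟨by simp, ?_, ?_⟩
        · intro i hi
          rw [hl] at hi
          cases i with
          | zero => exact Or.inl h5
          | succ i => exact h4.edge i (by omega)
        · intro i hi1 hi2
          rw [hl] at hi2
          cases i with
          | zero => omega
          | succ i =>
            cases i with
            | zero => exact ⟨h5, h6, h9, h8⟩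
            | succ i => exact h4.inner (i + 1) (by omega) (by omega)

theorem hasT_of {c : Conf} {p : List ℕ} (h : hasT c p = true) :
    ∃ i, i + 1 < p.length ∧ (triE c (p.getD i 0) (p.getD (i + 1) 0) = true ∨
      triE c (p.getD (i + 1) 0) (p.getD i 0) = true) := by
  induction p with
  | nil => simp [hasT] at h
  | cons a p ih =>
    cases p with
    | nil => simp [hasT] at h
    | cons b l =>
      rw [hasT, Bool.or_eq_true, Bool.or_eq_true] at h
      rcases h with h | h
      · exact ⟨0, by simp, h⟩
      · obtain ⟨i, hi, h2⟩ := ih h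
        refine ⟨i + 1, ?_, h2⟩
        have hl : (a :: b :: l).length = (b :: l).length + 1 := rfl
        omega

theorem PathF.shift {c : Conf} {n : ℕ} {p : ℕ → ℕ} (h : PathF c n p) {a k : ℕ} (hk : a + k ≤ n) :
    PathF c k (fun i => p (a + i)) := by
  refine ⟨?_, ?_⟩
  · intro i hi
    exact h.edge (a + i) (by omega)
  · intro i h1 h2
    have h3 := h.inner (a + i) (by omega) (by omega)
    have h4 : a + i - 1 = a + (i - 1) := by omega
    rw [h4] at h3
    exact h3

/-- `32 x + y` is decoded; all pairs of the list -/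
theorem knAll_of {K : ℕ} {p : List ℕ} (h : knAll K p = true) :
    ∀ i j, i < j → j < p.length → kn K (p.getD i 0) (p.getD j 0) = true := by
  induction p with
  | nil => intro i j _ hj; simp at hj
  | cons a l ih =>
    rw [knAll, Bool.and_eq_true, List.all_eq_true] at h
    intro i j hij hj
    cases j with
    | zero => omega
    | succ j =>
      have hj2 : j < l.length := by simpa using hj
      cases i with
      | zero =>
        refine h.1 _ ?_
        have h1 : (a :: l).getD (j + 1) 0 = l.getD j 0 := rfl
        rw [h1, List.getD_eq_getElem _ _ hj2]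
        exact List.getElem_mem hj2
      | succ i => exact ih h.2 i j (by omega) hj2

theorem kn_symm {K a b : ℕ} (h : kn K a b = true) : kn K b a = true := by
  rw [SA_kn] at h ⊢
  exact h.symm

end Pool.Agent.W_fb73a4_h51
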