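import Pool.Agent.W_fb73a4_h51.SA

/-!
MP_fb73a4_co [T7] SB: local geometry of an occurrence. (`SA` is imported with its stubs.)
-/

set_option autoImplicit false

namespace Pool.Agent.W_fb73a4_h51

open Finset
open scoped Classical
open Pool.Agent.W_fb73a4_h20
open Pool.Agent.W_fb73a4_t7 (Conf Occ OM Env len)

variable {V : Type} [Fintype V] {G : SimpleGraph V} {ι : Type} [Fintype ι] {F : ι → EV V} {i0 : ι}
  {m : ℕ} {x : ZMod m → V} {C : Finset V} {M : OM G F} {φ : ℕ → V} {c : Conf} {nV : ℕ}

/-- `Occ.adj` -/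
theorem o_adj (hw : WF c nV) (h : Occ M C φ c) {i a : ℕ} (ha : mem a (nbl c i) = true) :
    G.Adj (φ i) (φ a) := by
  obtain ⟨hi, k, -, rfl⟩ := mem_nbl ha
  exact (h.adj i hi k).symm

/-- `Occ.rot` and `aft_nb` -/
theorem o_aft (hw : WF c nV) (h : Occ M C φ c) {i a : ℕ} (ha : mem a (nbl c i) = true) :
    M.s (φ a) (φ i) = φ (aft a (nbl c i)) := by
  obtain ⟨hi, k, -, rfl⟩ := mem_nbl ha
  rw [aft_nb hw hi]
  exact h.rot i hi k

/-- `φ (nb i k)` is the `k`-th iterate -/
theorem SB_iter (h : Occ M C φ c) {i : ℕ} (hi : i < c.nD) (k : ℕ) :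
    (fun a => M.s a (φ i))^[k] (φ (c.nb i 0)) = φ (c.nb i k) := by
  induction k with
  | zero => rfl
  | succ k ih =>
    rw [Function.iterate_succ_apply', ih]
    exact h.rot i hi k

/-- all neighbours are listed -/
theorem SB_surj (hw : WF c nV) (h : Occ M C φ c) {i : ℕ} (hi : i < c.nD) {w : V}
    (hadj : G.Adj (φ i) w) : ∃ k < (c.rot.getD i []).length, φ (c.nb i k) = w := by
  have hL := (hw.deg i hi).1
  obtain ⟨k, hk⟩ := M.rot (φ (c.nb i 0)) w (φ i) (h.adj i hi 0) hadj.symm
  rw [SB_iter h hi] at hk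
  refine ⟨k % (c.rot.getD i []).length, Nat.mod_lt _ (by omega), ?_⟩
  rw [← hk]
  congr 1
  unfold Conf.nb
  rw [Nat.mod_mod]

/-- the listed neighbours are different -/
theorem SB_inj (hw : WF c nV) (h : Occ M C φ c) {i : ℕ} (hi : i < c.nD) {k l : ℕ}
    (hk : k < (c.rot.getD i []).length) (hl : l < (c.rot.getD i []).length)
    (hkl : φ (c.nb i k) = φ (c.nb i l)) : k = l := by
  have h1 : G.neighborSet (φ i) =
      (((Finset.range (c.rot.getD i []).length).image (fun k => φ (c.nb i k)) : Finset V) :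
        Set V) := by
    ext w
    simp only [SimpleGraph.mem_neighborSet, Finset.coe_image, Set.mem_image, Finset.coe_range,
      Set.mem_Iio]
    constructor
    · intro hadj
      exact SB_surj hw h hi hadj
    · rintro ⟨k, -, rfl⟩
      exact (h.adj i hi k).symm
  have h2 := h.deg i hi
  rw [dgr, h1, Set.ncard_coe_finset] at h2
  have h3 : Set.InjOn (fun k => φ (c.nb i k))
      ((Finset.range (c.rot.getD i []).length : Finset ℕ) : Set ℕ) := by
    rw [← Finset.card_image_iff, h2, Finset.card_range]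
  exact h3 (by simpa using hk) (by simpa using hl) hkl

/-- The map `w ↦ M.s w (φ i)` permutes the `d = dgr G (φ i)` neighbours of `φ i` in one cycle
(`OM.rot`), and `φ (nb i k)` is its `k`-th iterate at `φ (nb i 0)` (`Occ.rot`), so these are all
neighbours, and since there are `d` of them they are different for `k < d`. -/
theorem o_inj (hw : WF c nV) (h : Occ M C φ c) {i a b : ℕ} (ha : mem a (nbl c i) = true)
    (hb : mem b (nbl c i) = true) (hab : φ a = φ b) : a = b := by
  obtain ⟨hi, k, hk, rfl⟩ := mem_nbl ha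
  obtain ⟨-, l, hl, rfl⟩ := mem_nbl hb
  rw [SB_inj hw h hi hk hl hab]

/-- see `o_inj` -/
theorem o_nbr (hw : WF c nV) (h : Occ M C φ c) {i : ℕ} (hi : i < c.nD) {w : V}
    (hadj : G.Adj (φ i) w) : ∃ a, mem a (nbl c i) = true ∧ φ a = w := by
  obtain ⟨k, -, hk⟩ := SB_surj hw h hi hadj
  exact ⟨c.nb i k, nb_mem hw hi k, hk⟩

/-- `Occ.tri`, `triC_nb` -/
theorem o_triC (hw : WF c nV) (h : Occ M C φ c) {i a : ℕ} (ha : mem a (nbl c i) = true) :
    triC c i a = true ↔ M.fl (φ a) (φ i) = 3 := by
  obtain ⟨hi, k, hk, rfl⟩ := mem_nbl ha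
  rw [triC_nb hw hi hk]
  exact h.tri i hi k hk

/-- A face of length 3: `OM.face` gives a cycle `x` with `F (lf u v) = cvec x`, its length is
`len (F (lf u v)) = 3` (`cvec_card`). -/
theorem tri_face {u v : V} (huv : G.Adj u v) (h3 : M.fl u v = 3) :
    G.Adj v (M.s u v) ∧ G.Adj (M.s u v) u ∧ M.s v (M.s u v) = u := by
  obtain ⟨n, x, hx, hF, h0, h1, hs⟩ := M.face u v huv
  have hn : n = 3 := by
    have h4 : M.fl u v = n := by
      show (univ.filter (fun e => F (M.lf u v) e ≠ 0)).card = n
      rw [hF]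
      exact cvec_card hx
    omega
  subst hn
  have e2 : x 2 = M.s u v := by
    have h4 := hs 0
    rw [zero_add, zero_add, h0, h1] at h4
    exact h4
  have e3 : (2 : ZMod 3) + 1 = 0 := by decide
  have e4 : (1 : ZMod 3) + 2 = 0 := by decide
  have e5 : (1 : ZMod 3) + 1 = 2 := by decide
  refine ⟨?_, ?_, ?_⟩
  · have h4 := hx.adj 1
    rw [e5, e2, h1] at h4
    exact h4
  · have h4 := hx.adj 2
    rw [e3, e2, h0] at h4
    exact h4
  · have h4 := hs 1
    rw [e4, e5, e2, h0, h1] at h4
    exact h4.symm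

/-- the edge lies in a triangle -/
theorem o_triE (hw : WF c nV) (h : Occ M C φ c) {i a : ℕ} (ht : triE c i a = true) :
    ∃ t, G.Adj (φ i) t ∧ G.Adj (φ a) t := by
  unfold triE at ht
  simp only [Bool.and_eq_true, Bool.or_eq_true] at ht
  obtain ⟨ha, ht | ht⟩ := ht
  · have h3 := (o_triC hw h ha).1 ht
    obtain ⟨h4, h5, -⟩ := tri_face (o_adj hw h ha).symm h3
    exact ⟨_, h4, h5.symm⟩
  · obtain ⟨hb, hb2⟩ := bef_spec hw ha
    have h3 := (o_triC hw h hb).1 ht
    obtain ⟨-, h5, -⟩ := tri_face (o_adj hw h hb).symm h3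
    rw [o_aft hw h hb, hb2] at h5
    exact ⟨_, o_adj hw h hb, h5⟩

/-- a face all of whose vertices are in a set with at most three elements has length 3 -/
theorem SB_len {u v : V} (huv : G.Adj u v) {A : Set V} (hA : A.ncard ≤ 3)
    (h : ∀ w, On (F (M.lf u v)) w → w ∈ A) : M.fl u v = 3 := by
  obtain ⟨n, x, hx, hF, -, -, -⟩ := M.face u v huv
  have hn := hx.three
  have : NeZero n := ⟨by omega⟩
  have h4 : M.fl u v = n := by
    show (univ.filter (fun e => F (M.lf u v) e ≠ 0)).card = n
    rw [hF]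
    exact cvec_card hx
  have h5 : Set.range x ⊆ A := by
    intro w hw
    apply h
    rw [hF]
    exact (cvec_on hx w).2 hw
  have h6 : (Set.range x).ncard = n := by
    rw [← Set.image_univ, Set.ncard_image_of_injective _ hx.inj, Set.ncard_univ,
      Nat.card_eq_fintype_card, ZMod.card]
  have h7 := Set.ncard_le_ncard h5 (Set.toFinite _)
  omega

/-- the vertices of an edge of a face are on the face -/
theorem SB_on {u v : V} (huv : G.Adj u v) : On (F (M.lf u v)) u ∧ On (F (M.lf u v)) v := by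
  refine ⟨⟨v, M.on u v huv⟩, ⟨u, ?_⟩⟩
  rw [Sym2.eq_swap]
  exact M.on u v huv

/-- Neighbours of a `D`-vertex without a triangle corner between them are not adjacent. Suppose
`φ a`, `φ b` are adjacent; then `φ i, φ a, φ b` is a cycle `z` of length 3 with `φ i ∉ C`. Take
`S` with `i0 ∉ S`, `cvec z = ∑ S` (`FaceSys.gen'`). By `Env.short` all vertices of all faces in `S`
are on `z`. One of the two faces of the edge `φ i, φ a` is in `S` (`FaceSys.sum_ne_zero`), call it
`j`; it has a second edge at `φ i`, to a neighbour `φ e` of `φ i`, `e ≠ a` (`o_nbr`), and `φ e` is on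
`z`, so `φ e = φ b`, `e = b` (`o_inj`). So `j = lf (φ a) (φ i)` with `s (φ a) (φ i) = φ b`, that is
`b = aft a`, or `j = lf (φ b) (φ i)` with `a = aft b`. All its vertices are on `z`, so its length is 3:
the corner is a triangle, `o_triC`. Contradiction. -/
theorem o_nontri (E : Env G ι F i0 m x C) (hw : WF c nV) (h : Occ M C φ c) {i a b : ℕ}
    (ha : mem a (nbl c i) = true) (hb : mem b (nbl c i) = true) (hab : a ≠ b)
    (ht : triP c i a b = false) : ¬ G.Adj (φ a) (φ b) := by
  intro hab'
  obtain ⟨hi, -⟩ := mem_nbl ha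
  have a1 := o_adj hw h ha
  have a2 := o_adj hw h hb
  -- the triangle
  let f : ℕ → V := fun j => if j = 0 then φ i else if j = 1 then φ a else φ b
  have hz : IsCycSeq G (fun j : ZMod 3 => f j.val) := by
    refine cycSeq_of_nat (by norm_num) f ?_ ?_ ?_
    · intro j k hj hk hjk
      interval_cases j <;> interval_cases k <;> simp [f, a1.ne, a1.ne', a2.ne, a2.ne', hab'.ne,
        hab'.ne'] at hjk ⊢
    · intro j hj
      have hj2 : j < 2 := by omega
      interval_cases j
      · simpa [f] using a1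
      · simpa [f] using hab'
    · simpa [f] using a2.symm
  have hrange : Set.range (fun j : ZMod 3 => f j.val) ⊆ {φ i, φ a, φ b} := by
    rintro _ ⟨j, rfl⟩
    simp only [f, Set.mem_insert_iff, Set.mem_singleton_iff]
    split_ifs
    · exact Or.inl rfl
    · exact Or.inr (Or.inl rfl)
    · exact Or.inr (Or.inr rfl)
  have hcard : ({φ i, φ a, φ b} : Set V).ncard ≤ 3 := by
    have h8 := Set.ncard_insert_le (φ i) ({φ a, φ b} : Set V)
    have h9 := Set.ncard_insert_le (φ a) ({φ b} : Set V)
    have h10 := Set.ncard_singleton (φ b)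
    omega
  obtain ⟨S, hS0, hS⟩ := E.fs.gen' i0 (cvec_isCyc hz)
  have hon : ∀ k ∈ S, ∀ u, On (F k) u → u ∈ ({φ i, φ a, φ b} : Set V) := by
    intro k hk u hu
    by_contra hcon
    exact E.short 3 _ (by norm_num) hz ⟨0, h.out i hi⟩ S hS0 hS u (fun hr => hcon (hrange hr)) k hk hu
  have hedge : cvec (fun j : ZMod 3 => f j.val) s(φ i, φ a) ≠ 0 := by
    rw [cvec_of_nat (by norm_num) f]
    exact Or.inl ⟨0, by norm_num, by simp [f]⟩
  rw [hS, E.fs.sum_ne_zero S (M.other _ _ a1) (M.on _ _ a1) (by
    rw [Sym2.eq_swap]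
    exact M.on _ _ a1.symm)] at hedge
  rcases hedge with ⟨h1, -⟩ | ⟨-, h1⟩
  · -- the face of the dart from `i` to `a`
    obtain ⟨he, he2⟩ := bef_spec hw ha
    have a3 := o_adj hw h he
    have hs := o_aft hw h he
    rw [he2] at hs
    have hlf : M.lf (φ (bef a (nbl c i))) (φ i) = M.lf (φ i) (φ a) := by
      rw [← M.lf_s _ _ a3.symm, hs]
    have hmem := hon _ h1 (φ (bef a (nbl c i))) (by
      rw [← hlf]
      exact (SB_on a3.symm).1)
    have hne := M.ne _ _ a3.symm
    rw [hs] at hne
    have heb : φ (bef a (nbl c i)) = φ b := by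
      rcases hmem with hm | hm | hm
      · exact absurd hm a3.ne'
      · exact absurd hm.symm hne
      · exact hm
    have heb' := o_inj hw h he hb heb
    have h3 : M.fl (φ b) (φ i) = 3 := by
      refine SB_len a2.symm hcard ?_
      intro w hw'
      rw [← heb, hlf] at hw'
      exact hon _ h1 w hw'
    have h4 := (o_triC hw h hb).2 h3
    rw [heb'] at he2
    unfold triP at ht
    rw [h4, he2] at ht
    simp at ht
  · have hs := o_aft hw h ha
    obtain ⟨he, he2⟩ : ∃ e, e = aft a (nbl c i) := ⟨_, rfl⟩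
    have hlf : M.lf (φ i) (φ he) = M.lf (φ a) (φ i) := by
      rw [he2, ← hs]
      exact M.lf_s _ _ a1.symm
    have a3 : G.Adj (φ i) (φ he) := by
      rw [he2, ← hs]
      exact M.adj _ _ a1.symm
    have hmem := hon _ h1 (φ he) (by
      rw [← hlf]
      exact (SB_on a3).2)
    have hne := M.ne _ _ a1.symm
    rw [hs, ← he2] at hne
    have heb : φ he = φ b := by
      rcases hmem with hm | hm | hm
      · exact absurd hm a3.ne'
      · exact absurd hm hne
      · exact hm
    have hme : mem he (nbl c i) = true := by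
      obtain ⟨-, k, -, rfl⟩ := mem_nbl ha
      rw [he2, aft_nb hw hi]
      exact nb_mem hw hi _
    have heb' := o_inj hw h hme hb heb
    have h3 : M.fl (φ a) (φ i) = 3 := SB_len a1.symm hcard fun w hw' => hon _ h1 w hw'
    have h4 := (o_triC hw h ha).2 h3
    unfold triP at ht
    rw [h4, ← he2, heb'] at ht
    simp at ht

/-- forwards -/
theorem SB_fwd (hw : WF c nV) (h : Occ M C φ c) {w : ℕ} (n : ℕ) :
    ∀ a b : ℕ, w ∈ fwd c n a b → On (F (M.lf (φ a) (φ b))) (φ w) := by
  induction n with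
  | zero =>
    intro a b hwf
    simp [fwd] at hwf
  | succ n ih =>
    intro a b hwf
    unfold fwd at hwf
    cases hm : mem a (nbl c b) with
    | false => rw [hm] at hwf; simp at hwf
    | true =>
      rw [hm] at hwf
      have a1 := o_adj hw h hm
      have hs := o_aft hw h hm
      have hlf : M.lf (φ b) (φ (aft a (nbl c b))) = M.lf (φ a) (φ b) := by
        rw [← hs]
        exact M.lf_s _ _ a1.symm
      have a2 : G.Adj (φ b) (φ (aft a (nbl c b))) := by
        rw [← hs]
        exact M.adj _ _ a1.symm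
      simp only [cond_true, List.mem_cons] at hwf
      rcases hwf with rfl | hwf
      · rw [← hlf]
        exact (SB_on a2).2
      · rw [← hlf]
        exact ih _ _ hwf

/-- backwards -/
theorem SB_bwd (hw : WF c nV) (h : Occ M C φ c) {w : ℕ} (n : ℕ) :
    ∀ a b : ℕ, w ∈ bwd c n a b → On (F (M.lf (φ a) (φ b))) (φ w) := by
  induction n with
  | zero =>
    intro a b hwf
    simp [bwd] at hwf
  | succ n ih =>
    intro a b hwf
    unfold bwd at hwf
    cases hm : mem b (nbl c a) with
    | false => rw [hm] at hwf; simp at hwf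
    | true =>
      rw [hm] at hwf
      obtain ⟨he, he2⟩ := bef_spec hw hm
      have a1 := o_adj hw h he
      have hs := o_aft hw h he
      rw [he2] at hs
      have hlf : M.lf (φ (bef b (nbl c a))) (φ a) = M.lf (φ a) (φ b) := by
        rw [← M.lf_s _ _ a1.symm, hs]
      simp only [cond_true, List.mem_cons] at hwf
      rcases hwf with rfl | hwf
      · rw [← hlf]
        exact (SB_on a1.symm).1
      · rw [← hlf]
        exact ih _ _ hwf

/-- Following a face: `OM.lf_s` and `OM.on` at every step. `fwd`: if `a` is a neighbour of `b < nD`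
then `lf (φ b) (φ (aft a)) = lf (φ a) (φ b)`. `bwd`: if `b` is a neighbour of `a < nD` and
`e = bef b`, then `s (φ e) (φ a) = φ b` and `lf (φ e) (φ a) = lf (φ a) (φ b)`. -/
theorem o_fac (hw : WF c nV) (h : Occ M C φ c) {a b : ℕ}
    (hab : mem a (nbl c b) = true ∨ mem b (nbl c a) = true) {w : ℕ} (hwf : w ∈ fac c a b) :
    On (F (M.lf (φ a) (φ b))) (φ w) := by
  unfold fac at hwf
  rw [List.mem_append] at hwf
  rcases hwf with hwf | hwf
  · exact SB_fwd hw h 12 a b hwf
  · exact SB_bwd hw h 12 a b hwf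

/-- the list -/
theorem SB_lngA (hw : WF c nV) (h : Occ M C φ c) {a b : ℕ} :
    ∀ l : List (ℕ × ℕ × ℕ), (∀ t ∈ l, t ∈ c.long) → lngA c a b l ≤ M.fl (φ a) (φ b) := by
  intro l
  induction l with
  | nil =>
    intro _
    exact Nat.zero_le _
  | cons e l ih =>
    intro hl
    have ih' := ih fun t ht => hl t (List.mem_cons_of_mem _ ht)
    have he := hl e List.mem_cons_self
    obtain ⟨h1, h2⟩ := hw.lng e he
    have h3 := h.long e he
    have h4 : (nbl c e.1).getD e.2.1 0 = c.nb e.1 e.2.1 := by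
      unfold nbl Conf.nb
      rw [Nat.mod_eq_of_lt h2]
      have h5 : Nat.blt e.1 c.nD = true := by
        rw [Nat.blt_eq]
        exact h1
      rw [h5]
      rfl
    unfold lngA
    rw [h4]
    refine max_le ih' ?_
    cases hb : ((Nat.beq e.1 b && Nat.beq (c.nb e.1 e.2.1) a) ||
          (Nat.beq e.1 a && Nat.beq (aft (c.nb e.1 e.2.1) (nbl c e.1)) b)) with
    | false => exact Nat.zero_le _
    | true =>
      simp only [cond_true]
      simp only [Bool.or_eq_true, Bool.and_eq_true, Nat.beq_eq] at hb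
      rcases hb with ⟨h5, h6⟩ | ⟨h5, h6⟩
      · rw [h6, h5] at h3
        exact h3
      · have hm := nb_mem hw h1 e.2.1
        have a1 := o_adj hw h hm
        have hs := o_aft hw h hm
        rw [h6] at hs
        have hlf : M.lf (φ (c.nb e.1 e.2.1)) (φ e.1) = M.lf (φ e.1) (φ b) := by
          rw [← M.lf_s _ _ a1.symm, hs]
        have h7 : M.fl (φ (c.nb e.1 e.2.1)) (φ e.1) = M.fl (φ e.1) (φ b) := by
          unfold OM.fl
          rw [hlf]
        rw [h7, h5] at h3
        exact h3

/-- `Occ.long`; in the second case of `lngA`: `lf (φ r) (φ a) = lf (φ a) (φ (aft r))` with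
`b = aft r`. -/
theorem o_lng (hw : WF c nV) (h : Occ M C φ c) {a b : ℕ} : lng c a b ≤ M.fl (φ a) (φ b) := by
  unfold lng
  cases (mem a (nbl c b) || mem b (nbl c a)) with
  | false => exact Nat.zero_le _
  | true => exact SB_lngA hw h c.long fun t ht => ht

end Pool.Agent.W_fb73a4_h51
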