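import Pool.Agent.W_fb73a4_h51.CDefs
import Pool.Agent.W_fb73a4_h20.MX

/-!
MP_fb73a4_co [T7] SC: cycles through the outside; the two faces at an edge of a short cycle.
-/

set_option autoImplicit false

namespace Pool.Agent.W_fb73a4_h51

open Finset
open scoped Classical
open Pool.Agent.W_fb73a4_h20
open Pool.Agent.W_fb73a4_t7 (Conf Occ OM Env len)

variable {V : Type} [Fintype V] {G : SimpleGraph V} {ι : Type} [Fintype ι] {F : ι → EV V} {i0 : ι}
  {m : ℕ} {x : ZMod m → V} {C : Finset V} {M : OM G F}

/-- A path `q 0, ..., q n` (`n ≥ 2`, `q 0, ..., q (n-1)` different, consecutive ones adjacent) and a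
path `y 0, ..., y r` with the same ends (`r = 0` is allowed: then `q 0 = q n`) which avoids
`q 1, ..., q (n-1)` form a cycle of length `n + r`:
`q 0, ..., q (n-1), y r, y (r-1), ..., y 1` (`cycSeq_of_nat`, `cvec_of_nat` in MA). -/
theorem kcyc {n r : ℕ} {q y : ℕ → V} (hn : 2 ≤ n) (hadj : ∀ i < n, G.Adj (q i) (q (i + 1)))
    (hd : ∀ i j, i < j → j < n → q i ≠ q j) (hy : IsPathN G r y) (h0 : y 0 = q 0)
    (hr : y r = q n) (hav : ∀ j ≤ r, ∀ i, 1 ≤ i → i < n → y j ≠ q i) (h3 : 3 ≤ n + r) :
    ∃ z : ZMod (n + r) → V, IsCycSeq G z ∧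
      (∀ v, v ∈ Set.range z ↔ (∃ i < n, v = q i) ∨ ∃ j ≤ r, v = y j) ∧
      ∀ i < n, cvec z s(q i, q (i + 1)) ≠ 0 := by
  have hn3 : NeZero (n + r) := ⟨by omega⟩
  have f1 : ∀ i, i < n → (fun i => if i < n then q i else y (n + r - i)) i = q i := by
    intro i hi
    exact if_pos hi
  have f2 : ∀ i, n ≤ i → (fun i => if i < n then q i else y (n + r - i)) i = y (n + r - i) := by
    intro i hi
    exact if_neg (by omega)
  generalize (fun i => if i < n then q i else y (n + r - i)) = f at f1 f2
  have hinj : ∀ i j, i < j → j < n + r → f i ≠ f j := by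
    intro i j hij hj
    by_cases h1 : j < n
    · rw [f1 i (by omega), f1 j h1]
      exact hd i j hij h1
    · by_cases h2 : i < n
      · rw [f1 i h2, f2 j (by omega)]
        by_cases h4 : 1 ≤ i
        · exact (hav _ (by omega) i h4 h2).symm
        · have h5 : i = 0 := by omega
          subst h5
          rw [← h0]
          intro h6
          have := hy.inj 0 (n + r - j) (by omega) (by omega) h6
          omega
      · rw [f2 i (by omega), f2 j (by omega)]
        intro h6
        have := hy.inj _ _ (by omega) (by omega) h6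
        omega
  have hinj' : ∀ i j, i < n + r → j < n + r → f i = f j → i = j := by
    intro i j hi hj h
    rcases lt_trichotomy i j with h1 | h1 | h1
    · exact absurd h (hinj i j h1 hj)
    · exact h1
    · exact absurd h.symm (hinj j i h1 hi)
  have hadj' : ∀ i, i + 1 < n + r → G.Adj (f i) (f (i + 1)) := by
    intro i hi
    by_cases h1 : i + 1 < n
    · rw [f1 i (by omega), f1 (i + 1) h1]
      exact hadj i (by omega)
    · by_cases h2 : i < n
      · have h4 : i + 1 = n := by omega
        rw [f1 i h2, f2 (i + 1) (by omega), h4, Nat.add_sub_cancel_left, hr]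
        have := hadj i h2
        rwa [h4] at this
      · rw [f2 i (by omega), f2 (i + 1) (by omega)]
        have h5 := hy.adj (n + r - (i + 1)) (by omega)
        rw [show n + r - (i + 1) + 1 = n + r - i by omega] at h5
        exact h5.symm
  have hlast : G.Adj (f (n + r - 1)) (f 0) := by
    rw [f1 0 (by omega)]
    by_cases h1 : r = 0
    · subst h1
      rw [f1 (n + 0 - 1) (by omega), ← h0, hr]
      have := hadj (n + 0 - 1) (by omega)
      rwa [show n + 0 - 1 + 1 = n by omega] at this
    · rw [f2 (n + r - 1) (by omega), show n + r - (n + r - 1) = 1 by omega, ← h0]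
      exact (hy.adj 0 (by omega)).symm
  refine ⟨fun j : ZMod (n + r) => f j.val, cycSeq_of_nat h3 f hinj' hadj' hlast, ?_, ?_⟩
  · intro v
    constructor
    · rintro ⟨j, rfl⟩
      have hj := ZMod.val_lt j
      show (∃ i < n, f j.val = q i) ∨ ∃ i ≤ r, f j.val = y i
      by_cases h1 : j.val < n
      · exact Or.inl ⟨j.val, h1, f1 _ h1⟩
      · exact Or.inr ⟨n + r - j.val, by omega, f2 _ (by omega)⟩
    · have key : ∀ i, i < n + r → f i ∈ Set.range (fun j : ZMod (n + r) => f j.val) := by
        intro i hi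
        refine ⟨(i : ZMod (n + r)), ?_⟩
        show f (i : ZMod (n + r)).val = f i
        rw [ZMod.val_natCast, Nat.mod_eq_of_lt hi]
      rintro (⟨i, hi, rfl⟩ | ⟨j, hj, rfl⟩)
      · rw [← f1 i hi]
        exact key i (by omega)
      · by_cases h1 : j = 0
        · subst h1
          rw [h0, ← f1 0 (by omega)]
          exact key 0 (by omega)
        · have h4 := f2 (n + r - j) (by omega)
          rw [show n + r - (n + r - j) = j by omega] at h4
          rw [← h4]
          exact key _ (by omega)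
  · intro i hi
    rw [cvec_of_nat h3]
    by_cases h1 : i + 1 < n
    · left
      exact ⟨i, by omega, by rw [f1 i hi, f1 (i + 1) h1]⟩
    · have h4 : i + 1 = n := by omega
      by_cases h5 : r = 0
      · right
        subst h5
        rw [f1 (n + 0 - 1) (by omega), f1 0 (by omega), show n + 0 - 1 = i by omega, h4, ← h0, hr]
      · left
        refine ⟨i, by omega, ?_⟩
        rw [f1 i hi, f2 (i + 1) (by omega), h4, Nat.add_sub_cancel_left, hr]

/-- `S` with `i0 ∉ S` and `cvec z = ∑ S` (`FaceSys.gen'`); exactly one of the two faces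
`lf u v ≠ lf v u` of the edge `u v` is in `S` (`FaceSys.sum_ne_zero`); `Env.short`. -/
theorem sides (E : Env G ι F i0 m x C) (M : OM G F) {n : ℕ} {z : ZMod n → V} (hz : IsCycSeq G z)
    (hn : n ≤ 11) (hout : ∃ j, z j ∉ C) {u v : V} (huv : G.Adj u v) (hk : cvec z s(u, v) ≠ 0) :
    (∀ w, On (F (M.lf u v)) w → w ∈ Set.range z) ∨
      (∀ w, On (F (M.lf v u)) w → w ∈ Set.range z) := by
  obtain ⟨S, hS0, hS⟩ := E.fs.gen' i0 (cvec_isCyc hz)
  have h1 := M.on u v huv
  have h2 := M.on v u huv.symm
  rw [Sym2.eq_swap] at h2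
  have h3 := (E.fs.sum_ne_zero S (M.other u v huv) h1 h2).1 (by rw [← hS]; exact hk)
  rcases h3 with ⟨h4, -⟩ | ⟨-, h4⟩
  · left
    intro w hw
    by_contra hc
    exact E.short n z hn hz hout S hS0 hS w hc _ h4 hw
  · right
    intro w hw
    by_contra hc
    exact E.short n z hn hz hout S hS0 hS w hc _ h4 hw

/-- the face is a simple cycle (`OM.face`) with `len` vertices (`cvec_card`), all of them on `z` -/
theorem face_card (M : OM G F) {n : ℕ} {z : ZMod n → V} (hz : IsCycSeq G z) {u v : V}
    (huv : G.Adj u v) (h : ∀ w, On (F (M.lf u v)) w → w ∈ Set.range z) : M.fl u v ≤ n := by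
  obtain ⟨n', x', hx', hF, -, -, -⟩ := M.face u v huv
  have hz3 := hz.three
  have hx3 := hx'.three
  have : NeZero n := ⟨by omega⟩
  have : NeZero n' := ⟨by omega⟩
  have h1 : M.fl u v = n' := by
    unfold OM.fl Pool.Agent.W_fb73a4_t7.len
    rw [hF]
    exact cvec_card hx'
  have h2 : ∀ j, ∃ k, z k = x' j := by
    intro j
    exact h (x' j) (by rw [hF]; exact (cvec_on hx' _).2 ⟨j, rfl⟩)
  choose g hg using h2
  have h3 : Function.Injective g := by
    intro a b hab
    apply hx'.inj
    rw [← hg a, ← hg b, hab]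
  have h4 := Fintype.card_le_of_injective g h3
  rw [ZMod.card, ZMod.card] at h4
  rw [h1]
  exact h4

/-- cycles have length 3, 7 or at least 8, and a 7-cycle has no edge in a triangle -/
theorem cyc_len (E : Env G ι F i0 m x C) {n : ℕ} {z : ZMod n → V} (hz : IsCycSeq G z) (h4 : 4 ≤ n) :
    7 ≤ n ∧ (∀ u v t, cvec z s(u, v) ≠ 0 → G.Adj u t → G.Adj v t → 8 ≤ n) := by
  have h7 : 7 ≤ n := by
    rcases E.cls.no n z hz with h | h
    · omega
    · exact h
  refine ⟨h7, fun u v t hk h1 h2 => ?_⟩
  by_contra hc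
  have h8 : n = 7 := by omega
  subst h8
  have h3 : ∃ j, s(z j, z (j + 1)) = s(u, v) := by
    by_contra hno
    apply hk
    unfold cvec
    exact if_neg hno
  obtain ⟨j, hj⟩ := h3
  rw [Sym2.eq_iff] at hj
  rcases hj with ⟨rfl, rfl⟩ | ⟨rfl, rfl⟩
  · exact E.cls.no73 z hz j t h1 h2
  · exact E.cls.no73 z hz j t h2 h1

end Pool.Agent.W_fb73a4_h51
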