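import Pool.Agent.W_fb73a4_h51.SB
import Pool.Agent.W_fb73a4_h51.SC

/-!
MP_fb73a4_co [T7] SD: the ids of `D` have different images, and are different from the images of all
other ids.
-/

set_option autoImplicit false

namespace Pool.Agent.W_fb73a4_h51

open Finset
open scoped Classical
open Pool.Agent.W_fb73a4_h20
open Pool.Agent.W_fb73a4_t7 (Conf Occ OM Env len)

variable {V : Type} [Fintype V] {G : SimpleGraph V} {ι : Type} [Fintype ι] {F : ι → EV V} {i0 : ι}
  {m : ℕ} {x : ZMod m → V} {C : Finset V} {M : OM G F} {φ : ℕ → V} {c : Conf} {nV : ℕ}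

/-- consecutive vertices of a path of ids are adjacent -/
theorem pf_adj (hw : WF c nV) (h : Occ M C φ c) {n : ℕ} {p : ℕ → ℕ} (hp : PathF c n p) :
    ∀ i < n, G.Adj (φ (p i)) (φ (p (i + 1))) := by
  intro i hi
  rcases hp.edge i hi with h1 | h1
  · exact (o_adj hw h h1).symm
  · exact o_adj hw h h1

theorem SD_path0 (v : V) : IsPathN G 0 (fun _ : ℕ => v) where
  adj := fun i hi => absurd hi (Nat.not_lt_zero i)
  inj := fun i j hi hj _ => by omega

/-- A short path of ids does not close. Strong induction on `n`. `n = 1`: adjacent vertices are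
different. `n = 2`: `o_inj` at `p 1`. `n ≥ 3`: by induction (`PathF.shift`, parts of length `< n ≤ 7`,
so `≤ 6`) the vertices `φ (p i)`, `0 ≤ i < n`, are different, so if `φ (p 0) = φ (p n)` they form a
cycle of length `n` (`kcyc` with `r = 0`). `n = 3`: `φ (p 0) = φ (p 3)` is adjacent to `φ (p 2)`,
contradiction with `o_nontri` at `p 1`. `4 ≤ n`: `cyc_len` gives `7 ≤ n`, and for `n = 7` the edge in a
triangle (`o_triE`) gives `8 ≤ n`. -/
theorem short_path (E : Env G ι F i0 m x C) (hw : WF c nV) (h : Occ M C φ c) {n : ℕ} {p : ℕ → ℕ}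
    (hp : PathF c n p) (h1 : 1 ≤ n)
    (hn : n ≤ 6 ∨ (n = 7 ∧ ∃ i < n, triE c (p i) (p (i + 1)) = true ∨
      triE c (p (i + 1)) (p i) = true)) : φ (p 0) ≠ φ (p n) := by
  induction n using Nat.strong_induction_on generalizing p with
  | _ n ih =>
    intro heq
    have hadj := pf_adj hw h hp
    have hn7 : n ≤ 7 := by
      rcases hn with hn | hn
      · omega
      · omega
    have hd : ∀ i j, i < j → j < n → φ (p i) ≠ φ (p j) := by
      intro i j hij hj
      have h2 := ih (j - i) (by omega) (p := fun t => p (i + t))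
        (hp.shift (a := i) (k := j - i) (by omega)) (by omega) (Or.inl (by omega))
      have h3 : i + (j - i) = j := by omega
      simpa only [Nat.add_zero, h3] using h2
    by_cases hn1 : n = 1
    · subst hn1
      have h2 := hadj 0 (by omega)
      rw [heq] at h2
      exact G.loopless.irrefl _ h2
    by_cases hn2 : n = 2
    · subst hn2
      obtain ⟨ha, hb, hab, -⟩ := hp.inner 1 (by omega) (by omega)
      exact hab (o_inj hw h ha hb heq)
    by_cases hn3 : n = 3
    · subst hn3
      obtain ⟨ha, hb, hab, ht⟩ := hp.inner 1 (by omega) (by omega)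
      have h2 := hadj 2 (by omega)
      have h4 : G.Adj (φ (p 2)) (φ (p 0)) := by
        rw [heq]; exact h2
      exact o_nontri E hw h ha hb hab ht h4.symm
    obtain ⟨z, hz, -, hk⟩ := kcyc (G := G) (n := n) (r := 0) (q := fun i => φ (p i))
      (y := fun _ => φ (p 0)) (by omega) hadj hd (SD_path0 _) rfl heq
      (fun j _ i hi1 hi2 => hd 0 i (by omega) hi2) (by omega)
    obtain ⟨h7, h8⟩ := cyc_len E hz (by omega)
    rcases hn with hn | ⟨hn, i, hi, ht⟩
    · omega
    · have h9 : 8 ≤ n + 0 := by
        rcases ht with ht | ht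
        · obtain ⟨t, ht1, ht2⟩ := o_triE hw h ht
          exact h8 _ _ t (hk i hi) ht1 ht2
        · obtain ⟨t, ht1, ht2⟩ := o_triE hw h ht
          exact h8 _ _ t (hk i hi) ht2 ht1
      omega

theorem SD_headD (p : List ℕ) : p.headD 0 = p.getD 0 0 := by
  cases p <;> rfl

theorem SD_lastD (p : List ℕ) (hp : 1 ≤ p.length) : p.getLastD 0 = p.getD (p.length - 1) 0 := by
  cases p with
  | nil => simp at hp
  | cons a l =>
    rw [List.getLastD_eq_getLast?, List.getLast?_eq_getElem?, List.getD_eq_getElem?_getD]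

theorem SD_drop (p : List ℕ) {i : ℕ} (hi : i < p.length - 1) :
    p.dropLast.getD i 0 = p.getD i 0 := by
  rw [List.getD_eq_getElem?_getD, List.getD_eq_getElem?_getD, List.getElem?_dropLast, if_pos hi]

theorem SD_drop_mem (p : List ℕ) {i : ℕ} (hi : i < p.length - 1) :
    p.getD i 0 ∈ p.dropLast := by
  rw [← SD_drop p hi]
  have h1 : i < p.dropLast.length := by
    rw [List.length_dropLast]; exact hi
  rw [List.getD_eq_getElem _ _ h1]
  exact List.getElem_mem h1

/-- One entry. The short case is `short_path`. Otherwise let `n = p.length - 1` (so `n ≤ 11`) and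
suppose that the ends have the same image. All `φ (p i)`, `i < n`, are different (`knAll_of`), so they
form a cycle `z` of length `n` (`kcyc`, `r = 0`; `n ≥ 3` because `n ≥ 7` or as in `short_path`; if the
list is short use `short_path`). `φ (p 1) ∉ C` since `p 1 < nD` (`mem_nbl`). By `sides` at the edge
`p e, p (e+1)` one of the two faces has all its vertices on `z`. But `blk` gives `w` in `fac` with
`kn K w (p i)` for all `i < n`, so `φ w` is on this face (`o_fac`) and not on `z`. -/
theorem closed_sound (E : Env G ι F i0 m x C) (hw : WF c nV) (h : Occ M C φ c) {K : ℕ}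
    (hK : ∀ a b, kn K a b = true → φ a ≠ φ b) {p : List ℕ} {e : ℕ}
    (hc : closedOk c K p e = true) : φ (p.headD 0) ≠ φ (p.getLastD 0) := by
  unfold closedOk at hc
  rw [Bool.and_eq_true, Bool.or_eq_true, Bool.or_eq_true] at hc
  obtain ⟨hpo, hc⟩ := hc
  obtain ⟨hl2, hp⟩ := pathF_of hpo
  rw [SD_headD, SD_lastD p (by omega)]
  have hshort : (p.length - 1 ≤ 6 ∨ (p.length - 1 = 7 ∧ ∃ i < p.length - 1,
      triE c (p.getD i 0) (p.getD (i + 1) 0) = true ∨
      triE c (p.getD (i + 1) 0) (p.getD i 0) = true)) →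
      φ (p.getD 0 0) ≠ φ (p.getD (p.length - 1) 0) := by
    intro hh
    exact short_path E hw h (n := p.length - 1) (p := fun i => p.getD i 0) hp (by omega) hh
  rcases hc with (hc | hc) | hc
  · have h1 := Nat.le_of_ble_eq_true hc
    exact hshort (Or.inl (by omega))
  · rw [Bool.and_eq_true] at hc
    have h1 := Nat.eq_of_beq_eq_true hc.1
    obtain ⟨i, hi, ht⟩ := hasT_of hc.2
    exact hshort (Or.inr ⟨by omega, i, by omega, ht⟩)
  · rw [Bool.and_eq_true, Bool.and_eq_true, Bool.and_eq_true, Bool.and_eq_true] at hc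
    obtain ⟨⟨⟨⟨hc1, hc2⟩, hc3⟩, hc4⟩, hc5⟩ := hc
    have hl12 := Nat.le_of_ble_eq_true hc1
    have he := Nat.le_of_ble_eq_true hc2
    by_cases h6 : p.length - 1 ≤ 6
    · exact hshort (Or.inl h6)
    intro heq
    have hadj := pf_adj hw h hp
    have hd : ∀ i j, i < j → j < p.length - 1 → φ (p.getD i 0) ≠ φ (p.getD j 0) := by
      intro i j hij hj
      have h1 := knAll_of hc3 i j hij (by rw [List.length_dropLast]; exact hj)
      rw [SD_drop p (by omega), SD_drop p hj] at h1
      exact hK _ _ h1
    obtain ⟨z, hz, hr, hk⟩ := kcyc (G := G) (n := p.length - 1) (r := 0)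
      (q := fun i => φ (p.getD i 0)) (y := fun _ => φ (p.getD 0 0)) (by omega) hadj hd (SD_path0 _)
      rfl heq (fun j _ i hi1 hi2 => hd 0 i (by omega) hi2) (by omega)
    have hout : ∃ j, z j ∉ C := by
      have h1 := (hp.inner 1 (by omega) (by omega)).1
      obtain ⟨h2, -⟩ := mem_nbl h1
      obtain ⟨j, hj⟩ := (hr (φ (p.getD 1 0))).2 (Or.inl ⟨1, by omega, rfl⟩)
      refine ⟨j, ?_⟩
      rw [hj]
      exact h.out _ h2
    have hel : e < p.length - 1 := by omega
    have key : ∀ a b : ℕ, (mem a (nbl c b) = true ∨ mem b (nbl c a) = true) →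
        blk K p.dropLast (fac c a b) = true →
        ¬ (∀ w, On (F (M.lf (φ a) (φ b))) w → w ∈ Set.range z) := by
      intro a b hab hb hall
      unfold blk at hb
      rw [List.any_eq_true] at hb
      obtain ⟨w, hw1, hw2⟩ := hb
      rw [List.all_eq_true] at hw2
      have h1 := hall _ (o_fac hw h hab hw1)
      rcases (hr (φ w)).1 h1 with ⟨i, hi, hwi⟩ | ⟨j, hj, hwj⟩
      · exact hK _ _ (hw2 _ (SD_drop_mem p hi)) hwi
      · exact hK _ _ (hw2 _ (SD_drop_mem p (i := 0) (by omega))) hwj
    have hedge := hp.edge e hel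
    rcases sides E M hz (by omega) hout (hadj e hel) (hk e hel) with h1 | h1
    · exact key _ _ hedge hc4 h1
    · exact key _ _ hedge.symm hc5 h1

/-- induction on the list, `closed_sound`, `kn_ins` -/
theorem dst_sound (E : Env G ι F i0 m x C) (hw : WF c nV) (h : Occ M C φ c)
    (l : List (List ℕ × ℕ)) : ∀ K : ℕ, (∀ a b, kn K a b = true → φ a ≠ φ b) →
      ∀ a b, kn (dstRun c l K) a b = true → φ a ≠ φ b := by
  induction l with
  | nil => intro K hK; exact hK
  | cons e l ih =>
    intro K hK
    have h1 : dstRun c (e :: l) K =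
      dstRun c l (bif closedOk c K e.1 e.2 then ins K (e.1.headD 0) (e.1.getLastD 0) else K) := rfl
    rw [h1]
    apply ih
    intro a b hab
    cases hc : closedOk c K e.1 e.2 with
    | false =>
      rw [hc] at hab
      exact hK a b hab
    | true =>
      rw [hc] at hab
      have hne := closed_sound E hw h hK hc
      rcases kn_ins hab with h2 | ⟨h2, h3⟩ | ⟨h2, h3⟩
      · exact hK a b h2
      · rw [h2, h3]; exact hne
      · rw [h2, h3]; exact hne.symm

theorem dst_all (E : Env G ι F i0 m x C) (hw : WF c nV) (h : Occ M C φ c)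
    {l : List (List ℕ × ℕ)} (ha : dstAll c nV (dstRun c l 0) = true) :
    ∀ i < c.nD, ∀ j < nV, j ≠ i → φ j ≠ φ i := by
  intro i hi j hj hji
  unfold dstAll at ha
  rw [List.all_eq_true] at ha
  have h1 := ha i (List.mem_range.2 hi)
  rw [List.all_eq_true] at h1
  have h2 := h1 j (List.mem_range.2 hj)
  rw [Bool.or_eq_true] at h2
  rcases h2 with h2 | h2
  · exact absurd (Nat.eq_of_beq_eq_true h2).symm hji
  · have h3 := dst_sound E hw h l 0 (fun a b hab => by rw [kn_zero] at hab; cases hab) i j h2
    exact h3.symm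

end Pool.Agent.W_fb73a4_h51
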