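import Pool.Agent.W_fb73a4_h51.SB
import Pool.Agent.W_fb73a4_h51.SC

/-!
MP_fb73a4_co [T7] SE: the distance table.
-/

set_option autoImplicit false

namespace Pool.Agent.W_fb73a4_h51

open Finset
open scoped Classical
open Pool.Agent.W_fb73a4_h20
open Pool.Agent.W_fb73a4_t7 (Conf Occ OM Env len)

variable {V : Type} [Fintype V] {G : SimpleGraph V} {ι : Type} [Fintype ι] {F : ι → EV V} {i0 : ι}
  {m : ℕ} {x : ZMod m → V} {C : Finset V} {M : OM G F} {φ : ℕ → V} {c : Conf} {nV : ℕ}

omit [Fintype V] in
/-- `gt` is a maximum of entries (in both orders, `far_symm`), and 0 is always a lower bound -/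
theorem gt_far {H : SimpleGraph V} {ψ : ℕ → V} {T : List (ℕ × ℕ × ℕ)}
    (hT : ∀ e ∈ T, far H (ψ e.1) (ψ e.2.1) e.2.2) (a b : ℕ) : far H (ψ a) (ψ b) (gt T a b) := by
  induction T with
  | nil => intro m y _ _ _; exact Nat.zero_le _
  | cons e l ih =>
    intro m y hy h0 hm
    unfold gt
    refine max_le (ih (fun e' he' => hT e' (List.mem_cons_of_mem _ he')) m y hy h0 hm) ?_
    have he := hT e List.mem_cons_self
    cases hb : ((Nat.beq e.1 a && Nat.beq e.2.1 b) || (Nat.beq e.1 b && Nat.beq e.2.1 a)) with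
    | false => exact Nat.zero_le _
    | true =>
      simp only [Bool.or_eq_true, Bool.and_eq_true, Nat.beq_eq] at hb
      simp only [cond_true]
      rcases hb with ⟨h1, h2⟩ | ⟨h1, h2⟩
      · rw [h1, h2] at he
        exact he m y hy h0 hm
      · rw [h1, h2] at he
        exact far_symm he m y hy h0 hm

omit [Fintype V] in
theorem SE_mem_lt (hw : WF c nV) {i a : ℕ} (h : mem a (nbl c i) = true) : i < c.nD ∧ a < nV := by
  obtain ⟨hi, -⟩ := mem_nbl h
  refine ⟨hi, ?_⟩
  have h1 := (mem_iff a _).1 h
  have h2 : nbl c i = c.rot.getD i [] := by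
    unfold nbl
    rw [show Nat.blt i c.nD = true from by rw [Nat.blt_eq]; exact hi]
    rfl
  rw [h2] at h1
  exact (hw.lt i hi a h1).1

theorem SE_fwd_lt (hw : WF c nV) : ∀ (k a b w : ℕ), w ∈ fwd c k a b → w < nV := by
  intro k
  induction k with
  | zero => intro a b w h; simp [fwd] at h
  | succ k ih =>
    intro a b w h
    unfold fwd at h
    cases hm : mem a (nbl c b) with
    | false => simp [hm] at h
    | true =>
      rw [hm, cond_true, List.mem_cons] at h
      rcases h with h | h
      · obtain ⟨hb, k, hk, hak⟩ := mem_nbl hm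
        rw [h, hak, aft_nb hw hb]
        exact (SE_mem_lt hw (nb_mem hw hb _)).2
      · exact ih _ _ _ h

theorem SE_bwd_lt (hw : WF c nV) : ∀ (k a b w : ℕ), w ∈ bwd c k a b → w < nV := by
  intro k
  induction k with
  | zero => intro a b w h; simp [bwd] at h
  | succ k ih =>
    intro a b w h
    unfold bwd at h
    cases hm : mem b (nbl c a) with
    | false => simp [hm] at h
    | true =>
      rw [hm, cond_true, List.mem_cons] at h
      rcases h with h | h
      · rw [h]
        exact (SE_mem_lt hw (bef_spec hw hm).1).2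
      · exact ih _ _ _ h

theorem SE_fac_lt (hw : WF c nV) {a b w : ℕ} (h : w ∈ fac c a b) : w < nV := by
  unfold fac at h
  rcases List.mem_append.1 h with h | h
  · exact SE_fwd_lt hw _ _ _ _ h
  · exact SE_bwd_lt hw _ _ _ _ h

theorem SE_last (p : List ℕ) : p.getLastD 0 = p.getD (p.length - 1) 0 := by
  rw [List.getLastD_eq_getLast?, List.getLast?_eq_getElem?, List.getD_eq_getElem?_getD]

theorem SE_head (p : List ℕ) : p.headD 0 = p.getD 0 0 := by
  cases p <;> rfl

theorem SE_foldr (g : ℕ → ℕ) (f : List ℕ) (r : ℕ) (h : r < f.foldr (fun t m => max m (g t)) 0) :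
    ∃ t ∈ f, r < g t := by
  induction f with
  | nil => exact absurd h (Nat.not_lt_zero _)
  | cons t l ih =>
    rw [List.foldr_cons] at h
    rcases lt_max_iff.1 h with h | h
    · obtain ⟨t', ht', h'⟩ := ih h
      exact ⟨t', List.mem_cons_of_mem _ ht', h'⟩
    · exact ⟨t, List.mem_cons_self, h⟩

/-- one side of the edge: if all vertices of the face are on the cycle, the bound holds -/
theorem SE_side (hw : WF c nV) (h : Occ M C φ c)
    (hd : ∀ i < c.nD, ∀ j < nV, j ≠ i → φ j ≠ φ i) {T : List (ℕ × ℕ × ℕ)}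
    (hT : ∀ e ∈ T, far (del G (DS φ c)) (φ e.1) (φ e.2.1) e.2.2) {p : List ℕ} {n r : ℕ}
    (hpn : p.length = n + 1) (hlt : ∀ i ≤ n, p.getD i 0 < nV)
    (hin : ∀ i, 1 ≤ i → i < n → p.getD i 0 < c.nD) {y : ℕ → V}
    (hy : IsPathN (del G (DS φ c)) r y) (hy0 : y 0 = φ (p.getD 0 0)) (hyr : y r = φ (p.getD n 0))
    {z : ZMod (n + r) → V} (hz : IsCycSeq G z)
    (hzr : ∀ v, v ∈ Set.range z ↔ (∃ i < n, v = φ (p.getD i 0)) ∨ ∃ j ≤ r, v = y j) {a b : ℕ}
    (hab : mem a (nbl c b) = true ∨ mem b (nbl c a) = true) (hadj : G.Adj (φ a) (φ b))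
    (hon : ∀ w, On (F (M.lf (φ a) (φ b))) w → w ∈ Set.range z) :
    max (sideV c T p (fac c a b)) (lng c a b - n) ≤ r := by
  have hyD : ∀ j ≤ r, ∀ w < c.nD, φ w = y j → ∃ i ≤ n, w = p.getD i 0 := by
    intro j hj w hwD hwj
    by_cases hr0 : r = 0
    · have hj0 : j = 0 := by omega
      rw [hj0, hy0] at hwj
      by_contra hcon
      push Not at hcon
      exact hd w hwD _ (hlt 0 (Nat.zero_le _)) (fun h => hcon 0 (Nat.zero_le _) h.symm) hwj.symm
    · exfalso
      have hnot : y j ∉ DS φ c := by
        rcases Nat.lt_or_ge j r with h1 | h1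
        · exact (hy.adj j h1).2.1
        · have h2 : j = r := le_antisymm hj h1
          have h3 := (hy.adj (r - 1) (by omega)).2.2
          rw [Nat.sub_add_cancel (by omega)] at h3
          rw [h2]
          exact h3
      exact hnot ⟨w, hwD, hwj⟩
  refine max_le ?_ ?_
  · unfold sideV
    cases hb : (fac c a b).any (fun w => Nat.blt w c.nD && !(mem w p)) with
    | true =>
      exfalso
      obtain ⟨w, hwf, hw1⟩ := List.any_eq_true.1 hb
      simp only [Bool.and_eq_true, Bool.not_eq_true', Nat.blt_eq] at hw1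
      obtain ⟨hwD, hwp⟩ := hw1
      have hwn : ∀ i ≤ n, w ≠ p.getD i 0 := by
        intro i hi he
        have : mem w p = true := by
          rw [mem_iff, he, List.getD_eq_getElem _ _ (by omega)]
          exact List.getElem_mem _
        rw [this] at hwp
        exact absurd hwp (by decide)
      rcases (hzr _).1 (hon _ (o_fac hw h hab hwf)) with ⟨i, hi, he⟩ | ⟨j, hj, he⟩
      · exact hd w hwD _ (hlt i hi.le) (fun h => hwn i hi.le h.symm) he.symm
      · obtain ⟨i, hi, hwi⟩ := hyD j hj w hwD he
        exact hwn i hi hwi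
    | false =>
      rw [cond_false]
      by_contra hcon
      push Not at hcon
      obtain ⟨t, htf, ht⟩ := SE_foldr (fun t => bif Nat.blt t c.nD then 0 else
        gt T (p.headD 0) t + gt T t (p.getLastD 0)) _ r hcon
      cases htD : Nat.blt t c.nD with
      | true => rw [htD] at ht; exact absurd ht (Nat.not_lt_zero _)
      | false =>
        rw [htD, cond_false] at ht
        have htD' : ¬ t < c.nD := by
          intro h1
          rw [← Nat.blt_eq, htD] at h1
          exact absurd h1 (by decide)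
        have htV := SE_fac_lt hw htf
        have hty : ∃ j ≤ r, φ t = y j := by
          rcases (hzr _).1 (hon _ (o_fac hw h hab htf)) with ⟨i, hi, he⟩ | hj
          · rcases Nat.eq_zero_or_pos i with h0 | h0
            · exact ⟨0, Nat.zero_le _, by rw [he, h0, hy0]⟩
            · exfalso
              have h1 := hin i h0 hi
              exact hd _ h1 t htV (fun h2 => htD' (h2 ▸ h1)) he
          · exact hj
        obtain ⟨j, hj, he⟩ := hty
        have g1 := gt_far hT (p.headD 0) t j y
          ⟨fun i hi => hy.adj i (by omega), fun i k hi hk => hy.inj i k (by omega) (by omega)⟩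
          (by rw [hy0, SE_head]) he.symm
        have g2 := gt_far hT t (p.getLastD 0) (r - j) (fun i => y (j + i))
          ⟨fun i hi => by
              have := hy.adj (j + i) (by omega)
              rw [add_assoc] at this
              exact this,
            fun i k hi hk hik => by
              have := hy.inj (j + i) (j + k) (by omega) (by omega) hik
              omega⟩
          he.symm (by
            show y (j + (r - j)) = _
            rw [show j + (r - j) = r by omega, hyr, SE_last, hpn]
            rfl)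
        omega
  · have h1 : lng c a b ≤ M.fl (φ a) (φ b) := o_lng hw h
    have h2 := face_card M hz hadj hon
    omega

/-- One entry of the table. Let `n = e.1.length - 1` (so `2 ≤ n ≤ 11`), `p i = e.1.getD i 0`,
`s = e.2.1 < n` the number of the edge, and let `y` be a path of `del G D` of length `r` from `φ (p 0)`
to `φ (p n)` with `r < e.2.2 ≤ entV`. All `φ (p i)`, `i < n`, are different (`nodupB`, `hd`) and `≠ y j` for
`1 ≤ i < n` (`hd`: `p i < nD` for `1 ≤ i < n`; `p 0` and `p n` are ids `< nV` because they are in a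
list `rot`; the vertices `y j` are not in `D`: for `r ≥ 1` every `y j` has a neighbour in `del G D`, for
`r = 0` `y 0 = φ (p 0)` and `hd`). `n + r ≥ 4`: if `n = 2` then `r ≠ 0` by `o_inj` and `r ≠ 1` by
`o_nontri` at `p 1`; if `n = 3` then `r ≠ 0` by `o_nontri` at `p 1` (`φ (p 0) = φ (p 3)` would be
adjacent to `φ (p 2)`). So `kcyc` gives a cycle `z` of length `n + r`, and `cyc_len`: `7 ≤ n + r`, and
`8 ≤ n + r` if `hasT` (`hasT_of`, `o_triE`). So the first term of `entV` is at most `r`, hence
`r < min (12 - n) (min L R)`; so `n + r ≤ 11`, and by `sides` at the edge number `s` all vertices of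
one of the two faces are on `z`, say the left one (the other case is the same): `L = max (sideV ..)
(lng .. - n)`. If `r < lng - n`: contradiction with `face_card` and `o_lng`. If `r < sideV`: if some
`w` in `fac` is `< nD` and not in the list, then `φ w` is on the face (`o_fac`), so on `z`, but it is
different from all `φ (p i)` (`hd`) and from all `y j`: contradiction. Otherwise `sideV` is the maximum
of `gt T (p 0) t + gt T t (p n)` over `t` in `fac` with `nD ≤ t`, so for one of them
`r < gt T (p 0) t + gt T t (p n)`; `φ t` is on the face, so on `z`; it is not `φ (p i)` with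
`1 ≤ i < n` (`hd`, `t < nV`), so `φ t = y j` for some `j ≤ r` (`φ (p 0) = y 0`), and `gt_far` for the
two parts of the path `y` gives `gt T (p 0) t ≤ j` and `gt T t (p n) ≤ r - j`. Contradiction. -/
theorem ent_sound (E : Env G ι F i0 m x C) (hw : WF c nV) (h : Occ M C φ c)
    (hd : ∀ i < c.nD, ∀ j < nV, j ≠ i → φ j ≠ φ i) {T : List (ℕ × ℕ × ℕ)}
    (hT : ∀ e ∈ T, far (del G (DS φ c)) (φ e.1) (φ e.2.1) e.2.2) {e : List ℕ × ℕ × ℕ}
    (he : entOk c T e = true) :
    far (del G (DS φ c)) (φ (e.1.headD 0)) (φ (e.1.getLastD 0)) e.2.2 := by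
  obtain ⟨p, s, B⟩ := e
  simp only [entOk, Bool.and_eq_true, Nat.ble_eq] at he
  obtain ⟨⟨⟨⟨⟨⟨⟨h1, h2⟩, h3⟩, h4⟩, h5⟩, h6⟩, h7⟩, h8⟩ := he
  obtain ⟨-, hP⟩ := pathF_of h1
  have hnd : p.Nodup := (nodupB_iff p).1 h2
  obtain ⟨n, hpn⟩ : ∃ n, p.length = n + 1 := ⟨p.length - 1, by omega⟩
  have hn1 : p.length - 1 = n := by omega
  rw [hn1] at hP
  have hn2 : 2 ≤ n := by omega
  show far (del G (DS φ c)) (φ (p.headD 0)) (φ (p.getLastD 0)) B
  intro r y hy hy0 hyr
  rw [SE_head] at hy0
  rw [SE_last, hn1] at hyr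
  by_contra hB
  push Not at hB
  have hr : r < entV c T p s := lt_of_lt_of_le hB h8
  -- basic facts
  have hlt : ∀ i ≤ n, p.getD i 0 < nV := by
    intro i hi
    rcases Nat.lt_or_ge i n with h' | h'
    · rcases hP.edge i h' with h'' | h''
      · exact (SE_mem_lt hw h'').2
      · exact lt_of_lt_of_le (SE_mem_lt hw h'').1 hw.le
    · have hin : i = n := le_antisymm hi h'
      have e1 : n - 1 + 1 = n := by omega
      have h'' := hP.edge (n - 1) (by omega)
      rw [e1] at h''
      rw [hin]
      rcases h'' with h'' | h''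
      · exact lt_of_lt_of_le (SE_mem_lt hw h'').1 hw.le
      · exact (SE_mem_lt hw h'').2
  have hin : ∀ i, 1 ≤ i → i < n → p.getD i 0 < c.nD := fun i h1 h2 =>
    (SE_mem_lt hw (hP.inner i h1 h2).1).1
  have hne : ∀ i j, i < j → j ≤ n → p.getD i 0 ≠ p.getD j 0 := by
    intro i j hij hj he
    rw [List.getD_eq_getElem _ _ (by omega), List.getD_eq_getElem _ _ (by omega)] at he
    have := (hnd.getElem_inj_iff).1 he
    omega
  have hadj : ∀ i < n, G.Adj (φ (p.getD i 0)) (φ (p.getD (i + 1) 0)) := by
    intro i hi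
    rcases hP.edge i hi with h' | h'
    · exact (o_adj hw h h').symm
    · exact o_adj hw h h'
  have hdis : ∀ i j, i < j → j < n → φ (p.getD i 0) ≠ φ (p.getD j 0) := fun i j hij hj =>
    hd _ (hin j (by omega) hj) _ (hlt i (by omega)) (hne i j hij hj.le)
  have hav : ∀ j ≤ r, ∀ i, 1 ≤ i → i < n → y j ≠ φ (p.getD i 0) := by
    intro j hj i hi1 hi2 he
    by_cases hr0 : r = 0
    · have hj0 : j = 0 := by omega
      rw [hj0, hy0] at he
      exact hdis 0 i hi1 hi2 he
    · have hnot : y j ∉ DS φ c := by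
        rcases Nat.lt_or_ge j r with h1 | h1
        · exact (hy.adj j h1).2.1
        · have h2 : j = r := le_antisymm hj h1
          have h3 := (hy.adj (r - 1) (by omega)).2.2
          rw [Nat.sub_add_cancel (by omega)] at h3
          rw [h2]
          exact h3
      exact hnot ⟨_, hin i hi1 hi2, he.symm⟩
  have hyG : IsPathN G r y := ⟨fun i hi => (hy.adj i hi).1, hy.inj⟩
  have in1 := hP.inner 1 le_rfl (by omega)
  have h4' : 4 ≤ n + r := by
    by_contra hcon
    have hn3 : n = 2 ∨ n = 3 := by omega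
    rcases hn3 with hn3 | hn3
    · have hr1 : r = 0 ∨ r = 1 := by omega
      subst hn3
      rcases hr1 with hr1 | hr1
      · subst hr1
        rw [hy0] at hyr
        exact in1.2.2.1 (o_inj hw h in1.1 in1.2.1 hyr)
      · subst hr1
        have h' := hyG.adj 0 one_pos
        rw [hy0, zero_add, hyr] at h'
        exact o_nontri E hw h in1.1 in1.2.1 in1.2.2.1 in1.2.2.2 h'
    · have hr0 : r = 0 := by omega
      subst hn3 hr0
      rw [hy0] at hyr
      have h' := (hadj 2 (by omega)).symm
      rw [← hyr] at h'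
      exact o_nontri E hw h in1.1 in1.2.1 in1.2.2.1 in1.2.2.2 h'
  obtain ⟨z, hz, hzr, hze⟩ := kcyc (q := fun i => φ (p.getD i 0)) hn2 hadj hdis hyG hy0 hyr hav
    (by omega)
  obtain ⟨hc7, hc8⟩ := cyc_len E hz h4'
  have hK : (bif hasT c p then 8 else 7) ≤ n + r := by
    cases hT' : hasT c p with
    | false => exact hc7
    | true =>
      obtain ⟨i, hi, ht⟩ := hasT_of hT'
      have hin' : i < n := by omega
      rcases ht with ht | ht
      · obtain ⟨t, t1, t2⟩ := o_triE hw h ht
        exact hc8 _ _ t (hze i hin') t1 t2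
      · obtain ⟨t, t1, t2⟩ := o_triE hw h ht
        exact hc8 _ _ t (hze i hin') t2 t1
  have hsn : s < n := by omega
  unfold entV at hr
  simp only [hn1] at hr
  rcases lt_max_iff.1 hr with hr | hr
  · omega
  · obtain ⟨hr1, hr2⟩ := lt_min_iff.1 hr
    obtain ⟨hrL, hrR⟩ := lt_min_iff.1 hr2
    have hout : ∃ j, z j ∉ C := by
      obtain ⟨j, hj⟩ := (hzr (φ (p.getD 1 0))).2 (Or.inl ⟨1, by omega, rfl⟩)
      exact ⟨j, by rw [hj]; exact h.out _ (hin 1 le_rfl (by omega))⟩
    rcases sides E M hz (by omega) hout (hadj s hsn) (hze s hsn) with hs | hs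
    · exact absurd (SE_side hw h hd hT hpn hlt hin hy hy0 hyr hz hzr (hP.edge s hsn) (hadj s hsn) hs)
        (not_le.2 hrL)
    · exact absurd (SE_side hw h hd hT hpn hlt hin hy hy0 hyr hz hzr (hP.edge s hsn).symm
        (hadj s hsn).symm hs) (not_le.2 hrR)

/-- induction on the list -/
theorem tab_sound (E : Env G ι F i0 m x C) (hw : WF c nV) (h : Occ M C φ c)
    (hd : ∀ i < c.nD, ∀ j < nV, j ≠ i → φ j ≠ φ i) (l : List (List ℕ × ℕ × ℕ)) :
    ∀ T : List (ℕ × ℕ × ℕ), (∀ e ∈ T, far (del G (DS φ c)) (φ e.1) (φ e.2.1) e.2.2) →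
      ∀ e ∈ tabRun c l T, far (del G (DS φ c)) (φ e.1) (φ e.2.1) e.2.2 := by
  induction l with
  | nil => intro T hT; exact hT
  | cons e l ih =>
    intro T hT
    unfold tabRun
    refine ih _ ?_
    cases he : entOk c T e with
    | false => exact hT
    | true =>
      intro e' he'
      rw [cond_true] at he'
      rcases List.mem_cons.1 he' with h' | h'
      · rw [h']
        exact ent_sound E hw h hd hT he
      · exact hT e' h'

/-- `tab0`: `tab_sound`; the other entries `(i, j, 99)` have `i < nD`, `i ≠ j`, `j < nV`: `φ i` is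
isolated in `del G (DS φ c)` and `φ i ≠ φ j`, so there is no path at all -/
theorem tab0_sound (E : Env G ι F i0 m x C) (h : Occ M C φ c) {t : Ct} (hw : WF c t.nV)
    (hd : ∀ i < c.nD, ∀ j < t.nV, j ≠ i → φ j ≠ φ i) :
    ∀ e ∈ tab0 c t, far (del G (DS φ c)) (φ e.1) (φ e.2.1) e.2.2 := by
  intro e he
  unfold tab0 at he
  rcases List.mem_append.1 he with he | he
  · exact tab_sound E hw h hd t.tab [] (fun e he => absurd he List.not_mem_nil) e he
  · obtain ⟨i, hi, he⟩ := List.mem_flatMap.1 he
    obtain ⟨j, hj, he⟩ := List.mem_map.1 he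
    have hiD : i < c.nD := by
      unfold reu at hi
      have := (List.mem_filter.1 hi).2
      simpa [Nat.blt_eq] using this
    obtain ⟨hj1, hj2⟩ := List.mem_filter.1 hj
    have hjV : j < t.nV := List.mem_range.1 hj1
    have hij : i ≠ j := by
      intro hij
      rw [hij] at hj2
      simp at hj2
    subst he
    intro r y hy hy0 hyr
    exfalso
    rcases Nat.eq_zero_or_pos r with h0 | h0
    · rw [h0, hy0] at hyr
      exact hd i hiD j hjV (fun h => hij h.symm) hyr.symm
    · have := (hy.adj 0 h0).2.1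
      rw [hy0] at this
      exact this ⟨i, hiD, rfl⟩

end Pool.Agent.W_fb73a4_h51
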