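import Pool.Agent.W_fb73a4_h51.GB
import Pool.Agent.W_fb73a4_h51.GC
import Pool.Agent.W_fb73a4_h51.CDefs
import Pool.Agent.W_fb73a4_h20.MX

/-!
MP_fb73a4_co [T7] SG: the operations: new triangles, new edges, merges.
-/

set_option autoImplicit false

namespace Pool.Agent.W_fb73a4_h51

open Finset
open scoped Classical
open Pool.Agent.W_fb73a4_h20
open Pool.Agent.W_fb73a4_t7 (Conf)
open Pool.Agent.W_fb73a4_h57 (P3 I3 kill Zr mops opl Zr_op_edge Zr_op_merge)

variable {V : Type} [Fintype V] {m : ℕ} {x : ZMod m → V} {C : Finset V} {H : SimpleGraph V}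
  {ψ : ℕ → V} {T : List (ℕ × ℕ × ℕ)} {l : List (Bool × ℕ × ℕ)}

/-- Two vertices of `C` are joined by a path of `H` of length at most 5 (`arc_path` in
`W_fb73a4_h20.MT`, applied to the cycle `x` of `H`), so they are not `far` for 6. -/
theorem not_both (hx : Function.Injective x) (h3 : 3 ≤ m) (hm : m ≤ 11)
    (hC : ∀ v, v ∈ C ↔ v ∈ Set.range x) (hcyc : ∀ j, H.Adj (x j) (x (j + 1))) {u v : V} {n : ℕ}
    (h : far H u v n) (hn : 6 ≤ n) : u ∉ C ∨ v ∉ C := by
  by_contra hc
  push Not at hc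
  obtain ⟨k, y, hy, h0, h1, h2, -, -⟩ := arc_path (G := H) ⟨h3, hx, hcyc⟩ ((hC u).1 hc.1)
    ((hC v).1 hc.2) (far_ne h (by omega))
  have := h k y hy h0 h1
  omega

/-- If `u ∈ C`, `v ∉ C` and `v` has a neighbour `w ∈ C`, there is a path of `H` of length at most 6
from `u` to `v` (`arc_path_succ` in `W_fb73a4_h20.MT`, or the edge if `w = u`). -/
theorem not_near (hx : Function.Injective x) (h3 : 3 ≤ m) (hm : m ≤ 11)
    (hC : ∀ v, v ∈ C ↔ v ∈ Set.range x) (hcyc : ∀ j, H.Adj (x j) (x (j + 1))) {u v : V} {n : ℕ}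
    (h : far H u v n) (hn : 7 ≤ n) (hu : u ∈ C) (hv : v ∉ C) : ∀ w ∈ C, ¬ H.Adj v w := by
  intro w hw ha
  by_cases huw : u = w
  · subst huw
    exact far_nadj h (by omega) ha.symm
  · obtain ⟨k, y, hy, h0, h1, h2⟩ := arc_path_succ (G := H) ⟨h3, hx, hcyc⟩ ((hC u).1 hu)
      ((hC w).1 hw) huw (fun h' => hv ((hC v).2 h')) ha.symm
    have := h k y hy h0 h1
    omega

omit [Fintype V] in
theorem SG_gt (h : ∀ e ∈ T, far H (ψ e.1) (ψ e.2.1) e.2.2) (a b : ℕ) :
    far H (ψ a) (ψ b) (gt T a b) := by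
  induction T with
  | nil => exact fun m y _ _ _ => Nat.zero_le m
  | cons e T ih =>
    have h1 := ih fun e' he' => h e' (List.mem_cons_of_mem _ he')
    have h2 := h e List.mem_cons_self
    intro m y hy h0 hm
    unfold gt
    refine max_le (h1 m y hy h0 hm) ?_
    cases hb : (Nat.beq e.1 a && Nat.beq e.2.1 b) || (Nat.beq e.1 b && Nat.beq e.2.1 a) with
    | false => exact Nat.zero_le m
    | true =>
      rw [cond_true]
      rw [Bool.or_eq_true, Bool.and_eq_true, Bool.and_eq_true] at hb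
      rcases hb with ⟨h3, h4⟩ | ⟨h3, h4⟩
      · have e1 := Nat.eq_of_beq_eq_true h3
        have e2 := Nat.eq_of_beq_eq_true h4
        rw [e1, e2] at h2
        exact h2 m y hy h0 hm
      · have e1 := Nat.eq_of_beq_eq_true h3
        have e2 := Nat.eq_of_beq_eq_true h4
        rw [e1, e2] at h2
        exact far_symm h2 m y hy h0 hm

/-- `gt` is a maximum of entries (in both orders, `far_symm`), and 0 is always a lower bound -/
theorem st_gt (h : St x C H ψ T l) (a b : ℕ) : far H (ψ a) (ψ b) (gt T a b) :=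
  SG_gt h.tab a b

omit [Fintype V] in
theorem SG_updE (h : ∀ e ∈ T, far H (ψ e.1) (ψ e.2.1) e.2.2) (a b : ℕ) :
    ∀ e ∈ updE T a b, far (addE H (ψ a) (ψ b)) (ψ e.1) (ψ e.2.1) e.2.2 := by
  intro e he
  unfold updE at he
  rw [List.mem_map] at he
  obtain ⟨e', he', rfl⟩ := he
  exact far_addE (h e' he') (SG_gt h e'.1 a) (SG_gt h b e'.2.1) (SG_gt h e'.1 b)
    (SG_gt h a e'.2.1) (min_le_left _ _) ((min_le_right _ _).trans (min_le_left _ _))
    ((min_le_right _ _).trans (min_le_right _ _))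

/-- new edge: `C7_addE`, `far_addE` with `st_gt` for all entries of `updE`, `Zr_op_edge` (`far_ne`,
`far_nadj`, `not_both`) -/
theorem st_edge (hx : Function.Injective x) (h3 : 3 ≤ m) (hm : m ≤ 11)
    (hC : ∀ v, v ∈ C ↔ v ∈ Set.range x) {a b : ℕ} (h : St x C H ψ T ((false, a, b) :: l))
    (hab : 7 ≤ gt T a b) : St x C (addE H (ψ a) (ψ b)) ψ (updE T a b) l := by
  have hf := st_gt h a b
  refine ⟨C7_addE h.c7 (far_mono hf hab), SG_updE h.tab a b, fun j => Or.inl (h.cyc j), ?_⟩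
  exact Zr_op_edge H C ψ a b l (far_ne hf (by omega)) (far_nadj hf (by omega))
    (not_both hx h3 hm hC h.cyc hf (by omega)) h.alg

/-- new triangle: `C7_tri`; the table by three times `far_addE`; the algebra by three times
`Zr_op_edge`: in `addE H (ψ a) (ψ b)` the vertices `ψ b`, `ψ d` are still not adjacent, and in
`addE (addE H ..) (ψ b) (ψ d)` the vertices `ψ a`, `ψ d` are not adjacent (they are different from
each other and from `ψ b`, and not adjacent in `H`: `far_ne`, `far_nadj`). -/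
theorem st_tri (hx : Function.Injective x) (h3 : 3 ≤ m) (hm : m ≤ 11)
    (hC : ∀ v, v ∈ C ↔ v ∈ Set.range x) {a b d : ℕ}
    (h : St x C H ψ T ((false, a, b) :: (false, b, d) :: (false, a, d) :: l))
    (hab : 7 ≤ gt T a b) (hbd : 7 ≤ gt T b d) (had : 7 ≤ gt T a d) :
    St x C (addE (addE (addE H (ψ a) (ψ b)) (ψ b) (ψ d)) (ψ a) (ψ d)) ψ
      (updE (updE (updE T a b) b d) a d) l := by
  have hf1 := st_gt h a b
  have hf2 := st_gt h b d
  have hf3 := st_gt h a d
  have hne1 := far_ne hf1 (by omega)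
  have hne2 := far_ne hf2 (by omega)
  have hne3 := far_ne hf3 (by omega)
  have hn1 := far_nadj hf1 (by omega)
  have hn2 := far_nadj hf2 (by omega)
  have hn3 := far_nadj hf3 (by omega)
  refine ⟨C7_tri h.c7 (far_mono hf1 hab) (far_mono hf2 hbd) (far_mono hf3 had),
    SG_updE (SG_updE (SG_updE h.tab a b) b d) a d, fun j => Or.inl (Or.inl (Or.inl (h.cyc j))), ?_⟩
  refine Zr_op_edge _ C ψ a d l hne3 ?_ (not_both hx h3 hm hC h.cyc hf3 (by omega)) ?_
  · rintro ((h' | ⟨-, ⟨-, h'⟩ | ⟨h', -⟩⟩) | ⟨-, ⟨h', -⟩ | ⟨h', -⟩⟩)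
    · exact hn3 h'
    · exact hne2 h'.symm
    · exact hne1 h'
    · exact hne1 h'
    · exact hne3 h'
  · refine Zr_op_edge _ C ψ b d _ hne2 ?_ (not_both hx h3 hm hC h.cyc hf2 (by omega)) ?_
    · rintro (h' | ⟨-, ⟨h', -⟩ | ⟨-, h'⟩⟩)
      · exact hn2 h'
      · exact hne1 h'.symm
      · exact hne3 h'.symm
    · exact Zr_op_edge H C ψ a b _ hne1 hn1 (not_both hx h3 hm hC h.cyc hf1 (by omega)) h.alg

omit [Fintype V] in
theorem SG_two {u v w : V} {n : ℕ} (h : far H u v n) (hn : 7 ≤ n) (h1 : H.Adj u w) :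
    ¬ H.Adj v w := fun h2 =>
  GB_two h1 h2.symm (far_ne h (by omega)) (far_mono h hn)

omit [Fintype V] in
theorem SG_updM (h : ∀ e ∈ T, far H (ψ e.1) (ψ e.2.1) e.2.2) {a b : ℕ} (hab : ψ a ≠ ψ b) :
    ∀ e ∈ updM T a b, far (ident H (ψ a) (ψ b)) (mv (ψ a) (ψ b) (ψ e.1))
      (mv (ψ a) (ψ b) (ψ e.2.1)) e.2.2 := by
  intro e he
  unfold updM at he
  rw [List.mem_map] at he
  obtain ⟨e', he', rfl⟩ := he
  exact far_ident hab (h e' he') (SG_gt h e'.1 a) (SG_gt h b e'.2.1) (SG_gt h e'.1 b)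
    (SG_gt h a e'.2.1) (min_le_left _ _) ((min_le_right _ _).trans (min_le_left _ _))
    ((min_le_right _ _).trans (min_le_right _ _))

omit [Fintype V] in
theorem SG_updM' (h : ∀ e ∈ T, far H (ψ e.1) (ψ e.2.1) e.2.2) {a b : ℕ} (hab : ψ b ≠ ψ a) :
    ∀ e ∈ updM T a b, far (ident H (ψ b) (ψ a)) (mv (ψ b) (ψ a) (ψ e.1))
      (mv (ψ b) (ψ a) (ψ e.2.1)) e.2.2 := by
  intro e he
  unfold updM at he
  rw [List.mem_map] at he
  obtain ⟨e', he', rfl⟩ := he
  exact far_ident hab (h e' he') (SG_gt h e'.1 b) (SG_gt h a e'.2.1) (SG_gt h e'.1 a)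
    (SG_gt h b e'.2.1) (min_le_left _ _) ((min_le_right _ _).trans (min_le_right _ _))
    ((min_le_right _ _).trans (min_le_left _ _))

/-- merge: not both of `ψ e.1`, `ψ e.2` are in `C` (`not_both`), so `mR C ψ e ∉ C`. `C7_ident`,
`far_ident` with `st_gt` for all entries of `updM`, `Zr_op_merge` (if `ψ e.2 ∈ C` use it for the list
`(true, e.2, e.1) :: l`: the multiplier is the same because `(a - b) ^ 2 = (b - a) ^ 2`; no common
neighbour: a path of length 2; `not_near`), the edges of the cycle survive because the removed vertex is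
not in `C`. -/
theorem st_merge (hx : Function.Injective x) (h3 : 3 ≤ m) (hm : m ≤ 11)
    (hC : ∀ v, v ∈ C ↔ v ∈ Set.range x) {e : ℕ × ℕ} (h : St x C H ψ T ((true, e.1, e.2) :: l))
    (he : 8 ≤ gt T e.1 e.2) :
    St x C (ident H (mK C ψ e) (mR C ψ e)) (fun i => mv (mK C ψ e) (mR C ψ e) (ψ i))
      (updM T e.1 e.2) l := by
  have hf := st_gt h e.1 e.2
  have hne := far_ne hf (by omega)
  have hcyc := h.cyc
  have hcy : ∀ {p q : V}, q ∉ C → ∀ j, (ident H p q).Adj (x j) (x (j + 1)) := by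
    intro p q hq j
    refine ⟨(h.cyc j).ne, fun h' => hq ?_, fun h' => hq ?_, Or.inl (h.cyc j)⟩
    · rw [hC]
      exact ⟨j, h'⟩
    · rw [hC]
      exact ⟨j + 1, h'⟩
  by_cases h2 : ψ e.2 ∈ C
  · have hK : mK C ψ e = ψ e.2 := if_pos h2
    have hR : mR C ψ e = ψ e.1 := if_pos h2
    have h1 : ψ e.1 ∉ C := (not_both hx h3 hm hC hcyc hf (by omega)).resolve_right (not_not.2 h2)
    have hf' := far_symm hf
    rw [hK, hR]
    refine ⟨C7_ident h.c7 (far_mono hf' he), SG_updM' h.tab hne.symm, hcy h1, ?_⟩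
    refine Zr_op_merge H C ψ e.2 e.1 l hne.symm (far_nadj hf' (by omega))
      (fun u hu => SG_two hf' (by omega) hu) h1
      (fun _ => not_near hx h3 hm hC hcyc hf' (by omega) h2 h1) ?_
    have halg := h.alg
    rw [mops] at halg ⊢
    rw [cond_true] at halg ⊢
    rw [← neg_sub, neg_sq] at halg
    exact halg
  · have hK : mK C ψ e = ψ e.1 := if_neg h2
    have hR : mR C ψ e = ψ e.2 := if_neg h2
    rw [hK, hR]
    refine ⟨C7_ident h.c7 (far_mono hf he), SG_updM h.tab hne, hcy h2, ?_⟩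
    exact Zr_op_merge H C ψ e.1 e.2 l hne (far_nadj hf (by omega))
      (fun u hu => SG_two hf (by omega) hu) h2
      (fun h1 => not_near hx h3 hm hC hcyc hf (by omega) h1 h2) h.alg

/-- induction on the list of triangles -/
theorem tri_run (hx : Function.Injective x) (h3 : 3 ≤ m) (hm : m ≤ 11)
    (hC : ∀ v, v ∈ C ↔ v ∈ Set.range x) (ts : List (ℕ × ℕ × ℕ)) :
    ∀ (H : SimpleGraph V) (T T' : List (ℕ × ℕ × ℕ)), triRun ts T = some T' →
      St x C H ψ T (((ts.flatMap fun e => [(e.1, e.2.1), (e.2.1, e.2.2), (e.1, e.2.2)]).map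
        fun e => (false, e.1, e.2)) ++ l) →
      St x C (addL ψ (ts.flatMap fun e => [(e.1, e.2.1), (e.2.1, e.2.2), (e.1, e.2.2)]) H) ψ T' l := by
  induction ts with
  | nil =>
    intro H T T' hr h
    rw [triRun] at hr
    obtain rfl := Option.some.inj hr
    exact h
  | cons e ts ih =>
    intro H T T' hr h
    rw [triRun] at hr
    cases hb : Nat.ble 7 (gt T e.1 e.2.1) && Nat.ble 7 (gt T e.2.1 e.2.2) &&
        Nat.ble 7 (gt T e.1 e.2.2) with
    | false =>
      rw [hb, cond_false] at hr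
      exact absurd hr (by simp)
    | true =>
      rw [hb, cond_true] at hr
      rw [Bool.and_eq_true, Bool.and_eq_true] at hb
      obtain ⟨⟨b1, b2⟩, b3⟩ := hb
      exact ih _ _ T' hr (st_tri hx h3 hm hC h (Nat.le_of_ble_eq_true b1)
        (Nat.le_of_ble_eq_true b2) (Nat.le_of_ble_eq_true b3))

/-- induction on the list of new edges -/
theorem new_run (hx : Function.Injective x) (h3 : 3 ≤ m) (hm : m ≤ 11)
    (hC : ∀ v, v ∈ C ↔ v ∈ Set.range x) (ts : List (ℕ × ℕ)) :
    ∀ (H : SimpleGraph V) (T T' : List (ℕ × ℕ × ℕ)), newRun ts T = some T' →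
      St x C H ψ T ((ts.map fun e => (false, e.1, e.2)) ++ l) →
      St x C (addL ψ ts H) ψ T' l := by
  induction ts with
  | nil =>
    intro H T T' hr h
    rw [newRun] at hr
    obtain rfl := Option.some.inj hr
    exact h
  | cons e ts ih =>
    intro H T T' hr h
    rw [newRun] at hr
    cases hb : Nat.ble 7 (gt T e.1 e.2) with
    | false =>
      rw [hb, cond_false] at hr
      exact absurd hr (by simp)
    | true =>
      rw [hb, cond_true] at hr
      exact ih _ _ T' hr (st_edge hx h3 hm hC h (Nat.le_of_ble_eq_true hb))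

/-- induction on the list of merges -/
theorem mrg_run (c : Conf) (hx : Function.Injective x) (h3 : 3 ≤ m) (hm : m ≤ 11)
    (hC : ∀ v, v ∈ C ↔ v ∈ Set.range x) (ts : List (ℕ × ℕ)) :
    ∀ (H : SimpleGraph V) (ψ : ℕ → V) (T : List (ℕ × ℕ × ℕ)), mrgRun c ts T = true →
      St x C H ψ T (ts.map fun e => (true, e.1, e.2)) →
      ∃ ψ' T', St x C (mrun C ts ψ H) ψ' T' [] := by
  induction ts with
  | nil =>
    intro H ψ T _ h
    exact ⟨ψ, T, h⟩
  | cons e ts ih =>
    intro H ψ T hr h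
    rw [mrgRun, Bool.and_eq_true, Bool.and_eq_true] at hr
    obtain ⟨⟨_, b1⟩, b2⟩ := hr
    exact ih _ _ _ b2 (st_merge hx h3 hm hC (e := e) h (Nat.le_of_ble_eq_true b1))

omit [Fintype V] in
theorem SG_addL (ψ : ℕ → V) (l1 l2 : List (ℕ × ℕ)) (H : SimpleGraph V) :
    addL ψ (l1 ++ l2) H = addL ψ l2 (addL ψ l1 H) := by
  induction l1 generalizing H with
  | nil => rfl
  | cons e l1 ih => exact ih _

/-- `addL` of an appended list, `tri_run`, `new_run`, `mrg_run` -/
theorem ops_sound (hx : Function.Injective x) (h3 : 3 ≤ m) (hm : m ≤ 11)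
    (hC : ∀ v, v ∈ C ↔ v ∈ Set.range x) {c : Conf} {t : Ct} (ho : opsOk c t = true)
    (h : St x C H ψ (tab0 c t) (opl (nwL t) t.mgs)) :
    C7 (mrun C t.mgs ψ (addL ψ (nwL t) H)) ∧
      (∀ j, (mrun C t.mgs ψ (addL ψ (nwL t) H)).Adj (x j) (x (j + 1))) ∧
      Zr 1 (mrun C t.mgs ψ (addL ψ (nwL t) H)) C := by
  unfold opsOk at ho
  cases h1 : triRun t.tris (tab0 c t) with
  | none =>
    rw [h1] at ho
    exact absurd ho (by simp)
  | some T1 =>
    rw [h1] at ho
    simp only at ho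
    cases h2 : newRun t.news T1 with
    | none =>
      rw [h2] at ho
      exact absurd ho (by simp)
    | some T2 =>
      rw [h2] at ho
      simp only at ho
      have e1 : opl (nwL t) t.mgs =
          ((t.tris.flatMap fun e => [(e.1, e.2.1), (e.2.1, e.2.2), (e.1, e.2.2)]).map
            fun e => (false, e.1, e.2)) ++ ((t.news.map fun e => (false, e.1, e.2)) ++
              t.mgs.map fun e => (true, e.1, e.2)) := by
        unfold opl nwL
        rw [List.map_append, List.append_assoc]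
      rw [e1] at h
      have s1 := tri_run hx h3 hm hC t.tris H _ T1 h1 h
      have s2 := new_run hx h3 hm hC t.news _ _ T2 h2 s1
      obtain ⟨ψ', T', s3⟩ := mrg_run c hx h3 hm hC t.mgs _ _ _ ho s2
      have e2 : addL ψ (nwL t) H = addL ψ t.news
          (addL ψ (t.tris.flatMap fun e => [(e.1, e.2.1), (e.2.1, e.2.2), (e.1, e.2.2)]) H) := by
        unfold nwL
        exact SG_addL _ _ _ _
      rw [e2]
      exact ⟨s3.c7, s3.cyc, s3.alg⟩

end Pool.Agent.W_fb73a4_h51
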