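import Pool.Agent.W_fb73a4_h51.SB
import Pool.Agent.W_fb73a4_h51.GD
import Pool.Agent.W_fb73a4_t7.Minor

/-!
MP_fb73a4_co [T7] SH: the new graph is a minor, and it has fewer edges.
-/

set_option autoImplicit false

namespace Pool.Agent.W_fb73a4_h51

open Finset
open scoped Classical
open Pool.Agent.W_fb73a4_h20
open Pool.Agent.W_fb73a4_t7 (Conf Occ OM Env len maclane_minor)

variable {V : Type} [Fintype V] {G : SimpleGraph V} {ι : Type} [Fintype ι] {F : ι → EV V}
  {C : Finset V} {M : OM G F} {φ : ℕ → V} {c : Conf}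

/-- `maclane_minor` of helper92 (`W_fb73a4_t7.Minor`) -/
theorem mi_maclane {H : SimpleGraph V} {f : V → Option V} (hG : MacLane G) (h : Mi G H f) :
    MacLane H :=
  Pool.Agent.W_fb73a4_t7.maclane_minor hG f h.conn h.edge

private theorem SH_rtg {α : Type} {R R' : α → α → Prop} (h : ∀ a b, R a b → R' a b) {a b : α}
    (hab : Relation.ReflTransGen R a b) : Relation.ReflTransGen R' a b := by
  induction hab with
  | refl => exact Relation.ReflTransGen.refl
  | tail _ h2 ih => exact ih.tail (h _ _ h2)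

private theorem SH_symm {α : Type} {R : α → α → Prop} (h : ∀ a b, R a b → R b a) {a b : α}
    (hab : Relation.ReflTransGen R a b) : Relation.ReflTransGen R b a := by
  induction hab with
  | refl => exact Relation.ReflTransGen.refl
  | tail _ h2 ih => exact Relation.ReflTransGen.head (h _ _ h2) ih

/-- The fibres of `P` and `Q` are joined by an edge of `G`: after the identification of `Q` into `P`
the fibres are those of `mv P Q` composed with `f` (`Option.map`). Connected: the fibre of `P` is now
the union of the two old ones, joined by `u v`; other fibres are the same. Edges of `ident H P Q` come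
from edges of `H` (its definition), so from edges of `G`. -/
theorem mi_ident {H : SimpleGraph V} {f : V → Option V} (h : Mi G H f) {P Q u v : V}
    (hu : f u = some P) (hv : f v = some Q) (huv : G.Adj u v) :
    Mi G (ident H P Q) (fun w => (f w).map (mv P Q)) := by
  have key : ∀ a b, mv P Q b = a → ∀ x y, f x = some b → f y = some b →
      Relation.ReflTransGen (fun p q => G.Adj p q ∧ (f p).map (mv P Q) = some a ∧
        (f q).map (mv P Q) = some a) x y := by
    intro a b hb x y hx hy
    refine SH_rtg ?_ (h.conn x y b hx hy)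
    rintro p q ⟨h1, h2, h3⟩
    refine ⟨h1, ?_, ?_⟩
    · rw [h2, Option.map_some, hb]
    · rw [h3, Option.map_some, hb]
  have hP : mv P Q P = P := by
    unfold mv
    split_ifs with h1 <;> rfl
  have hQ : mv P Q Q = P := by
    unfold mv
    rw [if_pos rfl]
  have hne : ∀ b, b ≠ Q → mv P Q b = b := by
    intro b hb
    unfold mv
    rw [if_neg hb]
  have step : (G.Adj u v ∧ (f u).map (mv P Q) = some P ∧ (f v).map (mv P Q) = some P) := by
    refine ⟨huv, ?_, ?_⟩
    · rw [hu, Option.map_some, hP]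
    · rw [hv, Option.map_some, hQ]
  refine ⟨?_, ?_⟩
  · intro x y a hx hy
    obtain ⟨b1, hb1, hb1'⟩ := Option.map_eq_some_iff.1 hx
    obtain ⟨b2, hb2, hb2'⟩ := Option.map_eq_some_iff.1 hy
    by_cases h12 : b1 = b2
    · subst h12
      exact key a b1 hb1' x y hb1 hb2
    · by_cases h1 : b1 = Q
      · subst h1
        have ha : a = P := hb1'.symm.trans hQ
        have h2 : b2 = P := by
          rw [← hne b2 (fun h3 => h12 h3.symm), hb2', ha]
        subst h2
        subst ha
        refine (key a b1 hQ x v hb1 hv).trans ?_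
        refine Relation.ReflTransGen.head ⟨huv.symm, step.2.2, step.2.1⟩ ?_
        exact key a a hP u y hu hb2
      · have ha : b1 = a := (hne b1 h1).symm.trans hb1'
        have h2 : b2 = Q := by
          by_contra h3
          exact h12 (ha.trans (hb2'.symm.trans (hne b2 h3)))
        subst h2
        have h4 : b1 = P := ha.trans (hb2'.symm.trans hQ)
        subst h4
        subst ha
        refine (key b1 b1 hP x u hb1 hu).trans ?_
        refine Relation.ReflTransGen.head step ?_
        exact key b1 b2 hQ v y hv hb2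
  · rintro a b ⟨hab, ha, hb, h1 | ⟨h1, h2⟩ | ⟨h1, h2⟩⟩
    · obtain ⟨x, y, hx, hy, hxy⟩ := h.edge a b h1
      refine ⟨x, y, ?_, ?_, hxy⟩
      · show (f x).map (mv P Q) = some a
        rw [hx, Option.map_some, hne a ha]
      · show (f y).map (mv P Q) = some b
        rw [hy, Option.map_some, hne b hb]
    · obtain ⟨x, y, hx, hy, hxy⟩ := h.edge Q b h2
      refine ⟨x, y, ?_, ?_, hxy⟩
      · show (f x).map (mv P Q) = some a
        rw [hx, Option.map_some, hQ, h1]
      · show (f y).map (mv P Q) = some b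
        rw [hy, Option.map_some, hne b hb]
    · obtain ⟨x, y, hx, hy, hxy⟩ := h.edge a Q h2
      refine ⟨x, y, ?_, ?_, hxy⟩
      · show (f x).map (mv P Q) = some a
        rw [hx, Option.map_some, hne a ha]
      · show (f y).map (mv P Q) = some b
        rw [hy, Option.map_some, hQ, h1]

/-- the initial fibres: `φ i` for `i < nD` goes to `φ t` if `img i = some t` and to `none` if
`img i = none`; all other vertices are fixed -/
noncomputable def f0 (φ : ℕ → V) (c : Conf) (br : List (ℕ × ℕ × ℕ)) (w : V) : Option V :=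
  if h : ∃ i < c.nD, φ i = w then (img c br h.choose).map φ else some w

private theorem SH_ble {a b : ℕ} (h : a < b) : Nat.ble b a = false := by
  rw [Bool.eq_false_iff, Ne, Nat.ble_eq]
  omega

private theorem SH_img_out {br : List (ℕ × ℕ × ℕ)} {i : ℕ} (hi : c.nD ≤ i) :
    img c br i = some i := by
  have h1 : Nat.ble c.nD i = true := by rw [Nat.ble_eq]; exact hi
  cases br <;> simp [img, h1]

private theorem SH_img_nil {i : ℕ} (hi : i < c.nD) : img c [] i = none := by
  simp [img, SH_ble hi]

private theorem SH_img_cons {e : ℕ × ℕ × ℕ} {l : List (ℕ × ℕ × ℕ)} {i : ℕ} (hi : i < c.nD) :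
    img c (e :: l) i = if e.1 = i then some e.2.1 else img c l i := by
  rw [img, SH_ble hi, cond_false]
  by_cases h1 : e.1 = i
  · rw [if_pos h1, h1, Nat.beq_refl, cond_true]
  · rw [if_neg h1, Bool.eq_false_iff.2 (fun h => h1 (Nat.eq_of_beq_eq_true h)), cond_false]

private theorem SH_img_mem {i s : ℕ} (hi : i < c.nD) : ∀ l : List (ℕ × ℕ × ℕ),
    img c l i = some s → ∃ e ∈ l, e.1 = i ∧ e.2.1 = s := by
  intro l
  induction l with
  | nil => intro h; rw [SH_img_nil hi] at h; cases h
  | cons e l ih =>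
    intro h
    rw [SH_img_cons hi] at h
    split_ifs at h with h1
    · exact ⟨e, List.mem_cons_self, h1, Option.some_injective _ h⟩
    · obtain ⟨e', h2, h3⟩ := ih h
      exact ⟨e', List.mem_cons_of_mem _ h2, h3⟩

private theorem SH_blt {a b : ℕ} : Nat.blt a b = true ↔ a < b := by
  unfold Nat.blt
  rw [Nat.ble_eq]
  exact Nat.succ_le_iff

/-- the meaning of one step of `brOk` -/
private theorem SH_brOk_cons {e : ℕ × ℕ × ℕ} {l old : List (ℕ × ℕ × ℕ)}
    (h : brOk c (e :: l) old = true) :
    e.1 < c.nD ∧ (∀ o ∈ old, o.1 ≠ e.1) ∧ (e.1 = e.2.1 ∨ (mem e.2.2 (nbl c e.1) = true ∧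
      (e.2.2 = e.2.1 ∨ ∃ o ∈ old, o.1 = e.2.2 ∧ o.2.1 = e.2.1))) ∧ brOk c l (e :: old) = true := by
  rw [brOk, Bool.and_eq_true, Bool.and_eq_true, Bool.and_eq_true] at h
  obtain ⟨⟨⟨h1, h2⟩, h3⟩, h4⟩ := h
  refine ⟨SH_blt.1 h1, ?_, ?_, h4⟩
  · intro o ho h5
    rw [Bool.not_eq_true', List.any_eq_false] at h2
    exact h2 o ho (by rw [h5]; exact Nat.beq_refl _)
  · rw [Bool.or_eq_true, Bool.and_eq_true, Bool.or_eq_true, List.any_eq_true] at h3
    rcases h3 with h3 | ⟨h3, h5 | ⟨o, ho, h5⟩⟩
    · exact Or.inl (Nat.eq_of_beq_eq_true h3)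
    · exact Or.inr ⟨h3, Or.inl (Nat.eq_of_beq_eq_true h5)⟩
    · rw [Bool.and_eq_true] at h5
      exact Or.inr ⟨h3, Or.inr ⟨o, ho, Nat.eq_of_beq_eq_true h5.1, Nat.eq_of_beq_eq_true h5.2⟩⟩

private theorem SH_br_img : ∀ (l old : List (ℕ × ℕ × ℕ)), brOk c l old = true →
    ∀ e ∈ l, e.1 < c.nD ∧ (∀ o ∈ old, o.1 ≠ e.1) ∧ img c l e.1 = some e.2.1 := by
  intro l
  induction l with
  | nil => intro old _ e he; cases he
  | cons e l ih =>
    intro old h e' he'
    obtain ⟨h1, h2, -, h4⟩ := SH_brOk_cons h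
    rcases List.mem_cons.1 he' with he' | he'
    · subst he'
      refine ⟨h1, h2, ?_⟩
      rw [SH_img_cons h1, if_pos rfl]
    · obtain ⟨h5, h6, h7⟩ := ih _ h4 e' he'
      refine ⟨h5, fun o ho => h6 o (List.mem_cons_of_mem _ ho), ?_⟩
      rw [SH_img_cons h5, if_neg (h6 e List.mem_cons_self), h7]

private theorem SH_realE {nV : ℕ} (hw : WF c nV) (h : Occ M C φ c) {br : List (ℕ × ℕ × ℕ)}
    {p q : ℕ} (hr : realE c br p q = true) : ∃ i j, i < nV ∧ j < nV ∧ img c br i = some p ∧
      img c br j = some q ∧ G.Adj (φ i) (φ j) := by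
  unfold realE at hr
  rw [List.any_eq_true] at hr
  obtain ⟨i, hi, hr⟩ := hr
  rw [List.any_eq_true] at hr
  obtain ⟨j, hj, hr⟩ := hr
  have hi' : i < c.nD := List.mem_range.1 hi
  have hj' : mem j (nbl c i) = true := (mem_iff j _).2 hj
  have hadj := o_adj hw h hj'
  have hjr : j ∈ c.rot.getD i [] := by
    have h1 : nbl c i = c.rot.getD i [] := by
      unfold nbl
      rw [SH_blt.2 hi']
      rfl
    rw [← h1]
    exact hj
  have hjn := (hw.lt i hi' j hjr).1
  have hin := lt_of_lt_of_le hi' hw.le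
  rw [Bool.or_eq_true, Bool.and_eq_true, Bool.and_eq_true, beq_iff_eq, beq_iff_eq, beq_iff_eq,
    beq_iff_eq] at hr
  rcases hr with ⟨h1, h2⟩ | ⟨h1, h2⟩
  · exact ⟨i, j, hin, hjn, h1, h2, hadj⟩
  · exact ⟨j, i, hjn, hin, h2, h1, hadj.symm⟩

private theorem SH_addL {a b : V} : ∀ (l : List (ℕ × ℕ)) (H : SimpleGraph V),
    (addL φ l H).Adj a b → H.Adj a b ∨ ∃ e ∈ l, (a = φ e.1 ∧ b = φ e.2) ∨
      (a = φ e.2 ∧ b = φ e.1) := by
  intro l
  induction l with
  | nil => intro H h; exact Or.inl h
  | cons e l ih =>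
    intro H h
    rcases ih _ h with h1 | ⟨e', he', h1⟩
    · rcases h1 with h1 | ⟨-, h1⟩
      · exact Or.inl h1
      · exact Or.inr ⟨e, List.mem_cons_self, h1⟩
    · exact Or.inr ⟨e', List.mem_cons_of_mem _ he', h1⟩

private theorem SH_f0_out {br : List (ℕ × ℕ × ℕ)} {w : V} (hw : w ∉ DS φ c) :
    f0 φ c br w = some w := by
  unfold f0
  rw [dif_neg]
  exact hw

private theorem SH_f0 {nV : ℕ} (hw : WF c nV) (hd : ∀ i < c.nD, ∀ j < nV, j ≠ i → φ j ≠ φ i)
    (br : List (ℕ × ℕ × ℕ)) {i : ℕ} (hi : i < nV) : f0 φ c br (φ i) = (img c br i).map φ := by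
  by_cases h1 : i < c.nD
  · have h2 : ∃ j < c.nD, φ j = φ i := ⟨i, h1, rfl⟩
    have h3 : h2.choose = i := by
      by_contra h4
      have h5 := h2.choose_spec
      exact hd i h1 _ (lt_of_lt_of_le h5.1 hw.le) h4 h5.2
    unfold f0
    rw [dif_pos h2, h3]
  · rw [SH_f0_out, SH_img_out (not_lt.1 h1), Option.map_some]
    rintro ⟨j, hj, hj2⟩
    exact hd j hj i hi (by omega) hj2.symm

/-- The fibres of `f0` are connected: by `brOk` every `φ i` with `img i = some t` is joined to `φ t`
inside its fibre (induction along the list `br`: the parent comes earlier and has the same image, or is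
`t` itself), and `φ t` is in the fibre: if `nD ≤ t` then `f0 (φ t) = some (φ t)` (`φ t` is not in `D` by
`hd`), if `t < nD` then `img t = some t` by `minOk`. (`hd` gives `φ i = φ j → i = j` for
`i < nD`, `j < nV`, so `h.choose = i`.) The adjacency comes from `mem parent (nbl i)`, `o_adj`. Edges: an
edge of `del G (DS φ c)` has both ends outside `D`; a new edge `φ p, φ q` is realised by `realE`: an
edge `φ i, φ j` of `G` with images `p` and `q` (one of them is `< nD`, `o_adj`). Every image `s` which
occurs in `br` is `< nV`: it is a parent (in a list `rot`), or `< nD`. -/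
theorem mi_start {t : Ct} (hw : WF c t.nV) (h : Occ M C φ c)
    (hd : ∀ i < c.nD, ∀ j < t.nV, j ≠ i → φ j ≠ φ i) (hm : minOk c t = true) :
    Mi G (addL φ (nwL t) (del G (DS φ c))) (f0 φ c t.br) ∧
      ∀ i s, i < t.nV → img c t.br i = some s → f0 φ c t.br (φ i) = some (φ s) := by
  unfold minOk at hm
  simp only [Bool.and_eq_true, List.all_eq_true] at hm
  obtain ⟨⟨⟨⟨hbr, him⟩, htr⟩, hnw⟩, hmg⟩ := hm
  have hf : ∀ i s, i < t.nV → img c t.br i = some s → f0 φ c t.br (φ i) = some (φ s) := by
    intro i s hi hs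
    rw [SH_f0 hw hd t.br hi, hs, Option.map_some]
  have hbi := SH_br_img t.br [] hbr
  have hfe : ∀ e ∈ t.br, f0 φ c t.br (φ e.1) = some (φ e.2.1) := fun e he =>
    hf _ _ (lt_of_lt_of_le (hbi e he).1 hw.le) (hbi e he).2.2
  -- connectedness of the fibres
  have hconn : ∀ (l old : List (ℕ × ℕ × ℕ)), brOk c l old = true → (∀ e ∈ l, e ∈ t.br) →
      (∀ o ∈ old, o ∈ t.br ∧ Relation.ReflTransGen (fun p q => G.Adj p q ∧
        f0 φ c t.br p = some (φ o.2.1) ∧ f0 φ c t.br q = some (φ o.2.1)) (φ o.1) (φ o.2.1)) →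
      ∀ e ∈ l, Relation.ReflTransGen (fun p q => G.Adj p q ∧
        f0 φ c t.br p = some (φ e.2.1) ∧ f0 φ c t.br q = some (φ e.2.1)) (φ e.1) (φ e.2.1) := by
    intro l
    induction l with
    | nil => intro old _ _ _ e he; cases he
    | cons e l ih =>
      intro old h1 h2 h3
      obtain ⟨h4, h5, h6, h7⟩ := SH_brOk_cons h1
      have he := h2 e List.mem_cons_self
      have hhead : Relation.ReflTransGen (fun p q => G.Adj p q ∧
          f0 φ c t.br p = some (φ e.2.1) ∧ f0 φ c t.br q = some (φ e.2.1)) (φ e.1) (φ e.2.1) := by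
        rcases h6 with h6 | ⟨h6, h8⟩
        · rw [← h6]
        · have hadj := o_adj hw h h6
          have hpn : e.2.2 < t.nV := by
            have h9 : e.2.2 ∈ c.rot.getD e.1 [] := by
              have h10 : nbl c e.1 = c.rot.getD e.1 [] := by
                unfold nbl
                rw [SH_blt.2 h4]
                rfl
              rw [← h10]
              exact (mem_iff _ _).1 h6
            exact (hw.lt e.1 h4 _ h9).1
          rcases h8 with h8 | ⟨o, ho, ho1, ho2⟩
          · refine Relation.ReflTransGen.single ⟨?_, hfe e he, ?_⟩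
            · rw [← h8]
              exact hadj
            · have h9 := him e he
              rw [Bool.or_eq_true, Nat.ble_eq, beq_iff_eq] at h9
              refine hf _ _ (h8 ▸ hpn) ?_
              rcases h9 with h9 | h9
              · exact SH_img_out h9
              · exact h9
          · obtain ⟨h9, h10⟩ := h3 o ho
            have h11 : f0 φ c t.br (φ e.2.2) = some (φ e.2.1) := by
              rw [← ho1, ← ho2]
              exact hfe o h9
            rw [ho1, ho2] at h10
            exact Relation.ReflTransGen.head ⟨hadj, hfe e he, h11⟩ h10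
      intro e' he'
      rcases List.mem_cons.1 he' with he' | he'
      · rw [he']
        exact hhead
      · refine ih (e :: old) h7 (fun x hx => h2 x (List.mem_cons_of_mem _ hx)) ?_ e' he'
        intro o ho
        rcases List.mem_cons.1 ho with ho | ho
        · rw [ho]
          exact ⟨he, hhead⟩
        · exact h3 o ho
  have hcen : ∀ u a, f0 φ c t.br u = some a → Relation.ReflTransGen (fun p q => G.Adj p q ∧
      f0 φ c t.br p = some a ∧ f0 φ c t.br q = some a) u a := by
    intro u a hu
    by_cases hD : u ∈ DS φ c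
    · obtain ⟨i, hi, rfl⟩ := hD
      have hin := lt_of_lt_of_le hi hw.le
      rw [SH_f0 hw hd t.br hin] at hu
      obtain ⟨s, hs, rfl⟩ := Option.map_eq_some_iff.1 hu
      obtain ⟨e, he, rfl, rfl⟩ := SH_img_mem hi t.br hs
      exact hconn t.br [] hbr (fun _ hx => hx) (fun o ho => by cases ho) e he
    · rw [SH_f0_out hD] at hu
      have h1 := Option.some_injective _ hu
      rw [h1]
  refine ⟨⟨?_, ?_⟩, hf⟩
  · intro u v a hu hv
    refine (hcen u a hu).trans (SH_symm ?_ (hcen v a hv))
    rintro p q ⟨h1, h2, h3⟩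
    exact ⟨h1.symm, h3, h2⟩
  · intro a b hab
    rcases SH_addL _ _ hab with h1 | ⟨e, he, h1⟩
    · exact ⟨a, b, SH_f0_out h1.2.1, SH_f0_out h1.2.2, h1.1⟩
    · have hr : realE c t.br e.1 e.2 = true := by
        unfold nwL at he
        rcases List.mem_append.1 he with he | he
        · rw [List.mem_flatMap] at he
          obtain ⟨x, hx, he⟩ := he
          have h2 := htr x hx
          simp only [List.mem_cons, List.not_mem_nil, or_false] at he
          rcases he with he | he | he
          · rw [he]; exact h2.1.1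
          · rw [he]; exact h2.1.2
          · rw [he]; exact h2.2
        · exact hnw e he
      obtain ⟨i, j, hi, hj, h2, h3, h4⟩ := SH_realE hw h hr
      rcases h1 with ⟨h5, h6⟩ | ⟨h5, h6⟩
      · rw [h5, h6]
        exact ⟨φ i, φ j, hf i _ hi h2, hf j _ hj h3, h4⟩
      · rw [h5, h6]
        exact ⟨φ j, φ i, hf j _ hj h3, hf i _ hi h2, h4.symm⟩

/-- Merges: induction on the list. The invariant is: `f (φ i) = some (ψ s)` whenever `i < nV` and
`img i = some s`. A merge `p, q` is realised by an edge `i, j` (`realE`) with images `p`, `q`: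
`f (φ i) = some (ψ p)`, `f (φ j) = some (ψ q)`, `G.Adj (φ i) (φ j)`; use `mi_ident` with
`P = mK C ψ e`, `Q = mR C ψ e` (these are `ψ p`, `ψ q` in one of the two orders). -/
theorem mi_run {nV : ℕ} (hw : WF c nV) (h : Occ M C φ c) (br : List (ℕ × ℕ × ℕ))
    (ts : List (ℕ × ℕ)) : ∀ (H : SimpleGraph V) (ψ : ℕ → V) (f : V → Option V), Mi G H f →
      (∀ i s, i < nV → img c br i = some s → f (φ i) = some (ψ s)) →
      (∀ e ∈ ts, realE c br e.1 e.2 = true) → ∃ f', Mi G (mrun C ts ψ H) f' := by
  induction ts with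
  | nil => intro H ψ f hf _ _; exact ⟨f, hf⟩
  | cons e ts ih =>
    intro H ψ f hf hi hr
    obtain ⟨i, j, hin, hjn, h1, h2, h3⟩ := SH_realE hw h (hr e List.mem_cons_self)
    have h4 := hi i _ hin h1
    have h5 := hi j _ hjn h2
    have h6 : Mi G (ident H (mK C ψ e) (mR C ψ e))
        (fun w => (f w).map (mv (mK C ψ e) (mR C ψ e))) := by
      unfold mK mR
      split_ifs with h7
      · exact mi_ident hf h5 h4 h3.symm
      · exact mi_ident hf h4 h5 h3
    refine ih _ _ _ h6 ?_ (fun e' he' => hr e' (List.mem_cons_of_mem _ he'))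
    intro k s hk hs
    show (f (φ k)).map _ = _
    rw [hi k s hk hs, Option.map_some]

/-- MacLane for the new graph -/
theorem mac_new (hG : MacLane G) {t : Ct} (hw : WF c t.nV) (h : Occ M C φ c)
    (hd : ∀ i < c.nD, ∀ j < t.nV, j ≠ i → φ j ≠ φ i) (hm : minOk c t = true) :
    MacLane (mrun C t.mgs φ (addL φ (nwL t) (del G (DS φ c)))) := by
  obtain ⟨h1, h2⟩ := mi_start hw h hd hm
  have h3 : ∀ e ∈ t.mgs, realE c t.br e.1 e.2 = true := by
    unfold minOk at hm
    simp only [Bool.and_eq_true, List.all_eq_true] at hm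
    exact hm.2
  obtain ⟨f', h4⟩ := mi_run (C := C) hw h t.br t.mgs _ φ _ h1 h2 h3
  exact mi_maclane hG h4

end Pool.Agent.W_fb73a4_h51
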