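import Pool.Agent.W_fb73a4_h51.SB
import Pool.Agent.W_fb73a4_h20.MX

/-!
MP_fb73a4_co [T7] SI: the edges at `D`, and the number of edges of the new graph.
-/

set_option autoImplicit false

namespace Pool.Agent.W_fb73a4_h51

open Finset
open scoped Classical
open Pool.Agent.W_fb73a4_h20
open Pool.Agent.W_fb73a4_t7 (Conf Occ OM Env len)

variable {V : Type} [Fintype V] {G : SimpleGraph V} {ι : Type} [Fintype ι] {F : ι → EV V}
  {C : Finset V} {M : OM G F} {φ : ℕ → V} {c : Conf} {nV : ℕ}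

theorem SI_mem_edL {e : ℕ × ℕ} : e ∈ edL c ↔
    e.1 < c.nD ∧ mem e.2 (nbl c e.1) = true ∧ (c.nD ≤ e.2 ∨ e.1 < e.2) := by
  obtain ⟨i, j⟩ := e
  unfold edL
  rw [List.mem_flatMap]
  constructor
  · rintro ⟨k, hk, hk'⟩
    rw [List.mem_range] at hk
    rw [List.mem_map] at hk'
    obtain ⟨b, hb, hb'⟩ := hk'
    rw [List.mem_filter] at hb
    obtain ⟨hb1, hb2⟩ := hb
    rw [Prod.mk.injEq] at hb'
    obtain ⟨rfl, rfl⟩ := hb'
    refine ⟨hk, (mem_iff _ _).2 hb1, ?_⟩
    rw [Bool.or_eq_true] at hb2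
    rcases hb2 with h | h
    · exact Or.inl (Nat.le_of_ble_eq_true h)
    · exact Or.inr (by simpa [Nat.blt] using h)
  · rintro ⟨h1, h2, h3⟩
    refine ⟨i, List.mem_range.2 h1, ?_⟩
    rw [List.mem_map]
    refine ⟨j, ?_, rfl⟩
    rw [List.mem_filter]
    refine ⟨(mem_iff _ _).1 h2, ?_⟩
    rw [Bool.or_eq_true]
    rcases h3 with h | h
    · exact Or.inl (Nat.ble_eq_true_of_le h)
    · exact Or.inr (by simpa [Nat.blt] using h)

theorem SI_nbl {i : ℕ} (hi : i < c.nD) : nbl c i = c.rot.getD i [] := by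
  unfold nbl
  have h : Nat.blt i c.nD = true := by simpa [Nat.blt] using hi
  rw [h]
  rfl

theorem SI_edL_nodup (hw : WF c nV) : (edL c).Nodup := by
  unfold edL
  rw [List.nodup_flatMap]
  constructor
  · intro i hi
    rw [List.mem_range] at hi
    refine List.Nodup.map (fun a b hab => ?_) (List.Nodup.filter _ ?_)
    · rw [Prod.mk.injEq] at hab
      exact hab.2
    · rw [SI_nbl hi]
      exact hw.nd i hi
  · refine List.Pairwise.imp ?_ (List.nodup_range (n := c.nD))
    intro a b hab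
    intro e he he'
    rw [List.mem_map] at he he'
    obtain ⟨x, -, rfl⟩ := he
    obtain ⟨y, -, hy⟩ := he'
    rw [Prod.mk.injEq] at hy
    exact hab hy.1.symm

theorem SI_lt (hw : WF c nV) {i j : ℕ} (h : mem j (nbl c i) = true) :
    i < c.nD ∧ j < nV ∧ (c.nD ≤ j ∨ mem i (nbl c j) = true) := by
  have hi := (mem_nbl h).1
  rw [SI_nbl hi] at h
  have h1 := hw.lt i hi j ((mem_iff _ _).1 h)
  refine ⟨hi, h1.1, ?_⟩
  by_cases hj : c.nD ≤ j
  · exact Or.inl hj
  · right
    rw [SI_nbl (not_le.1 hj)]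
    rcases h1.2 with h2 | h2
    · exact absurd h2 hj
    · exact (mem_iff _ _).2 h2

/-- `edL` lists every edge at a vertex of `D` exactly once: `(i, j)` with `i < nD`, `j ∈ nbl i`, and
`nD ≤ j` or `i < j`. If `s(φ i, φ j) = s(φ i', φ j')` then `φ i = φ i'` and `φ j = φ j'`, so
`i = i'` (`hd`, `i' < nV`), `j = j'` (`o_inj`), or `φ i = φ j'` and `φ j = φ i'`, so `i = j'`,
`j = i'` (`hd`), both are `< nD` and `i < j`, `i' < j'`: contradiction. -/
theorem edL_nodup (hw : WF c nV) (h : Occ M C φ c)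
    (hd : ∀ i < c.nD, ∀ j < nV, j ≠ i → φ j ≠ φ i) :
    ((edL c).map fun e => s(φ e.1, φ e.2)).Nodup := by
  refine List.Nodup.map_on ?_ (SI_edL_nodup hw)
  rintro ⟨i, j⟩ he ⟨i', j'⟩ he' hab
  obtain ⟨h1, h2, h3⟩ := SI_mem_edL.1 he
  obtain ⟨h1', h2', h3'⟩ := SI_mem_edL.1 he'
  simp only at h1 h2 h3 h1' h2' h3' hab
  have hj := (SI_lt hw h2).2.1
  have hj' := (SI_lt hw h2').2.1
  have hle := hw.le
  rw [Sym2.eq_iff] at hab
  rcases hab with ⟨ha, hb⟩ | ⟨ha, hb⟩
  · have hii : i' = i := by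
      by_contra hne
      exact hd i h1 i' (by omega) hne ha.symm
    subst hii
    have hjj : j = j' := o_inj hw h h2 h2' hb
    rw [hjj]
  · exfalso
    have e1 : j' = i := by
      by_contra hne
      exact hd i h1 j' hj' hne ha.symm
    have e2 : j = i' := by
      by_contra hne
      exact hd i' h1' j hj hne hb
    subst e1 e2
    omega

/-- `o_adj`, `o_nbr` and the reciprocity in `WF.lt` -/
theorem edL_mem (hw : WF c nV) (h : Occ M C φ c)
    (hd : ∀ i < c.nD, ∀ j < nV, j ≠ i → φ j ≠ φ i) (e : Sym2 V) :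
    e ∈ (edL c).map (fun e => s(φ e.1, φ e.2)) ↔ e ∈ G.edgeSet ∧ ∃ i < c.nD, φ i ∈ e := by
  rw [List.mem_map]
  constructor
  · rintro ⟨⟨i, j⟩, he, rfl⟩
    obtain ⟨h1, h2, h3⟩ := SI_mem_edL.1 he
    refine ⟨?_, i, h1, Sym2.mem_mk_left _ _⟩
    rw [SimpleGraph.mem_edgeSet]
    exact o_adj hw h h2
  · rintro ⟨he, i, hi, hie⟩
    obtain ⟨w, rfl⟩ := Sym2.mem_iff_exists.1 hie
    rw [SimpleGraph.mem_edgeSet] at he
    obtain ⟨a, ha, haw⟩ := o_nbr hw h hi he
    by_cases hc : c.nD ≤ a ∨ i < a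
    · exact ⟨(i, a), SI_mem_edL.2 ⟨hi, ha, hc⟩, by simp only [haw]⟩
    · rw [not_or, not_le, not_lt] at hc
      have hne : a ≠ i := by
        intro hai
        subst hai
        rw [haw] at he
        exact he.ne rfl
      have h2 := (SI_lt hw ha).2.2
      have h3 : mem i (nbl c a) = true := by
        rcases h2 with h2 | h2
        · omega
        · exact h2
      refine ⟨(a, i), SI_mem_edL.2 ⟨hc.1, h3, Or.inr (by omega)⟩, ?_⟩
      simp only [haw]
      exact Sym2.eq_swap

/-- number of edges after the deletion: `edL_nodup`, `edL_mem` -/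
theorem del_card (hw : WF c nV) (h : Occ M C φ c)
    (hd : ∀ i < c.nD, ∀ j < nV, j ≠ i → φ j ≠ φ i) :
    (del G (DS φ c)).edgeSet.ncard + (edL c).length ≤ G.edgeSet.ncard := by
  set L := (edL c).map (fun e => s(φ e.1, φ e.2)) with hL
  have h1 : (L.toFinset : Set (Sym2 V)).ncard = (edL c).length := by
    rw [Set.ncard_coe_finset, List.toFinset_card_of_nodup (edL_nodup hw h hd),
      List.length_map]
  rw [← h1]
  rw [← Set.ncard_union_eq ?_ (Set.toFinite _) (Set.toFinite _)]
  · refine Set.ncard_le_ncard ?_ (Set.toFinite _)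
    intro e he
    rcases he with he | he
    · induction e using Sym2.ind with
      | _ u v =>
        rw [SimpleGraph.mem_edgeSet] at he ⊢
        exact he.1
    · rw [Finset.mem_coe, List.mem_toFinset] at he
      exact ((edL_mem hw h hd e).1 he).1
  · rw [Set.disjoint_left]
    intro e he he'
    rw [Finset.mem_coe, List.mem_toFinset] at he'
    obtain ⟨-, i, hi, hie⟩ := (edL_mem hw h hd e).1 he'
    induction e using Sym2.ind with
    | _ u v =>
      rw [SimpleGraph.mem_edgeSet] at he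
      obtain ⟨-, hu, hv⟩ := he
      rw [Sym2.mem_iff] at hie
      rcases hie with hie | hie
      · exact hu ⟨i, hi, hie⟩
      · exact hv ⟨i, hi, hie⟩

/-- `addE` adds at most one edge -/
theorem addL_card (φ : ℕ → V) (l : List (ℕ × ℕ)) : ∀ H : SimpleGraph V,
    (addL φ l H).edgeSet.ncard ≤ H.edgeSet.ncard + l.length := by
  induction l with
  | nil => intro H; simp [addL]
  | cons e l ih =>
    intro H
    have h1 := ih (addE H (φ e.1) (φ e.2))
    have h2 : (addE H (φ e.1) (φ e.2)).edgeSet.ncard ≤ H.edgeSet.ncard + 1 := by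
      refine (Set.ncard_le_ncard (t := insert s(φ e.1, φ e.2) H.edgeSet) ?_
        (Set.toFinite _)).trans (Set.ncard_insert_le _ _)
      intro a ha
      induction a using Sym2.ind with
      | _ u v =>
        rw [SimpleGraph.mem_edgeSet] at ha
        rcases ha with ha | ⟨-, ⟨rfl, rfl⟩ | ⟨rfl, rfl⟩⟩
        · exact Or.inr ha
        · exact Or.inl rfl
        · exact Or.inl Sym2.eq_swap
    rw [List.length_cons]
    show (addL φ l (addE H (φ e.1) (φ e.2))).edgeSet.ncard ≤ _
    omega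

/-- `ident_card` (in MT) for every merge; if the two vertices are equal `ident H p p` is obtained from
`H` by deleting edges -/
theorem mrun_card (C : Finset V) (l : List (ℕ × ℕ)) : ∀ (ψ : ℕ → V) (H : SimpleGraph V),
    (mrun C l ψ H).edgeSet.ncard ≤ H.edgeSet.ncard := by
  induction l with
  | nil => intro ψ H; exact le_rfl
  | cons e l ih =>
    intro ψ H
    have h1 := ih (fun i => mv (mK C ψ e) (mR C ψ e) (ψ i)) (ident H (mK C ψ e) (mR C ψ e))
    have h2 : (ident H (mK C ψ e) (mR C ψ e)).edgeSet.ncard ≤ H.edgeSet.ncard := by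
      by_cases hpq : mK C ψ e = mR C ψ e
      · refine Set.ncard_le_ncard ?_ (Set.toFinite _)
        intro a ha
        induction a using Sym2.ind with
        | _ u v =>
          rw [SimpleGraph.mem_edgeSet] at ha ⊢
          obtain ⟨-, hu, hv, h3⟩ := ha
          rcases h3 with h3 | ⟨h3, -⟩ | ⟨h3, -⟩
          · exact h3
          · exact absurd (h3.trans hpq) hu
          · exact absurd (h3.trans hpq) hv
      · exact ident_card hpq
    exact h1.trans h2

end Pool.Agent.W_fb73a4_h51
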