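import Pool.Agent.W_fb73a4_h51.SD
import Pool.Agent.W_fb73a4_h51.SE
import Pool.Agent.W_fb73a4_h51.SG
import Pool.Agent.W_fb73a4_h51.SH
import Pool.Agent.W_fb73a4_h51.SI
import Pool.Agent.W_fb73a4_h57.TG

/-!
MP_fb73a4_co [T7] SJ: THE CLUSTER THEOREM: a checked configuration does not occur in a minimal
counterexample.
-/

set_option autoImplicit false

namespace Pool.Agent.W_fb73a4_h51

open Finset
open scoped Classical
open Pool.Agent.W_fb73a4_h20
open Pool.Agent.W_fb73a4_t7 (Conf Occ OM Env len)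
open Pool.Agent.W_fb73a4_h57 (P3 I3 kill Zr mops opl ACert acheck cluster_alg)

variable {V : Type} [Fintype V] {G : SimpleGraph V} {ι : Type} [Fintype ι] {F : ι → EV V} {i0 : ι}
  {m : ℕ} {x : ZMod m → V} {C : Finset V}

/-- the two versions of the class -/
theorem c7_iff {H : SimpleGraph V} :
    Pool.Agent.W_fb73a4_t7.C7 H ↔ MacLane H ∧ C7 H := by
  constructor
  · intro h
    refine ⟨h.pl, ⟨fun n x hx => ?_, h.no73⟩⟩
    rcases h.no n x hx with h1 | h1 <;> omega
  · rintro ⟨h1, h2⟩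
    refine ⟨h1, fun n x hx => ?_, h2.no73⟩
    have h3 := h2.no456 n x hx
    have h4 := hx.three
    omega

/-- the two versions of `NZ` -/
theorem nz_iff {H : SimpleGraph V} {C : Finset V} :
    Pool.Agent.W_fb73a4_t7.NZ H C ↔ Pool.Agent.W_fb73a4_h57.NZ H C :=
  Pool.Agent.W_fb73a4_h57.t7_NZ H C

/-- THE CLUSTER THEOREM. `WF_of`, `dst_all`, `tab0_sound`; `cluster_alg` with `edL_nodup`, `edL_mem`
gives the first state `St` (with `H = del G (DS φ c)`; the class is inherited by subgraphs; the edges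
of the outer cycle survive because `φ i ∉ C`); `ops_sound`, `mac_new`, the edge count
(`del_card`, `addL_card`, `mrun_card`, and `(nwL t).length < (edL c).length`): `Env.red` gives `NZ` for
the new graph, `ops_sound` gives `Zr 1`: contradiction (`Zr_one`). -/
theorem cluster (E : Env G ι F i0 m x C) (M : OM G F) {φ : ℕ → V} {c : Conf} (h : Occ M C φ c)
    (t : Ct) (a : ACert) (hok : clOk c t = true)
    (ha : acheck t.nV c.nD (edL c) [] t.mgs (nwL t) a = true) : False := by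
  unfold clOk at hok
  simp only [Bool.and_eq_true] at hok
  obtain ⟨⟨⟨⟨hwf, hdst⟩, hops⟩, hmin⟩, hlen⟩ := hok
  have hlen' : (nwL t).length < (edL c).length := by simpa using hlen
  have hw : WF c t.nV := WF_of hwf
  have hd : ∀ i < c.nD, ∀ j < t.nV, j ≠ i → φ j ≠ φ i := dst_all E hw h hdst
  have hdel : DS φ c = {v | ∃ i < c.nD, φ i = v} := rfl
  have hcls := c7_iff.1 E.cls
  have hcle : ∀ u v, (del G (DS φ c)).Adj u v → G.Adj u v := fun u v huv => huv.1
  have hC7 : C7 (del G (DS φ c)) := by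
    refine ⟨fun n z hz => hcls.2.no456 n z ⟨hz.three, hz.inj, fun j => hcle _ _ (hz.adj j)⟩,
      fun z hz j t' h1 h2 => hcls.2.no73 z ⟨hz.three, hz.inj, fun j => hcle _ _ (hz.adj j)⟩ j t'
        (hcle _ _ h1) (hcle _ _ h2)⟩
  have hxC : ∀ j, x j ∈ C := fun j => (E.hC _).2 ⟨j, rfl⟩
  have hxD : ∀ j, x j ∉ DS φ c := by
    rintro j ⟨i, hi, hij⟩
    exact h.out i hi (hij ▸ hxC j)
  have hst : St x C (del G (DS φ c)) φ (tab0 c t) (opl (nwL t) t.mgs) := by
    refine ⟨hC7, tab0_sound E h hw hd, fun j => ⟨E.hx.adj j, hxD j, hxD (j + 1)⟩, ?_⟩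
    rw [hdel]
    exact Pool.Agent.W_fb73a4_h57.t7_cluster_alg G C φ t.nV c.nD hw.le (edL c) t.mgs (nwL t) a ha
      h.out hd (edL_nodup hw h hd) (edL_mem hw h hd) E.zero
  obtain ⟨h1, h2, h3⟩ := ops_sound E.hx.inj E.hx.three E.hm E.hC hops hst
  have h4 := mac_new (C := C) hcls.1 hw h hd hmin
  have h5 := E.red _ (c7_iff.2 ⟨h4, h1⟩) h2 (by
    have h6 := del_card hw h hd
    have h7 := addL_card φ (nwL t) (del G (DS φ c))
    have h8 := mrun_card C t.mgs φ (addL φ (nwL t) (del G (DS φ c)))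
    omega)
  exact (Pool.Agent.W_fb73a4_h57.t7_Zr_one _ _).1 h3 h5

end Pool.Agent.W_fb73a4_h51
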